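import Mathlib

namespace Pool.Agent.Lib.MP_a05d5a_an

open Finset Real

/-- divided difference weights -/
noncomputable def dw (X : ℕ → ℝ) (k i : ℕ) : ℝ := (∏ j ∈ (range (k + 1)).erase i, (X i - X j))⁻¹

/-- divided difference of `x ↦ exp (x w)` (real version) -/
noncomputable def gr (X : ℕ → ℝ) (k : ℕ) (t : ℝ) : ℝ :=
  ∑ i ∈ range (k + 1), dw X k i * exp (X i * t)

/-- divided difference of `x ↦ exp (x w)` (complex version) -/
noncomputable def gc (X : ℕ → ℝ) (k : ℕ) (w : ℂ) : ℂ :=
  ∑ i ∈ range (k + 1), (dw X k i : ℂ) * Complex.exp (X i * w)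

theorem gc_ofReal (X : ℕ → ℝ) (k : ℕ) (t : ℝ) : gc X k (t : ℂ) = (gr X k t : ℂ) := by
  simp [gc, gr]

theorem gr_zero_index (X : ℕ → ℝ) (h0 : X 0 = 0) (t : ℝ) : gr X 0 t = 1 := by
  simp [gr, dw, h0]

theorem gc_zero_index (X : ℕ → ℝ) (h0 : X 0 = 0) (w : ℂ) : gc X 0 w = 1 := by
  simp [gc, dw, h0]

/-- hypotheses on the nodes up to index `n` -/
structure Nodes (X : ℕ → ℝ) (n : ℕ) : Prop where
  zero : X 0 = 0
  lt : ∀ i j, i < j → j ≤ n → X i < X j

theorem Nodes.le {X : ℕ → ℝ} {n : ℕ} (h : Nodes X n) {i j : ℕ} (hij : i ≤ j) (hj : j ≤ n) :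
    X i ≤ X j := by
  rcases hij.eq_or_lt with rfl | h'
  · exact le_rfl
  · exact (h.lt i j h' hj).le

theorem Nodes.nonneg {X : ℕ → ℝ} {n : ℕ} (h : Nodes X n) {i : ℕ} (hi : i ≤ n) : 0 ≤ X i := by
  rw [← h.zero]
  exact h.le (Nat.zero_le i) hi

theorem Nodes.ne {X : ℕ → ℝ} {n : ℕ} (h : Nodes X n) {i j : ℕ} (hij : i ≠ j) (hi : i ≤ n)
    (hj : j ≤ n) : X i - X j ≠ 0 := by
  rcases lt_or_gt_of_ne hij with h' | h'
  · have := h.lt i j h' hj
    exact ne_of_lt (by linarith)
  · have := h.lt j i h' hi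
    exact ne_of_gt (by linarith)

theorem dw_succ {X : ℕ → ℝ} {n : ℕ} (h : Nodes X n) {k i : ℕ} (hk : k + 1 ≤ n) (hi : i ≤ k) :
    dw X (k + 1) i * (X i - X (k + 1)) = dw X k i := by
  have h1 : (range (k + 1 + 1)).erase i = insert (k + 1) ((range (k + 1)).erase i) := by
    ext j
    simp only [mem_erase, mem_range, mem_insert]
    omega
  have h2 : (k + 1) ∉ (range (k + 1)).erase i := by simp
  unfold dw
  rw [h1, prod_insert h2, mul_inv]
  have h3 : X i - X (k + 1) ≠ 0 := h.ne (by omega) (by omega) hk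
  field_simp

theorem sum_dw {X : ℕ → ℝ} {n : ℕ} (h : Nodes X n) {k : ℕ} (hk : k + 1 ≤ n) :
    ∑ i ∈ range (k + 2), dw X (k + 1) i = 0 := by
  have hinj : Set.InjOn X (range (k + 2) : Finset ℕ) := by
    intro i hi j hj hij
    by_contra hne
    have hi' := mem_range.mp (mem_coe.mp hi)
    have hj' := mem_range.mp (mem_coe.mp hj)
    exact h.ne hne (by omega) (by omega) (by linarith)
  have := Lagrange.coeff_eq_sum (s := range (k + 2)) (v := X) hinj (P := (1 : Polynomial ℝ)) (by
    rw [card_range, Polynomial.degree_one]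
    norm_cast
    omega)
  rw [card_range] at this
  have h2 : (1 : Polynomial ℝ).coeff (k + 2 - 1) = 0 := by
    rw [Polynomial.coeff_one]
    simp
  rw [h2] at this
  rw [this]
  apply sum_congr rfl
  intro i _
  simp [dw]

theorem gc_hasDerivAt {X : ℕ → ℝ} {n : ℕ} (h : Nodes X n) {k : ℕ} (hk : k + 1 ≤ n) (w : ℂ) :
    HasDerivAt (gc X (k + 1)) (X (k + 1) * gc X (k + 1) w + gc X k w) w := by
  have h1 : HasDerivAt (gc X (k + 1))
      (∑ i ∈ range (k + 1 + 1), (dw X (k + 1) i : ℂ) * (Complex.exp (X i * w) * X i)) w := by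
    unfold gc
    apply HasDerivAt.fun_sum
    intro i _
    apply HasDerivAt.const_mul
    have := ((hasDerivAt_id w).const_mul (X i : ℂ)).cexp
    simpa using this
  convert h1 using 1
  unfold gc
  rw [sum_range_succ _ (k + 1), sum_range_succ _ (k + 1), mul_add, add_assoc, add_comm, ← sub_eq_zero]
  have : ∑ i ∈ range (k + 1), (dw X k i : ℂ) * Complex.exp (X i * w)
      = ∑ i ∈ range (k + 1), ((dw X (k + 1) i : ℂ) * (X i - X (k + 1))) * Complex.exp (X i * w) := by
    apply sum_congr rfl
    intro i hi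
    rw [← dw_succ h hk (by have := mem_range.mp hi; omega)]
    push_cast
    ring
  rw [this, mul_sum]
  have e1 : ∑ i ∈ range (k + 1), (dw X (k + 1) i : ℂ) * (Complex.exp (X i * w) * X i)
    = ∑ i ∈ range (k + 1), ((dw X (k + 1) i : ℂ) * (X i - X (k + 1))) * Complex.exp (X i * w)
     + ∑ i ∈ range (k + 1), (X (k + 1) : ℂ) * ((dw X (k + 1) i : ℂ) * Complex.exp (X i * w)) := by
    rw [← sum_add_distrib]
    apply sum_congr rfl
    intro i _
    ring
  rw [e1]
  ring

theorem gc_zero {X : ℕ → ℝ} {n : ℕ} (h : Nodes X n) {k : ℕ} (hk : k + 1 ≤ n) :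
    gc X (k + 1) 0 = 0 := by
  unfold gc
  have := sum_dw h hk
  simp only [mul_zero, Complex.exp_zero, mul_one]
  rw [← Complex.ofReal_sum, this, Complex.ofReal_zero]

theorem gc_continuous (X : ℕ → ℝ) (k : ℕ) : Continuous (gc X k) := by
  unfold gc
  fun_prop

theorem gr_continuous (X : ℕ → ℝ) (k : ℕ) : Continuous (gr X k) := by
  unfold gr
  fun_prop

theorem gc_integral {X : ℕ → ℝ} {n : ℕ} (h : Nodes X n) {k : ℕ} (hk : k + 1 ≤ n) (w : ℂ) :
    gc X (k + 1) w = ∫ u in (0 : ℝ)..1, w * (Complex.exp (X (k + 1) * w * (1 - u)) * gc X k (u * w)) := by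
  have hd : ∀ u ∈ Set.uIcc (0 : ℝ) 1, HasDerivAt
      (fun u : ℝ => Complex.exp (X (k + 1) * w * (1 - u)) * gc X (k + 1) (u * w))
      (w * (Complex.exp (X (k + 1) * w * (1 - u)) * gc X k (u * w))) u := by
    intro u _
    have h1 : HasDerivAt (fun z : ℂ => Complex.exp (X (k + 1) * w * (1 - z)) * gc X (k + 1) (z * w))
        (w * (Complex.exp (X (k + 1) * w * (1 - (u : ℂ))) * gc X k (u * w))) (u : ℂ) := by
      have a1 : HasDerivAt (fun z : ℂ => Complex.exp (X (k + 1) * w * (1 - z)))
          (Complex.exp (X (k + 1) * w * (1 - (u : ℂ))) * (X (k + 1) * w * (-1))) (u : ℂ) := by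
        apply HasDerivAt.cexp
        apply HasDerivAt.const_mul
        have := (hasDerivAt_id (u : ℂ)).const_sub 1
        simpa using this
      have a2 : HasDerivAt (fun z : ℂ => gc X (k + 1) (z * w))
          ((X (k + 1) * gc X (k + 1) (u * w) + gc X k (u * w)) * w) (u : ℂ) := by
        have b := gc_hasDerivAt h hk ((u : ℂ) * w)
        have c : HasDerivAt (fun z : ℂ => z * w) w (u : ℂ) := by
          have := (hasDerivAt_id (u : ℂ)).mul_const w
          simpa using this
        exact b.comp (u : ℂ) c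
      exact (a1.fun_mul a2).congr_deriv (by ring)
    exact h1.comp_ofReal
  have hint : IntervalIntegrable (fun u : ℝ => w * (Complex.exp (X (k + 1) * w * (1 - u)) * gc X k (u * w)))
      MeasureTheory.volume 0 1 := by
    apply Continuous.intervalIntegrable
    have := gc_continuous X k
    fun_prop
  have := intervalIntegral.integral_eq_sub_of_hasDerivAt hd hint
  rw [this]
  simp [gc_zero h hk]

theorem gr_integral {X : ℕ → ℝ} {n : ℕ} (h : Nodes X n) {k : ℕ} (hk : k + 1 ≤ n) (t : ℝ) :
    gr X (k + 1) t = ∫ u in (0 : ℝ)..1, t * (exp (X (k + 1) * t * (1 - u)) * gr X k (u * t)) := by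
  have h1 := gc_integral h hk (t : ℂ)
  rw [gc_ofReal] at h1
  have h2 : ∫ u in (0 : ℝ)..1, (t : ℂ) * (Complex.exp (X (k + 1) * t * (1 - u)) * gc X k (u * t))
      = ((∫ u in (0 : ℝ)..1, t * (exp (X (k + 1) * t * (1 - u)) * gr X k (u * t)) : ℝ) : ℂ) := by
    rw [← intervalIntegral.integral_ofReal]
    congr 1
    ext u
    rw [← Complex.ofReal_mul u t, gc_ofReal]
    push_cast
    ring
  rw [h2] at h1
  exact_mod_cast h1

theorem gr_lower {X : ℕ → ℝ} {n : ℕ} (h : Nodes X n) :
    ∀ k, k ≤ n → ∀ t : ℝ, 0 ≤ t → t ^ k / k.factorial ≤ gr X k t := by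
  intro k
  induction k with
  | zero =>
    intro _ t _
    rw [gr_zero_index X h.zero]
    simp
  | succ k ih =>
    intro hk t ht
    rw [gr_integral h hk]
    have e : t ^ (k + 1) / (k + 1).factorial = ∫ u in (0 : ℝ)..1, t * (1 * ((u * t) ^ k / k.factorial)) := by
      have : ∀ u : ℝ, t * (1 * ((u * t) ^ k / k.factorial)) = (t ^ (k + 1) / k.factorial) * u ^ k := by
        intro u
        rw [mul_pow]
        ring
      simp_rw [this]
      rw [intervalIntegral.integral_const_mul, integral_pow]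
      simp [Nat.factorial_succ]
      field_simp
    rw [e]
    apply intervalIntegral.integral_mono_on (by norm_num)
    · apply Continuous.intervalIntegrable
      fun_prop
    · apply Continuous.intervalIntegrable
      have := gr_continuous X k
      fun_prop
    · intro u hu
      have hX := h.nonneg hk
      have hut : 0 ≤ u * t := mul_nonneg hu.1 ht
      have h1 := ih (by omega) (u * t) hut
      have h2 : 1 ≤ exp (X (k + 1) * t * (1 - u)) := by
        apply one_le_exp
        have : 0 ≤ 1 - u := by linarith [hu.2]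
        positivity
      have h3 : 0 ≤ (u * t) ^ k / k.factorial := by positivity
      gcongr

theorem gr_nonneg {X : ℕ → ℝ} {n : ℕ} (h : Nodes X n) {k : ℕ} (hk : k ≤ n) {t : ℝ} (ht : 0 ≤ t) :
    0 ≤ gr X k t := le_trans (by positivity) (gr_lower h k hk t ht)

theorem gr_mono {X : ℕ → ℝ} {n : ℕ} (h : Nodes X n) {k : ℕ} (hk : k ≤ n) {t₁ t₂ : ℝ} (h0 : 0 ≤ t₁)
    (h12 : t₁ ≤ t₂) : exp (-(X k * t₁)) * gr X k t₁ ≤ exp (-(X k * t₂)) * gr X k t₂ := by
  cases k with
  | zero => simp [gr_zero_index X h.zero, h.zero]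
  | succ k =>
    have hd : ∀ t : ℝ, HasDerivAt (fun t => exp (-(X (k + 1) * t)) * gr X (k + 1) t)
        (exp (-(X (k + 1) * t)) * gr X k t) t := by
      intro t
      have a1 : HasDerivAt (fun t : ℝ => exp (-(X (k + 1) * t)))
          (exp (-(X (k + 1) * t)) * (-(X (k + 1)))) t := by
        apply HasDerivAt.exp
        have := ((hasDerivAt_id t).const_mul (X (k + 1))).fun_neg
        simpa using this
      have a2 : HasDerivAt (gr X (k + 1)) (X (k + 1) * gr X (k + 1) t + gr X k t) t := by
        have b := (gc_hasDerivAt h hk (t : ℂ)).real_of_complex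
        rw [gc_ofReal, gc_ofReal] at b
        convert b using 1
        · ext x
          rw [gc_ofReal, Complex.ofReal_re]
        · simp
      exact (a1.fun_mul a2).congr_deriv (by ring)
    have hmono : MonotoneOn (fun t => exp (-(X (k + 1) * t)) * gr X (k + 1) t) (Set.Ici 0) := by
      apply monotoneOn_of_deriv_nonneg (convex_Ici 0)
      · exact fun t _ => (hd t).continuousAt.continuousWithinAt
      · exact fun t _ => (hd t).differentiableAt.differentiableWithinAt
      · intro t ht
        rw [(hd t).deriv]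
        rw [interior_Ici] at ht
        have := gr_nonneg h (show k ≤ n by omega) (le_of_lt (Set.mem_Ioi.mp ht))
        positivity
    exact hmono (Set.mem_Ici.mpr h0) (Set.mem_Ici.mpr (h0.trans h12)) h12

theorem norm_exp_sub_le (a c : ℝ) :
    ‖Complex.exp ((a : ℂ) * (1 : ℂ) + (c : ℂ) * Complex.I) - Complex.exp (a : ℂ)‖
      ≤ exp a * (exp |c| - 1) := by
  have h1 : Complex.exp ((a : ℂ) * (1 : ℂ) + (c : ℂ) * Complex.I) - Complex.exp (a : ℂ)
      = Complex.exp (a : ℂ) * (Complex.exp (Complex.I * c) - 1) := by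
    rw [mul_one, Complex.exp_add, mul_comm Complex.I]
    ring
  rw [h1, norm_mul, Complex.norm_exp_ofReal]
  have h2 := Real.norm_exp_I_mul_ofReal_sub_one_le (x := c)
  have h3 := add_one_le_exp |c|
  rw [Real.norm_eq_abs] at h2
  gcongr
  linarith

/-- Deviation estimate for divided differences at complex points. -/
theorem gc_dev {X : ℕ → ℝ} {n : ℕ} (h : Nodes X n) :
    ∀ k, k ≤ n → ∀ t y : ℝ, 0 ≤ t →
    ‖gc X k (t + y * Complex.I) * t ^ k - (t + y * Complex.I) ^ k * gr X k t‖
      ≤ (exp (X k * |y|) - 1) * (‖(t + y * Complex.I : ℂ)‖ ^ k * gr X k t) := by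
  intro k
  induction k with
  | zero =>
    intro _ t y _
    simp [gr_zero_index X h.zero, gc_zero_index X h.zero, h.zero]
  | succ k ih =>
    intro hk t y ht
    set w : ℂ := t + y * Complex.I with hw
    have e1 : gc X (k + 1) w * t ^ (k + 1) - w ^ (k + 1) * gr X (k + 1) t
      = ∫ u in (0 : ℝ)..1, (w * t) * (Complex.exp (X (k + 1) * w * (1 - u)) * gc X k (u * w) * t ^ k
          - w ^ k * (exp (X (k + 1) * t * (1 - u)) * gr X k (u * t) : ℝ)) := by
      have c1 := gc_continuous X k
      have c2 := gr_continuous X k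
      rw [gc_integral h hk, gr_integral h hk, ← intervalIntegral.integral_ofReal,
        ← intervalIntegral.integral_mul_const, ← intervalIntegral.integral_const_mul,
        ← intervalIntegral.integral_sub]
      · congr 1
        ext u
        push_cast
        ring
      · apply Continuous.intervalIntegrable
        fun_prop
      · apply Continuous.intervalIntegrable
        fun_prop
    have e2 : (exp (X (k + 1) * |y|) - 1) * (‖w‖ ^ (k + 1) * gr X (k + 1) t)
      = ∫ u in (0 : ℝ)..1, (‖w‖ * t) * ((exp (X (k + 1) * |y|) - 1) * (‖w‖ ^ k *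
          (exp (X (k + 1) * t * (1 - u)) * gr X k (u * t)))) := by
      rw [gr_integral h hk, ← intervalIntegral.integral_const_mul, ← intervalIntegral.integral_const_mul]
      congr 1
      ext u
      ring
    rw [e1, e2]
    apply intervalIntegral.norm_integral_le_of_norm_le (by norm_num)
    · refine Filter.Eventually.of_forall ?_
      intro u hu
      have hu0 : 0 < u := hu.1
      have hu1 : u ≤ 1 := hu.2
      have hX := h.nonneg hk
      have hXk := h.nonneg (show k ≤ n by omega)
      have hXX := h.le (show k ≤ k + 1 by omega) hk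
      have hg := gr_nonneg h (show k ≤ n by omega) (mul_nonneg hu0.le ht)
      rw [norm_mul, norm_mul, Complex.norm_real, Real.norm_eq_abs, abs_of_nonneg ht]
      apply mul_le_mul_of_nonneg_left _ (by positivity)
      have ih' := ih (by omega) (u * t) (u * y) (mul_nonneg hu0.le ht)
      have a1 : (((u * t : ℝ) : ℂ) + ((u * y : ℝ) : ℂ) * Complex.I) = u * w := by
        rw [hw]
        push_cast
        ring
      rw [a1] at ih'
      have a2 : gc X k (u * w) * ((u * t : ℝ) : ℂ) ^ k - (u * w) ^ k * gr X k (u * t)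
          = (u : ℂ) ^ k * (gc X k (u * w) * t ^ k - w ^ k * gr X k (u * t)) := by
        push_cast
        ring
      rw [a2, norm_mul, norm_pow, Complex.norm_real, Real.norm_eq_abs, abs_of_pos hu0, norm_mul,
        Complex.norm_real, Real.norm_eq_abs, abs_of_pos hu0, abs_mul, abs_of_pos hu0, mul_pow] at ih'
      have a3 : ‖gc X k (u * w) * t ^ k - w ^ k * gr X k (u * t)‖
          ≤ (exp (X k * (u * |y|)) - 1) * (‖w‖ ^ k * gr X k (u * t)) := by
        have hup : 0 < u ^ k := by positivity
        have : u ^ k * ‖gc X k (u * w) * t ^ k - w ^ k * gr X k (u * t)‖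
            ≤ u ^ k * ((exp (X k * (u * |y|)) - 1) * (‖w‖ ^ k * gr X k (u * t))) := by
          calc _ ≤ _ := ih'
            _ = _ := by ring
        exact le_of_mul_le_mul_left this hup
      have a4 : Complex.exp (X (k + 1) * w * (1 - u)) * gc X k (u * w) * t ^ k
          - w ^ k * (exp (X (k + 1) * t * (1 - u)) * gr X k (u * t) : ℝ)
          = Complex.exp (X (k + 1) * w * (1 - u)) * (gc X k (u * w) * t ^ k - w ^ k * gr X k (u * t))
           + w ^ k * gr X k (u * t) * (Complex.exp (X (k + 1) * w * (1 - u))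
              - Complex.exp ((X (k + 1) * t * (1 - u) : ℝ) : ℂ)) := by
        push_cast
        ring
      have a5 : ‖Complex.exp (X (k + 1) * w * (1 - u))‖ = exp (X (k + 1) * t * (1 - u)) := by
        rw [Complex.norm_exp]
        congr 1
        rw [hw]
        simp [Complex.mul_re]
      have a6 : ‖Complex.exp (X (k + 1) * w * (1 - u)) - Complex.exp ((X (k + 1) * t * (1 - u) : ℝ) : ℂ)‖
          ≤ exp (X (k + 1) * t * (1 - u)) * (exp (X (k + 1) * |y| * (1 - u)) - 1) := by
        have := norm_exp_sub_le (X (k + 1) * t * (1 - u)) (X (k + 1) * y * (1 - u))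
        have b1 : (((X (k + 1) * t * (1 - u) : ℝ) : ℂ) * (1 : ℂ) + ((X (k + 1) * y * (1 - u) : ℝ) : ℂ) * Complex.I)
          = X (k + 1) * w * (1 - u) := by
          rw [hw]
          push_cast
          ring
        rw [b1] at this
        have b2 : |X (k + 1) * y * (1 - u)| = X (k + 1) * |y| * (1 - u) := by
          rw [abs_mul, abs_mul, abs_of_nonneg hX, abs_of_nonneg (show 0 ≤ 1 - u by linarith)]
        rw [b2] at this
        exact this
      rw [a4]
      refine (norm_add_le _ _).trans ?_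
      rw [norm_mul, norm_mul, norm_mul, norm_pow, Complex.norm_real, Real.norm_eq_abs, abs_of_nonneg hg, a5]
      have hA : 0 ≤ exp (X k * (u * |y|)) - 1 := by
        have : 0 ≤ X k * (u * |y|) := by positivity
        linarith [add_one_le_exp (X k * (u * |y|))]
      have h1u : 0 ≤ 1 - u := by linarith
      have hB : 0 ≤ exp (X (k + 1) * |y| * (1 - u)) - 1 := by
        have : 0 ≤ X (k + 1) * |y| * (1 - u) := by positivity
        linarith [add_one_le_exp (X (k + 1) * |y| * (1 - u))]
      have hAB : (exp (X k * (u * |y|)) - 1) + (exp (X (k + 1) * |y| * (1 - u)) - 1)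
          ≤ exp (X (k + 1) * |y|) - 1 := by
        have c1 : exp (X k * (u * |y|)) * exp (X (k + 1) * |y| * (1 - u)) ≤ exp (X (k + 1) * |y|) := by
          rw [← exp_add]
          apply exp_le_exp.mpr
          have : X k * (u * |y|) ≤ X (k + 1) * (u * |y|) := by gcongr
          nlinarith
        nlinarith [mul_nonneg hA hB]
      calc exp (X (k + 1) * t * (1 - u)) * ‖gc X k (u * w) * t ^ k - w ^ k * gr X k (u * t)‖
            + ‖w‖ ^ k * gr X k (u * t) * ‖Complex.exp (X (k + 1) * w * (1 - u))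
              - Complex.exp ((X (k + 1) * t * (1 - u) : ℝ) : ℂ)‖
          ≤ exp (X (k + 1) * t * (1 - u)) * ((exp (X k * (u * |y|)) - 1) * (‖w‖ ^ k * gr X k (u * t)))
            + ‖w‖ ^ k * gr X k (u * t) * (exp (X (k + 1) * t * (1 - u)) * (exp (X (k + 1) * |y| * (1 - u)) - 1)) := by
            gcongr
        _ = ((exp (X k * (u * |y|)) - 1) + (exp (X (k + 1) * |y| * (1 - u)) - 1)) *
            (‖w‖ ^ k * (exp (X (k + 1) * t * (1 - u)) * gr X k (u * t))) := by ring
        _ ≤ (exp (X (k + 1) * |y|) - 1) *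
            (‖w‖ ^ k * (exp (X (k + 1) * t * (1 - u)) * gr X k (u * t))) := by
            gcongr
    · apply Continuous.intervalIntegrable
      have c2 := gr_continuous X k
      fun_prop

end Pool.Agent.Lib.MP_a05d5a_an
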