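import Mathlib

namespace Pool.Agent.Lib.MP_a05d5a_an

open Polynomial Polynomial.Chebyshev Finset Real

/-- The Chebyshev `U` polynomial vanishes at the interior nodes. -/
theorem eval_U_node (m : ℕ) {i : ℕ} (h0 : 0 < i) (hi : i < m + 1) :
    (U ℝ m).eval (node (m + 1) i) = 0 := by
  have hs : 0 < sin ((i : ℝ) * π / ((m + 1 : ℕ) : ℝ)) := by
    apply sin_pos_of_pos_of_lt_pi
    · have : (0 : ℝ) < i := by exact_mod_cast h0
      positivity
    · have h1 : (i : ℝ) < (m + 1 : ℕ) := by exact_mod_cast hi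
      have h2 : (0 : ℝ) < (m + 1 : ℕ) := by positivity
      rw [div_lt_iff₀ h2, mul_comm π]
      exact mul_lt_mul_of_pos_right h1 pi_pos
  have h := U_real_cos ((i : ℝ) * π / ((m + 1 : ℕ) : ℝ)) m
  have h2 : sin ((((m : ℕ) : ℤ) + 1) * ((i : ℝ) * π / ((m + 1 : ℕ) : ℝ))) = 0 := by
    have : (((m : ℕ) : ℤ) + 1) * ((i : ℝ) * π / ((m + 1 : ℕ) : ℝ)) = i * π := by
      push_cast
      field_simp
    rw [this]
    exact sin_nat_mul_pi i
  rw [h2] at h
  rw [node]
  exact (mul_eq_zero.mp h).resolve_right hs.ne'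

theorem node_poly (m : ℕ) :
    (X ^ 2 - 1) * U ℝ m = C ((2 : ℝ) ^ m) * Lagrange.nodal (range (m + 2)) (node (m + 1)) := by
  have hne : (U ℝ (m : ℤ)) ≠ 0 := by
    intro h
    have := leadingCoeff_U_natCast (R := ℝ) m
    rw [h] at this
    simp at this
    exact absurd this.symm (by positivity)
  have hdeg1 : ((X ^ 2 - 1 : ℝ[X])).degree = 2 := by
    have : (X ^ 2 - 1 : ℝ[X]) = X ^ 2 - C 1 := by simp
    rw [this]
    exact degree_X_pow_sub_C (by norm_num) _
  have hlc1 : ((X ^ 2 - 1 : ℝ[X])).leadingCoeff = 1 := by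
    have : (X ^ 2 - 1 : ℝ[X]) = X ^ 2 - C 1 := by simp
    rw [this]
    exact leadingCoeff_X_pow_sub_C (by norm_num)
  have hdeg : ((X ^ 2 - 1) * U ℝ m).degree = ((m + 2 : ℕ) : WithBot ℕ) := by
    rw [degree_mul, hdeg1, degree_U_natCast]
    norm_cast
    omega
  apply Polynomial.eq_of_degree_le_of_eval_index_eq (s := range (m + 2)) (v := node (m + 1))
  · exact (strictAntiOn_node (m + 1)).injOn
  · rw [hdeg, card_range]
  · rw [hdeg, degree_mul, degree_C (by positivity), Lagrange.degree_nodal, card_range, zero_add]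
  · rw [leadingCoeff_mul, leadingCoeff_mul, hlc1, leadingCoeff_U_natCast, leadingCoeff_C,
      Lagrange.nodal_monic.leadingCoeff]
    ring
  · intro i hi
    rw [eval_mul, eval_mul, Lagrange.eval_nodal_at_node hi, mul_zero]
    rcases Nat.eq_zero_or_pos i with rfl | h0
    · simp [node_eq_one]
    · rcases Nat.lt_or_ge i (m + 1) with h1 | h1
      · rw [eval_U_node m h0 h1, mul_zero]
      · have : i = m + 1 := by
          have := mem_range.mp hi
          omega
        subst this
        rw [node_eq_neg_one (by omega)]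
        simp

/-- Product of the differences of the Chebyshev nodes. -/
theorem prod_node_sub (m : ℕ) {i : ℕ} (hi : i ≤ m + 1) :
    (2 : ℝ) ^ m * ∏ j ∈ (range (m + 2)).erase i, (node (m + 1) i - node (m + 1) j)
      = (-1) ^ i * (m + 1) * (if i = 0 ∨ i = m + 1 then 2 else 1) := by
  have himem : i ∈ range (m + 2) := mem_range.mpr (by omega)
  have h1 := congr_arg derivative (node_poly m)
  have h2 : derivative ((X ^ 2 - 1) * U ℝ m) = ((m : ℝ[X]) + 1) * T ℝ ((m : ℤ) + 1) + X * U ℝ m := by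
    have := add_one_mul_T_eq_poly_in_U (R := ℝ) (m : ℤ)
    have h3 : derivative ((X ^ 2 - 1 : ℝ[X])) = 2 * X := by
      simp
      norm_num
    rw [derivative_mul, h3]
    push_cast at this
    linear_combination -this
  rw [h2, derivative_mul, derivative_C, zero_mul, zero_add] at h1
  have h4 := congr_arg (eval (node (m + 1) i)) h1
  rw [eval_mul, eval_C, Lagrange.eval_nodal_derivative_eval_node_eq himem, Lagrange.eval_nodal] at h4
  rw [← h4]
  have hT : (T ℝ ((m : ℤ) + 1)).eval (node (m + 1) i) = (-1) ^ i := by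
    have := eval_T_real_node (n := m + 1) (i := i) (mem_Iic.mpr hi)
    push_cast at this
    exact this
  rw [eval_add, eval_mul, eval_mul, hT]
  simp only [eval_add, eval_natCast, eval_one, eval_X]
  rcases Nat.eq_zero_or_pos i with rfl | h0
  · rw [node_eq_one]
    have : (U ℝ (m : ℤ)).eval 1 = m + 1 := by
      have := U_eval_one (R := ℝ) (m : ℤ)
      push_cast at this
      exact this
    rw [this]
    simp
    ring
  · rcases Nat.lt_or_ge i (m + 1) with h1 | h1
    · rw [eval_U_node m h0 h1, mul_zero, add_zero]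
      have : ¬ (i = 0 ∨ i = m + 1) := by omega
      simp [this]
      ring
    · have : i = m + 1 := by omega
      subst this
      rw [node_eq_neg_one (by omega)]
      have : (U ℝ (m : ℤ)).eval (-1) = (-1) ^ m * (m + 1) := by
        have := U_eval_neg_one (R := ℝ) (m : ℤ)
        push_cast at this
        rw [this]
        simp [Int.negOnePow]
      rw [this]
      simp
      ring

theorem sin_ge_inv {n : ℕ} (hn : 0 < n) {x : ℝ} (h1 : π / (2 * n) ≤ x) (h2 : x ≤ π - π / (2 * n)) :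
    1 / (n : ℝ) ≤ sin x := by
  have hn' : (0 : ℝ) < n := by exact_mod_cast hn
  have key : ∀ x : ℝ, π / (2 * n) ≤ x → x ≤ π / 2 → 1 / (n : ℝ) ≤ sin x := by
    intro x h1 h2
    have h0 : 0 ≤ x := le_trans (by positivity) h1
    calc 1 / (n : ℝ) = 2 / π * (π / (2 * n)) := by
          have := pi_pos
          field_simp
      _ ≤ 2 / π * x := by
          have := pi_pos
          gcongr
      _ ≤ sin x := mul_le_sin h0 h2
  rcases le_total x (π / 2) with h | h
  · exact key x h1 h
  · rw [← sin_pi_sub]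
    exact key _ (by linarith) (by linarith)

theorem node_gap_aux {n : ℕ} {i j : ℕ} (hj : j ≤ n) (hij : i < j) :
    2 / (n : ℝ) ^ 2 ≤ node n i - node n j := by
  have hn : 0 < n := by omega
  have hn' : (0 : ℝ) < n := by exact_mod_cast hn
  have hi' : (i : ℝ) + 1 ≤ j := by exact_mod_cast hij
  have hj' : (j : ℝ) ≤ n := by exact_mod_cast hj
  have hi0 : (0 : ℝ) ≤ i := Nat.cast_nonneg i
  rw [node, node, cos_sub_cos]
  have e1 : 1 / (n : ℝ) ≤ sin ((i * π / n + j * π / n) / 2) := by
    apply sin_ge_inv hn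
    · rw [div_le_div_iff₀ (by positivity) (by positivity)]
      have : i * π / n + j * π / n = (i + j) * π / n := by ring
      rw [this, div_mul_eq_mul_div, le_div_iff₀ hn']
      have : (1 : ℝ) ≤ i + j := by linarith
      have h3 : π * 2 * n * 1 ≤ π * 2 * n * (i + j) := by
        have := pi_pos
        gcongr
      linarith
    · have : (i * π / n + j * π / n) / 2 = (i + j) * (π / (2 * n)) := by
        field_simp
      rw [this]
      have h4 : π = (2 * n) * (π / (2 * n)) := by field_simp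
      have h5 : 0 < π / (2 * n) := by
        have := pi_pos
        positivity
      have h6 : (i + j : ℝ) ≤ 2 * n - 1 := by linarith
      calc (i + j : ℝ) * (π / (2 * n)) ≤ (2 * n - 1) * (π / (2 * n)) := by gcongr
        _ = (2 * n) * (π / (2 * n)) - π / (2 * n) := by ring
        _ = _ := by rw [← h4]
  have e2 : 1 / (n : ℝ) ≤ sin ((j * π / n - i * π / n) / 2) := by
    apply sin_ge_inv hn
    · have : (j * π / n - i * π / n) / 2 = (j - i) * (π / (2 * n)) := by
        field_simp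
      rw [this]
      have h5 : 0 < π / (2 * n) := by
        have := pi_pos
        positivity
      have : (1 : ℝ) ≤ j - i := by linarith
      nlinarith
    · have : (j * π / n - i * π / n) / 2 = (j - i) * (π / (2 * n)) := by
        field_simp
      rw [this]
      have h4 : π = (2 * n) * (π / (2 * n)) := by field_simp
      have h5 : 0 < π / (2 * n) := by
        have := pi_pos
        positivity
      have hn1 : (1 : ℝ) ≤ n := by exact_mod_cast hn
      have h6 : (j - i : ℝ) ≤ 2 * n - 1 := by linarith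
      calc (j - i : ℝ) * (π / (2 * n)) ≤ (2 * n - 1) * (π / (2 * n)) := by gcongr
        _ = (2 * n) * (π / (2 * n)) - π / (2 * n) := by ring
        _ = _ := by rw [← h4]
  have e3 : sin ((i * π / n - j * π / n) / 2) = - sin ((j * π / n - i * π / n) / 2) := by
    rw [← sin_neg]
    congr 1
    ring
  rw [e3]
  have : 0 < 1 / (n : ℝ) := by positivity
  have e4 : 0 ≤ 2 * sin ((i * π / n + j * π / n) / 2) := by linarith
  calc 2 / (n : ℝ) ^ 2 = 2 * (1 / n) * (1 / n) := by ring
    _ ≤ 2 * sin ((i * π / n + j * π / n) / 2) * sin ((j * π / n - i * π / n) / 2) := by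
        gcongr
    _ = _ := by ring

/-- exact (real) nodes -/
noncomputable def xr (n N i : ℕ) : ℝ := N * (1 - node n i) / 2

/-- integer nodes -/
noncomputable def Xn (n N i : ℕ) : ℕ := ⌊xr n N i⌋₊

theorem xr_nonneg (n N i : ℕ) : 0 ≤ xr n N i := by
  have := (node_mem_Icc (n := n) (i := i)).2
  have h : (0 : ℝ) ≤ N := Nat.cast_nonneg N
  unfold xr
  have : 0 ≤ 1 - node n i := by linarith
  positivity

theorem Xn_le (n N i : ℕ) : (Xn n N i : ℝ) ≤ xr n N i := Nat.floor_le (xr_nonneg n N i)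

theorem xr_lt (n N i : ℕ) : xr n N i < Xn n N i + 1 := Nat.lt_floor_add_one _

theorem xr_le (n N i : ℕ) : xr n N i ≤ N := by
  have := (node_mem_Icc (n := n) (i := i)).1
  have h : (0 : ℝ) ≤ N := Nat.cast_nonneg N
  unfold xr
  nlinarith

theorem Xn_le_N (n N i : ℕ) : Xn n N i ≤ N := by
  have h := (Xn_le n N i).trans (xr_le n N i)
  exact_mod_cast h

theorem Xn_zero (n N : ℕ) : Xn n N 0 = 0 := by
  simp [Xn, xr, node_eq_one]

theorem Xn_last {n : ℕ} (N : ℕ) (hn : n ≠ 0) : Xn n N n = N := by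
  have : xr n N n = N := by
    rw [xr, node_eq_neg_one hn]
    ring
  rw [Xn, this, Nat.floor_natCast]

theorem xr_gap {n N i j : ℕ} (hj : j ≤ n) (hij : i < j) :
    (N : ℝ) / n ^ 2 ≤ xr n N j - xr n N i := by
  have h := node_gap_aux hj hij
  have hN : (0 : ℝ) ≤ N := Nat.cast_nonneg N
  unfold xr
  calc (N : ℝ) / n ^ 2 = N / 2 * (2 / n ^ 2) := by ring
    _ ≤ N / 2 * (node n i - node n j) := by gcongr
    _ = _ := by ring

theorem xr_gap_abs {n N i j : ℕ} (hi : i ≤ n) (hj : j ≤ n) (hij : i ≠ j) :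
    (N : ℝ) / n ^ 2 ≤ |xr n N i - xr n N j| := by
  rcases lt_or_gt_of_ne hij with h | h
  · rw [abs_sub_comm]
    exact (xr_gap hj h).trans (le_abs_self _)
  · exact (xr_gap hi h).trans (le_abs_self _)

theorem Xn_gap {n N i j : ℕ} (hj : j ≤ n) (hij : i < j) :
    (N : ℝ) / n ^ 2 - 1 ≤ Xn n N j - Xn n N i := by
  have h1 := xr_gap (N := N) hj hij
  have h2 := Xn_le n N i
  have h3 := xr_lt n N j
  linarith

theorem prod_xr (m N : ℕ) {i : ℕ} (hi : i ≤ m + 1) :
    ∏ j ∈ (range (m + 2)).erase i, (xr (m + 1) N i - xr (m + 1) N j)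
      = (-1) ^ (m + 1 + i) * (2 * (m + 1) * ((N : ℝ) / 4) ^ (m + 1))
        * (if i = 0 ∨ i = m + 1 then 2 else 1) := by
  have h := prod_node_sub m hi
  have h1 : ∏ j ∈ (range (m + 2)).erase i, (xr (m + 1) N i - xr (m + 1) N j)
      = ∏ j ∈ (range (m + 2)).erase i, (-(N : ℝ) / 2 * (node (m + 1) i - node (m + 1) j)) := by
    apply prod_congr rfl
    intro j _
    unfold xr
    ring
  have hcard : ((range (m + 2)).erase i).card = m + 1 := by
    rw [card_erase_of_mem (mem_range.mpr (by omega)), card_range]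
    rfl
  rw [h1, prod_mul_distrib, prod_const, hcard]
  have h2 : ∏ j ∈ (range (m + 2)).erase i, (node (m + 1) i - node (m + 1) j)
      = ((-1) ^ i * (m + 1) * (if i = 0 ∨ i = m + 1 then 2 else 1)) / 2 ^ m := by
    rw [eq_div_iff (by positivity), ← h]
    ring
  rw [h2]
  have h3 : (-(N : ℝ) / 2) ^ (m + 1) = (-1) ^ (m + 1) * (2 : ℝ) ^ (m + 1) * ((N : ℝ) / 4) ^ (m + 1) := by
    rw [← mul_pow, ← mul_pow]
    congr 1
    ring
  rw [h3, pow_add (-1 : ℝ) (m + 1) i, pow_succ (2 : ℝ) m]
  field_simp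

theorem prod_Xn (n N : ℕ) (hn : 0 < n) (hN : n ^ 3 ≤ N) {i : ℕ} (hi : i ≤ n) :
    ∃ η : ℝ, |η| ≤ 2 * n ^ 3 / N ∧
    ∏ j ∈ (range (n + 1)).erase i, ((Xn n N i : ℝ) - Xn n N j)
      = (-1) ^ (n + i) * (2 * n * ((N : ℝ) / 4) ^ n)
        * (if i = 0 ∨ i = n then 2 else 1) * (1 + η) := by
  obtain ⟨m, rfl⟩ : ∃ m, n = m + 1 := ⟨n - 1, by omega⟩
  have hNpos : 0 < N := lt_of_lt_of_le (by positivity) hN
  have hN' : (0 : ℝ) < N := by exact_mod_cast hNpos
  have hNr : ((m + 1 : ℕ) : ℝ) ^ 3 ≤ N := by exact_mod_cast hN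
  set n := m + 1 with hndef
  have hn' : (0 : ℝ) < (n : ℕ) := by exact_mod_cast hn
  have hcard : ((range (n + 1)).erase i).card = n := by
    rw [card_erase_of_mem (mem_range.mpr (by omega)), card_range]
    rfl
  let f : ℕ → ℝ := fun j => (((Xn n N i : ℝ) - Xn n N j) - (xr n N i - xr n N j)) / (xr n N i - xr n N j)
  refine ⟨∏ j ∈ (range (n + 1)).erase i, (1 + f j) - 1, ?_, ?_⟩
  · have h1 := Finset.norm_prod_one_add_sub_one_le ((range (n + 1)).erase i) f
    rw [Real.norm_eq_abs] at h1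
    have h2 : ∑ j ∈ (range (n + 1)).erase i, ‖f j‖ ≤ n ^ 3 / N := by
      calc ∑ j ∈ (range (n + 1)).erase i, ‖f j‖ ≤ ∑ j ∈ (range (n + 1)).erase i, ((n : ℝ) ^ 2 / N) := by
            apply sum_le_sum
            intro j hj
            have hj1 := mem_erase.mp hj
            have hj2 := mem_range.mp hj1.2
            have hgap := xr_gap_abs (N := N) hi (show j ≤ n by omega) (Ne.symm hj1.1)
            rw [Real.norm_eq_abs, abs_div]
            have hnum : |((Xn n N i : ℝ) - Xn n N j) - (xr n N i - xr n N j)| ≤ 1 := by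
              have a1 := Xn_le n N i
              have a2 := xr_lt n N i
              have a3 := Xn_le n N j
              have a4 := xr_lt n N j
              rw [abs_le]
              constructor <;> linarith
            have hg0 : 0 < (N : ℝ) / n ^ 2 := by positivity
            calc _ ≤ 1 / ((N : ℝ) / n ^ 2) := by
                  apply div_le_div₀ (by norm_num) hnum hg0 hgap
              _ = _ := by field_simp
        _ = n ^ 3 / N := by
            rw [sum_const, hcard, nsmul_eq_mul]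
            ring
    have h3 : (n : ℝ) ^ 3 / N ≤ 1 := by
      rw [div_le_one hN']
      exact hNr
    have h4 : 0 ≤ (n : ℝ) ^ 3 / N := by positivity
    have h5 := Real.abs_exp_sub_one_le (x := (n : ℝ) ^ 3 / N) (by rw [abs_of_nonneg h4]; exact h3)
    rw [abs_of_nonneg h4] at h5
    calc _ ≤ exp (∑ j ∈ (range (n + 1)).erase i, ‖f j‖) - 1 := h1
      _ ≤ exp ((n : ℝ) ^ 3 / N) - 1 := by
          gcongr
      _ ≤ |exp ((n : ℝ) ^ 3 / N) - 1| := le_abs_self _
      _ ≤ 2 * ((n : ℝ) ^ 3 / N) := h5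
      _ = _ := by ring
  · have h := prod_xr m N hi
    have e : (-1 : ℝ) ^ (n + i) * (2 * n * ((N : ℝ) / 4) ^ n) * (if i = 0 ∨ i = n then 2 else 1)
        = ∏ j ∈ (range (n + 1)).erase i, (xr n N i - xr n N j) := by
      rw [h]
      simp only [hndef]
      push_cast
      ring
    rw [e]
    have : (1 + (∏ j ∈ (range (n + 1)).erase i, (1 + f j) - 1)) = ∏ j ∈ (range (n + 1)).erase i, (1 + f j) := by ring
    rw [this, ← prod_mul_distrib]
    apply prod_congr rfl
    intro j hj
    have hj1 := mem_erase.mp hj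
    have hj2 := mem_range.mp hj1.2
    have hgap := xr_gap_abs (N := N) hi (show j ≤ n by omega) (Ne.symm hj1.1)
    have hg0 : 0 < (N : ℝ) / n ^ 2 := by positivity
    have hne : xr n N i - xr n N j ≠ 0 := by
      intro h0
      rw [h0, abs_zero] at hgap
      linarith
    simp only [f]
    field_simp
    ring

/-- The main coefficients. -/
noncomputable def cc (n N i : ℕ) : ℝ :=
  (2 * n * ((N : ℝ) / 4) ^ n) / ∏ j ∈ (range (n + 1)).erase i, ((Xn n N i : ℝ) - Xn n N j)

theorem cc_bound (n N : ℕ) (hn : 0 < n) (hN : 4 * n ^ 3 ≤ N) {i : ℕ} (hi : i ≤ n) :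
    |(-1) ^ (n + i) * cc n N i - (if i = 0 ∨ i = n then 1 / 2 else 1)| ≤ 4 * n ^ 3 / N := by
  obtain ⟨η, h1, h2⟩ := prod_Xn n N hn (by omega) hi
  have hNpos : 0 < N := lt_of_lt_of_le (by positivity) hN
  have hN' : (0 : ℝ) < N := by exact_mod_cast hNpos
  have hNr : 4 * (n : ℝ) ^ 3 ≤ N := by exact_mod_cast hN
  have hn' : (0 : ℝ) < n := by exact_mod_cast hn
  have h3 : 2 * (n : ℝ) ^ 3 / N ≤ 1 / 2 := by
    rw [div_le_iff₀ hN']
    linarith
  have h4 : |η| ≤ 1 / 2 := h1.trans h3
  have h5 := abs_le.mp h4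
  have h6 : 0 < 1 + η := by linarith
  have hs : ((-1 : ℝ) ^ (n + i)) * ((-1 : ℝ) ^ (n + i)) = 1 := by
    rw [← mul_pow]
    simp
  have hs0 : ((-1 : ℝ) ^ (n + i)) ≠ 0 := by
    intro h
    rw [h] at hs
    simp at hs
  have hbound : ∀ c : ℝ, 0 < c → c ≤ 1 → |c / (1 + η) - c| ≤ 4 * n ^ 3 / N := by
    intro c hc0 hc1
    have : c / (1 + η) - c = - (c * η / (1 + η)) := by
      field_simp
      ring
    rw [this, abs_neg, abs_div, abs_mul, abs_of_pos hc0, abs_of_pos h6, div_le_iff₀ h6]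
    calc c * |η| ≤ 1 * (2 * n ^ 3 / N) := by gcongr
      _ = 4 * n ^ 3 / N * (1 / 2) := by ring
      _ ≤ 4 * n ^ 3 / N * (1 + η) := by
          gcongr
          linarith
  unfold cc
  rw [h2]
  split_ifs with hc
  · have : (-1 : ℝ) ^ (n + i) * (2 * n * ((N : ℝ) / 4) ^ n / ((-1) ^ (n + i) * (2 * n * ((N : ℝ) / 4) ^ n) * 2 * (1 + η))) = (1 / 2) / (1 + η) := by
      field_simp
    rw [this]
    exact hbound _ (by norm_num) (by norm_num)
  · have : (-1 : ℝ) ^ (n + i) * (2 * n * ((N : ℝ) / 4) ^ n / ((-1) ^ (n + i) * (2 * n * ((N : ℝ) / 4) ^ n) * 1 * (1 + η))) = 1 / (1 + η) := by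
      field_simp
    rw [this]
    exact hbound _ (by norm_num) (by norm_num)

end Pool.Agent.Lib.MP_a05d5a_an
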