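import Mathlib
import Pool.Agent.Lib.MP_a05d5a_an.Nodes
import Pool.Agent.Lib.MP_a05d5a_an.DivDiff

namespace Pool.Agent.Lib.MP_a05d5a_an

open Finset Real

/-- real nodes -/
noncomputable def XR (n N : ℕ) : ℕ → ℝ := fun i => (Xn n N i : ℝ)

theorem nodes_XR {n N : ℕ} (hn : 0 < n) (hN : n ^ 2 < N) : Nodes (XR n N) n := by
  constructor
  · simp [XR, Xn_zero]
  · intro i j hij hj
    have h := Xn_gap (N := N) hj hij
    have hn' : (0 : ℝ) < n := by exact_mod_cast hn
    have h2 : (1 : ℝ) < N / n ^ 2 := by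
      rw [one_lt_div (by positivity)]
      exact_mod_cast hN
    unfold XR
    linarith

/-- normalising constant -/
noncomputable def gam (n N : ℕ) : ℝ := 2 * n * ((N : ℝ) / 4) ^ n

theorem cc_eq (n N i : ℕ) : cc n N i = gam n N * dw (XR n N) n i := by
  simp [cc, gam, dw, XR, div_eq_mul_inv]

/-- moments of the weights -/
theorem sum_dw_pow {X : ℕ → ℝ} {n : ℕ} (h : Nodes X n) {l : ℕ} (hl : l < n) :
    ∑ i ∈ range (n + 1), dw X n i * X i ^ l = 0 := by
  have hinj : Set.InjOn X (range (n + 1) : Finset ℕ) := by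
    intro i hi j hj hij
    by_contra hne
    have hi' := mem_range.mp (mem_coe.mp hi)
    have hj' := mem_range.mp (mem_coe.mp hj)
    exact h.ne hne (by omega) (by omega) (by linarith)
  have := Lagrange.coeff_eq_sum (s := range (n + 1)) (v := X) hinj (P := (Polynomial.X ^ l : Polynomial ℝ)) (by
    rw [card_range, Polynomial.degree_X_pow]
    norm_cast
    omega)
  rw [card_range] at this
  have h2 : (Polynomial.X ^ l : Polynomial ℝ).coeff (n + 1 - 1) = 0 := by
    rw [Polynomial.coeff_X_pow, if_neg]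
    omega
  rw [h2] at this
  rw [this]
  apply sum_congr rfl
  intro i _
  simp [dw]
  ring

theorem injOn_nodes {X : ℕ → ℝ} {n : ℕ} (h : Nodes X n) : Set.InjOn X (range (n + 1) : Finset ℕ) := by
  intro i hi j hj hij
  by_contra hne
  have hi' := mem_range.mp (mem_coe.mp hi)
  have hj' := mem_range.mp (mem_coe.mp hj)
  exact h.ne hne (by omega) (by omega) (by linarith)

/-- correcting coefficients -/
noncomputable def qq (X : ℕ → ℝ) (n : ℕ) (Q : Polynomial ℝ) (i : ℕ) : ℝ :=
  ∑ l ∈ range (n + 1), (l.factorial : ℝ) * Q.coeff l * (Lagrange.basis (range (n + 1)) X i).coeff l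

theorem sum_basis_coeff {X : ℕ → ℝ} {n : ℕ} (h : Nodes X n) {l l' : ℕ} (hl : l ≤ n) :
    ∑ i ∈ range (n + 1), X i ^ l * (Lagrange.basis (range (n + 1)) X i).coeff l'
      = if l' = l then 1 else 0 := by
  have h1 := Lagrange.eq_interpolate (s := range (n + 1)) (v := X) (injOn_nodes h)
    (f := (Polynomial.X ^ l : Polynomial ℝ)) (by
    rw [card_range, Polynomial.degree_X_pow]
    norm_cast
    omega)
  have h2 := congr_arg (fun p => Polynomial.coeff p l') h1
  simp only [Lagrange.interpolate_apply, Polynomial.finsetSum_coeff, Polynomial.coeff_C_mul,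
    Polynomial.eval_pow, Polynomial.eval_X, Polynomial.coeff_X_pow] at h2
  exact h2.symm

theorem sum_qq_pow {X : ℕ → ℝ} {n : ℕ} (h : Nodes X n) (Q : Polynomial ℝ) {l : ℕ} (hl : l ≤ n) :
    ∑ i ∈ range (n + 1), qq X n Q i * X i ^ l = l.factorial * Q.coeff l := by
  unfold qq
  simp_rw [sum_mul]
  rw [sum_comm]
  have : ∀ l' ∈ range (n + 1), ∑ i ∈ range (n + 1), (l'.factorial : ℝ) * Q.coeff l' *
      (Lagrange.basis (range (n + 1)) X i).coeff l' * X i ^ l
      = if l' = l then (l'.factorial : ℝ) * Q.coeff l' else 0 := by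
    intro l' _
    have h1 := sum_basis_coeff h (l' := l') hl
    have : ∑ i ∈ range (n + 1), (l'.factorial : ℝ) * Q.coeff l' *
      (Lagrange.basis (range (n + 1)) X i).coeff l' * X i ^ l =
      (l'.factorial : ℝ) * Q.coeff l' *
       ∑ i ∈ range (n + 1), X i ^ l * (Lagrange.basis (range (n + 1)) X i).coeff l' := by
      rw [mul_sum]
      apply sum_congr rfl
      intro i _
      ring
    rw [this, h1]
    split_ifs <;> simp
  rw [sum_congr rfl this, sum_ite_eq' (range (n + 1)) l]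
  rw [if_pos (mem_range.mpr (by omega))]

theorem basis_coeff_le {n N : ℕ} (hn : 0 < n) (hN : 4 * n ^ 3 ≤ N) (hN2 : n ^ 2 < N) {i l : ℕ} (hi : i ≤ n) (hl : l ≤ n) :
    |(Lagrange.basis (range (n + 1)) (XR n N) i).coeff l| ≤ 8 ^ n / (N : ℝ) ^ l := by
  have hX := nodes_XR hn hN2
  have himem : i ∈ range (n + 1) := mem_range.mpr (by omega)
  have hNpos : (0 : ℝ) < N := by
    have : 0 < N := lt_of_lt_of_le (by positivity) hN
    exact_mod_cast this
  have hn' : (0 : ℝ) < n := by exact_mod_cast hn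
  have hn1 : (1 : ℝ) ≤ n := by exact_mod_cast hn
  have hcard : ((range (n + 1)).erase i).card = n := by
    rw [card_erase_of_mem himem, card_range]
    rfl
  have h1 : Lagrange.basis (range (n + 1)) (XR n N) i =
      Polynomial.C (dw (XR n N) n i) * Lagrange.nodal ((range (n + 1)).erase i) (XR n N) := by
    rw [Lagrange.basis, Lagrange.nodal_eq, dw]
    simp only [Lagrange.basisDivisor]
    rw [prod_mul_distrib, ← map_prod, prod_inv_distrib]
  rw [h1, Polynomial.coeff_C_mul, abs_mul]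
  have h2 : |(Lagrange.nodal ((range (n + 1)).erase i) (XR n N)).coeff l| ≤ (N : ℝ) ^ (n - l) * (n.choose l) := by
    have := Polynomial.coeff_le_of_roots_le (F := ℝ) (K := ℝ) (p := Lagrange.nodal ((range (n + 1)).erase i) (XR n N))
      (f := RingHom.id ℝ) (B := (N : ℝ)) l Lagrange.nodal_monic ?_ ?_
    · rw [Polynomial.map_id, Lagrange.natDegree_nodal, hcard] at this
      exact this
    · rw [Polynomial.map_id, Lagrange.nodal_eq]
      apply Polynomial.Splits.prod
      intro j _
      exact Polynomial.Splits.X_sub_C _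
    · intro z hz
      rw [Polynomial.map_id] at hz
      have hz' := (Polynomial.mem_roots'.mp hz).2
      rw [Polynomial.IsRoot, Lagrange.eval_nodal, prod_eq_zero_iff] at hz'
      obtain ⟨j, hj, hj'⟩ := hz'
      have : z = XR n N j := by linarith
      rw [this, XR, Real.norm_natCast]
      exact_mod_cast Xn_le_N n N j
  have h3 : |dw (XR n N) n i| ≤ 2 / gam n N := by
    have hg : 0 < gam n N := by
      unfold gam
      positivity
    have hc := cc_bound n N hn hN hi
    rw [cc_eq] at hc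
    have h5 : 4 * (n : ℝ) ^ 3 / N ≤ 1 := by
      rw [div_le_one hNpos]
      exact_mod_cast hN
    have h6 : |(-1 : ℝ) ^ (n + i) * (gam n N * dw (XR n N) n i)| ≤ 2 := by
      have h7 := abs_sub_abs_le_abs_sub ((-1 : ℝ) ^ (n + i) * (gam n N * dw (XR n N) n i)) (if i = 0 ∨ i = n then 1 / 2 else 1)
      have h8 : |(if i = 0 ∨ i = n then 1 / 2 else 1 : ℝ)| ≤ 1 := by
        split_ifs <;> norm_num
      linarith
    rw [abs_mul, abs_pow, abs_neg, abs_one, one_pow, one_mul, abs_mul, abs_of_pos hg] at h6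
    rw [le_div_iff₀ hg]
    linarith
  have h4 : (n.choose l : ℝ) ≤ 2 ^ n := by
    exact_mod_cast Nat.choose_le_two_pow n l
  have hg : 0 < gam n N := by
    unfold gam
    positivity
  have h5 : |(Lagrange.nodal ((range (n + 1)).erase i) (XR n N)).coeff l| ≤ (N : ℝ) ^ (n - l) * 2 ^ n :=
    h2.trans (by gcongr)
  calc |dw (XR n N) n i| * |(Lagrange.nodal ((range (n + 1)).erase i) (XR n N)).coeff l|
      ≤ (2 / gam n N) * ((N : ℝ) ^ (n - l) * 2 ^ n) :=
        mul_le_mul h3 h5 (abs_nonneg _) (by positivity)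
    _ = (8 ^ n / (N : ℝ) ^ l) / n := by
        unfold gam
        have e1 : (N : ℝ) ^ n = (N : ℝ) ^ (n - l) * (N : ℝ) ^ l := by
          rw [← pow_add]
          congr 1
          omega
        have e2 : (8 : ℝ) ^ n = 2 ^ n * 4 ^ n := by
          rw [← mul_pow]
          norm_num
        rw [div_pow, e1, e2]
        field_simp
    _ ≤ 8 ^ n / (N : ℝ) ^ l := by
        apply div_le_self _ hn1
        positivity

theorem qq_le {n N : ℕ} (hn : 0 < n) (hN : 4 * n ^ 3 ≤ N) (hN2 : n ^ 2 < N) {Q : Polynomial ℝ}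
    (hQ : ∀ l, 0 ≤ Q.coeff l) (hQd : Q.natDegree ≤ n) {i : ℕ} (hi : i ≤ n) :
    |qq (XR n N) n Q i| ≤ 8 ^ n * Q.eval ((n : ℝ) / N) := by
  have hNpos : (0 : ℝ) < N := by
    have : 0 < N := lt_of_lt_of_le (by positivity) hN
    exact_mod_cast this
  unfold qq
  refine (abs_sum_le_sum_abs _ _).trans ?_
  rw [Polynomial.eval_eq_sum_range' (show Q.natDegree < n + 1 by omega), mul_sum]
  apply sum_le_sum
  intro l hl
  have hl' : l ≤ n := by have := mem_range.mp hl; omega
  rw [abs_mul, abs_mul, abs_of_nonneg (hQ l), Nat.abs_cast]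
  have h1 := basis_coeff_le hn hN hN2 hi hl'
  have h2 : (l.factorial : ℝ) ≤ (n : ℝ) ^ l := by
    have : l.factorial ≤ n ^ l := (Nat.factorial_le_pow l).trans (Nat.pow_le_pow_left hl' l)
    exact_mod_cast this
  have h3 := hQ l
  calc (l.factorial : ℝ) * Q.coeff l * |(Lagrange.basis (range (n + 1)) (XR n N) i).coeff l|
      ≤ (n : ℝ) ^ l * Q.coeff l * (8 ^ n / (N : ℝ) ^ l) := by gcongr
    _ = 8 ^ n * (Q.coeff l * ((n : ℝ) / N) ^ l) := by
        rw [div_pow]
        ring

theorem real_exp_tail (k : ℕ) : ∀ r : ℝ, 0 ≤ r →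
    exp r - ∑ m ∈ range k, r ^ m / m.factorial ≤ r ^ k / k.factorial * exp r := by
  induction k with
  | zero => intro r _; simp
  | succ k ih =>
    intro r hr
    let h : ℝ → ℝ := fun r => r ^ (k + 1) / (k + 1).factorial * exp r - (exp r - ∑ m ∈ range (k + 1), r ^ m / m.factorial)
    have hd : ∀ r : ℝ, HasDerivAt h (r ^ k / k.factorial * exp r + r ^ (k + 1) / (k + 1).factorial * exp r
        - (exp r - ∑ m ∈ range k, r ^ m / m.factorial)) r := by
      intro r
      have a1 : HasDerivAt (fun r : ℝ => r ^ (k + 1) / (k + 1).factorial * exp r)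
          (r ^ k / k.factorial * exp r + r ^ (k + 1) / (k + 1).factorial * exp r) r := by
        have b1 : HasDerivAt (fun r : ℝ => r ^ (k + 1) / (k + 1).factorial) (r ^ k / k.factorial) r := by
          have := (hasDerivAt_pow (k + 1) r).div_const ((k + 1).factorial : ℝ)
          refine this.congr_deriv ?_
          rw [Nat.factorial_succ]
          push_cast
          field_simp
        exact (b1.fun_mul (hasDerivAt_exp r)).congr_deriv (by ring)
      have a2 : HasDerivAt (fun r : ℝ => ∑ m ∈ range (k + 1), r ^ m / (m.factorial : ℝ))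
          (∑ m ∈ range k, r ^ m / m.factorial) r := by
        have : ∀ m ∈ range (k + 1), HasDerivAt (fun r : ℝ => r ^ m / (m.factorial : ℝ))
            (m * r ^ (m - 1) / m.factorial) r := fun m _ => (hasDerivAt_pow m r).div_const _
        refine (HasDerivAt.fun_sum this).congr_deriv ?_
        rw [sum_range_succ']
        simp only [Nat.cast_zero, zero_mul, zero_div, add_zero]
        apply sum_congr rfl
        intro m _
        rw [Nat.factorial_succ]
        push_cast
        field_simp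
      exact (a1.fun_sub ((hasDerivAt_exp r).fun_sub a2)).congr_deriv (by ring)
    have hmono : MonotoneOn h (Set.Ici 0) := by
      apply monotoneOn_of_deriv_nonneg (convex_Ici 0)
      · exact fun t _ => (hd t).continuousAt.continuousWithinAt
      · exact fun t _ => (hd t).differentiableAt.differentiableWithinAt
      · intro t ht
        rw [(hd t).deriv]
        rw [interior_Ici] at ht
        have ht' : 0 ≤ t := le_of_lt (Set.mem_Ioi.mp ht)
        have := ih t ht'
        have h2 : 0 ≤ t ^ (k + 1) / (k + 1).factorial * exp t := by positivity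
        linarith
    have h0 : h 0 = 0 := by
      simp only [h]
      rw [sum_range_succ']
      simp
    have := hmono (Set.mem_Ici.mpr le_rfl) (Set.mem_Ici.mpr hr) hr
    rw [h0] at this
    simp only [h] at this
    linarith

theorem exp_tail (z : ℂ) (k : ℕ) :
    ‖Complex.exp z - ∑ m ∈ range k, z ^ m / m.factorial‖ ≤ ‖z‖ ^ k / k.factorial * exp ‖z‖ :=
  (Complex.norm_exp_sub_sum_le_exp_norm_sub_sum z k).trans (real_exp_tail k _ (norm_nonneg _))

theorem expsum_sub (X a q : ℕ → ℝ) (n k : ℕ)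
    (h : ∀ l < k, ∑ i ∈ range (n + 1), a i * X i ^ l = l.factorial * q l) (w : ℂ) :
    ∑ i ∈ range (n + 1), (a i : ℂ) * Complex.exp (X i * w) - ∑ l ∈ range k, (q l : ℂ) * w ^ l
      = ∑ i ∈ range (n + 1), (a i : ℂ) * (Complex.exp (X i * w) - ∑ m ∈ range k, (X i * w) ^ m / m.factorial) := by
  simp_rw [mul_sub]
  rw [sum_sub_distrib]
  congr 1
  simp_rw [mul_sum]
  rw [sum_comm]
  apply sum_congr rfl
  intro l hl
  have h1 := h l (mem_range.mp hl)
  have h2 : (q l : ℂ) = (∑ i ∈ range (n + 1), (a i : ℂ) * X i ^ l) / l.factorial := by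
    have : ((∑ i ∈ range (n + 1), a i * X i ^ l : ℝ) : ℂ) = ((l.factorial * q l : ℝ) : ℂ) := by rw [h1]
    push_cast at this
    rw [this]
    have hf : (l.factorial : ℂ) ≠ 0 := by exact_mod_cast l.factorial_ne_zero
    field_simp
  rw [h2, sum_div, sum_mul]
  apply sum_congr rfl
  intro i _
  rw [mul_pow]
  ring

theorem expsum_bound {n N : ℕ} {a q : ℕ → ℝ} {A : ℝ} (ha : ∀ i ≤ n, |a i| ≤ A) {k : ℕ}
    (h : ∀ l < k, ∑ i ∈ range (n + 1), a i * XR n N i ^ l = l.factorial * q l) (w : ℂ) :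
    ‖∑ i ∈ range (n + 1), (a i : ℂ) * Complex.exp (XR n N i * w) - ∑ l ∈ range k, (q l : ℂ) * w ^ l‖
      ≤ (n + 1) * A * ((N * ‖w‖) ^ k / k.factorial * exp (N * ‖w‖)) := by
  rw [expsum_sub (XR n N) a q n k h w]
  refine (norm_sum_le _ _).trans ?_
  have : ∀ i ∈ range (n + 1), ‖(a i : ℂ) * (Complex.exp (XR n N i * w)
      - ∑ m ∈ range k, (XR n N i * w) ^ m / m.factorial)‖
      ≤ A * ((N * ‖w‖) ^ k / k.factorial * exp (N * ‖w‖)) := by
    intro i hi
    have hi' : i ≤ n := by have := mem_range.mp hi; omega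
    rw [norm_mul, Complex.norm_real, Real.norm_eq_abs]
    have h1 := exp_tail (XR n N i * w) k
    have h2 : ‖(XR n N i : ℂ) * w‖ ≤ N * ‖w‖ := by
      rw [norm_mul, Complex.norm_real, Real.norm_eq_abs]
      have : |XR n N i| ≤ N := by
        unfold XR
        rw [Nat.abs_cast]
        exact_mod_cast Xn_le_N n N i
      gcongr
    have h3 : ‖Complex.exp (XR n N i * w) - ∑ m ∈ range k, (XR n N i * w) ^ m / m.factorial‖
        ≤ (N * ‖w‖) ^ k / k.factorial * exp (N * ‖w‖) := by
      refine h1.trans ?_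
      gcongr
    exact mul_le_mul (ha i hi') h3 (norm_nonneg _) ((abs_nonneg _).trans (ha i hi'))
  refine (sum_le_card_nsmul _ _ _ this).trans ?_
  rw [card_range, nsmul_eq_mul]
  push_cast
  linarith

/-- full coefficients -/
noncomputable def bb (n N : ℕ) (Q : Polynomial ℝ) (i : ℕ) : ℝ := cc n N i + qq (XR n N) n Q i

/-- partial block sums -/
noncomputable def SS (n N : ℕ) (Q : Polynomial ℝ) (r : ℕ) (w : ℂ) : ℂ :=
  ∑ i ∈ range (r + 1), (bb n N Q i : ℂ) * Complex.exp (XR n N i * w)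

theorem SS_split (n N : ℕ) (Q : Polynomial ℝ) (w : ℂ) : SS n N Q n w
    = ∑ i ∈ range (n + 1), (cc n N i : ℂ) * Complex.exp (XR n N i * w)
      + ∑ i ∈ range (n + 1), (qq (XR n N) n Q i : ℂ) * Complex.exp (XR n N i * w) := by
  unfold SS bb
  rw [← sum_add_distrib]
  apply sum_congr rfl
  intro i _
  push_cast
  ring

theorem Th_eq (n N : ℕ) (w : ℂ) : ∑ i ∈ range (n + 1), (cc n N i : ℂ) * Complex.exp (XR n N i * w)
    = (gam n N : ℂ) * gc (XR n N) n w := by
  unfold gc
  rw [mul_sum]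
  apply sum_congr rfl
  intro i _
  rw [cc_eq]
  push_cast
  ring

/-- Hypotheses for the block lemma. -/
structure BlockHyp (n N : ℕ) (Q : Polynomial ℝ) (ρ W δ t₁ : ℝ) : Prop where
  hn : 100 ≤ n
  hN : 1000 * n ^ 5 ≤ N
  hQ : ∀ l, 0 ≤ Q.coeff l
  hQd : Q.natDegree ≤ n
  hQ0 : Q.coeff 0 = ρ
  hρ0 : 0 < ρ
  hρ1 : ρ ≤ 1
  hq : 8 ^ n * Q.eval ((n : ℝ) / N) ≤ exp (-30 * n)
  hW0 : 0 < W
  hW1 : N * (2 * W) ≤ exp (-60)
  hW2 : N * (2 * W) * n ≤ 1 / 10000
  hδ0 : 0 < δ
  hδ1 : N * δ * n ^ 3 ≤ 1 / 100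
  ht0 : 0 < t₁
  ht1 : n * δ ≤ t₁ / 100

section
variable {n N : ℕ} {Q : Polynomial ℝ} {ρ W δ t₁ : ℝ} (H : BlockHyp n N Q ρ W δ t₁)
include H

theorem BlockHyp.hn0 : 0 < n := by have := H.hn; omega

theorem BlockHyp.hN3 : 4 * n ^ 3 ≤ N := by
  have h1 := H.hN
  have h2 := H.hn
  have h3 : n ^ 3 ≤ n ^ 5 := Nat.pow_le_pow_right (by omega) (by norm_num)
  omega

theorem BlockHyp.hN2 : n ^ 2 < N := by
  have h1 := H.hN
  have h2 := H.hn
  have h3 : n ^ 2 ≤ n ^ 5 := Nat.pow_le_pow_right (by omega) (by norm_num)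
  have h4 : 0 < n ^ 2 := by positivity
  omega

theorem BlockHyp.hNr : 1000 * (n : ℝ) ^ 5 ≤ N := by exact_mod_cast H.hN

theorem BlockHyp.hnr : (100 : ℝ) ≤ n := by exact_mod_cast H.hn

theorem BlockHyp.nodes : Nodes (XR n N) n := nodes_XR H.hn0 H.hN2

theorem BlockHyp.N0 : (0 : ℝ) < N := by
  have h1 := H.hNr
  have h2 := H.hnr
  have : (0 : ℝ) < 1000 * (n : ℝ) ^ 5 := by positivity
  linarith

/-- error size for the main coefficients -/
theorem BlockHyp.eps : 4 * (n : ℝ) ^ 3 / N ≤ 1 / (200 * n ^ 2) := by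
  have h1 := H.hNr
  have h2 := H.hnr
  have h3 := H.N0
  rw [div_le_div_iff₀ h3 (by positivity)]
  nlinarith [pow_pos (show (0 : ℝ) < n by linarith) 5]

theorem BlockHyp.c_le {i : ℕ} (hi : i ≤ n) : |cc n N i| ≤ 3 / 2 := by
  have hc := cc_bound n N H.hn0 H.hN3 hi
  have h2 := H.hnr
  have h5 : 4 * (n : ℝ) ^ 3 / N ≤ 1 / 2 := by
    refine H.eps.trans ?_
    rw [div_le_div_iff₀ (by positivity) (by norm_num)]
    nlinarith
  have h7 := abs_sub_abs_le_abs_sub ((-1 : ℝ) ^ (n + i) * cc n N i) (if i = 0 ∨ i = n then 1 / 2 else 1)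
  have h8 : |(if i = 0 ∨ i = n then 1 / 2 else 1 : ℝ)| ≤ 1 := by
    split_ifs <;> norm_num
  rw [abs_mul, abs_pow, abs_neg, abs_one, one_pow, one_mul] at h7
  linarith

theorem BlockHyp.q_le {i : ℕ} (hi : i ≤ n) : |qq (XR n N) n Q i| ≤ exp (-30 * n) :=
  (qq_le H.hn0 H.hN3 H.hN2 H.hQ H.hQd hi).trans H.hq

theorem BlockHyp.exp30 : exp (-30 * (n : ℝ)) ≤ 1 / (200 * n ^ 2) := by
  have h2 := H.hnr
  rw [show -30 * (n : ℝ) = -(30 * n) by ring, exp_neg, ← one_div]
  apply one_div_le_one_div_of_le (by positivity)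
  have h1 : (1 + 15 * (n : ℝ)) ^ 2 ≤ exp (30 * n) := by
    have := add_one_le_exp (15 * (n : ℝ))
    calc (1 + 15 * (n : ℝ)) ^ 2 ≤ (exp (15 * (n : ℝ))) ^ 2 := by gcongr; linarith
      _ = exp (30 * n) := by
        rw [← exp_nat_mul]
        congr 1
        push_cast
        ring
  nlinarith

theorem BlockHyp.b_bound {i : ℕ} (hi : i ≤ n) :
    |(-1) ^ (n + i) * bb n N Q i - (if i = 0 ∨ i = n then 1 / 2 else 1)| ≤ 1 / (100 * n ^ 2) := by
  have h1 := cc_bound n N H.hn0 H.hN3 hi
  have h2 := H.q_le hi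
  have h3 := H.exp30
  have h4 := H.eps
  have e : (-1 : ℝ) ^ (n + i) * bb n N Q i - (if i = 0 ∨ i = n then 1 / 2 else 1)
      = ((-1 : ℝ) ^ (n + i) * cc n N i - (if i = 0 ∨ i = n then 1 / 2 else 1))
        + (-1 : ℝ) ^ (n + i) * qq (XR n N) n Q i := by
    unfold bb
    ring
  rw [e]
  refine (abs_add_le _ _).trans ?_
  rw [abs_mul, abs_pow, abs_neg, abs_one, one_pow, one_mul]
  have h5 : (1 : ℝ) / (100 * n ^ 2) = 1 / (200 * n ^ 2) + 1 / (200 * n ^ 2) := by
    have := H.hnr
    field_simp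
    norm_num
  linarith

theorem BlockHyp.b_le {i : ℕ} (hi : i ≤ n) : |bb n N Q i| ≤ 2 := by
  have h2 := H.hnr
  have hb := H.b_bound hi
  have h5 : 1 / (100 * (n : ℝ) ^ 2) ≤ 1 := by
    rw [div_le_one (by positivity)]
    nlinarith
  have h7 := abs_sub_abs_le_abs_sub ((-1 : ℝ) ^ (n + i) * bb n N Q i) (if i = 0 ∨ i = n then 1 / 2 else 1)
  have h8 : |(if i = 0 ∨ i = n then 1 / 2 else 1 : ℝ)| ≤ 1 := by
    split_ifs <;> norm_num
  rw [abs_mul, abs_pow, abs_neg, abs_one, one_pow, one_mul] at h7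
  linarith

theorem BlockHyp.S_le_left {r : ℕ} (hr : r ≤ n) {w : ℂ} (hw : w.re ≤ 0) :
    ‖SS n N Q r w‖ ≤ 2 * (n + 1) := by
  unfold SS
  refine (norm_sum_le _ _).trans ?_
  have : ∀ i ∈ range (r + 1), ‖(bb n N Q i : ℂ) * Complex.exp (XR n N i * w)‖ ≤ 2 := by
    intro i hi
    have hi' : i ≤ n := by have := mem_range.mp hi; omega
    rw [norm_mul, Complex.norm_real, Real.norm_eq_abs, Complex.norm_exp]
    have h1 := H.b_le hi'
    have h2 : exp (((XR n N i : ℂ) * w).re) ≤ 1 := by
      rw [exp_le_one_iff]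
      rw [Complex.re_ofReal_mul]
      have : 0 ≤ XR n N i := by unfold XR; positivity
      exact mul_nonpos_of_nonneg_of_nonpos this hw
    calc _ ≤ 2 * (1 : ℝ) := mul_le_mul h1 h2 (exp_pos _).le (by norm_num)
      _ = 2 := by norm_num
  refine (sum_le_card_nsmul _ _ _ this).trans ?_
  rw [card_range, nsmul_eq_mul]
  have : (r : ℝ) ≤ n := by exact_mod_cast hr
  push_cast
  linarith

theorem BlockHyp.S_le_right {r : ℕ} (hr : r ≤ n) {w : ℂ} (hw : 0 ≤ w.re) :
    ‖SS n N Q r w‖ ≤ 2 * (n + 1) * exp (N * w.re) := by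
  unfold SS
  refine (norm_sum_le _ _).trans ?_
  have : ∀ i ∈ range (r + 1), ‖(bb n N Q i : ℂ) * Complex.exp (XR n N i * w)‖ ≤ 2 * exp (N * w.re) := by
    intro i hi
    have hi' : i ≤ n := by have := mem_range.mp hi; omega
    rw [norm_mul, Complex.norm_real, Real.norm_eq_abs, Complex.norm_exp]
    have h1 := H.b_le hi'
    have h2 : exp (((XR n N i : ℂ) * w).re) ≤ exp (N * w.re) := by
      rw [exp_le_exp]
      rw [Complex.re_ofReal_mul]
      have : XR n N i ≤ N := by unfold XR; exact_mod_cast Xn_le_N n N i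
      gcongr
    exact mul_le_mul h1 h2 (exp_pos _).le (by norm_num)
  refine (sum_le_card_nsmul _ _ _ this).trans ?_
  rw [card_range, nsmul_eq_mul]
  have : (r : ℝ) ≤ n := by exact_mod_cast hr
  have h3 := exp_pos (N * w.re)
  push_cast
  nlinarith

theorem BlockHyp.Th_bound (w : ℂ) :
    ‖∑ i ∈ range (n + 1), (cc n N i : ℂ) * Complex.exp (XR n N i * w)‖
      ≤ (n + 1) * (3 / 2) * ((N * ‖w‖) ^ n / n.factorial * exp (N * ‖w‖)) := by
  have h := expsum_bound (n := n) (N := N) (a := cc n N) (q := fun _ => 0) (A := 3 / 2)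
    (fun i hi => H.c_le hi) (k := n) (by
      intro l hl
      have := sum_dw_pow H.nodes hl
      simp_rw [cc_eq, mul_assoc]
      rw [← mul_sum, this]
      simp) w
  simpa using h

theorem BlockHyp.R_bound (w : ℂ) :
    ‖∑ i ∈ range (n + 1), (qq (XR n N) n Q i : ℂ) * Complex.exp (XR n N i * w) - Polynomial.aeval w Q‖
      ≤ (n + 1) * exp (-30 * n) * ((N * ‖w‖) ^ (n + 1) / (n + 1).factorial * exp (N * ‖w‖)) := by
  have h := expsum_bound (n := n) (N := N) (a := qq (XR n N) n Q) (q := fun l => Q.coeff l)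
    (A := exp (-30 * n))
    (fun i hi => H.q_le hi) (k := n + 1) (by
      intro l hl
      exact sum_qq_pow H.nodes Q (by omega)) w
  rw [Polynomial.aeval_eq_sum_range' (show Q.natDegree < n + 1 by have := H.hQd; omega)]
  simpa [Algebra.smul_def] using h

theorem BlockHyp.near {w : ℂ} (hw : ‖w‖ ≤ 2 * W) :
    ‖SS n N Q n w - Polynomial.aeval w Q‖ ≤ exp (-50 * n) := by
  have h1 := H.Th_bound w
  have h2 := H.R_bound w
  have hn := H.hnr
  have hN0 := H.N0
  have hx : N * ‖w‖ ≤ exp (-60) := by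
    refine le_trans ?_ H.hW1
    gcongr
  have hx0 : 0 ≤ N * ‖w‖ := by positivity
  have h60 : exp (-60 : ℝ) ≤ 1 := by rw [exp_le_one_iff]; norm_num
  have hx1 : N * ‖w‖ ≤ 1 := hx.trans h60
  have he : exp (N * ‖w‖) ≤ 3 := by
    have := exp_one_lt_d9
    calc exp (N * ‖w‖) ≤ exp 1 := by gcongr
      _ ≤ 3 := by linarith
  have hp : (N * ‖w‖) ^ n ≤ exp (-60 * n) := by
    calc (N * ‖w‖) ^ n ≤ (exp (-60)) ^ n := by gcongr
      _ = exp (-60 * n) := by
        rw [← exp_nat_mul]
        congr 1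
        ring
  have hp1 : (N * ‖w‖) ^ (n + 1) ≤ exp (-60 * n) := by
    calc (N * ‖w‖) ^ (n + 1) = (N * ‖w‖) ^ n * (N * ‖w‖) := pow_succ _ _
      _ ≤ exp (-60 * n) * 1 := by gcongr
      _ = _ := mul_one _
  have hf1 : (1 : ℝ) ≤ n.factorial := by exact_mod_cast Nat.one_le_iff_ne_zero.mpr n.factorial_ne_zero
  have hf2 : (1 : ℝ) ≤ (n + 1).factorial := by
    exact_mod_cast Nat.one_le_iff_ne_zero.mpr (n + 1).factorial_ne_zero
  have b1 : (N * ‖w‖) ^ n / n.factorial * exp (N * ‖w‖) ≤ exp (-60 * n) * 3 := by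
    apply mul_le_mul _ he (exp_pos _).le (exp_pos _).le
    exact (div_le_self (by positivity) hf1).trans hp
  have b2 : (N * ‖w‖) ^ (n + 1) / (n + 1).factorial * exp (N * ‖w‖) ≤ exp (-60 * n) * 3 := by
    apply mul_le_mul _ he (exp_pos _).le (exp_pos _).le
    exact (div_le_self (by positivity) hf2).trans hp1
  have h30 : exp (-30 * (n : ℝ)) ≤ 1 := by rw [exp_le_one_iff]; linarith
  have e : SS n N Q n w - Polynomial.aeval w Q
      = ∑ i ∈ range (n + 1), (cc n N i : ℂ) * Complex.exp (XR n N i * w)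
        + (∑ i ∈ range (n + 1), (qq (XR n N) n Q i : ℂ) * Complex.exp (XR n N i * w)
          - Polynomial.aeval w Q) := by
    rw [SS_split]
    ring
  rw [e]
  refine (norm_add_le _ _).trans ?_
  have h10 : 9 * ((n : ℝ) + 1) ≤ exp (10 * n) := by
    have := add_one_le_exp (10 * (n : ℝ))
    linarith
  have e60 : exp (-60 * (n : ℝ)) * exp (10 * n) = exp (-50 * n) := by
    rw [← exp_add]
    congr 1
    ring
  have p60 := exp_pos (-60 * (n : ℝ))
  calc _ ≤ (n + 1) * (3 / 2) * (exp (-60 * n) * 3) + (n + 1) * exp (-30 * n) * (exp (-60 * n) * 3) := by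
        refine add_le_add (h1.trans ?_) (h2.trans ?_)
        · gcongr
        · gcongr
    _ ≤ (n + 1) * (3 / 2) * (exp (-60 * n) * 3) + (n + 1) * 1 * (exp (-60 * n) * 3) := by
        gcongr
    _ ≤ exp (-60 * n) * (9 * (n + 1)) := by nlinarith
    _ ≤ exp (-60 * n) * exp (10 * n) := by gcongr
    _ = exp (-50 * n) := e60

end

theorem norm_one_add_pow_sub_one_le (u : ℂ) (l : ℕ) : ‖(1 + u) ^ l - 1‖ ≤ exp (l * ‖u‖) - 1 := by
  have := Finset.norm_prod_one_add_sub_one_le (range l) (fun _ => u)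
  simpa using this

section
variable {n N : ℕ} {Q : Polynomial ℝ} {ρ W δ t₁ : ℝ} (H : BlockHyp n N Q ρ W δ t₁)
include H

theorem BlockHyp.gam_pos : 0 < gam n N := by
  have := H.N0
  have := H.hnr
  unfold gam
  positivity

theorem BlockHyp.Th_dev {t y : ℝ} (ht : t₁ ≤ t) (hy : |y| ≤ δ) :
    ‖gc (XR n N) n (t + y * Complex.I) - (gr (XR n N) n t : ℂ)‖ ≤ 1 / 20 * gr (XR n N) n t := by
  have ht0 : 0 < t := H.ht0.trans_le ht
  have hn := H.hnr
  have hN0 := H.N0
  have hδ0 := H.hδ0
  have hg := gr_nonneg H.nodes (le_refl n) ht0.le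
  have hdev := gc_dev H.nodes n le_rfl t y ht0.le
  set w : ℂ := t + y * Complex.I with hw
  set g := gr (XR n N) n t with hgdef
  have htC : (t : ℂ) ≠ 0 := by exact_mod_cast ht0.ne'
  let u : ℂ := (y / t : ℝ) * Complex.I
  have hu : ‖u‖ = |y| / t := by
    simp only [u]
    rw [norm_mul, Complex.norm_I, mul_one, Complex.norm_real, Real.norm_eq_abs, abs_div, abs_of_pos ht0]
  have hwt : w = t * (1 + u) := by
    simp only [hw, u]
    push_cast
    field_simp
  have hb0 : 0 ≤ |y| / t := by positivity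
  have hb : n * (|y| / t) ≤ 1 / 100 := by
    have h1 : |y| / t ≤ δ / t₁ := div_le_div₀ hδ0.le hy H.ht0 ht
    have h2 := H.ht1
    have h3 : n * (δ / t₁) ≤ 1 / 100 := by
      rw [← mul_div_assoc, div_le_iff₀ H.ht0]
      linarith
    calc n * (|y| / t) ≤ n * (δ / t₁) := by gcongr
      _ ≤ _ := h3
  have hz1 := norm_one_add_pow_sub_one_le u n
  rw [hu] at hz1
  have hz2 : ‖(1 + u)‖ ^ n ≤ exp (n * (|y| / t)) := by
    have : ‖1 + u‖ ≤ exp (|y| / t) := by
      calc ‖1 + u‖ ≤ ‖(1 : ℂ)‖ + ‖u‖ := norm_add_le _ _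
        _ = |y| / t + 1 := by rw [hu]; simp [add_comm]
        _ ≤ exp (|y| / t) := add_one_le_exp _
    calc ‖1 + u‖ ^ n ≤ (exp (|y| / t)) ^ n := by gcongr
      _ = exp (n * (|y| / t)) := by rw [← exp_nat_mul]
  have hXN : XR n N n = N := by
    unfold XR
    rw [Xn_last N H.hn0.ne']
  rw [hXN] at hdev
  have hNy : exp (N * |y|) - 1 ≤ exp (N * δ) - 1 := by gcongr
  have hNδ : N * δ ≤ 1 / 100 := by
    have h1 := H.hδ1
    have h2 : (1 : ℝ) ≤ (n : ℝ) ^ 3 := one_le_pow₀ (by linarith)
    have h3 : 0 < N * δ := by positivity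
    nlinarith
  -- divide
  have hgc : gc (XR n N) n w - (g : ℂ) = (gc (XR n N) n w * t ^ n - w ^ n * g) / t ^ n
      + ((1 + u) ^ n - 1) * g := by
    have hwp : w ^ n = t ^ n * (1 + u) ^ n := by rw [hwt, mul_pow]
    rw [hwp]
    field_simp
    ring
  rw [hgc]
  refine (norm_add_le _ _).trans ?_
  rw [norm_div, norm_mul, norm_pow, Complex.norm_real, Complex.norm_real, Real.norm_eq_abs,
    Real.norm_eq_abs, abs_of_pos ht0, abs_of_nonneg hg]
  have h1 : ‖gc (XR n N) n w * t ^ n - w ^ n * g‖ / t ^ n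
      ≤ (exp (N * δ) - 1) * exp (n * (|y| / t)) * g := by
    rw [div_le_iff₀ (by positivity)]
    refine hdev.trans ?_
    rw [hwt, norm_mul, mul_pow, Complex.norm_real, Real.norm_eq_abs, abs_of_pos ht0]
    have e0 : 0 ≤ exp (N * |y|) - 1 := by
      have : 0 ≤ N * |y| := by positivity
      linarith [add_one_le_exp (N * |y|)]
    have e1 : 0 ≤ exp (N * δ) - 1 := e0.trans hNy
    calc (exp (N * |y|) - 1) * (t ^ n * ‖1 + u‖ ^ n * g)
        ≤ (exp (N * δ) - 1) * (t ^ n * exp (n * (|y| / t)) * g) := by gcongr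
      _ = _ := by ring
  have h2 : exp (n * (|y| / t)) ≤ exp (1 / 100) := exp_le_exp.mpr hb
  have h3 : exp (N * δ) ≤ exp (1 / 100) := exp_le_exp.mpr hNδ
  have h4 : exp (1 / 100 : ℝ) ≤ 1 + 1 / 50 := by
    have := Real.abs_exp_sub_one_le (x := (1 / 100 : ℝ)) (by norm_num)
    have h := abs_le.mp this
    have : |(1 / 100 : ℝ)| = 1 / 100 := by norm_num
    linarith
  have h5 : 1 ≤ exp (N * δ) := one_le_exp (by positivity)
  have h6 : 1 ≤ exp (n * (|y| / t)) := one_le_exp (by positivity)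
  have h7 : (exp (N * δ) - 1) * exp (n * (|y| / t)) ≤ (1 / 50) * (1 + 1 / 50) := by
    apply mul_le_mul <;> linarith
  calc _ ≤ (exp (N * δ) - 1) * exp (n * (|y| / t)) * g + (exp (n * (|y| / t)) - 1) * g := by
        gcongr
    _ = ((exp (N * δ) - 1) * exp (n * (|y| / t)) + (exp (n * (|y| / t)) - 1)) * g := by ring
    _ ≤ 1 / 20 * g := by
        gcongr
        linarith

theorem BlockHyp.Q_dev {t y : ℝ} (ht : t₁ ≤ t) (hy : |y| ≤ δ) :
    ‖Polynomial.aeval (t + y * Complex.I : ℂ) Q - ((Q.eval t : ℝ) : ℂ)‖ ≤ 1 / 20 * Q.eval t := by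
  have ht0 : 0 < t := H.ht0.trans_le ht
  have hn := H.hnr
  have hδ0 := H.hδ0
  let u : ℂ := (y / t : ℝ) * Complex.I
  have htC : (t : ℂ) ≠ 0 := by exact_mod_cast ht0.ne'
  have hu : ‖u‖ = |y| / t := by
    simp only [u]
    rw [norm_mul, Complex.norm_I, mul_one, Complex.norm_real, Real.norm_eq_abs, abs_div, abs_of_pos ht0]
  have hwt : (t + y * Complex.I : ℂ) = t * (1 + u) := by
    simp only [u]
    push_cast
    field_simp
  have hb0 : 0 ≤ |y| / t := by positivity
  have hb : n * (|y| / t) ≤ 1 / 100 := by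
    have h1 : |y| / t ≤ δ / t₁ := div_le_div₀ hδ0.le hy H.ht0 ht
    have h2 := H.ht1
    have h3 : n * (δ / t₁) ≤ 1 / 100 := by
      rw [← mul_div_assoc, div_le_iff₀ H.ht0]
      linarith
    calc n * (|y| / t) ≤ n * (δ / t₁) := by gcongr
      _ ≤ _ := h3
  have h4 : exp (1 / 100 : ℝ) ≤ 1 + 1 / 50 := by
    have := Real.abs_exp_sub_one_le (x := (1 / 100 : ℝ)) (by norm_num)
    have h := abs_le.mp this
    have : |(1 / 100 : ℝ)| = 1 / 100 := by norm_num
    linarith
  rw [Polynomial.aeval_eq_sum_range' (show Q.natDegree < n + 1 by have := H.hQd; omega),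
    Polynomial.eval_eq_sum_range' (show Q.natDegree < n + 1 by have := H.hQd; omega)]
  push_cast
  rw [← sum_sub_distrib]
  refine (norm_sum_le _ _).trans ?_
  rw [mul_sum]
  apply sum_le_sum
  intro l hl
  have hl' : (l : ℝ) ≤ n := by
    have := mem_range.mp hl
    exact_mod_cast (show l ≤ n by omega)
  have e1 : Q.coeff l • (t + y * Complex.I : ℂ) ^ l - (Q.coeff l : ℂ) * (t : ℂ) ^ l
      = (Q.coeff l : ℂ) * (t : ℂ) ^ l * ((1 + u) ^ l - 1) := by
    rw [hwt, mul_pow]
    simp only [Algebra.smul_def, Complex.coe_algebraMap]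
    ring
  rw [e1, norm_mul, norm_mul, norm_pow, Complex.norm_real, Complex.norm_real, Real.norm_eq_abs,
    Real.norm_eq_abs, abs_of_pos ht0, abs_of_nonneg (H.hQ l)]
  have hz1 := norm_one_add_pow_sub_one_le u l
  rw [hu] at hz1
  have h5 : exp (l * (|y| / t)) ≤ exp (1 / 100) := by
    apply exp_le_exp.mpr
    calc (l : ℝ) * (|y| / t) ≤ n * (|y| / t) := by gcongr
      _ ≤ _ := hb
  have h6 := H.hQ l
  calc Q.coeff l * t ^ l * ‖(1 + u) ^ l - 1‖ ≤ Q.coeff l * t ^ l * (1 / 20) := by
        gcongr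
        linarith
    _ = _ := by ring

theorem BlockHyp.right {t y : ℝ} (ht : t₁ ≤ t) (hy : |y| ≤ δ) :
    ρ / 2 ≤ ‖SS n N Q n (t + y * Complex.I)‖ := by
  have ht0 : 0 < t := H.ht0.trans_le ht
  have hn := H.hnr
  have hN0 := H.N0
  have hδ0 := H.hδ0
  have hgpos := H.gam_pos
  have hg := gr_nonneg H.nodes (le_refl n) ht0.le
  have hT := H.Th_dev ht hy
  have hQd := H.Q_dev ht hy
  set w : ℂ := t + y * Complex.I with hw
  set g := gr (XR n N) n t with hgdef
  have hTh : ‖∑ i ∈ range (n + 1), (cc n N i : ℂ) * Complex.exp (XR n N i * w) - (gam n N * g : ℝ)‖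
      ≤ 1 / 20 * (gam n N * g) := by
    rw [Th_eq]
    push_cast
    rw [← mul_sub, norm_mul, Complex.norm_real, Real.norm_eq_abs, abs_of_pos hgpos]
    calc gam n N * _ ≤ gam n N * (1 / 20 * g) := by gcongr
      _ = _ := by ring
  have hNδ : N * δ ≤ 1 / 100 := by
    have h1 := H.hδ1
    have h2 : (1 : ℝ) ≤ (n : ℝ) ^ 3 := one_le_pow₀ (by linarith)
    have h3 : 0 < N * δ := by positivity
    nlinarith
  have hXN : XR n N n = N := by
    unfold XR
    rw [Xn_last N H.hn0.ne']
  have hyN : N * |y| ≤ 1 / 100 := by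
    calc N * |y| ≤ N * δ := by gcongr
      _ ≤ _ := hNδ
  have hρ := H.hρ0
  have hρ1 := H.hρ1
  rw [SS_split]
  set Th := ∑ i ∈ range (n + 1), (cc n N i : ℂ) * Complex.exp (XR n N i * w) with hThdef
  set Qt := ∑ i ∈ range (n + 1), (qq (XR n N) n Q i : ℂ) * Complex.exp (XR n N i * w) with hQtdef
  rcases le_total (N * t) (10 * n) with hc | hc
  · -- near region
    have hR := H.R_bound w
    rw [← hQtdef] at hR
    have hlow := gr_lower H.nodes n le_rfl t ht0.le
    rw [← hgdef] at hlow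
    have hwn : ‖w‖ ≤ t * exp (|y| / t) := by
      calc ‖w‖ ≤ ‖(t : ℂ)‖ + ‖(y : ℂ) * Complex.I‖ := norm_add_le _ _
        _ = t + |y| := by
          rw [norm_mul, Complex.norm_I, mul_one, Complex.norm_real, Complex.norm_real,
            Real.norm_eq_abs, Real.norm_eq_abs, abs_of_pos ht0]
        _ = t * (|y| / t + 1) := by field_simp; ring
        _ ≤ t * exp (|y| / t) := by
          have := add_one_le_exp (|y| / t)
          gcongr
    have hwn2 : ‖w‖ ≤ t + |y| := by
      calc ‖w‖ ≤ ‖(t : ℂ)‖ + ‖(y : ℂ) * Complex.I‖ := norm_add_le _ _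
        _ = t + |y| := by
          rw [norm_mul, Complex.norm_I, mul_one, Complex.norm_real, Complex.norm_real,
            Real.norm_eq_abs, Real.norm_eq_abs, abs_of_pos ht0]
    have hb : n * (|y| / t) ≤ 1 / 100 := by
      have h1 : |y| / t ≤ δ / t₁ := div_le_div₀ hδ0.le hy H.ht0 ht
      have h3 : n * (δ / t₁) ≤ 1 / 100 := by
        have h2 := H.ht1
        rw [← mul_div_assoc, div_le_iff₀ H.ht0]
        linarith
      calc n * (|y| / t) ≤ n * (δ / t₁) := by gcongr
        _ ≤ _ := h3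
    have hb0 : 0 ≤ |y| / t := by positivity
    have e2 : exp (1 / 50 : ℝ) ≤ 2 := by
      have := Real.abs_exp_sub_one_le (x := (1 / 50 : ℝ)) (by norm_num)
      have h := abs_le.mp this
      have : |(1 / 50 : ℝ)| = 1 / 50 := by norm_num
      linarith
    have hp : (N * ‖w‖) ^ (n + 1) ≤ 2 * (N * t) ^ (n + 1) := by
      calc (N * ‖w‖) ^ (n + 1) ≤ (N * (t * exp (|y| / t))) ^ (n + 1) := by gcongr
        _ = (N * t) ^ (n + 1) * exp ((n + 1 : ℕ) * (|y| / t)) := by
          rw [exp_nat_mul, ← mul_pow]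
          congr 1
          ring
        _ ≤ (N * t) ^ (n + 1) * exp (1 / 50) := by
          gcongr
          push_cast
          have : (1 : ℝ) * (|y| / t) ≤ n * (|y| / t) := by gcongr; linarith
          linarith
        _ ≤ (N * t) ^ (n + 1) * 2 := by gcongr
        _ = _ := by ring
    have he : exp (N * ‖w‖) ≤ 2 * exp (10 * n) := by
      calc exp (N * ‖w‖) ≤ exp (10 * n + 1 / 50) := by
            apply exp_le_exp.mpr
            calc N * ‖w‖ ≤ N * (t + |y|) := by gcongr
              _ = N * t + N * |y| := by ring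
              _ ≤ 10 * n + 1 / 50 := by linarith
        _ = exp (10 * n) * exp (1 / 50) := exp_add _ _
        _ ≤ exp (10 * n) * 2 := by gcongr
        _ = _ := by ring
    have hR2 : ‖Qt - Polynomial.aeval w Q‖ ≤ 1 / 10 * (gam n N * g) := by
      refine hR.trans ?_
      have hf : ((n + 1).factorial : ℝ) = (n + 1) * n.factorial := by
        rw [Nat.factorial_succ]
        push_cast
        ring
      have hf0 : (0 : ℝ) < n.factorial := by exact_mod_cast n.factorial_pos
      have h4 : (4 : ℝ) ^ n ≤ exp (2 * n) := by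
        have : (4 : ℝ) ≤ exp 2 := by
          have h := exp_one_gt_d9
          have : exp (2 : ℝ) = exp 1 * exp 1 := by rw [← exp_add]; norm_num
          rw [this]
          nlinarith
        calc (4 : ℝ) ^ n ≤ (exp 2) ^ n := by gcongr
          _ = exp (2 * n) := by rw [← exp_nat_mul]; congr 1; ring
      have h200 : 200 * (exp (2 * (n : ℝ)) * exp (-20 * n)) ≤ 1 := by
        rw [← exp_add]
        have : 2 * (n : ℝ) + -20 * n = -(18 * n) := by ring
        rw [this, exp_neg]
        have h18 : 200 ≤ exp (18 * (n : ℝ)) := by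
          have := add_one_le_exp (18 * (n : ℝ))
          linarith
        rw [← div_eq_mul_inv, div_le_one (exp_pos _)]
        exact h18
      have hNt0 : 0 ≤ (N : ℝ) * t := by positivity
      calc (n + 1) * exp (-30 * n) * ((N * ‖w‖) ^ (n + 1) / (n + 1).factorial * exp (N * ‖w‖))
          ≤ (n + 1) * exp (-30 * n) * ((2 * (N * t) ^ (n + 1)) / (n + 1).factorial * (2 * exp (10 * n))) := by
            gcongr
        _ = 4 * (exp (-30 * n) * exp (10 * n)) * ((N * t) ^ n / n.factorial) * (N * t) := by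
            rw [hf, pow_succ]
            field_simp
            ring
        _ ≤ 4 * (exp (-30 * n) * exp (10 * n)) * ((N * t) ^ n / n.factorial) * (10 * n) := by
            gcongr
        _ = 4 * exp (-20 * n) * ((N * t) ^ n / n.factorial) * (10 * n) := by
            rw [← exp_add]
            congr 4
            ring
        _ = (200 * (4 ^ n * exp (-20 * n))) * (n / 5) * (((N * t) / 4) ^ n / n.factorial) := by
            rw [div_pow]
            field_simp
            ring
        _ ≤ 1 * (n / 5) * (((N * t) / 4) ^ n / n.factorial) := by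
            gcongr
            refine le_trans ?_ h200
            gcongr
        _ = 1 / 10 * (gam n N * (t ^ n / n.factorial)) := by
            unfold gam
            rw [div_pow, div_pow, mul_pow]
            ring
        _ ≤ 1 / 10 * (gam n N * g) := by gcongr
    have hQt0 : Q.eval t ≥ ρ := by
      rw [Polynomial.eval_eq_sum_range]
      have : Q.coeff 0 * t ^ 0 ≤ ∑ i ∈ range (Q.natDegree + 1), Q.coeff i * t ^ i := by
        apply single_le_sum (f := fun i => Q.coeff i * t ^ i)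
        · intro i _
          have := H.hQ i
          positivity
        · exact mem_range.mpr (by omega)
      rw [H.hQ0] at this
      simpa using this
    have hGg : 0 ≤ gam n N * g := by positivity
    -- combine
    have key : (Th + Qt) = ((gam n N * g + Q.eval t : ℝ) : ℂ) + ((Th - (gam n N * g : ℝ))
        + (Qt - Polynomial.aeval w Q) + (Polynomial.aeval w Q - ((Q.eval t : ℝ) : ℂ))) := by
      push_cast
      ring
    have hnorm : ‖(Th - (gam n N * g : ℝ))
        + (Qt - Polynomial.aeval w Q) + (Polynomial.aeval w Q - ((Q.eval t : ℝ) : ℂ))‖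
        ≤ 1 / 20 * (gam n N * g) + 1 / 10 * (gam n N * g) + 1 / 20 * Q.eval t := by
      refine (norm_add_le _ _).trans (add_le_add ((norm_add_le _ _).trans (add_le_add hTh hR2)) hQd)
    have h1 : gam n N * g + Q.eval t ≤ ‖((gam n N * g + Q.eval t : ℝ) : ℂ)‖ := by
      rw [Complex.norm_real]
      exact le_abs_self _
    have h2 := norm_sub_norm_le ((gam n N * g + Q.eval t : ℝ) : ℂ) (-((Th - (gam n N * g : ℝ))
        + (Qt - Polynomial.aeval w Q) + (Polynomial.aeval w Q - ((Q.eval t : ℝ) : ℂ))))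
    rw [norm_neg, sub_neg_eq_add, ← key] at h2
    linarith
  · -- far region
    have hQb : ‖Qt‖ ≤ (n + 1) * (exp (-30 * n) * exp (N * t)) := by
      rw [hQtdef]
      refine (norm_sum_le _ _).trans ?_
      have : ∀ i ∈ range (n + 1), ‖(qq (XR n N) n Q i : ℂ) * Complex.exp (XR n N i * w)‖
          ≤ exp (-30 * n) * exp (N * t) := by
        intro i hi
        have hi' : i ≤ n := by have := mem_range.mp hi; omega
        rw [norm_mul, Complex.norm_real, Real.norm_eq_abs, Complex.norm_exp]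
        have h1 := H.q_le hi'
        have h2 : exp (((XR n N i : ℂ) * w).re) ≤ exp (N * t) := by
          rw [exp_le_exp]
          rw [Complex.re_ofReal_mul]
          have h3 : XR n N i ≤ N := by unfold XR; exact_mod_cast Xn_le_N n N i
          have h4 : w.re = t := by simp [hw]
          rw [h4]
          gcongr
        exact mul_le_mul h1 h2 (exp_pos _).le (exp_pos _).le
      refine (sum_le_card_nsmul _ _ _ this).trans ?_
      rw [card_range, nsmul_eq_mul]
      push_cast
      exact le_rfl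
    have ht00 : 0 ≤ 10 * (n : ℝ) / N := by positivity
    have htt : 10 * (n : ℝ) / N ≤ t := by
      rw [div_le_iff₀ hN0]
      linarith
    have hmono := gr_mono H.nodes (le_refl n) ht00 htt
    rw [hXN, ← hgdef] at hmono
    have hlow := gr_lower H.nodes n le_rfl _ ht00
    have hn0 : (0 : ℝ) < n := by linarith
    have e1 : (N : ℝ) * (10 * n / N) = 10 * n := by field_simp
    rw [e1] at hmono
    have hG : exp (N * t - 10 * n) ≤ gam n N * g := by
      have h1 : 1 ≤ gam n N * gr (XR n N) n (10 * n / N) := by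
        have hf0 : (0 : ℝ) < n.factorial := by exact_mod_cast n.factorial_pos
        have hfn : (n.factorial : ℝ) ≤ (n : ℝ) ^ n := by exact_mod_cast Nat.factorial_le_pow n
        calc (1 : ℝ) ≤ gam n N * ((10 * (n : ℝ) / N) ^ n / n.factorial) := by
              unfold gam
              have : 2 * (n : ℝ) * (N / 4) ^ n * ((10 * n / N) ^ n / n.factorial)
                  = (2 * n) * ((5 / 2) ^ n) * ((n : ℝ) ^ n / n.factorial) := by
                have e3 : ((N : ℝ) / 4) ^ n * (10 * n / N) ^ n = ((5 / 2) * n) ^ n := by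
                  rw [← mul_pow]
                  congr 1
                  field_simp
                  ring
                rw [show 2 * (n : ℝ) * (N / 4) ^ n * ((10 * n / N) ^ n / n.factorial)
                  = 2 * n * ((N / 4) ^ n * (10 * n / N) ^ n) / n.factorial by ring, e3, mul_pow]
                ring
              rw [this]
              have a1 : (1 : ℝ) ≤ 2 * n := by linarith
              have a2 : (1 : ℝ) ≤ (5 / 2) ^ n := one_le_pow₀ (by norm_num)
              have a3 : (1 : ℝ) ≤ (n : ℝ) ^ n / n.factorial := by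
                rw [le_div_iff₀ hf0]
                linarith
              have a4 : (1 : ℝ) ≤ 2 * n * (5 / 2) ^ n := one_le_mul_of_one_le_of_one_le a1 a2
              exact one_le_mul_of_one_le_of_one_le a4 a3
          _ ≤ _ := by gcongr
      have h2 : exp (N * t) * exp (-(N * t)) = 1 := by rw [← exp_add]; simp
      have h3 : exp (N * t - 10 * n) = exp (N * t) * exp (-(10 * (n : ℝ))) := by
        rw [← exp_add]
        congr 1
      rw [h3]
      have p1 := exp_pos (N * t)
      have p2 := exp_pos (-(N * t))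
      have p3 := exp_pos (-(10 * (n : ℝ)))
      calc exp (N * t) * exp (-(10 * (n : ℝ)))
          ≤ exp (N * t) * (exp (-(10 * (n : ℝ))) * (gam n N * gr (XR n N) n (10 * n / N))) := by
            gcongr
            exact le_mul_of_one_le_right p3.le h1
        _ = gam n N * (exp (N * t) * (exp (-(10 * (n : ℝ))) * gr (XR n N) n (10 * n / N))) := by ring
        _ ≤ gam n N * (exp (N * t) * (exp (-(N * t)) * g)) := by gcongr
        _ = gam n N * ((exp (N * t) * exp (-(N * t))) * g) := by ring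
        _ = gam n N * g := by rw [h2, one_mul]
    have hsmall : (n + 1) * (exp (-30 * n) * exp (N * t)) ≤ 1 / 10 * (gam n N * g) := by
      have h5 : exp (-30 * (n : ℝ)) * exp (N * t) = exp (-20 * n) * exp (N * t - 10 * n) := by
        rw [← exp_add, ← exp_add]
        congr 1
        ring
      rw [h5]
      have h6 : (n + 1) * exp (-20 * (n : ℝ)) ≤ 1 / 10 := by
        have : exp (-20 * (n : ℝ)) = (exp (20 * (n : ℝ)))⁻¹ := by
          rw [← exp_neg]
          congr 1
          ring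
        rw [this, ← div_eq_mul_inv, div_le_iff₀ (exp_pos _)]
        have := add_one_le_exp (20 * (n : ℝ))
        linarith
      calc (n + 1) * (exp (-20 * n) * exp (N * t - 10 * n))
          = ((n + 1) * exp (-20 * n)) * exp (N * t - 10 * n) := by ring
        _ ≤ 1 / 10 * (gam n N * g) := by
            apply mul_le_mul h6 hG (exp_pos _).le (by norm_num)
    have hG1 : 1 ≤ gam n N * g := by
      refine le_trans ?_ hG
      exact one_le_exp (by linarith)
    have key : (Th + Qt) = ((gam n N * g : ℝ) : ℂ) + ((Th - (gam n N * g : ℝ)) + Qt) := by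
      ring
    have hnorm : ‖(Th - (gam n N * g : ℝ)) + Qt‖ ≤ 1 / 20 * (gam n N * g) + 1 / 10 * (gam n N * g) := by
      refine (norm_add_le _ _).trans (add_le_add hTh (hQb.trans hsmall))
    have h1 : gam n N * g ≤ ‖((gam n N * g : ℝ) : ℂ)‖ := by
      rw [Complex.norm_real]
      exact le_abs_self _
    have h2 := norm_sub_norm_le ((gam n N * g : ℝ) : ℂ) (-((Th - (gam n N * g : ℝ)) + Qt))
    rw [norm_neg, sub_neg_eq_add, ← key] at h2
    linarith

end

end Pool.Agent.Lib.MP_a05d5a_an
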