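import Mathlib

namespace Pool.Agent.Lib.MP_a05d5a_an

open Real

/-- Vertical mean value inequality. -/
theorem vert_mvt {f f' : ℂ → ℂ} {h a b C : ℝ} (hb : |b| ≤ h)
    (hd : ∀ s : ℂ, s.re = a → |s.im| ≤ h → HasDerivAt f (f' s) s)
    (hC : ∀ s : ℂ, s.re = a → |s.im| ≤ h → ‖f' s‖ ≤ C) :
    ‖f (a + b * Complex.I) - f (a : ℂ)‖ ≤ C * |b| := by
  have hh : 0 ≤ h := (abs_nonneg b).trans hb
  let S : Set ℂ := {s | s.re = a ∧ |s.im| ≤ h}
  have hconv : Convex ℝ S := by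
    have h1 : Convex ℝ {s : ℂ | s.re = a} := convex_hyperplane (f := Complex.re) (Complex.reLm.isLinear) a
    have h2 : Convex ℝ {s : ℂ | |s.im| ≤ h} := by
      have : {s : ℂ | |s.im| ≤ h} = {s : ℂ | -h ≤ s.im} ∩ {s : ℂ | s.im ≤ h} := by
        ext s
        simp [abs_le]
      rw [this]
      exact (convex_halfSpace_ge (f := Complex.im) (Complex.imLm.isLinear) _).inter
        (convex_halfSpace_le (f := Complex.im) (Complex.imLm.isLinear) _)
    exact h1.inter h2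
  have hx : (a : ℂ) ∈ S := by simp [S, hh]
  have hy : (a + b * Complex.I : ℂ) ∈ S := by simp [S, hb]
  have := hconv.norm_image_sub_le_of_norm_hasDerivWithin_le (f := f) (f' := f') (C := C)
    (fun s hs => (hd s hs.1 hs.2).hasDerivWithinAt) (fun s hs => hC s hs.1 hs.2) hx hy
  refine this.trans ?_
  have : ‖(a + b * Complex.I : ℂ) - a‖ = |b| := by
    rw [add_sub_cancel_left, norm_mul, Complex.norm_I, mul_one, Complex.norm_real, Real.norm_eq_abs]
  rw [this]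

/-- Hypotheses of the crossing lemma. -/
structure CrossHyp (Φ Φ' : ℂ → ℂ) (c h x₀ Λ lam : ℝ) : Prop where
  hh : 0 < h
  hx0 : h ≤ x₀
  hx1 : x₀ ≤ 1
  hlam : 0 < lam
  hΛ : 12 * h * Λ ≤ lam * x₀
  hΛ0 : 0 ≤ Λ
  deriv : ∀ s : ℂ, |s.im| ≤ h → HasDerivAt Φ (Φ' s) s
  real : ∀ a : ℝ, (Φ a).im = 0
  dnonneg : ∀ a : ℝ, 0 ≤ (Φ' a).re
  dlow : ∀ a : ℝ, |a - c| ≤ 1 → lam * (a - c) ^ 2 ≤ (Φ' a).re
  dup : ∀ s : ℂ, |s.im| ≤ h → ‖Φ' s‖ ≤ Λ
  dup' : ∀ s : ℂ, |s.im| ≤ h → |s.re - c| ≤ 1 → ‖Φ' s‖ ≤ Λ * ((s.re - c) ^ 2 + h ^ 2)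
  zero : Φ c = 0

section
variable {Φ Φ' : ℂ → ℂ} {c h x₀ Λ lam : ℝ} (H : CrossHyp Φ Φ' c h x₀ Λ lam)
include H

theorem CrossHyp.rderiv (a : ℝ) : HasDerivAt (fun a : ℝ => (Φ a).re) (Φ' a).re a :=
  (H.deriv a (by simp; exact H.hh.le)).real_of_complex

theorem CrossHyp.mono : Monotone (fun a : ℝ => (Φ a).re) :=
  monotone_of_deriv_nonneg (fun a => (H.rderiv a).differentiableAt)
    (fun a => by rw [(H.rderiv a).deriv]; exact H.dnonneg a)

theorem CrossHyp.real_low {a : ℝ} (h1 : c ≤ a) (h2 : a ≤ c + 1) :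
    lam * (a - c) ^ 3 / 3 ≤ (Φ a).re := by
  have hd : ∀ t : ℝ, HasDerivAt (fun t : ℝ => (Φ t).re - lam * (t - c) ^ 3 / 3)
      ((Φ' t).re - lam * (t - c) ^ 2) t := by
    intro t
    have a1 : HasDerivAt (fun t : ℝ => lam * (t - c) ^ 3 / 3) (lam * (t - c) ^ 2) t := by
      have b1 : HasDerivAt (fun t : ℝ => t - c) 1 t := (hasDerivAt_id t).sub_const c
      have b2 := ((b1.fun_pow 3).const_mul lam).div_const 3
      refine b2.congr_deriv ?_
      simp
      ring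
    exact (H.rderiv t).fun_sub a1
  have hmono : MonotoneOn (fun t : ℝ => (Φ t).re - lam * (t - c) ^ 3 / 3) (Set.Icc c (c + 1)) := by
    apply monotoneOn_of_deriv_nonneg (convex_Icc _ _)
    · exact fun t _ => (hd t).continuousAt.continuousWithinAt
    · exact fun t _ => (hd t).differentiableAt.differentiableWithinAt
    · intro t ht
      rw [interior_Icc] at ht
      rw [(hd t).deriv]
      have := H.dlow t (by rw [abs_le]; constructor <;> linarith [ht.1, ht.2])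
      linarith
  have := hmono (Set.mem_Icc.mpr ⟨le_rfl, by linarith⟩) (Set.mem_Icc.mpr ⟨h1, h2⟩) h1
  simp only [H.zero, Complex.zero_re, sub_self] at this
  linarith

theorem CrossHyp.real_up {a : ℝ} (h1 : c - 1 ≤ a) (h2 : a ≤ c) :
    (Φ a).re ≤ -(lam * (c - a) ^ 3 / 3) := by
  have hd : ∀ t : ℝ, HasDerivAt (fun t : ℝ => (Φ t).re - lam * (t - c) ^ 3 / 3)
      ((Φ' t).re - lam * (t - c) ^ 2) t := by
    intro t
    have a1 : HasDerivAt (fun t : ℝ => lam * (t - c) ^ 3 / 3) (lam * (t - c) ^ 2) t := by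
      have b1 : HasDerivAt (fun t : ℝ => t - c) 1 t := (hasDerivAt_id t).sub_const c
      have b2 := ((b1.fun_pow 3).const_mul lam).div_const 3
      refine b2.congr_deriv ?_
      simp
      ring
    exact (H.rderiv t).fun_sub a1
  have hmono : MonotoneOn (fun t : ℝ => (Φ t).re - lam * (t - c) ^ 3 / 3) (Set.Icc (c - 1) c) := by
    apply monotoneOn_of_deriv_nonneg (convex_Icc _ _)
    · exact fun t _ => (hd t).continuousAt.continuousWithinAt
    · exact fun t _ => (hd t).differentiableAt.differentiableWithinAt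
    · intro t ht
      rw [interior_Icc] at ht
      rw [(hd t).deriv]
      have := H.dlow t (by rw [abs_le]; constructor <;> linarith [ht.1, ht.2])
      linarith
  have := hmono (Set.mem_Icc.mpr ⟨h1, h2⟩) (Set.mem_Icc.mpr ⟨by linarith, le_rfl⟩) h2
  simp only [H.zero, Complex.zero_re, sub_self] at this
  have e : lam * (c - a) ^ 3 / 3 = -(lam * (a - c) ^ 3 / 3) := by ring
  rw [e]
  linarith

theorem CrossHyp.dev (s : ℂ) (hs : |s.im| ≤ h) : ‖Φ s - Φ (s.re : ℂ)‖ ≤ Λ * h := by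
  have h1 := vert_mvt (f := Φ) (f' := Φ') (h := h) (a := s.re) (b := s.im) (C := Λ) hs
    (fun s' _ h' => H.deriv s' h') (fun s' _ h' => H.dup s' h')
  have e : (s.re : ℂ) + s.im * Complex.I = s := Complex.re_add_im s
  rw [e] at h1
  refine h1.trans ?_
  have := H.hΛ0
  gcongr

theorem CrossHyp.dev' (s : ℂ) (hs : |s.im| ≤ h) (hs2 : |s.re - c| ≤ 1) :
    ‖Φ s - Φ (s.re : ℂ)‖ ≤ Λ * ((s.re - c) ^ 2 + h ^ 2) * h := by
  have h1 := vert_mvt (f := Φ) (f' := Φ') (h := h) (a := s.re) (b := s.im)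
    (C := Λ * ((s.re - c) ^ 2 + h ^ 2)) hs
    (fun s' _ h' => H.deriv s' h') (fun s' h0 h' => by
      have := H.dup' s' h' (by rw [h0]; exact hs2)
      rw [h0] at this
      exact this)
  have e : (s.re : ℂ) + s.im * Complex.I = s := Complex.re_add_im s
  rw [e] at h1
  refine h1.trans ?_
  have := H.hΛ0
  gcongr

theorem CrossHyp.right {s : ℂ} (hs : |s.im| ≤ h) (hr : c + x₀ ≤ s.re) :
    lam * x₀ ^ 3 / 6 ≤ (Φ s).re := by
  have hh := H.hh
  have hx0 := H.hx0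
  have hx1 := H.hx1
  have hlam := H.hlam
  have hΛ := H.hΛ
  have hΛ0 := H.hΛ0
  have hx : 0 < x₀ := hh.trans_le hx0
  have hre : |(Φ s).re - (Φ (s.re : ℂ)).re| ≤ ‖Φ s - Φ (s.re : ℂ)‖ := by
    rw [← Complex.sub_re]
    exact Complex.abs_re_le_norm _
  rcases le_total s.re (c + 1) with hc | hc
  · have h1 := H.real_low (a := s.re) (by linarith) hc
    have h2 := H.dev' s hs (by rw [abs_le]; constructor <;> linarith)
    have h3 := abs_le.mp (hre.trans h2)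
    set d := s.re - c with hd
    have hdx : x₀ ≤ d := by linarith
    have hdev : Λ * (d ^ 2 + h ^ 2) * h ≤ lam * d ^ 3 / 6 := by
      have e1 : h ^ 2 ≤ d ^ 2 := by gcongr; linarith
      calc Λ * (d ^ 2 + h ^ 2) * h ≤ Λ * (d ^ 2 + d ^ 2) * h := by gcongr
        _ = (12 * h * Λ) * d ^ 2 / 6 := by ring
        _ ≤ (lam * x₀) * d ^ 2 / 6 := by gcongr
        _ ≤ (lam * d) * d ^ 2 / 6 := by gcongr
        _ = _ := by ring
    have h4 : lam * x₀ ^ 3 / 6 ≤ lam * d ^ 3 / 6 := by gcongr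
    linarith [h3.1]
  · have h1 := H.real_low (a := c + 1) (by linarith) le_rfl
    have h1' : lam * 1 / 3 ≤ (Φ ((c + 1 : ℝ) : ℂ)).re := by
      refine le_trans (le_of_eq ?_) h1
      ring
    have h1'' := H.mono hc
    simp only at h1''
    have h2 := H.dev s hs
    have h3 := abs_le.mp (hre.trans h2)
    have h4 : Λ * h ≤ lam / 12 := by
      have : lam * x₀ ≤ lam * 1 := by gcongr
      linarith
    have h5 : lam * x₀ ^ 3 / 6 ≤ lam * 1 / 6 := by
      have : x₀ ^ 3 ≤ 1 := pow_le_one₀ hx.le hx1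
      gcongr
    linarith [h3.1]

theorem CrossHyp.left {s : ℂ} (hs : |s.im| ≤ h) (hr : s.re ≤ c - x₀) :
    (Φ s).re ≤ -(lam * x₀ ^ 3 / 6) := by
  have hh := H.hh
  have hx0 := H.hx0
  have hx1 := H.hx1
  have hlam := H.hlam
  have hΛ := H.hΛ
  have hΛ0 := H.hΛ0
  have hx : 0 < x₀ := hh.trans_le hx0
  have hre : |(Φ s).re - (Φ (s.re : ℂ)).re| ≤ ‖Φ s - Φ (s.re : ℂ)‖ := by
    rw [← Complex.sub_re]
    exact Complex.abs_re_le_norm _
  rcases le_total (c - 1) s.re with hc | hc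
  · have h1 := H.real_up (a := s.re) hc (by linarith)
    have h2 := H.dev' s hs (by rw [abs_le]; constructor <;> linarith)
    have h3 := abs_le.mp (hre.trans h2)
    set d := c - s.re with hd
    have hdx : x₀ ≤ d := by linarith
    have e0 : (s.re - c) ^ 2 = d ^ 2 := by rw [hd]; ring
    rw [e0] at h3
    have hdev : Λ * (d ^ 2 + h ^ 2) * h ≤ lam * d ^ 3 / 6 := by
      have e1 : h ^ 2 ≤ d ^ 2 := by gcongr; linarith
      calc Λ * (d ^ 2 + h ^ 2) * h ≤ Λ * (d ^ 2 + d ^ 2) * h := by gcongr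
        _ = (12 * h * Λ) * d ^ 2 / 6 := by ring
        _ ≤ (lam * x₀) * d ^ 2 / 6 := by gcongr
        _ ≤ (lam * d) * d ^ 2 / 6 := by gcongr
        _ = _ := by ring
    have h4 : lam * x₀ ^ 3 / 6 ≤ lam * d ^ 3 / 6 := by gcongr
    linarith [h3.2]
  · have h1 := H.real_up (a := c - 1) le_rfl (by linarith)
    have h1' : (Φ ((c - 1 : ℝ) : ℂ)).re ≤ -(lam * 1 / 3) := by
      refine h1.trans (le_of_eq ?_)
      ring
    have h1'' := H.mono hc
    simp only at h1''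
    have h2 := H.dev s hs
    have h3 := abs_le.mp (hre.trans h2)
    have h4 : Λ * h ≤ lam / 12 := by
      have : lam * x₀ ≤ lam * 1 := by gcongr
      linarith
    have h5 : lam * x₀ ^ 3 / 6 ≤ lam * 1 / 6 := by
      have : x₀ ^ 3 ≤ 1 := pow_le_one₀ hx.le hx1
      gcongr
    linarith [h3.2]

theorem CrossHyp.mid {s : ℂ} (hs : |s.im| ≤ h) (hr : |s.re - c| ≤ x₀) :
    |(Φ s).im| ≤ Λ * (x₀ ^ 2 + h ^ 2) * h := by
  have hh := H.hh
  have hx0 := H.hx0
  have hx1 := H.hx1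
  have hΛ0 := H.hΛ0
  have h2 := H.dev' s hs (hr.trans hx1)
  have him : |(Φ s).im - (Φ (s.re : ℂ)).im| ≤ ‖Φ s - Φ (s.re : ℂ)‖ := by
    rw [← Complex.sub_im]
    exact Complex.abs_im_le_norm _
  rw [H.real, sub_zero] at him
  refine (him.trans h2).trans ?_
  have : (s.re - c) ^ 2 ≤ x₀ ^ 2 := by
    rw [← sq_abs]
    gcongr
  gcongr

end

end Pool.Agent.Lib.MP_a05d5a_an
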