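import Mathlib

namespace Pool.Agent.Lib.MP_a05d5a_an

open Real Finset

/-- Pointwise data for the domination argument. -/
structure PtHyp (A0 F Z0 P0 : ℂ) (E R B P P1 : ℕ → ℂ) (x : ℕ → ℝ)
    (m G v y Δ x₀ ν C SW s₁ vl : ℝ) : Prop where
  A0ne : A0 ≠ 0
  hF : ‖F - A0‖ ≤ ‖A0‖ / 100
  xs : ∀ j : ℕ, x j = x 0 - j * Δ
  e0 : E 0 = Complex.I * A0 * P0
  e1 : ∀ j, E (j + 1) = Complex.I * E j * P j
  r0 : R 0 = Complex.I * A0 * Z0
  r1 : ∀ j, R (j + 1) = Complex.I * E j * P1 j
  P0ne : P0 ≠ 0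
  Pne : ∀ j, P j ≠ 0
  P1ne : ∀ j, P1 j ≠ 0
  Z0ne : Z0 ≠ 0
  pl : ∀ j, x j ≤ v - x₀ → ‖P j‖ ≤ 1 / 100
  pr : ∀ j, v + x₀ ≤ x j → 100 ≤ ‖P j‖
  pm : ∀ j, |x j - v| ≤ x₀ → |(P j).im| ≤ ‖P j‖ / 50
  pf : ∀ j, v + Δ - x₀ ≤ x j → exp (G + 2 * m) ≤ ‖P j‖
  p1l : ∀ j, x j ≤ 1 - x₀ → ‖P1 j‖ ≤ 1 / (100 * C)
  p1r : ∀ j, 1 + x₀ ≤ x j → 10 ≤ ‖P1 j‖ * vl
  p1m : ∀ j, |x j - 1| ≤ x₀ → ‖P1 j - (‖P1 j‖ : ℝ)‖ ≤ ‖P1 j‖ / 50
  p1g : ∀ j, ‖P1 j‖ ≤ exp (m * x j)
  p0r : -s₁ / 2 ≤ x 0 → 1000 ≤ ‖P0‖
  p0m : x 0 ≤ -s₁ / 2 → |P0.im| ≤ ‖P0‖ / 50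
  p0l : x 0 ≤ -2 * s₁ → ‖P0‖ ≤ 1 / 100
  z0l : x 0 ≤ -SW → ‖Z0‖ ≤ 1 / (100 * C)
  z0r : 0 ≤ x 0 → exp (G + 2 * m) ≤ ‖Z0‖
  z0m : ‖Z0 - (‖Z0‖ : ℝ)‖ ≤ ‖Z0‖ / 50
  b1 : ∀ j, -(7 * Δ) ≤ x j → x j ≤ 7 * Δ → ‖B j - E j‖ ≤ ‖E j‖ / 50
  b10 : -SW ≤ x 0 → x 0 ≤ 7 * Δ → ‖B 0 - E 0‖ ≤ ‖E 0‖ / 50
  b2 : ∀ j, x j ≤ 0 → ‖B j‖ ≤ C * ‖R j‖
  b3 : ∀ j, 0 ≤ x j → ‖B j‖ ≤ C * ‖R j‖ * exp (ν * x j)
  b4 : ∀ j, 0 ≤ x j → ‖R j‖ * exp (-(G + m)) ≤ ‖B j‖
  qs : ∀ j, 0 ≤ x j → ‖R j‖ ≤ ‖E j‖ * exp (G + m)
  rr : ∀ j, 0 ≤ x j → ‖R j‖ ≤ ‖R (j + 1)‖ * exp (G + m - m * x j)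
  -- numerical facts
  hvy : v + y = Δ
  hy1 : 1 ≤ y
  hy2 : y ≤ 101 / 100
  hv : 1000 ≤ v
  hx0 : 0 < x₀
  hx1 : x₀ ≤ 1 / 100
  hC : 1 ≤ C
  hm : 2 ≤ m
  hG : 0 ≤ G
  hCm : C * exp (-(m / 2)) ≤ 1 / 400
  hν0 : 0 ≤ ν
  hν1 : ν * (4 * v + 2 * Δ) ≤ m / 2
  hν2 : ν ≤ m / 2
  hGm : G + m ≤ 11 / 10 * (m * v)
  hs1 : 2 * v ≤ s₁
  hSW : 2 * s₁ ≤ SW
  hvl0 : 0 < vl
  hvl1 : vl ≤ 1 / 5
  hfar : 6 * C * exp (-(m * v / 5)) ≤ vl
  hzv : 10 ≤ exp (G + 2 * m) * vl

theorem inv_im_abs (z : ℂ) : |(z⁻¹).im| = |z.im| / ‖z‖ ^ 2 := by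
  rw [Complex.inv_im, abs_div, abs_neg, Complex.normSq_eq_norm_sq]
  congr 1
  exact abs_of_nonneg (by positivity)

/-- reverse geometric sums -/
theorem geom_rev {a : ℝ} (h0 : 0 ≤ a) (h1 : a ≤ 1 / 2) (q : ℕ) :
    ∑ l ∈ range q, a ^ (q - l) ≤ 2 * a := by
  induction q with
  | zero => simp; exact h0
  | succ q ih =>
    rw [sum_range_succ]
    have : ∑ l ∈ range q, a ^ (q + 1 - l) = a * ∑ l ∈ range q, a ^ (q - l) := by
      rw [mul_sum]
      apply sum_congr rfl
      intro l hl
      have := mem_range.mp hl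
      rw [show q + 1 - l = (q - l) + 1 by omega, pow_succ]
      ring
    rw [this]
    have e : q + 1 - q = 1 := by omega
    rw [e, pow_one]
    nlinarith

theorem geom_fwd {a : ℝ} (h0 : 0 ≤ a) (h1 : a ≤ 1 / 2) (q : ℕ) :
    ∑ l ∈ range q, a ^ (l + 1) ≤ 2 * a := by
  have : ∑ l ∈ range q, a ^ (l + 1) = ∑ l ∈ range q, a ^ (q - l) := by
    rw [← sum_range_reflect]
    apply sum_congr rfl
    intro l hl
    have := mem_range.mp hl
    congr 1
    omega
  rw [this]
  exact geom_rev h0 h1 q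

section
variable {A0 F Z0 P0 : ℂ} {E R B P P1 : ℕ → ℂ} {x : ℕ → ℝ}
    {m G v y Δ x₀ ν C SW s₁ vl : ℝ} (H : PtHyp A0 F Z0 P0 E R B P P1 x m G v y Δ x₀ ν C SW s₁ vl)
include H

theorem PtHyp.Ene : ∀ j, E j ≠ 0 := by
  intro j
  induction j with
  | zero =>
    rw [H.e0]
    exact mul_ne_zero (mul_ne_zero Complex.I_ne_zero H.A0ne) H.P0ne
  | succ j ih =>
    rw [H.e1]
    exact mul_ne_zero (mul_ne_zero Complex.I_ne_zero ih) (H.Pne j)

theorem PtHyp.normE (j : ℕ) : ‖E (j + 1)‖ = ‖E j‖ * ‖P j‖ := by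
  rw [H.e1, norm_mul, norm_mul, Complex.norm_I, one_mul]

theorem PtHyp.normE0 : ‖E 0‖ = ‖A0‖ * ‖P0‖ := by
  rw [H.e0, norm_mul, norm_mul, Complex.norm_I, one_mul]

theorem PtHyp.normR (j : ℕ) : ‖R (j + 1)‖ = ‖E j‖ * ‖P1 j‖ := by
  rw [H.r1, norm_mul, norm_mul, Complex.norm_I, one_mul]

theorem PtHyp.normR0 : ‖R 0‖ = ‖A0‖ * ‖Z0‖ := by
  rw [H.r0, norm_mul, norm_mul, Complex.norm_I, one_mul]

theorem PtHyp.Epos (j : ℕ) : 0 < ‖E j‖ := norm_pos_iff.mpr (H.Ene j)

theorem PtHyp.A0pos : 0 < ‖A0‖ := norm_pos_iff.mpr H.A0ne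

theorem PtHyp.a_half : exp (-(m / 2)) ≤ 1 / 2 := by
  have h1 := H.hCm
  have h2 := H.hC
  have := exp_pos (-(m / 2))
  nlinarith

/-- phase information from the ratio of consecutive main terms -/
theorem PtHyp.P_le {j : ℕ} (h : ‖P j‖ ≤ 1) : x j < v + x₀ ∧ |(P j).im| ≤ 1 / 50 := by
  have hx : x j < v + x₀ := by
    by_contra hc
    have := H.pr j (not_lt.mp hc)
    linarith
  refine ⟨hx, ?_⟩
  rcases le_total (x j) (v - x₀) with hc | hc
  · exact (Complex.abs_im_le_norm _).trans ((H.pl j hc).trans (by norm_num))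
  · have := H.pm j (by rw [abs_le]; constructor <;> linarith)
    linarith

theorem PtHyp.P_ge {j : ℕ} (h : 1 ≤ ‖P j‖) : v - x₀ < x j ∧ |((P j)⁻¹).im| ≤ 1 / 50 := by
  have hx : v - x₀ < x j := by
    by_contra hc
    have := H.pl j (not_lt.mp hc)
    linarith
  refine ⟨hx, ?_⟩
  rcases le_total (v + x₀) (x j) with hc | hc
  · have h1 := H.pr j hc
    refine (Complex.abs_im_le_norm _).trans ?_
    rw [norm_inv, ← one_div]
    exact one_div_le_one_div_of_le (by norm_num) (by linarith)
  · have h1 := H.pm j (by rw [abs_le]; constructor <;> linarith)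
    rw [inv_im_abs, div_le_iff₀ (by positivity)]
    nlinarith

theorem PtHyp.P0_le (h : ‖P0‖ ≤ 1) : x 0 < -s₁ / 2 ∧ |P0.im| ≤ 1 / 50 := by
  have hx : x 0 < -s₁ / 2 := by
    by_contra hc
    have := H.p0r (not_lt.mp hc)
    linarith
  refine ⟨hx, ?_⟩
  have := H.p0m hx.le
  linarith

theorem PtHyp.P0_ge (h : 1 ≤ ‖P0‖) : -2 * s₁ < x 0 ∧ |(P0⁻¹).im| ≤ 1 / 50 := by
  have hx : -2 * s₁ < x 0 := by
    by_contra hc
    have := H.p0l (not_lt.mp hc)
    linarith
  refine ⟨hx, ?_⟩
  rcases le_total (-s₁ / 2) (x 0) with hc | hc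
  · have h1 := H.p0r hc
    refine (Complex.abs_im_le_norm _).trans ?_
    rw [norm_inv, ← one_div]
    exact one_div_le_one_div_of_le (by norm_num) (by linarith)
  · have h1 := H.p0m hc
    rw [inv_im_abs, div_le_iff₀ (by positivity)]
    nlinarith

/-- decay of earlier main terms -/
theorem PtHyp.decay (l : ℕ) : ∀ k : ℕ, (∀ j, l ≤ j → j < l + k → v + Δ - x₀ ≤ x j) →
    ‖E l‖ ≤ ‖E (l + k)‖ * exp (-(G + 2 * m) * k) := by
  intro k
  induction k with
  | zero => intro _; simp
  | succ k ih =>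
    intro h
    have h1 := ih (fun j hj1 hj2 => h j hj1 (by omega))
    have h2 := H.pf (l + k) (h (l + k) (by omega) (by omega))
    have h3 := H.normE (l + k)
    rw [← add_assoc, h3]
    have h4 : exp (-(G + 2 * m) * ((k + 1 : ℕ) : ℝ)) = exp (-(G + 2 * m) * k) * exp (-(G + 2 * m)) := by
      rw [← exp_add]
      congr 1
      push_cast
      ring
    rw [h4]
    have h5 : 1 ≤ ‖P (l + k)‖ * exp (-(G + 2 * m)) := by
      have : exp (G + 2 * m) * exp (-(G + 2 * m)) = 1 := by rw [← exp_add]; simp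
      rw [← this]
      gcongr
    have h6 := H.Epos (l + k)
    have h7 := exp_pos (-(G + 2 * m) * k)
    calc ‖E l‖ ≤ ‖E (l + k)‖ * exp (-(G + 2 * m) * k) := h1
      _ ≤ (‖E (l + k)‖ * exp (-(G + 2 * m) * k)) * (‖P (l + k)‖ * exp (-(G + 2 * m))) :=
        le_mul_of_one_le_right (by positivity) h5
      _ = _ := by ring

/-- left part of the sum, index `q + 1` -/
theorem PtHyp.left_succ {q : ℕ} (h1 : v - x₀ ≤ x q) (h2 : x q ≤ 4 * v + Δ)
    (hmax : ‖E q‖ ≤ ‖E (q + 1)‖) :
    ‖F + ∑ l ∈ range q, B l‖ ≤ 1 / 100 * ‖E (q + 1)‖ := by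
  have hΔ := H.hvy
  have hy1 := H.hy1
  have hy2 := H.hy2
  have hv := H.hv
  have hx0 := H.hx0
  have hx1 := H.hx1
  have hC := H.hC
  have hm := H.hm
  have hG := H.hG
  have hEq := H.Epos q
  have hE0q : ∀ l < q, v + Δ - x₀ ≤ x l := by
    intro l hl
    have h3 := H.xs l
    have h4 := H.xs q
    have h5 : (l : ℝ) + 1 ≤ q := by exact_mod_cast hl
    have : Δ * (l + 1) ≤ Δ * q := by
      apply mul_le_mul_of_nonneg_left h5
      linarith
    nlinarith
  have hdec : ∀ l < q, ‖E l‖ ≤ ‖E q‖ * exp (-(G + 2 * m) * ((q - l : ℕ) : ℝ)) := by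
    intro l hl
    have := H.decay l (q - l) (fun j hj1 hj2 => hE0q j (by omega))
    rwa [show l + (q - l) = q by omega] at this
  -- F
  have hF1 : ‖F‖ ≤ 101 / 100 * ‖A0‖ := by
    have h := norm_sub_norm_le F A0
    have := H.hF
    linarith
  have hP0 : 1000 ≤ ‖P0‖ := by
    apply H.p0r
    have h4 := H.xs q
    have : 0 ≤ (q : ℝ) * Δ := by
      have : 0 ≤ Δ := by linarith
      positivity
    have hs1 := H.hs1
    linarith
  have hE0 : ‖E 0‖ ≤ ‖E q‖ := by
    rcases Nat.eq_zero_or_pos q with h | h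
    · rw [h]
    · refine (hdec 0 h).trans ?_
      apply mul_le_of_le_one_right hEq.le
      rw [exp_le_one_iff]
      have : 0 ≤ (G + 2 * m) * ((q - 0 : ℕ) : ℝ) := by positivity
      linarith
  have hA0 : ‖A0‖ ≤ ‖E q‖ / 1000 := by
    have h := H.normE0
    have := H.A0pos
    rw [h] at hE0
    rw [le_div_iff₀ (by norm_num)]
    nlinarith
  -- blocks
  have hB : ∀ l ∈ range q, ‖B l‖ ≤ C * ‖E q‖ * exp (-(m / 2)) ^ (q - l) := by
    intro l hl
    have hl' := mem_range.mp hl
    have hxl := hE0q l hl'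
    have hxl0 : 0 ≤ x l := by linarith
    have a1 := H.b3 l hxl0
    have a2 := H.qs l hxl0
    have a3 := hdec l hl'
    set k : ℝ := ((q - l : ℕ) : ℝ) with hk
    have hk1 : 1 ≤ k := by
      rw [hk]
      exact_mod_cast (show 1 ≤ q - l by omega)
    have hkr : k = q - l := by
      rw [hk, Nat.cast_sub hl'.le]
    have hxlk : x l = x q + k * Δ := by
      rw [H.xs l, H.xs q, hkr]
      ring
    have hxle : x l ≤ (4 * v + 2 * Δ) * k := by
      rw [hxlk]
      nlinarith
    have hνx : ν * x l ≤ m / 2 * k := by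
      calc ν * x l ≤ ν * ((4 * v + 2 * Δ) * k) := mul_le_mul_of_nonneg_left hxle H.hν0
        _ = (ν * (4 * v + 2 * Δ)) * k := by ring
        _ ≤ m / 2 * k := by
          apply mul_le_mul_of_nonneg_right H.hν1 (by linarith)
    have hexp : exp (-(G + 2 * m) * k) * exp (G + m) * exp (ν * x l) ≤ exp (-(m / 2)) ^ (q - l) := by
      rw [← exp_add, ← exp_add, ← exp_nat_mul]
      apply exp_le_exp.mpr
      rw [← hk]
      nlinarith
    calc ‖B l‖ ≤ C * ‖R l‖ * exp (ν * x l) := a1
      _ ≤ C * (‖E l‖ * exp (G + m)) * exp (ν * x l) := by gcongr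
      _ ≤ C * ((‖E q‖ * exp (-(G + 2 * m) * k)) * exp (G + m)) * exp (ν * x l) := by gcongr
      _ = C * ‖E q‖ * (exp (-(G + 2 * m) * k) * exp (G + m) * exp (ν * x l)) := by ring
      _ ≤ C * ‖E q‖ * exp (-(m / 2)) ^ (q - l) := by gcongr
  have hsum : ‖∑ l ∈ range q, B l‖ ≤ 1 / 200 * ‖E q‖ := by
    refine (norm_sum_le _ _).trans ((sum_le_sum hB).trans ?_)
    rw [← mul_sum]
    have h := geom_rev (exp_pos (-(m / 2))).le H.a_half q
    calc C * ‖E q‖ * ∑ l ∈ range q, exp (-(m / 2)) ^ (q - l) ≤ C * ‖E q‖ * (2 * exp (-(m / 2))) := by gcongr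
      _ = 2 * (C * exp (-(m / 2))) * ‖E q‖ := by ring
      _ ≤ 2 * (1 / 400) * ‖E q‖ := by
        have := H.hCm
        gcongr
      _ = _ := by ring
  calc ‖F + ∑ l ∈ range q, B l‖ ≤ ‖F‖ + ‖∑ l ∈ range q, B l‖ := norm_add_le _ _
    _ ≤ 1 / 100 * ‖E q‖ := by linarith
    _ ≤ 1 / 100 * ‖E (q + 1)‖ := by gcongr

/-- right part of the sum -/
theorem PtHyp.right_far {p k : ℕ} {X : ℝ} (hX : 0 ≤ X) (h1 : x p ≤ -(1 / 2))
    (hmax : ∀ l, p ≤ l → l < p + k → ‖E l‖ ≤ X) :
    ‖∑ l ∈ range k, B (p + 1 + l)‖ ≤ 1 / 200 * X := by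
  have hC := H.hC
  have hm := H.hm
  have hΔ := H.hvy
  have hy1 := H.hy1
  have hv := H.hv
  have hB : ∀ l ∈ range k, ‖B (p + 1 + l)‖ ≤ C * X * exp (-(m / 2)) ^ (l + 1) := by
    intro l hl
    have hl' := mem_range.mp hl
    have hl0 : (0 : ℝ) ≤ l := Nat.cast_nonneg l
    have hxl : x (p + l) ≤ -(1 / 2) - l := by
      rw [H.xs] at h1 ⊢
      push_cast at h1 ⊢
      nlinarith
    have hxl2 : x (p + 1 + l) ≤ 0 := by
      have : x (p + 1 + l) = x (p + l) - Δ := by
        rw [H.xs (p + 1 + l), H.xs (p + l)]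
        push_cast
        ring
      linarith
    have a1 := H.b2 _ hxl2
    have a2 := H.normR (p + l)
    rw [show p + l + 1 = p + 1 + l by ring] at a2
    have a3 := H.p1g (p + l)
    have a4 := hmax (p + l) (by omega) (by omega)
    have hexp : exp (m * x (p + l)) ≤ exp (-(m / 2)) ^ (l + 1) := by
      rw [← exp_nat_mul]
      apply exp_le_exp.mpr
      push_cast
      nlinarith
    calc ‖B (p + 1 + l)‖ ≤ C * ‖R (p + 1 + l)‖ := a1
      _ = C * (‖E (p + l)‖ * ‖P1 (p + l)‖) := by rw [a2]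
      _ ≤ C * (X * exp (-(m / 2)) ^ (l + 1)) := by
        gcongr
        exact a3.trans hexp
      _ = _ := by ring
  refine (norm_sum_le _ _).trans ((sum_le_sum hB).trans ?_)
  rw [← mul_sum]
  have h := geom_fwd (exp_pos (-(m / 2))).le H.a_half k
  calc C * X * ∑ l ∈ range k, exp (-(m / 2)) ^ (l + 1) ≤ C * X * (2 * exp (-(m / 2))) := by gcongr
    _ = 2 * (C * exp (-(m / 2))) * X := by ring
    _ ≤ 2 * (1 / 400) * X := by
      have := H.hCm
      gcongr
    _ = _ := by ring

omit H in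
theorem re_div_ge (a b : ℂ) {c : ℝ} (h : ‖a‖ ≤ c * ‖b‖) (hc : 0 ≤ c) : -c ≤ (a / b).re := by
  have h1 := Complex.abs_re_le_norm (a / b)
  rw [norm_div] at h1
  have h2 : ‖a‖ / ‖b‖ ≤ c := div_le_of_le_mul₀ (norm_nonneg _) hc h
  have := (abs_le.mp (h1.trans h2)).1
  exact this

/-- contribution of the later blocks -/
theorem PtHyp.right_re {q k : ℕ} (hmax : ∀ l, q ≤ l → l < q + 1 + k → ‖E l‖ ≤ ‖E q‖)
    (hk : x q ≤ 7 * Δ) :
    -(1 / 20) ≤ ((∑ l ∈ range k, B (q + 1 + l)) / E q).re := by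
  have hΔ := H.hvy
  have hy1 := H.hy1
  have hv := H.hv
  have hx1 := H.hx1
  have hEq := H.Epos q
  rcases k with _ | k
  · simp
  · have hE1 : ‖E (q + 1)‖ ≤ ‖E q‖ := hmax (q + 1) (by omega) (by omega)
    have hP : ‖P q‖ ≤ 1 := by
      rw [H.normE] at hE1
      by_contra hc
      have := mul_lt_mul_of_pos_left (not_le.mp hc) hEq
      linarith
    obtain ⟨hxq, him⟩ := H.P_le hP
    have hx1q : x (q + 1) = x q - Δ := by
      rw [H.xs (q + 1), H.xs q]
      push_cast
      ring
    rw [sum_range_succ', add_zero]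
    have e1 : ∑ l ∈ range k, B (q + 1 + (l + 1)) = ∑ l ∈ range k, B (q + 1 + 1 + l) :=
      sum_congr rfl (fun l _ => by rw [show q + 1 + (l + 1) = q + 1 + 1 + l by ring])
    rw [e1]
    have hfar := H.right_far (p := q + 1) (k := k) hEq.le (by rw [hx1q]; linarith)
      (fun l h1 h2 => hmax l (by omega) (by omega))
    have hre1 := re_div_ge _ (E q) hfar (by norm_num)
    rw [add_div, Complex.add_re]
    have hre2 : -(1 / 25) ≤ (B (q + 1) / E q).re := by
      rcases le_total (-(7 * Δ)) (x (q + 1)) with hc | hc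
      · have hb := H.b1 (q + 1) hc (by linarith)
        have hb2 : ‖B (q + 1) - E (q + 1)‖ ≤ 1 / 50 * ‖E q‖ := by linarith
        have h1 := re_div_ge _ (E q) hb2 (by norm_num)
        have h2 : B (q + 1) / E q = (B (q + 1) - E (q + 1)) / E q + Complex.I * P q := by
          have : E q ≠ 0 := H.Ene q
          rw [H.e1 q]
          field_simp
          ring
        rw [h2, Complex.add_re]
        have h3 : (Complex.I * P q).re = -(P q).im := by simp
        rw [h3]
        have := (abs_le.mp him).2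
        linarith
      · have h1 := H.b2 (q + 1) (by linarith)
        rw [H.normR] at h1
        have h2 := H.p1g q
        have h3 : exp (m * x q) ≤ exp (-(m / 2)) := by
          apply exp_le_exp.mpr
          have hm := H.hm
          have : x q ≤ -(1 / 2) := by linarith
          nlinarith
        have hC := H.hC
        have h4 : ‖B (q + 1)‖ ≤ 1 / 400 * ‖E q‖ := by
          calc ‖B (q + 1)‖ ≤ C * (‖E q‖ * ‖P1 q‖) := h1
            _ ≤ C * (‖E q‖ * exp (-(m / 2))) := by
              gcongr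
              exact h2.trans h3
            _ = (C * exp (-(m / 2))) * ‖E q‖ := by ring
            _ ≤ 1 / 400 * ‖E q‖ := by
              have := H.hCm
              gcongr
        have := re_div_ge _ (E q) h4 (by norm_num)
        linarith
    linarith

/-- contribution of the earlier blocks -/
theorem PtHyp.left_re {q : ℕ} (hA : ‖A0‖ ≤ ‖E q‖) (hmax : ∀ l, l < q → ‖E l‖ ≤ ‖E q‖)
    (hq : x q ≤ 4 * v) :
    -(1 / 20) ≤ ((F + ∑ l ∈ range q, B l) / E q).re := by
  have hΔ := H.hvy
  have hy1 := H.hy1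
  have hy2 := H.hy2
  have hv := H.hv
  have hx1 := H.hx1
  have hEq := H.Epos q
  rcases q with _ | q
  · have hP : 1 ≤ ‖P0‖ := by
      rw [H.normE0] at hA
      by_contra hc
      have := mul_lt_mul_of_pos_left (not_le.mp hc) H.A0pos
      linarith
    obtain ⟨_, him⟩ := H.P0_ge hP
    simp only [range_zero, sum_empty, add_zero]
    have h2 : F / E 0 = (F - A0) / E 0 + -Complex.I * P0⁻¹ := by
      have h1 : E 0 ≠ 0 := H.Ene 0
      have h3 := H.e0
      have h4 := H.A0ne
      have h5 := H.P0ne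
      have h6 := Complex.I_ne_zero
      rw [sub_div]
      have : A0 / E 0 = -Complex.I * P0⁻¹ := by
        rw [h3]
        field_simp
        rw [Complex.I_sq]
        ring
      rw [this]
      ring
    have h1 : ‖F - A0‖ ≤ 1 / 100 * ‖E 0‖ := by
      have := H.hF
      linarith
    have h3 := re_div_ge _ (E 0) h1 (by norm_num)
    rw [h2, Complex.add_re]
    have h4 : (-Complex.I * P0⁻¹).re = (P0⁻¹).im := by simp
    rw [h4]
    have := (abs_le.mp him).1
    linarith
  · have hE1 : ‖E q‖ ≤ ‖E (q + 1)‖ := hmax q (by omega)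
    have hP : 1 ≤ ‖P q‖ := by
      rw [H.normE] at hE1
      by_contra hc
      have := mul_lt_mul_of_pos_left (not_le.mp hc) (H.Epos q)
      linarith
    obtain ⟨hxq, him⟩ := H.P_ge hP
    have hx1q : x (q + 1) = x q - Δ := by
      rw [H.xs (q + 1), H.xs q]
      push_cast
      ring
    have hleft := H.left_succ (q := q) hxq.le (by linarith) hE1
    rw [sum_range_succ, ← add_assoc, add_div, Complex.add_re]
    have h1 := re_div_ge _ (E (q + 1)) hleft (by norm_num)
    have hb := H.b1 q (by linarith) (by linarith)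
    have hb2 : ‖B q - E q‖ ≤ 1 / 50 * ‖E (q + 1)‖ := by linarith
    have h2 := re_div_ge _ (E (q + 1)) hb2 (by norm_num)
    have h3 : B q / E (q + 1) = (B q - E q) / E (q + 1) + -Complex.I * (P q)⁻¹ := by
      have h1 : E (q + 1) ≠ 0 := H.Ene (q + 1)
      have h3 := H.e1 q
      have h4 := H.Ene q
      have h5 := H.Pne q
      have h6 := Complex.I_ne_zero
      rw [sub_div]
      have : E q / E (q + 1) = -Complex.I * (P q)⁻¹ := by
        rw [h3]
        field_simp
        rw [Complex.I_sq]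
        ring
      rw [this]
      ring
    rw [h3, Complex.add_re]
    have h4 : (-Complex.I * (P q)⁻¹).re = ((P q)⁻¹).im := by simp
    rw [h4]
    have := (abs_le.mp him).1
    linarith

/-- lower bound of the full sums -/
theorem PtHyp.near {M : ℕ} (hM : x M ≤ 4 * v) :
    ‖A0‖ ≤ 2 * ‖F + ∑ l ∈ range (M + 1), B l‖ ∧
    ∀ l ≤ M, ‖E l‖ ≤ 2 * ‖F + ∑ l ∈ range (M + 1), B l‖ := by
  have hΔ := H.hvy
  have hy1 := H.hy1
  have hy2 := H.hy2
  have hv := H.hv
  have hx1 := H.hx1
  obtain ⟨q, hq, hmax⟩ := exists_max_image (range (M + 1)) (fun l => ‖E l‖) ⟨0, by simp⟩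
  have hqM : q ≤ M := by have := mem_range.mp hq; omega
  have hmax' : ∀ l, l ≤ M → ‖E l‖ ≤ ‖E q‖ := fun l hl => hmax l (mem_range.mpr (by omega))
  rcases le_total ‖E q‖ ‖A0‖ with hc | hc
  · -- case A
    have hA := H.A0pos
    have hE0 : ‖E 0‖ ≤ ‖A0‖ := (hmax' 0 (by omega)).trans hc
    have hP : ‖P0‖ ≤ 1 := by
      rw [H.normE0] at hE0
      by_contra hc
      have := mul_lt_mul_of_pos_left (not_le.mp hc) hA
      linarith
    obtain ⟨hx0, him⟩ := H.P0_le hP
    have hs1 := H.hs1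
    have key : 1 / 2 ≤ ((F + ∑ l ∈ range (M + 1), B l) / A0).re := by
      rw [sum_range_succ', ← add_comm (B 0), ← add_assoc, add_div, Complex.add_re]
      have e1 : ∑ l ∈ range M, B (l + 1) = ∑ l ∈ range M, B (0 + 1 + l) :=
        sum_congr rfl (fun l _ => by rw [show l + 1 = 0 + 1 + l by ring])
      rw [e1]
      have hfar := H.right_far (p := 0) (k := M) hA.le (by linarith)
        (fun l h1 h2 => (hmax' l (by omega)).trans hc)
      have h1 := re_div_ge _ A0 hfar (by norm_num)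
      have h2 : -(1 / 25) ≤ (B 0 / A0).re := by
        rcases le_total (-SW) (x 0) with hd | hd
        · have hb := H.b10 hd (by linarith)
          have hb2 : ‖B 0 - E 0‖ ≤ 1 / 50 * ‖A0‖ := by linarith
          have h1 := re_div_ge _ A0 hb2 (by norm_num)
          have h2 : B 0 / A0 = (B 0 - E 0) / A0 + Complex.I * P0 := by
            have := H.A0ne
            rw [H.e0]
            field_simp
            ring
          rw [h2, Complex.add_re]
          have h3 : (Complex.I * P0).re = -P0.im := by simp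
          rw [h3]
          have := (abs_le.mp him).2
          linarith
        · have h1 := H.b2 0 (by linarith)
          rw [H.normR0] at h1
          have h2 := H.z0l hd
          have hC := H.hC
          have h3 : ‖B 0‖ ≤ 1 / 100 * ‖A0‖ := by
            calc ‖B 0‖ ≤ C * (‖A0‖ * ‖Z0‖) := h1
              _ ≤ C * (‖A0‖ * (1 / (100 * C))) := by gcongr
              _ = 1 / 100 * ‖A0‖ := by
                field_simp
          have := re_div_ge _ A0 h3 (by norm_num)
          linarith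
      have h3 : 99 / 100 ≤ (F / A0).re := by
        have h4 : ‖F - A0‖ ≤ 1 / 100 * ‖A0‖ := by
          have := H.hF
          linarith
        have h5 := re_div_ge _ A0 h4 (by norm_num)
        have h6 : F / A0 = (F - A0) / A0 + 1 := by
          have := H.A0ne
          field_simp
          ring
        rw [h6, Complex.add_re, Complex.one_re]
        linarith
      rw [add_div, Complex.add_re]
      linarith
    have hn : ‖A0‖ ≤ 2 * ‖F + ∑ l ∈ range (M + 1), B l‖ := by
      have h1 := (le_abs_self _).trans (Complex.abs_re_le_norm ((F + ∑ l ∈ range (M + 1), B l) / A0))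
      rw [norm_div, le_div_iff₀ hA] at h1
      nlinarith
    exact ⟨hn, fun l hl => (hmax' l hl).trans (hc.trans hn)⟩
  · -- case B
    have hEq := H.Epos q
    have hxq : x q ≤ 4 * v := by
      rcases Nat.lt_or_ge q M with h | h
      · have hE1 : ‖E (q + 1)‖ ≤ ‖E q‖ := hmax' (q + 1) (by omega)
        have hP : ‖P q‖ ≤ 1 := by
          rw [H.normE] at hE1
          by_contra hc
          have := mul_lt_mul_of_pos_left (not_le.mp hc) hEq
          linarith
        have := (H.P_le hP).1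
        linarith
      · have : q = M := by omega
        rw [this]
        exact hM
    have hxq2 : -SW ≤ x q ∨ 1 ≤ q := by
      rcases Nat.eq_zero_or_pos q with h | h
      · left
        rw [h] at hc ⊢
        have hP : 1 ≤ ‖P0‖ := by
          rw [H.normE0] at hc
          by_contra hc'
          have := mul_lt_mul_of_pos_left (not_le.mp hc') H.A0pos
          linarith
        have := (H.P0_ge hP).1
        have := H.hSW
        linarith
      · right; exact h
    have hBq : ‖B q - E q‖ ≤ ‖E q‖ / 50 := by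
      rcases Nat.eq_zero_or_pos q with h | h
      · have h1 := H.b10
        rw [h] at hxq hxq2 ⊢
        exact h1 (by rcases hxq2 with h | h; exact h; omega) (by linarith)
      · obtain ⟨p, rfl⟩ : ∃ p, q = p + 1 := ⟨q - 1, by omega⟩
        have hE1 : ‖E p‖ ≤ ‖E (p + 1)‖ := hmax' p (by omega)
        have hP : 1 ≤ ‖P p‖ := by
          rw [H.normE] at hE1
          by_contra hc
          have := mul_lt_mul_of_pos_left (not_le.mp hc) (H.Epos p)
          linarith
        have h3 := (H.P_ge hP).1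
        have hx1q : x (p + 1) = x p - Δ := by
          rw [H.xs (p + 1), H.xs p]
          push_cast
          ring
        exact H.b1 (p + 1) (by linarith) (by linarith)
    have hsplit : F + ∑ l ∈ range (M + 1), B l
        = (F + ∑ l ∈ range q, B l) + B q + ∑ l ∈ range (M - q), B (q + 1 + l) := by
      have : M + 1 = (q + 1) + (M - q) := by omega
      rw [this, sum_range_add, sum_range_succ]
      ring
    have key : 1 / 2 ≤ ((F + ∑ l ∈ range (M + 1), B l) / E q).re := by
      rw [hsplit, add_div, add_div, Complex.add_re, Complex.add_re]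
      have h1 := H.left_re hc (fun l hl => hmax' l (by omega)) hxq
      have h2 := H.right_re (q := q) (k := M - q) (fun l h1 h2 => hmax' l (by omega)) (by linarith)
      have h3 : 49 / 50 ≤ (B q / E q).re := by
        have h4 : ‖B q - E q‖ ≤ 1 / 50 * ‖E q‖ := by linarith
        have h5 := re_div_ge _ (E q) h4 (by norm_num)
        have h6 : B q / E q = (B q - E q) / E q + 1 := by
          have := H.Ene q
          field_simp
          ring
        rw [h6, Complex.add_re, Complex.one_re]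
        linarith
      linarith
    have hn : ‖E q‖ ≤ 2 * ‖F + ∑ l ∈ range (M + 1), B l‖ := by
      have h1 := (le_abs_self _).trans (Complex.abs_re_le_norm ((F + ∑ l ∈ range (M + 1), B l) / E q))
      rw [norm_div, le_div_iff₀ hEq] at h1
      nlinarith
    exact ⟨hc.trans hn, fun l hl => (hmax' l hl).trans hn⟩

/-- the last block dominates when its argument is not too small -/
theorem PtHyp.last {M : ℕ} (h1 : -(1 / 2) ≤ x M) (h2 : x M ≤ 4 * v) :
    ‖F + ∑ l ∈ range (M + 1), B l - E M‖ ≤ 1 / 20 * ‖E M‖ := by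
  have hΔ := H.hvy
  have hy1 := H.hy1
  have hy2 := H.hy2
  have hv := H.hv
  have hx1 := H.hx1
  have hx0 := H.hx0
  have hs1 := H.hs1
  have hSW := H.hSW
  rcases M with _ | M
  · have hb := H.b10 (by linarith) (by linarith)
    have hP := H.p0r (by linarith)
    have hA : ‖A0‖ ≤ ‖E 0‖ / 1000 := by
      have h := H.normE0
      have := H.A0pos
      rw [h, le_div_iff₀ (by norm_num)]
      nlinarith
    have hF1 : ‖F‖ ≤ 101 / 100 * ‖A0‖ := by
      have h := norm_sub_norm_le F A0
      have := H.hF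
      linarith
    have e : F + ∑ l ∈ range (0 + 1), B l - E 0 = F + (B 0 - E 0) := by
      simp
      ring
    rw [e]
    have := norm_add_le F (B 0 - E 0)
    have := H.Epos 0
    linarith
  · have hx1q : x (M + 1) = x M - Δ := by
      rw [H.xs (M + 1), H.xs M]
      push_cast
      ring
    have hP := H.pr M (by linarith)
    have hE : ‖E M‖ ≤ ‖E (M + 1)‖ / 100 := by
      have h := H.normE M
      have := H.Epos M
      rw [h, le_div_iff₀ (by norm_num)]
      nlinarith
    have hEp := H.Epos (M + 1)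
    have hleft := H.left_succ (q := M) (by linarith) (by linarith) (by linarith)
    have hb1 := H.b1 M (by linarith) (by linarith)
    have hb2 := H.b1 (M + 1) (by linarith) (by linarith)
    have e : F + ∑ l ∈ range (M + 1 + 1), B l - E (M + 1)
        = (F + ∑ l ∈ range M, B l) + (B M - E M) + E M + (B (M + 1) - E (M + 1)) := by
      rw [sum_range_succ, sum_range_succ]
      ring
    rw [e]
    have t1 := norm_add_le ((F + ∑ l ∈ range M, B l) + (B M - E M) + E M) (B (M + 1) - E (M + 1))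
    have t2 := norm_add_le ((F + ∑ l ∈ range M, B l) + (B M - E M)) (E M)
    have t3 := norm_add_le (F + ∑ l ∈ range M, B l) (B M - E M)
    linarith

/-- far to the right the next exponential term dominates everything before it -/
theorem PtHyp.far {j : ℕ} (hj : 4 * v ≤ x j) :
    ‖F + ∑ l ∈ range (j + 1), B l‖ ≤ ‖R (j + 1)‖ * (4 * C * exp (G + m - m / 2 * x j)) := by
  have hΔ := H.hvy
  have hy1 := H.hy1
  have hv := H.hv
  have hC := H.hC
  have hm := H.hm
  have hG := H.hG
  have hGm := H.hGm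
  have hmv : 0 < m * v := by
    have : 0 < m := by linarith
    have : 0 < v := by linarith
    positivity
  have hah := H.a_half
  have hap := exp_pos (-(m / 2))
  have hxk : ∀ k ≤ j, x (j - k) = x j + k * Δ := by
    intro k hk
    rw [H.xs (j - k), H.xs j, Nat.cast_sub hk]
    ring
  have hxk4 : ∀ k ≤ j, 4 * v ≤ x (j - k) := by
    intro k hk
    rw [hxk k hk]
    have : 0 ≤ (k : ℝ) * Δ := by
      have : 0 ≤ Δ := by linarith
      positivity
    linarith
  have hsmall : ∀ X : ℝ, 4 * v ≤ X → exp (G + m - m * X) ≤ exp (-(m / 2)) := by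
    intro X hX
    apply exp_le_exp.mpr
    have : m * (4 * v) ≤ m * X := by
      apply mul_le_mul_of_nonneg_left hX
      linarith
    nlinarith
  have hR : ∀ k, k ≤ j → ‖R (j - k)‖ ≤ ‖R (j + 1)‖ * exp (G + m - m * x (j - k)) * exp (-(m / 2)) ^ k := by
    intro k
    induction k with
    | zero =>
      intro _
      have := H.rr j (by linarith)
      simpa using this
    | succ k ih =>
      intro hk
      have h1 := ih (by omega)
      have h2 := H.rr (j - (k + 1)) (by linarith [hxk4 (k + 1) hk])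
      rw [show j - (k + 1) + 1 = j - k by omega] at h2
      have h3 := hsmall _ (hxk4 k (by omega))
      calc ‖R (j - (k + 1))‖ ≤ ‖R (j - k)‖ * exp (G + m - m * x (j - (k + 1))) := h2
        _ ≤ (‖R (j + 1)‖ * exp (G + m - m * x (j - k)) * exp (-(m / 2)) ^ k) * exp (G + m - m * x (j - (k + 1))) := by
          gcongr
        _ ≤ (‖R (j + 1)‖ * exp (-(m / 2)) * exp (-(m / 2)) ^ k) * exp (G + m - m * x (j - (k + 1))) := by
          gcongr
        _ = _ := by
          rw [pow_succ]
          ring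
  have hB : ∀ l ∈ range (j + 1), ‖B l‖ ≤ C * ‖R (j + 1)‖ * exp (G + m - m / 2 * x j) * exp (-(m / 2)) ^ (j - l) := by
    intro l hl
    have hl' : l ≤ j := by have := mem_range.mp hl; omega
    obtain ⟨k, hk, rfl⟩ : ∃ k, k ≤ j ∧ l = j - k := ⟨j - l, by omega, by omega⟩
    have h4 := hxk4 k hk
    have h1 := H.b3 (j - k) (by linarith)
    have h2 := hR k hk
    have h3 : exp (G + m - m * x (j - k)) * exp (ν * x (j - k)) ≤ exp (G + m - m / 2 * x j) := by
      rw [← exp_add]
      apply exp_le_exp.mpr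
      have hxx : x j ≤ x (j - k) := by
        rw [hxk k hk]
        have : 0 ≤ (k : ℝ) * Δ := by
          have : 0 ≤ Δ := by linarith
          positivity
        linarith
      have h5 : ν * x (j - k) ≤ m / 2 * x (j - k) := by
        apply mul_le_mul_of_nonneg_right H.hν2
        linarith
      have h6 : m / 2 * x j ≤ m / 2 * x (j - k) := by
        apply mul_le_mul_of_nonneg_left hxx
        linarith
      linarith
    rw [show j - (j - k) = k by omega]
    calc ‖B (j - k)‖ ≤ C * ‖R (j - k)‖ * exp (ν * x (j - k)) := h1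
      _ ≤ C * (‖R (j + 1)‖ * exp (G + m - m * x (j - k)) * exp (-(m / 2)) ^ k) * exp (ν * x (j - k)) := by gcongr
      _ = C * ‖R (j + 1)‖ * (exp (G + m - m * x (j - k)) * exp (ν * x (j - k))) * exp (-(m / 2)) ^ k := by ring
      _ ≤ _ := by gcongr
  have hF1 : ‖F‖ ≤ ‖R (j + 1)‖ * exp (G + m - m / 2 * x j) * (101 / 100) := by
    have h := norm_sub_norm_le F A0
    have h' := H.hF
    have hx0 : 4 * v ≤ x 0 := by
      have := hxk4 j le_rfl
      simpa using this
    have hZ := H.z0r (by linarith)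
    have hZ1 : 1 ≤ ‖Z0‖ := le_trans (one_le_exp (by linarith)) hZ
    have hA : ‖A0‖ ≤ ‖R 0‖ := by
      rw [H.normR0]
      exact le_mul_of_one_le_right (norm_nonneg _) hZ1
    have h2 := hR j le_rfl
    rw [Nat.sub_self] at h2
    have h3 : exp (G + m - m * x 0) * exp (-(m / 2)) ^ j ≤ exp (G + m - m / 2 * x j) := by
      have e1 : exp (-(m / 2)) ^ j ≤ 1 := pow_le_one₀ hap.le (by linarith)
      have e2 : exp (G + m - m * x 0) ≤ exp (G + m - m / 2 * x j) := by
        apply exp_le_exp.mpr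
        have := hxk j le_rfl
        rw [Nat.sub_self] at this
        have h7 : 0 ≤ (j : ℝ) * Δ := by
          have : 0 ≤ Δ := by linarith
          positivity
        nlinarith
      calc _ ≤ exp (G + m - m / 2 * x j) * 1 := by gcongr
        _ = _ := by ring
    have h8 : ‖R 0‖ ≤ ‖R (j + 1)‖ * exp (G + m - m / 2 * x j) := by
      calc ‖R 0‖ ≤ ‖R (j + 1)‖ * (exp (G + m - m * x 0) * exp (-(m / 2)) ^ j) := by
            refine h2.trans (le_of_eq ?_)
            ring
        _ ≤ _ := by gcongr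
    linarith
  have hgeo : ∑ l ∈ range (j + 1), exp (-(m / 2)) ^ (j - l) ≤ 2 := by
    rw [sum_range_succ, Nat.sub_self, pow_zero]
    have := geom_rev hap.le hah j
    linarith
  have hpos : 0 ≤ ‖R (j + 1)‖ * exp (G + m - m / 2 * x j) := by positivity
  calc ‖F + ∑ l ∈ range (j + 1), B l‖ ≤ ‖F‖ + ‖∑ l ∈ range (j + 1), B l‖ := norm_add_le _ _
    _ ≤ ‖R (j + 1)‖ * exp (G + m - m / 2 * x j) * (101 / 100)
        + C * ‖R (j + 1)‖ * exp (G + m - m / 2 * x j) * 2 := by
      refine add_le_add hF1 ((norm_sum_le _ _).trans ((sum_le_sum hB).trans ?_))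
      rw [← mul_sum]
      gcongr
    _ ≤ _ := by nlinarith

theorem PtHyp.full_ne (M : ℕ) : F + ∑ l ∈ range (M + 1), B l ≠ 0 := by
  have hΔ := H.hvy
  have hy1 := H.hy1
  have hv := H.hv
  have hC := H.hC
  have hm := H.hm
  have hG := H.hG
  have hGm := H.hGm
  rcases le_total (x M) (4 * v) with hc | hc
  · have h := (H.near hc).1
    have := H.A0pos
    intro h0
    rw [h0, norm_zero] at h
    linarith
  · have hb4 := H.b4 M (by linarith)
    rcases M with _ | M
    · have hF1 : ‖F‖ ≤ 101 / 100 * ‖A0‖ := by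
        have h := norm_sub_norm_le F A0
        have := H.hF
        linarith
      have hZ := H.z0r (by linarith)
      rw [H.normR0] at hb4
      have h1 : exp (G + 2 * m) * exp (-(G + m)) = exp m := by
        rw [← exp_add]
        congr 1
        ring
      have h2 : 2 ≤ exp m := by
        have := add_one_le_exp m
        linarith
      have h3 : 2 * ‖A0‖ ≤ ‖B 0‖ := by
        have hA := H.A0pos
        have p := exp_pos (-(G + m))
        calc 2 * ‖A0‖ ≤ exp m * ‖A0‖ := by gcongr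
          _ = ‖A0‖ * exp (G + 2 * m) * exp (-(G + m)) := by rw [← h1]; ring
          _ ≤ ‖A0‖ * ‖Z0‖ * exp (-(G + m)) := by gcongr
          _ ≤ ‖B 0‖ := hb4
      intro h0
      simp only [zero_add, range_one, sum_singleton] at h0
      have h4 : F = -B 0 := by linear_combination h0
      rw [h4, norm_neg] at hF1
      have hA := H.A0pos
      linarith
    · have hx1q : x (M + 1) = x M - Δ := by
        rw [H.xs (M + 1), H.xs M]
        push_cast
        ring
      have hfar := H.far (j := M) (by linarith)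
      intro h0
      rw [sum_range_succ, ← add_assoc] at h0
      have h1 : ‖B (M + 1)‖ = ‖F + ∑ l ∈ range (M + 1), B l‖ := by
        have : B (M + 1) = -(F + ∑ l ∈ range (M + 1), B l) := by linear_combination h0
        rw [this, norm_neg]
      have hRp : 0 < ‖R (M + 1)‖ := by
        rw [H.normR]
        exact mul_pos (H.Epos M) (norm_pos_iff.mpr (H.P1ne M))
      have h2 : exp (-(G + m)) ≤ 4 * C * exp (G + m - m / 2 * x M) := by
        have : ‖R (M + 1)‖ * exp (-(G + m)) ≤ ‖R (M + 1)‖ * (4 * C * exp (G + m - m / 2 * x M)) := by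
          linarith
        exact le_of_mul_le_mul_left this hRp
      have h3 : exp (G + m - m / 2 * x M) ≤ exp (-(G + m)) * exp (-(m * v / 5)) := by
        rw [← exp_add]
        apply exp_le_exp.mpr
        have h5 : 5 * v ≤ x M := by linarith
        have h6 : m * (5 * v) ≤ m * x M := by
          apply mul_le_mul_of_nonneg_left h5
          linarith
        nlinarith
      have h4 := H.hfar
      have h5 := H.hvl1
      have p := exp_pos (-(G + m))
      have h6 : exp (-(G + m)) ≤ exp (-(G + m)) * (4 * C * exp (-(m * v / 5))) := by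
        calc exp (-(G + m)) ≤ 4 * C * exp (G + m - m / 2 * x M) := h2
          _ ≤ 4 * C * (exp (-(G + m)) * exp (-(m * v / 5))) := by gcongr
          _ = _ := by ring
      have h7 : 4 * C * exp (-(m * v / 5)) ≤ 1 / 5 := by
        have : 0 < C * exp (-(m * v / 5)) := by positivity
        linarith
      nlinarith

omit H in
/-- `1 + i x` with small relative errors does not vanish -/
theorem one_add_I_ne {e1 e2 : ℂ} {t : ℝ} (h1 : ‖e1‖ ≤ 1 / 20) (h2 : ‖e2‖ ≤ 1 / 20) :
    1 + e1 + Complex.I * (t * (1 + e2)) ≠ 0 := by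
  intro h0
  have h3 : 1 + Complex.I * t = -(e1 + Complex.I * (t * e2)) := by linear_combination h0
  have h4 : ‖(1 + Complex.I * t : ℂ)‖ ≤ 1 / 20 + |t| * (1 / 20) := by
    rw [h3, norm_neg]
    refine (norm_add_le _ _).trans ?_
    rw [norm_mul, norm_mul, Complex.norm_I, one_mul, Complex.norm_real, Real.norm_eq_abs]
    gcongr
  have h5 : 1 ≤ ‖(1 + Complex.I * t : ℂ)‖ := by
    have := Complex.abs_re_le_norm (1 + Complex.I * t)
    simpa using this
  have h6 : |t| ≤ ‖(1 + Complex.I * t : ℂ)‖ := by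
    have := Complex.abs_im_le_norm (1 + Complex.I * t)
    simpa using this
  linarith [abs_nonneg t]

omit H in
theorem mul_near {a b : ℂ} {s t : ℝ} (ha : ‖a - s‖ ≤ |s| / 50) (hb : ‖b - t‖ ≤ |t| / 50) (hs : s ≠ 0)
    (ht : t ≠ 0) : ∃ e : ℂ, ‖e‖ ≤ 1 / 20 ∧ a * b = ((s * t : ℝ) : ℂ) * (1 + e) := by
  refine ⟨a * b / ((s * t : ℝ) : ℂ) - 1, ?_, ?_⟩
  · have hsC : (s : ℂ) ≠ 0 := by exact_mod_cast hs
    have htC : (t : ℂ) ≠ 0 := by exact_mod_cast ht
    have e : a * b / ((s * t : ℝ) : ℂ) - 1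
        = ((a - s) / s) * ((b - t) / t) + (a - s) / s + (b - t) / t := by
      push_cast
      field_simp
      ring
    rw [e]
    have h1 : ‖(a - s) / s‖ ≤ 1 / 50 := by
      rw [norm_div, Complex.norm_real, Real.norm_eq_abs, div_le_iff₀ (abs_pos.mpr hs)]
      linarith
    have h2 : ‖(b - t) / t‖ ≤ 1 / 50 := by
      rw [norm_div, Complex.norm_real, Real.norm_eq_abs, div_le_iff₀ (abs_pos.mpr ht)]
      linarith
    refine (norm_add_le _ _).trans ?_
    have h3 := norm_add_le (((a - s) / s) * ((b - t) / t)) ((a - s) / s)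
    rw [norm_mul] at h3
    have h4 : ‖(a - s) / s‖ * ‖(b - t) / t‖ ≤ 1 / 50 * (1 / 50) := by gcongr
    linarith
  · have : ((s * t : ℝ) : ℂ) ≠ 0 := by
      exact_mod_cast mul_ne_zero hs ht
    field_simp
    ring

/-- Nonvanishing of the partial sums. -/
theorem PtHyp.part_ne (j : ℕ) {V : ℂ} {σ : ℝ} (hσ : 1 / 4 ≤ |σ|)
    (v2 : x j ≤ 0 → ‖V‖ ≤ C) (v5 : |x j| ≤ SW → ‖V - σ‖ ≤ |σ| / 50) (v6 : 0 ≤ x j → vl ≤ ‖V‖) :
    F + ∑ l ∈ range j, B l + R j * V ≠ 0 := by
  have hΔ := H.hvy
  have hy1 := H.hy1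
  have hy2 := H.hy2
  have hv := H.hv
  have hx0 := H.hx0
  have hx1 := H.hx1
  have hC := H.hC
  have hm := H.hm
  have hG := H.hG
  have hGm := H.hGm
  have hs1 := H.hs1
  have hSW := H.hSW
  have hvl0 := H.hvl0
  have hvl1 := H.hvl1
  have hσ0 : σ ≠ 0 := by
    intro h
    rw [h, abs_zero] at hσ
    linarith
  have hF1 : ‖F‖ ≤ 101 / 100 * ‖A0‖ := by
    have h := norm_sub_norm_le F A0
    have := H.hF
    linarith
  have hV5 : |x j| ≤ SW → vl ≤ ‖V‖ := by
    intro h
    have h1 := v5 h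
    have h2 := norm_sub_norm_le (σ : ℂ) V
    rw [Complex.norm_real, Real.norm_eq_abs, norm_sub_rev] at h2
    linarith
  have hA := H.A0pos
  rcases j with _ | j
  · simp only [range_zero, sum_empty, add_zero]
    intro h0
    have h1 : ‖F‖ = ‖A0‖ * ‖Z0‖ * ‖V‖ := by
      have : F = -(R 0 * V) := by linear_combination h0
      rw [this, norm_neg, norm_mul, H.normR0]
    rcases le_total (x 0) (-SW) with hc | hc
    · have h2 := H.z0l hc
      have h3 := v2 (by linarith)
      have h4 : ‖A0‖ * ‖Z0‖ * ‖V‖ ≤ ‖A0‖ / 100 := by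
        calc ‖A0‖ * ‖Z0‖ * ‖V‖ ≤ ‖A0‖ * (1 / (100 * C)) * C := by gcongr
          _ = _ := by field_simp
      have h5 := norm_sub_norm_le A0 F
      have h6 := H.hF
      rw [norm_sub_rev] at h5
      linarith
    · rcases le_total (x 0) SW with hd | hd
      · have hxa : |x 0| ≤ SW := abs_le.mpr ⟨hc, hd⟩
        have h2 := v5 hxa
        have hz := H.z0m
        have hZ0 : 0 < ‖Z0‖ := norm_pos_iff.mpr H.Z0ne
        obtain ⟨e, he, hab⟩ := mul_near (a := Z0) (b := V) (s := ‖Z0‖) (t := σ)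
          (by rw [abs_of_pos hZ0]; exact hz) h2 hZ0.ne' hσ0
        have h3 : F / A0 + Complex.I * (Z0 * V) = 0 := by
          have h := H.r0
          rw [h] at h0
          have := H.A0ne
          field_simp
          linear_combination h0
        rw [hab] at h3
        have h4 : ‖F / A0 - 1‖ ≤ 1 / 20 := by
          have : F / A0 - 1 = (F - A0) / A0 := by
            have := H.A0ne
            field_simp
          rw [this, norm_div, div_le_iff₀ hA]
          have := H.hF
          linarith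
        exact one_add_I_ne (e1 := F / A0 - 1) (e2 := e) (t := ‖Z0‖ * σ) h4 he (by linear_combination h3)
      · have h2 := H.z0r (by linarith)
        have h3 := v6 (by linarith)
        have h4 := H.hzv
        have h5 : 10 * ‖A0‖ ≤ ‖A0‖ * ‖Z0‖ * ‖V‖ := by
          calc 10 * ‖A0‖ ≤ (exp (G + 2 * m) * vl) * ‖A0‖ := by gcongr
            _ = ‖A0‖ * exp (G + 2 * m) * vl := by ring
            _ ≤ _ := by gcongr
        linarith
  · have hx1q : x (j + 1) = x j - Δ := by
      rw [H.xs (j + 1), H.xs j]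
      push_cast
      ring
    have hEj := H.Epos j
    have hRn := H.normR j
    rcases le_total (x j) (1 - x₀) with hc | hc
    · -- left
      have h1 := H.p1l j hc
      have h2 := v2 (by linarith)
      have h3 := (H.near (M := j) (by linarith)).2 j le_rfl
      intro h0
      have h4 : ‖F + ∑ l ∈ range (j + 1), B l‖ = ‖R (j + 1)‖ * ‖V‖ := by
        have : F + ∑ l ∈ range (j + 1), B l = -(R (j + 1) * V) := by linear_combination h0
        rw [this, norm_neg, norm_mul]
      rw [hRn] at h4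
      have h5 : ‖E j‖ * ‖P1 j‖ * ‖V‖ ≤ ‖E j‖ / 100 := by
        calc ‖E j‖ * ‖P1 j‖ * ‖V‖ ≤ ‖E j‖ * (1 / (100 * C)) * C := by gcongr
          _ = _ := by field_simp
      linarith
    · rcases le_total (1 + x₀) (x j) with hd | hd
      · -- right
        have hVl : vl ≤ ‖V‖ := by
          rcases le_total 0 (x (j + 1)) with he | he
          · exact v6 he
          · exact hV5 (by rw [abs_le]; constructor <;> linarith)
        intro h0
        have h4 : ‖F + ∑ l ∈ range (j + 1), B l‖ = ‖R (j + 1)‖ * ‖V‖ := by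
          have : F + ∑ l ∈ range (j + 1), B l = -(R (j + 1) * V) := by linear_combination h0
          rw [this, norm_neg, norm_mul]
        rcases le_total (x j) (4 * v) with he | he
        · have h5 := H.last (M := j) (by linarith) he
          have h6 := H.p1r j hd
          rw [hRn] at h4
          have h7 : 10 * ‖E j‖ ≤ ‖E j‖ * ‖P1 j‖ * ‖V‖ := by
            calc 10 * ‖E j‖ ≤ (‖P1 j‖ * vl) * ‖E j‖ := by gcongr
              _ = ‖E j‖ * ‖P1 j‖ * vl := by ring
              _ ≤ _ := by gcongr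
          have h8 := norm_sub_norm_le (F + ∑ l ∈ range (j + 1), B l) (E j)
          linarith
        · have h5 := H.far he
          have hRp : 0 < ‖R (j + 1)‖ := by
            rw [H.normR]
            exact mul_pos (H.Epos j) (norm_pos_iff.mpr (H.P1ne j))
          rw [h4] at h5
          have h6 := le_of_mul_le_mul_left h5 hRp
          have h3 : exp (G + m - m / 2 * x j) ≤ exp (-(m * v / 5)) := by
            apply exp_le_exp.mpr
            have h6 : m * (4 * v) ≤ m * x j := by
              apply mul_le_mul_of_nonneg_left he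
              linarith
            have hmv : 0 < m * v := by
              have : 0 < m := by linarith
              have : 0 < v := by linarith
              positivity
            nlinarith
          have h7 := H.hfar
          have h8 : 4 * C * exp (G + m - m / 2 * x j) ≤ 4 * C * exp (-(m * v / 5)) := by gcongr
          have h9 : 0 < C * exp (-(m * v / 5)) := by positivity
          linarith
      · -- middle
        have hxa : |x (j + 1)| ≤ SW := by rw [abs_le]; constructor <;> linarith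
        have h2 := v5 hxa
        have hp := H.p1m j (by rw [abs_le]; constructor <;> linarith)
        have hP0 : 0 < ‖P1 j‖ := norm_pos_iff.mpr (H.P1ne j)
        obtain ⟨e, he, hab⟩ := mul_near (a := P1 j) (b := V) (s := ‖P1 j‖) (t := σ)
          (by rw [abs_of_pos hP0]; exact hp) h2 hP0.ne' hσ0
        intro h0
        have h3 : (F + ∑ l ∈ range (j + 1), B l) / E j + Complex.I * (P1 j * V) = 0 := by
          have h := H.r1 j
          rw [h] at h0
          have := H.Ene j
          field_simp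
          linear_combination h0
        rw [hab] at h3
        have h5 := H.last (M := j) (by linarith) (by linarith)
        have h4 : ‖(F + ∑ l ∈ range (j + 1), B l) / E j - 1‖ ≤ 1 / 20 := by
          have : (F + ∑ l ∈ range (j + 1), B l) / E j - 1 = (F + ∑ l ∈ range (j + 1), B l - E j) / E j := by
            have := H.Ene j
            field_simp
          rw [this, norm_div, div_le_iff₀ hEj]
          exact h5
        exact one_add_I_ne (e1 := (F + ∑ l ∈ range (j + 1), B l) / E j - 1) (e2 := e) (t := ‖P1 j‖ * σ)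
          h4 he (by linear_combination h3)

end

end Pool.Agent.Lib.MP_a05d5a_an
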