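import Mathlib

namespace Pool.Agent.Lib.MP_a05d5a_an

open Finset Polynomial

/-- the half strip -/
def Strip : Set ℂ := {z | 1 ≤ z.re ∧ |z.im| ≤ 1}

/-- sections of a polynomial -/
noncomputable def psec (F : ℂ[X]) (k : ℕ) (z : ℂ) : ℂ := ∑ i ∈ range (k + 1), F.coeff i * z ^ i

/-- all sections are zero free on the half strip -/
def Good (F : ℂ[X]) : Prop := ∀ k, ∀ z ∈ Strip, psec F k z ≠ 0

theorem psec_of_le {F : ℂ[X]} {k : ℕ} (h : F.natDegree ≤ k) (z : ℂ) : psec F k z = F.eval z := by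
  rw [Polynomial.eval_eq_sum_range' (show F.natDegree < k + 1 by omega)]
  rfl

theorem Good.add {F : ℂ[X]} (hF : Good F) {e : ℕ} {c : ℂ} (he : F.natDegree < e)
    (h : ∀ z ∈ Strip, (F + monomial e c).eval z ≠ 0) : Good (F + monomial e c) := by
  intro k z hz
  rcases Nat.lt_or_ge k e with hk | hk
  · have : psec (F + monomial e c) k z = psec F k z := by
      unfold psec
      apply sum_congr rfl
      intro i hi
      have hi' := mem_range.mp hi
      rw [coeff_add, coeff_monomial, if_neg (by omega), add_zero]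
    rw [this]
    exact hF k z hz
  · have hd : (F + monomial e c).natDegree ≤ k := by
      refine (natDegree_add_le _ _).trans ?_
      apply max_le
      · omega
      · exact (natDegree_monomial_le _).trans hk
    rw [psec_of_le hd]
    exact h z hz

theorem natDegree_add_monomial_le {F : ℂ[X]} {e : ℕ} {c : ℂ} (he : F.natDegree ≤ e) :
    (F + monomial e c).natDegree ≤ e := by
  refine (natDegree_add_le _ _).trans ?_
  exact max_le he (natDegree_monomial_le _)

/-- absolute coefficient sums are at most `B` -/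
def AB (P : ℂ[X]) (r B : ℝ) : Prop := ∀ N, ∑ k ∈ range N, ‖P.coeff k‖ * r ^ k ≤ B

theorem AB.add {P Q : ℂ[X]} {r B B' : ℝ} (hr : 0 ≤ r) (hP : AB P r B) (hQ : AB Q r B') :
    AB (P + Q) r (B + B') := by
  intro N
  calc ∑ k ∈ range N, ‖(P + Q).coeff k‖ * r ^ k
      ≤ ∑ k ∈ range N, (‖P.coeff k‖ * r ^ k + ‖Q.coeff k‖ * r ^ k) := by
        apply sum_le_sum
        intro k _
        rw [coeff_add, ← add_mul]
        gcongr
        exact norm_add_le _ _
    _ = ∑ k ∈ range N, ‖P.coeff k‖ * r ^ k + ∑ k ∈ range N, ‖Q.coeff k‖ * r ^ k := sum_add_distrib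
    _ ≤ B + B' := add_le_add (hP N) (hQ N)

theorem AB.mono {P : ℂ[X]} {r B B' : ℝ} (hP : AB P r B) (h : B ≤ B') : AB P r B' :=
  fun N => (hP N).trans h

theorem AB.zero (r : ℝ) : AB 0 r 0 := by
  intro N
  simp

theorem AB.monomial {r : ℝ} (hr : 0 ≤ r) (e : ℕ) (c : ℂ) : AB (monomial e c) r (‖c‖ * r ^ e) := by
  intro N
  have : ∀ k ∈ range N, ‖(Polynomial.monomial e c).coeff k‖ * r ^ k = if e = k then ‖c‖ * r ^ e else 0 := by
    intro k _
    rw [coeff_monomial]
    split_ifs with h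
    · rw [h]
    · simp
  rw [sum_congr rfl this, sum_ite_eq]
  split_ifs
  · exact le_rfl
  · positivity

theorem AB.sum {ι : Type*} {s : Finset ι} {f : ι → ℂ[X]} {r : ℝ} {b : ι → ℝ} (hr : 0 ≤ r)
    (h : ∀ i ∈ s, AB (f i) r (b i)) : AB (∑ i ∈ s, f i) r (∑ i ∈ s, b i) := by
  classical
  induction s using Finset.induction_on with
  | empty => simpa using AB.zero r
  | insert a s ha ih =>
    rw [sum_insert ha, sum_insert ha]
    exact (h a (mem_insert_self a s)).add hr (ih (fun i hi => h i (mem_insert_of_mem hi)))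

theorem AB.eval {P : ℂ[X]} {z : ℂ} {B : ℝ} (h : AB P ‖z‖ B) : ‖P.eval z‖ ≤ B := by
  rw [Polynomial.eval_eq_sum_range]
  refine (norm_sum_le _ _).trans (le_trans (le_of_eq ?_) (h (P.natDegree + 1)))
  apply sum_congr rfl
  intro k _
  rw [norm_mul, norm_pow]

/-- A polynomial is close to its leading term for large arguments. -/
theorem lead_close (F : ℂ[X]) (hF : F ≠ 0) : ∃ ρ : ℝ, 1 ≤ ρ ∧ ∀ z : ℂ, ρ ≤ ‖z‖ →
    ‖F.eval z - F.leadingCoeff * z ^ F.natDegree‖ ≤ ‖F.leadingCoeff * z ^ F.natDegree‖ / 100 := by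
  have hA : 0 < ‖F.leadingCoeff‖ := norm_pos_iff.mpr (leadingCoeff_ne_zero.mpr hF)
  set S : ℝ := ∑ i ∈ range F.natDegree, ‖F.coeff i‖ with hS
  have hS0 : 0 ≤ S := sum_nonneg (fun i _ => norm_nonneg _)
  refine ⟨max 1 (100 * S / ‖F.leadingCoeff‖), le_max_left _ _, ?_⟩
  intro z hz
  have hz1 : 1 ≤ ‖z‖ := (le_max_left _ _).trans hz
  have hz2 : 100 * S / ‖F.leadingCoeff‖ ≤ ‖z‖ := (le_max_right _ _).trans hz
  rw [div_le_iff₀ hA] at hz2
  rw [Polynomial.eval_eq_sum_range, sum_range_succ, coeff_natDegree, add_sub_cancel_right, norm_mul, norm_pow]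
  rcases Nat.eq_zero_or_pos F.natDegree with hd | hd
  · rw [hd]
    simp
    positivity
  · obtain ⟨d, hd'⟩ : ∃ d, F.natDegree = d + 1 := ⟨F.natDegree - 1, by omega⟩
    calc ‖∑ i ∈ range F.natDegree, F.coeff i * z ^ i‖ ≤ ∑ i ∈ range F.natDegree, ‖F.coeff i‖ * ‖z‖ ^ d := by
          refine (norm_sum_le _ _).trans (sum_le_sum ?_)
          intro i hi
          have := mem_range.mp hi
          rw [norm_mul, norm_pow]
          gcongr
          omega
      _ = S * ‖z‖ ^ d := by rw [← sum_mul]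
      _ ≤ (‖z‖ * ‖F.leadingCoeff‖ / 100) * ‖z‖ ^ d := by
          gcongr
          linarith
      _ = _ := by
          rw [hd', pow_succ]
          ring

/-- A polynomial without zeros on a closed set is bounded below there. -/
theorem lower_bound (F : ℂ[X]) (hF : F ≠ 0) (h : ∀ z ∈ Strip, F.eval z ≠ 0) :
    ∃ c : ℝ, 0 < c ∧ ∀ z ∈ Strip, c ≤ ‖F.eval z‖ := by
  obtain ⟨ρ, hρ1, hρ⟩ := lead_close F hF
  have hA : 0 < ‖F.leadingCoeff‖ := norm_pos_iff.mpr (leadingCoeff_ne_zero.mpr hF)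
  have hcl : IsClosed Strip := by
    have h1 : IsClosed {z : ℂ | 1 ≤ z.re} := isClosed_le continuous_const Complex.continuous_re
    have h2 : IsClosed {z : ℂ | |z.im| ≤ 1} := isClosed_le (Complex.continuous_im.abs) continuous_const
    exact h1.inter h2
  have hcomp : IsCompact (Strip ∩ Metric.closedBall 0 ρ) := (isCompact_closedBall 0 ρ).inter_left hcl
  have hne : (Strip ∩ Metric.closedBall 0 ρ).Nonempty := by
    refine ⟨1, ?_, ?_⟩
    · simp [Strip]
    · simp
      exact hρ1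
  obtain ⟨z0, hz0, hmin⟩ := hcomp.exists_isMinOn hne (f := fun z => ‖F.eval z‖)
    (F.continuous.norm.continuousOn)
  refine ⟨min ‖F.eval z0‖ (‖F.leadingCoeff‖ / 2), lt_min (norm_pos_iff.mpr (h z0 hz0.1)) (by positivity), ?_⟩
  intro z hz
  rcases le_total ‖z‖ ρ with hc | hc
  · exact (min_le_left _ _).trans (hmin ⟨hz, by simpa using hc⟩)
  · refine (min_le_right _ _).trans ?_
    have h1 := hρ z hc
    have h2 : ‖F.leadingCoeff‖ ≤ ‖F.leadingCoeff * z ^ F.natDegree‖ := by
      rw [norm_mul, norm_pow]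
      apply le_mul_of_one_le_right hA.le
      exact one_le_pow₀ (hρ1.trans hc)
    have h3 := norm_sub_norm_le (F.leadingCoeff * z ^ F.natDegree) (F.eval z)
    rw [norm_sub_rev] at h3
    linarith

end Pool.Agent.Lib.MP_a05d5a_an
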