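import Mathlib
import Pool.Agent.Lib.MP_a05d5a_an.Crossing

namespace Pool.Agent.Lib.MP_a05d5a_an

open Real

/-- `log (1 + s^2)` -/
noncomputable def LL (s : ℂ) : ℂ := Complex.log (1 + s ^ 2)

theorem re_one_add_sq (s : ℂ) : (1 + s ^ 2).re = 1 + s.re ^ 2 - s.im ^ 2 := by
  simp [pow_two, Complex.mul_re]
  ring

theorem norm_one_add_sq_ge (s : ℂ) : 1 + s.re ^ 2 - s.im ^ 2 ≤ ‖1 + s ^ 2‖ := by
  rw [← re_one_add_sq]
  exact Complex.re_le_norm _

theorem one_add_sq_mem {s : ℂ} (hs : |s.im| < 1) : 1 + s ^ 2 ∈ Complex.slitPlane := by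
  left
  rw [re_one_add_sq]
  have h1 : s.im ^ 2 < 1 := by
    rw [← sq_abs]
    exact pow_lt_one₀ (abs_nonneg _) hs (by norm_num)
  nlinarith [sq_nonneg s.re]

theorem one_add_sq_ne {s : ℂ} (hs : |s.im| < 1) : 1 + s ^ 2 ≠ 0 :=
  Complex.slitPlane_ne_zero (one_add_sq_mem hs)

theorem LL_hasDerivAt {s : ℂ} (hs : |s.im| < 1) : HasDerivAt LL (2 * s / (1 + s ^ 2)) s := by
  have h1 : HasDerivAt (fun s : ℂ => 1 + s ^ 2) (2 * s) s := by
    have := (hasDerivAt_pow 2 s).const_add 1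
    simpa using this
  exact h1.clog (one_add_sq_mem hs)

theorem exp_LL {s : ℂ} (hs : |s.im| < 1) : Complex.exp (LL s) = 1 + s ^ 2 :=
  Complex.exp_log (one_add_sq_ne hs)

theorem LL_ofReal (a : ℝ) : LL (a : ℂ) = (Real.log (1 + a ^ 2) : ℂ) := by
  unfold LL
  rw [Complex.ofReal_log (by positivity)]
  push_cast
  rfl

/-- first crossing exponent -/
noncomputable def Phi1 (m : ℝ) (s : ℂ) : ℂ := m * (s - 1) + m * (Real.log 2 : ℝ) - m * LL s

noncomputable def Phi1' (m : ℝ) (s : ℂ) : ℂ := m * (s - 1) ^ 2 / (1 + s ^ 2)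

theorem norm_bound_ratio {s : ℂ} {h : ℝ} (hs : |s.im| ≤ h) (hh : h ≤ 1 / 10) :
    ‖2 * s / (1 + s ^ 2)‖ ≤ 11 / 10 := by
  have h0 : 0 ≤ h := (abs_nonneg _).trans hs
  have h1 := norm_one_add_sq_ge s
  have h2 : s.im ^ 2 ≤ 1 / 100 := by
    rw [← sq_abs]
    calc |s.im| ^ 2 ≤ (1 / 10) ^ 2 := by gcongr; linarith
      _ = 1 / 100 := by norm_num
  have h3 : ‖s‖ ^ 2 = s.re ^ 2 + s.im ^ 2 := by
    rw [Complex.sq_norm, Complex.normSq_apply]
    ring
  have h5 : 0 < ‖1 + s ^ 2‖ := by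
    have := sq_nonneg s.re
    linarith
  rw [norm_div, norm_mul, div_le_iff₀ h5]
  have : ‖(2 : ℂ)‖ = 2 := by simp
  rw [this]
  nlinarith [sq_nonneg (‖s‖ - 1), sq_nonneg s.re]

theorem Phi1_cross {m h x₀ : ℝ} (hm : 0 < m) (hh : 0 < h) (hx0 : 240 * h ≤ x₀) (hx1 : x₀ ≤ 1) :
    CrossHyp (Phi1 m) (Phi1' m) 1 h x₀ (4 * m) (m / 5) := by
  have hh10 : h ≤ 1 / 10 := by linarith
  have hh1 : h < 1 := by linarith
  have hsq : ∀ s : ℂ, |s.im| ≤ h → s.im ^ 2 ≤ h ^ 2 := by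
    intro s hs
    rw [← sq_abs]
    gcongr
  have hformula : ∀ s : ℂ, |s.im| ≤ h → Phi1' m s = m - m * (2 * s / (1 + s ^ 2)) := by
    intro s hs
    have hne := one_add_sq_ne (lt_of_le_of_lt hs hh1)
    unfold Phi1'
    field_simp
    ring
  refine ⟨hh, by linarith, hx1, by positivity, by nlinarith, by positivity, ?_, ?_, ?_, ?_, ?_, ?_, ?_⟩
  · intro s hs
    have h1 := LL_hasDerivAt (lt_of_le_of_lt hs hh1)
    rw [hformula s hs]
    unfold Phi1
    have a1 : HasDerivAt (fun s : ℂ => (m : ℂ) * (s - 1) + m * (Real.log 2 : ℝ)) (m : ℂ) s := by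
      have := (((hasDerivAt_id s).sub_const 1).const_mul (m : ℂ)).add_const ((m : ℂ) * (Real.log 2 : ℝ))
      simpa using this
    exact a1.fun_sub (h1.const_mul (m : ℂ))
  · intro a
    unfold Phi1
    rw [LL_ofReal]
    have : (m : ℂ) * ((a : ℂ) - 1) + m * (Real.log 2 : ℝ) - m * (Real.log (1 + a ^ 2) : ℝ)
      = ((m * (a - 1) + m * Real.log 2 - m * Real.log (1 + a ^ 2) : ℝ) : ℂ) := by
      push_cast
      ring
    rw [this, Complex.ofReal_im]
  · intro a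
    have : Phi1' m (a : ℂ) = ((m * (a - 1) ^ 2 / (1 + a ^ 2) : ℝ) : ℂ) := by
      unfold Phi1'
      push_cast
      ring
    rw [this, Complex.ofReal_re]
    positivity
  · intro a ha
    have : Phi1' m (a : ℂ) = ((m * (a - 1) ^ 2 / (1 + a ^ 2) : ℝ) : ℂ) := by
      unfold Phi1'
      push_cast
      ring
    rw [this, Complex.ofReal_re, le_div_iff₀ (by positivity)]
    have h1 := abs_le.mp ha
    have h2 : 1 + a ^ 2 ≤ 5 := by nlinarith
    have h3 : 0 ≤ m / 5 * (a - 1) ^ 2 := by positivity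
    nlinarith
  · intro s hs
    rw [hformula s hs]
    have h1 := norm_bound_ratio hs hh10
    calc ‖(m : ℂ) - m * (2 * s / (1 + s ^ 2))‖ ≤ ‖(m : ℂ)‖ + ‖(m : ℂ) * (2 * s / (1 + s ^ 2))‖ := norm_sub_le _ _
      _ = m + m * ‖2 * s / (1 + s ^ 2)‖ := by
        rw [norm_mul, Complex.norm_real, Real.norm_eq_abs, abs_of_pos hm]
      _ ≤ m + m * (11 / 10) := by gcongr
      _ ≤ 4 * m := by linarith
  · intro s hs hs2
    have h1 := norm_one_add_sq_ge s
    have h2 := hsq s hs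
    have h3 : h ^ 2 ≤ 1 / 100 := by
      calc h ^ 2 ≤ (1 / 10) ^ 2 := by gcongr
        _ = 1 / 100 := by norm_num
    have h4 : 99 / 100 ≤ ‖1 + s ^ 2‖ := by nlinarith [sq_nonneg s.re]
    unfold Phi1'
    rw [norm_div, norm_mul, norm_pow, Complex.norm_real, Real.norm_eq_abs, abs_of_pos hm,
      Complex.sq_norm, Complex.normSq_apply, div_le_iff₀ (by linarith)]
    simp only [Complex.sub_re, Complex.one_re, Complex.sub_im, Complex.one_im, sub_zero]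
    have h5 : (s.re - 1) * (s.re - 1) + s.im * s.im ≤ (s.re - 1) ^ 2 + h ^ 2 := by nlinarith
    have h6 : 0 ≤ (s.re - 1) ^ 2 + h ^ 2 := by positivity
    calc m * ((s.re - 1) * (s.re - 1) + s.im * s.im) ≤ m * ((s.re - 1) ^ 2 + h ^ 2) := by gcongr
      _ ≤ (4 * m * ((s.re - 1) ^ 2 + h ^ 2)) * (99 / 100) := by
        have : 0 ≤ m * ((s.re - 1) ^ 2 + h ^ 2) := by positivity
        linarith
      _ ≤ 4 * m * ((s.re - 1) ^ 2 + h ^ 2) * ‖1 + s ^ 2‖ := by gcongr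
  · unfold Phi1
    have := LL_ofReal 1
    rw [this]
    norm_num

/-- Parameters of the second crossing. -/
structure PP (m α κ Δ v y p G : ℝ) : Prop where
  hm : 0 < m
  hα : 0 ≤ α
  hκ : κ = m + α
  hsum : v + y = Δ
  hprod : v * y = p
  hκp : κ * (p - 1) = m * Δ
  hΔ2 : Δ ^ 2 = (p - 1) * (p + 3)
  hy1 : 1 ≤ y
  hy2 : y ≤ 101 / 100
  hv : 1000 ≤ v
  hG : G = m * (v - 1) + m * Real.log 2 - m * Real.log (1 + v ^ 2) + m * Real.log (1 + y ^ 2) - α * y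

noncomputable def Phi (m α Δ G : ℝ) (s : ℂ) : ℂ :=
  m * (s - 1) + m * (Real.log 2 : ℝ) - m * LL s - G + m * LL (s - Δ) + α * (s - Δ)

noncomputable def Phi' (κ Δ v y : ℝ) (s : ℂ) : ℂ :=
  κ * (s - v) ^ 2 * (s - y) ^ 2 / ((1 + s ^ 2) * (1 + (s - Δ) ^ 2))

theorem Phi_ofReal (m α Δ G a : ℝ) : Phi m α Δ G (a : ℂ)
    = ((m * (a - 1) + m * Real.log 2 - m * Real.log (1 + a ^ 2) - G + m * Real.log (1 + (a - Δ) ^ 2)
      + α * (a - Δ) : ℝ) : ℂ) := by
  unfold Phi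
  rw [LL_ofReal, ← Complex.ofReal_sub, LL_ofReal]
  push_cast
  ring

theorem Phi'_ofReal (κ Δ v y a : ℝ) : Phi' κ Δ v y (a : ℂ)
    = ((κ * (a - v) ^ 2 * (a - y) ^ 2 / ((1 + a ^ 2) * (1 + (a - Δ) ^ 2)) : ℝ) : ℂ) := by
  unfold Phi'
  push_cast
  ring

theorem Phi_cross {m α κ Δ v y p G h x₀ : ℝ} (P : PP m α κ Δ v y p G) (hh : 0 < h)
    (hx0 : 288 * h ≤ x₀) (hx1 : x₀ ≤ 1) :
    CrossHyp (Phi m α Δ G) (Phi' κ Δ v y) v h x₀ (4 * κ) (κ / 6) := by
  have hm := P.hm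
  have hα := P.hα
  have hκm : m ≤ κ := by rw [P.hκ]; linarith
  have hκ0 : 0 < κ := by linarith
  have hv := P.hv
  have hy1 := P.hy1
  have hy2 := P.hy2
  have hh10 : h ≤ 1 / 10 := by linarith
  have hh1 : h < 1 := by linarith
  have hsq : ∀ s : ℂ, |s.im| ≤ h → s.im ^ 2 ≤ h ^ 2 := by
    intro s hs
    rw [← sq_abs]
    gcongr
  have him : ∀ s : ℂ, (s - Δ).im = s.im := by intro s; simp
  have hformula : ∀ s : ℂ, |s.im| ≤ h → Phi' κ Δ v y s
      = m - m * (2 * s / (1 + s ^ 2)) + m * (2 * (s - Δ) / (1 + (s - Δ) ^ 2)) + α := by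
    intro s hs
    have hne := one_add_sq_ne (lt_of_le_of_lt hs hh1)
    have hne2 : 1 + (s - Δ) ^ 2 ≠ 0 := one_add_sq_ne (by rw [him]; exact lt_of_le_of_lt hs hh1)
    have e1 : (κ : ℂ) * (p - 1) - m * Δ = 0 := by
      have := P.hκp
      have h : ((κ * (p - 1) - m * Δ : ℝ) : ℂ) = 0 := by rw [this]; simp
      push_cast at h
      exact h
    have e2 : (Δ : ℂ) ^ 2 - (p - 1) * (p + 3) = 0 := by
      have := P.hΔ2
      have h : ((Δ ^ 2 - (p - 1) * (p + 3) : ℝ) : ℂ) = 0 := by rw [this]; simp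
      push_cast at h
      exact h
    have e3 : (v : ℂ) + y = Δ := by exact_mod_cast P.hsum
    have e4 : (v : ℂ) * y = p := by exact_mod_cast P.hprod
    have e5 : (κ : ℂ) = m + α := by exact_mod_cast P.hκ
    have e6 : (s - v) ^ 2 * (s - y) ^ 2 = (s ^ 2 - Δ * s + p) ^ 2 := by
      rw [← e3, ← e4]
      ring
    unfold Phi'
    rw [mul_assoc, e6]
    rw [div_eq_iff (mul_ne_zero hne hne2)]
    have e7 : ((m : ℂ) - m * (2 * s / (1 + s ^ 2)) + m * (2 * (s - Δ) / (1 + (s - Δ) ^ 2)) + α)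
        * ((1 + s ^ 2) * (1 + (s - Δ) ^ 2))
        = κ * ((1 + s ^ 2) * (1 + (s - Δ) ^ 2)) - m * (2 * s) * (1 + (s - Δ) ^ 2)
          + m * (2 * (s - Δ)) * (1 + s ^ 2) := by
      rw [e5]
      field_simp
      ring
    rw [e7]
    linear_combination (-(κ : ℂ)) * e2 - (2 + 2 * (s * (Δ - s))) * e1
  refine ⟨hh, by linarith, hx1, by positivity, by nlinarith, by positivity, ?_, ?_, ?_, ?_, ?_, ?_, ?_⟩
  · intro s hs
    have h1 := LL_hasDerivAt (lt_of_le_of_lt hs hh1)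
    have h2 : HasDerivAt (fun s : ℂ => LL (s - Δ)) (2 * (s - Δ) / (1 + (s - Δ) ^ 2)) s := by
      have a := LL_hasDerivAt (s := s - Δ) (by rw [him]; exact lt_of_le_of_lt hs hh1)
      have b : HasDerivAt (fun s : ℂ => s - Δ) 1 s := (hasDerivAt_id s).sub_const _
      have c := a.comp s b
      rw [mul_one] at c
      exact c
    rw [hformula s hs]
    unfold Phi
    have a1 : HasDerivAt (fun s : ℂ => (m : ℂ) * (s - 1) + m * (Real.log 2 : ℝ)) (m : ℂ) s := by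
      have := (((hasDerivAt_id s).sub_const 1).const_mul (m : ℂ)).add_const ((m : ℂ) * (Real.log 2 : ℝ))
      simpa using this
    have a2 : HasDerivAt (fun s : ℂ => (α : ℂ) * (s - Δ)) (α : ℂ) s := by
      have := ((hasDerivAt_id s).sub_const (Δ : ℂ)).const_mul (α : ℂ)
      simpa using this
    exact (((a1.fun_sub (h1.const_mul (m : ℂ))).sub_const (G : ℂ)).fun_add (h2.const_mul (m : ℂ))).fun_add a2
  · intro a
    rw [Phi_ofReal, Complex.ofReal_im]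
  · intro a
    rw [Phi'_ofReal, Complex.ofReal_re]
    positivity
  · intro a ha
    rw [Phi'_ofReal, Complex.ofReal_re, le_div_iff₀ (by positivity)]
    have h1 := abs_le.mp ha
    have h2 : (a - Δ) ^ 2 ≤ 405 / 100 := by
      rw [← P.hsum]
      nlinarith
    have h3 : (1 + a ^ 2) * (1 + (a - Δ) ^ 2) ≤ 6 * (a - y) ^ 2 := by
      have h4 : (1 + a ^ 2) * (1 + (a - Δ) ^ 2) ≤ (1 + a ^ 2) * (505 / 100) := by
        gcongr
        linarith
      nlinarith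
    calc κ / 6 * (a - v) ^ 2 * ((1 + a ^ 2) * (1 + (a - Δ) ^ 2)) ≤ κ / 6 * (a - v) ^ 2 * (6 * (a - y) ^ 2) := by
          gcongr
      _ = _ := by ring
  · intro s hs
    rw [hformula s hs]
    have h1 := norm_bound_ratio hs hh10
    have h2 := norm_bound_ratio (s := s - Δ) (by rw [him]; exact hs) hh10
    calc ‖(m : ℂ) - m * (2 * s / (1 + s ^ 2)) + m * (2 * (s - Δ) / (1 + (s - Δ) ^ 2)) + α‖
        ≤ ‖(m : ℂ)‖ + ‖(m : ℂ) * (2 * s / (1 + s ^ 2))‖ + ‖(m : ℂ) * (2 * (s - Δ) / (1 + (s - Δ) ^ 2))‖ + ‖(α : ℂ)‖ := by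
          refine (norm_add_le _ _).trans (add_le_add_left ?_ _)
          refine (norm_add_le _ _).trans (add_le_add_left ?_ _)
          exact norm_sub_le _ _
      _ = m + m * ‖2 * s / (1 + s ^ 2)‖ + m * ‖2 * (s - Δ) / (1 + (s - Δ) ^ 2)‖ + α := by
        rw [norm_mul, norm_mul, Complex.norm_real, Complex.norm_real, Real.norm_eq_abs, Real.norm_eq_abs,
          abs_of_pos hm, abs_of_nonneg hα]
      _ ≤ m + m * (11 / 10) + m * (11 / 10) + α := by gcongr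
      _ ≤ 4 * κ := by rw [P.hκ]; linarith
  · intro s hs hs2
    have h1 := norm_one_add_sq_ge s
    have h1' := norm_one_add_sq_ge (s - Δ)
    rw [him] at h1'
    have h2 := hsq s hs
    have h3 : h ^ 2 ≤ 1 / 100 := by
      calc h ^ 2 ≤ (1 / 10) ^ 2 := by gcongr
        _ = 1 / 100 := by norm_num
    have h4 : 99 / 100 * (1 + s.re ^ 2) ≤ ‖1 + s ^ 2‖ := by nlinarith [sq_nonneg s.re]
    have h4' : 99 / 100 ≤ ‖1 + (s - Δ) ^ 2‖ := by nlinarith [sq_nonneg (s - Δ).re]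
    have hab := abs_le.mp hs2
    unfold Phi'
    have hpos : 0 < ‖1 + s ^ 2‖ * ‖1 + (s - Δ) ^ 2‖ := by
      have : 0 < 99 / 100 * (1 + s.re ^ 2) := by positivity
      have a1 : 0 < ‖1 + s ^ 2‖ := by linarith
      have a2 : 0 < ‖1 + (s - Δ) ^ 2‖ := by linarith
      positivity
    rw [norm_div, norm_mul, norm_mul, norm_mul, norm_pow, norm_pow, Complex.norm_real, Real.norm_eq_abs, abs_of_pos hκ0,
      Complex.sq_norm, Complex.sq_norm, Complex.normSq_apply, Complex.normSq_apply, div_le_iff₀ hpos]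
    simp only [Complex.sub_re, Complex.ofReal_re, Complex.sub_im, Complex.ofReal_im, sub_zero]
    have h5 : (s.re - v) * (s.re - v) + s.im * s.im ≤ (s.re - v) ^ 2 + h ^ 2 := by nlinarith
    have h5' : (s.re - y) * (s.re - y) + s.im * s.im ≤ 1 + s.re ^ 2 := by nlinarith
    have h6 : 0 ≤ (s.re - v) ^ 2 + h ^ 2 := by positivity
    have h7 : 0 ≤ (s.re - y) * (s.re - y) + s.im * s.im := by nlinarith [mul_self_nonneg (s.re - y), mul_self_nonneg s.im]
    calc κ * ((s.re - v) * (s.re - v) + s.im * s.im) * ((s.re - y) * (s.re - y) + s.im * s.im)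
        ≤ κ * ((s.re - v) ^ 2 + h ^ 2) * (1 + s.re ^ 2) := by gcongr
      _ ≤ (4 * κ * ((s.re - v) ^ 2 + h ^ 2)) * ((99 / 100 * (1 + s.re ^ 2)) * (99 / 100)) := by
        have : 0 ≤ κ * ((s.re - v) ^ 2 + h ^ 2) * (1 + s.re ^ 2) := by positivity
        linarith
      _ ≤ 4 * κ * ((s.re - v) ^ 2 + h ^ 2) * (‖1 + s ^ 2‖ * ‖1 + (s - Δ) ^ 2‖) := by gcongr
  · rw [Phi_ofReal, P.hG]
    have : v - Δ = -y := by linarith [P.hsum]
    rw [this, neg_sq, ← Complex.ofReal_zero]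
    congr 1
    ring

end Pool.Agent.Lib.MP_a05d5a_an
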