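import Mathlib
import Pool.Agent.Lib.MP_a05d5a_an.Phi

namespace Pool.Agent.Lib.MP_a05d5a_an

open Real

/-- real size parameters as functions of `x = K` -/
noncomputable def mR (x : ℝ) : ℝ := 6 * x ^ 28
noncomputable def aR (x : ℝ) : ℝ := 2 * x ^ 25
noncomputable def kR (x : ℝ) : ℝ := 6 * x ^ 28 + 2 * x ^ 25
noncomputable def cR (x : ℝ) : ℝ := 6 * x ^ 3 + 1
noncomputable def DR (x : ℝ) : ℝ := cR x - 1 / cR x
noncomputable def pR (x : ℝ) : ℝ := cR x - 1 + 1 / cR x
noncomputable def yR (x : ℝ) : ℝ := (DR x - √(DR x ^ 2 - 4 * pR x)) / 2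
noncomputable def vR (x : ℝ) : ℝ := (DR x + √(DR x ^ 2 - 4 * pR x)) / 2
noncomputable def GR (x : ℝ) : ℝ :=
  mR x * (vR x - 1) + mR x * Real.log 2 - mR x * Real.log (1 + vR x ^ 2)
    + mR x * Real.log (1 + yR x ^ 2) - aR x * yR x

section
variable {x : ℝ} (hx : 10 ^ 40 ≤ x)
include hx

theorem x_pos : 0 < x := lt_of_lt_of_le (by norm_num) hx

theorem x_ge (b : ℝ) (hb : b ≤ 10 ^ 40) : b ≤ x := hb.trans hx

theorem x_one : 1 ≤ x := x_ge hx 1 (by norm_num)

/-- comparison of powers with a constant -/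
theorem pow_comp {b : ℝ} (hb : b ≤ 10 ^ 40) {i j : ℕ} (hij : i < j) : b * x ^ i ≤ x ^ j := by
  have h0 := x_pos hx
  have h1 := x_one hx
  have hb' := x_ge hx b hb
  calc b * x ^ i ≤ x * x ^ i := by gcongr
    _ = x ^ (i + 1) := by ring
    _ ≤ x ^ j := pow_le_pow_right₀ h1 hij

theorem cR_big : 10 ^ 40 ≤ cR x := by
  have h1 := pow_comp hx (b := 1) (by norm_num) (show 1 < 3 by norm_num)
  have h0 := x_pos hx
  unfold cR
  have : 0 < x ^ 3 := by positivity
  simp only [pow_one] at h1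
  linarith

theorem DR_sq : DR x ^ 2 = (pR x - 1) * (pR x + 3) := by
  have h := cR_big hx
  have : cR x ≠ 0 := by
    intro h0
    rw [h0] at h
    norm_num at h
  unfold DR pR
  field_simp
  ring

theorem disc_eq : DR x ^ 2 - 4 * pR x = (pR x - 3) * (pR x + 1) := by
  rw [DR_sq hx]
  ring

theorem inv_cR : 0 < 1 / cR x ∧ 1 / cR x ≤ 1 / 1000 := by
  have h := cR_big hx
  have h0 : 0 < cR x := by linarith
  constructor
  · positivity
  · apply one_div_le_one_div_of_le (by norm_num)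
    linarith

theorem disc_nonneg : 0 ≤ DR x ^ 2 - 4 * pR x := by
  rw [disc_eq hx]
  have h := cR_big hx
  have h2 := inv_cR hx
  have h3 : 3 ≤ pR x := by
    unfold pR
    linarith
  nlinarith

theorem yR_ge : 1 ≤ yR x := by
  have h := cR_big hx
  have h2 := inv_cR hx
  unfold yR
  have h3 : √(DR x ^ 2 - 4 * pR x) ≤ DR x - 2 := by
    rw [Real.sqrt_le_left (by unfold DR; linarith)]
    have : DR x - pR x ≤ 1 := by unfold DR pR; linarith
    nlinarith
  linarith

theorem yR_le : yR x ≤ 101 / 100 := by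
  have h := cR_big hx
  have h2 := inv_cR hx
  unfold yR
  have h3 : DR x - 202 / 100 ≤ √(DR x ^ 2 - 4 * pR x) := by
    apply Real.le_sqrt_of_sq_le
    unfold DR pR
    nlinarith
  linarith

omit hx in
theorem v_add_y : vR x + yR x = DR x := by unfold vR yR; ring

theorem v_mul_y : vR x * yR x = pR x := by
  have h := Real.sq_sqrt (disc_nonneg hx)
  unfold vR yR
  nlinarith

theorem vR_ge : 6 * x ^ 3 - 1 ≤ vR x := by
  have h1 := v_add_y (x := x)
  have h2 := yR_le hx
  have h3 := inv_cR hx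
  have h4 : DR x = 6 * x ^ 3 + 1 - 1 / cR x := by unfold DR cR; ring
  linarith

theorem vR_le : vR x ≤ 6 * x ^ 3 := by
  have h1 := v_add_y (x := x)
  have h2 := yR_ge hx
  have h3 := inv_cR hx
  have h4 : DR x = 6 * x ^ 3 + 1 - 1 / cR x := by unfold DR cR; ring
  linarith

theorem vR_big : 10 ^ 40 ≤ vR x := by
  have h1 := vR_ge hx
  have h2 := pow_comp hx (b := 1) (by norm_num) (show 1 < 3 by norm_num)
  simp only [pow_one] at h2
  have h3 := x_pos hx
  have : 1 ≤ x := x_one hx
  linarith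

theorem mR_pos : 0 < mR x := by
  have := x_pos hx
  unfold mR
  positivity

theorem aR_pos : 0 < aR x := by
  have := x_pos hx
  unfold aR
  positivity

theorem PP_K : PP (mR x) (aR x) (kR x) (DR x) (vR x) (yR x) (pR x) (GR x) := by
  refine ⟨mR_pos hx, (aR_pos hx).le, rfl, v_add_y (x := x), v_mul_y hx, ?_, DR_sq hx, yR_ge hx, yR_le hx,
    by linarith [vR_big hx], rfl⟩
  have h := cR_big hx
  have hc : cR x ≠ 0 := by
    intro h0
    rw [h0] at h
    norm_num at h
  have h1 : kR x * (cR x - 1) = mR x * (cR x + 1) := by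
    unfold kR cR mR
    ring
  unfold pR DR
  have e1 : cR x - 1 + 1 / cR x - 1 = (cR x - 1) * ((cR x - 1) / cR x) := by
    field_simp
    ring
  have e2 : cR x - 1 / cR x = (cR x + 1) * ((cR x - 1) / cR x) := by
    field_simp
    ring
  rw [e1, e2, ← mul_assoc, h1]
  ring

theorem GR_le : GR x ≤ mR x * vR x := by
  have h1 := mR_pos hx
  have h2 := aR_pos hx
  have h3 := yR_ge hx
  have h4 := yR_le hx
  have h5 := vR_big hx
  have h6 : Real.log (1 + yR x ^ 2) ≤ Real.log (1 + vR x ^ 2) := by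
    apply Real.log_le_log (by positivity)
    nlinarith
  have h7 : Real.log 2 ≤ 1 := by
    have := Real.log_two_lt_d9
    linarith
  unfold GR
  have h8 : mR x * Real.log 2 ≤ mR x * 1 := by gcongr
  have h9 : mR x * Real.log (1 + yR x ^ 2) ≤ mR x * Real.log (1 + vR x ^ 2) := by gcongr
  have h10 : 0 ≤ aR x * yR x := by positivity
  nlinarith

theorem mv_le : mR x * vR x ≤ 36 * x ^ 31 := by
  have h1 := vR_le hx
  have h2 := mR_pos hx
  calc mR x * vR x ≤ mR x * (6 * x ^ 3) := by gcongr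
    _ = 36 * x ^ 31 := by unfold mR; ring

theorem log_x_le : Real.log x ≤ x := by
  have := Real.log_le_sub_one_of_pos (x_pos hx)
  linarith

theorem log_pow_le (k : ℕ) : Real.log (x ^ k) ≤ k * x := by
  rw [Real.log_pow]
  have := log_x_le hx
  gcongr

theorem log_v_le : Real.log (1 + vR x ^ 2) ≤ 8 * x := by
  have h1 := vR_le hx
  have h2 := vR_big hx
  have h3 : 1 + vR x ^ 2 ≤ x ^ 8 := by
    have h4 := pow_comp hx (b := 37) (by norm_num) (show 6 < 8 by norm_num)
    have h5 : vR x ^ 2 ≤ (6 * x ^ 3) ^ 2 := by gcongr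
    have h6 : 1 ≤ x ^ 6 := one_le_pow₀ (x_one hx)
    nlinarith
  have := log_pow_le hx 8
  refine (Real.log_le_log (by positivity) h3).trans ?_
  simpa using this

theorem GR_ge : 35 * x ^ 31 ≤ GR x := by
  have h1 := mR_pos hx
  have h2 := aR_pos hx
  have h3 := yR_ge hx
  have h4 := yR_le hx
  have h5 := vR_ge hx
  have h6 := log_v_le hx
  have h7 : 0 ≤ Real.log (1 + yR x ^ 2) := Real.log_nonneg (by nlinarith)
  have h8 : 0 ≤ Real.log 2 := Real.log_nonneg (by norm_num)
  have hx0 := x_pos hx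
  unfold GR
  have h9 : mR x * Real.log (1 + vR x ^ 2) ≤ mR x * (8 * x) := by gcongr
  have h10 : 0 ≤ mR x * Real.log 2 := by positivity
  have h11 : 0 ≤ mR x * Real.log (1 + yR x ^ 2) := by positivity
  have h12 : aR x * yR x ≤ aR x * 2 := by gcongr; linarith
  have h13 : mR x * (6 * x ^ 3 - 2) ≤ mR x * (vR x - 1) := by
    apply mul_le_mul_of_nonneg_left _ h1.le
    linarith
  have h14 : mR x * (6 * x ^ 3 - 2) = 36 * x ^ 31 - 12 * x ^ 28 := by unfold mR; ring
  have h15 : mR x * (8 * x) = 48 * x ^ 29 := by unfold mR; ring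
  have h16 : aR x * 2 = 4 * x ^ 25 := by unfold aR; ring
  have c1 := pow_comp hx (b := 100) (by norm_num) (show 28 < 31 by norm_num)
  have c2 := pow_comp hx (b := 200) (by norm_num) (show 29 < 31 by norm_num)
  have c3 := pow_comp hx (b := 100) (by norm_num) (show 25 < 31 by norm_num)
  have c4 : 0 < x ^ 31 := by positivity
  linarith

omit hx in
/-- exponential lower bound -/
theorem exp_ge_pow {y : ℝ} (hy : 0 ≤ y) : (y / 100) ^ 100 ≤ exp y := by
  have h1 : y / 100 ≤ exp (y / 100) := by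
    have := add_one_le_exp (y / 100)
    linarith
  calc (y / 100) ^ 100 ≤ (exp (y / 100)) ^ 100 := by gcongr
    _ = exp y := by
      rw [← exp_nat_mul]
      congr 1
      push_cast
      ring

end

end Pool.Agent.Lib.MP_a05d5a_an
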