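import Mathlib
import Pool.Agent.Lib.MP_a05d5a_an.Params

namespace Pool.Agent.Lib.MP_a05d5a_an

open Real

/-- phases -/
theorem exp_sub_norm_le (ζ : ℂ) : ‖Complex.exp ζ - (‖Complex.exp ζ‖ : ℝ)‖ ≤ |ζ.im| * ‖Complex.exp ζ‖ := by
  have h1 : Complex.exp ζ = ((exp ζ.re : ℝ) : ℂ) * Complex.exp (Complex.I * (ζ.im : ℝ)) := by
    have : Complex.exp (ζ.re + ζ.im * Complex.I) = Complex.exp ζ := by rw [Complex.re_add_im]
    rw [← this, Complex.exp_add]
    push_cast
    rw [mul_comm Complex.I]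
  have h2 : ‖Complex.exp ζ‖ = exp ζ.re := Complex.norm_exp ζ
  rw [h2]
  have h3 : Complex.exp ζ - ((exp ζ.re : ℝ) : ℂ)
      = ((exp ζ.re : ℝ) : ℂ) * (Complex.exp (Complex.I * (ζ.im : ℝ)) - 1) := by
    rw [h1]
    have : ((Complex.exp ζ).re : ℝ) = (Complex.exp ζ).re := rfl
    ring
  rw [h3, norm_mul, Complex.norm_real, Real.norm_eq_abs, abs_of_pos (exp_pos _), mul_comm]
  have h4 := Real.norm_exp_I_mul_ofReal_sub_one_le (x := ζ.im)
  rw [Real.norm_eq_abs] at h4
  gcongr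

theorem exp_im_le (ζ : ℂ) : |(Complex.exp ζ).im| ≤ |ζ.im| * ‖Complex.exp ζ‖ := by
  have h1 := exp_sub_norm_le ζ
  have h2 := Complex.abs_im_le_norm (Complex.exp ζ - (‖Complex.exp ζ‖ : ℝ))
  rw [Complex.sub_im, Complex.ofReal_im, sub_zero] at h2
  exact h2.trans h1

/-- strip half width and crossing half width -/
noncomputable def hR (x : ℝ) : ℝ := 1 / x ^ 11
noncomputable def x0R (x : ℝ) : ℝ := 1 / x ^ 9
noncomputable def CR (x : ℝ) : ℝ := 2 * (x ^ 31 + 1)
noncomputable def vlR (x : ℝ) : ℝ := 1 / (100 * x ^ 62)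

section
variable {x : ℝ} (hx : 10 ^ 40 ≤ x)
include hx

theorem hR_pos : 0 < hR x := by
  have := x_pos hx
  unfold hR
  positivity

theorem hR_x0 {b : ℝ} (hb : b ≤ 10 ^ 40) : b * hR x ≤ x0R x := by
  have h0 := x_pos hx
  have := pow_comp hx hb (show 9 < 11 by norm_num)
  unfold hR x0R
  rw [mul_one_div, div_le_div_iff₀ (by positivity) (by positivity)]
  linarith

theorem x0R_pos : 0 < x0R x := by
  have := x_pos hx
  unfold x0R
  positivity

theorem x0R_le {b : ℝ} (hb : b ≤ 10 ^ 40) : b * x0R x ≤ 1 := by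
  have h0 := x_pos hx
  have := pow_comp hx hb (show 0 < 9 by norm_num)
  unfold x0R
  rw [mul_one_div, div_le_one (by positivity)]
  simpa using this

theorem x0R_le' : x0R x ≤ 1 / 1000 := by
  have := x0R_le hx (b := 1000) (by norm_num)
  linarith

theorem hR_le : hR x ≤ 1 / 1000 := by
  have h1 := hR_x0 hx (b := 1) (by norm_num)
  have h2 := x0R_le' hx
  linarith

theorem cross1 : CrossHyp (Phi1 (mR x)) (Phi1' (mR x)) 1 (hR x) (x0R x) (4 * mR x) (mR x / 5) :=
  Phi1_cross (mR_pos hx) (hR_pos hx) (hR_x0 hx (by norm_num)) (by linarith [x0R_le' hx])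

theorem crossP : CrossHyp (Phi (mR x) (aR x) (DR x) (GR x)) (Phi' (kR x) (DR x) (vR x) (yR x))
    (vR x) (hR x) (x0R x) (4 * kR x) (kR x / 6) :=
  Phi_cross (PP_K hx) (hR_pos hx) (hR_x0 hx (by norm_num)) (by linarith [x0R_le' hx])

theorem kR_ge : mR x ≤ kR x := by
  have := x_pos hx
  unfold kR mR
  have : 0 < x ^ 25 := by positivity
  linarith

theorem kR_le : kR x ≤ 7 * x ^ 28 := by
  have := pow_comp hx (b := 2) (by norm_num) (show 25 < 28 by norm_num)
  unfold kR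
  linarith

theorem lam1 : x / 5 = mR x / 5 * x0R x ^ 3 / 6 := by
  have := x_pos hx
  unfold mR x0R
  field_simp

theorem lamP : x / 6 ≤ kR x / 6 * x0R x ^ 3 / 6 := by
  have h0 := x_pos hx
  have h1 := kR_ge hx
  have h2 := x0R_pos hx
  calc x / 6 = mR x / 6 * x0R x ^ 3 / 6 := by
        unfold mR x0R
        field_simp
    _ ≤ _ := by gcongr

theorem exp_x6 : 100 ≤ exp (x / 6) := by
  have := add_one_le_exp (x / 6)
  have := x_ge hx 1000 (by norm_num)
  linarith

theorem exp_x5 : 1000 * x ^ 62 ≤ exp (x / 5) := by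
  have h0 := x_pos hx
  have h1 := exp_ge_pow (y := x / 5) (by positivity)
  refine le_trans ?_ h1
  have h2 : (x / 5 / 100) ^ 100 = x ^ 62 * (x ^ 38 / 500 ^ 100) := by
    rw [div_div, div_pow]
    norm_num
    ring
  rw [h2]
  have h3 : (1000 : ℝ) ≤ x ^ 38 / 500 ^ 100 := by
    rw [le_div_iff₀ (by positivity)]
    calc (1000 : ℝ) * 500 ^ 100 ≤ (10 ^ 40) ^ 38 := by norm_num
      _ ≤ x ^ 38 := by gcongr
  have h4 : 0 < x ^ 62 := by positivity
  nlinarith

theorem fpl {s : ℂ} (hs : |s.im| ≤ hR x) (h : s.re ≤ vR x - x0R x) :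
    ‖Complex.exp (Phi (mR x) (aR x) (DR x) (GR x) s)‖ ≤ 1 / 100 := by
  rw [Complex.norm_exp]
  have h1 := (crossP hx).left hs h
  have h2 := lamP hx
  have h3 := exp_x6 hx
  calc exp _ ≤ exp (-(x / 6)) := exp_le_exp.mpr (by linarith)
    _ = 1 / exp (x / 6) := by rw [exp_neg, one_div]
    _ ≤ 1 / 100 := one_div_le_one_div_of_le (by norm_num) h3

theorem fpr {s : ℂ} (hs : |s.im| ≤ hR x) (h : vR x + x0R x ≤ s.re) :
    100 ≤ ‖Complex.exp (Phi (mR x) (aR x) (DR x) (GR x) s)‖ := by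
  rw [Complex.norm_exp]
  have h1 := (crossP hx).right hs h
  have h2 := lamP hx
  have h3 := exp_x6 hx
  exact h3.trans (exp_le_exp.mpr (by linarith))

theorem mid_small {L : ℝ} (hL : L ≤ 40 * x ^ 28) :
    L * (x0R x ^ 2 + hR x ^ 2) * hR x ≤ 1 / 50 := by
  have h0 := x_pos hx
  have h1 := hR_x0 hx (b := 1) (by norm_num)
  have h2 := hR_pos hx
  have h3 : hR x ^ 2 ≤ x0R x ^ 2 := by
    gcongr
    linarith
  have h4 := x0R_pos hx
  calc L * (x0R x ^ 2 + hR x ^ 2) * hR x ≤ (40 * x ^ 28) * (x0R x ^ 2 + x0R x ^ 2) * hR x := by gcongr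
    _ = 80 / x := by
      unfold x0R hR
      field_simp
      ring
    _ ≤ 1 / 50 := by
      rw [div_le_div_iff₀ h0 (by norm_num)]
      have := x_ge hx 10000 (by norm_num)
      linarith

theorem fpm {s : ℂ} (hs : |s.im| ≤ hR x) (h : |s.re - vR x| ≤ x0R x) :
    |(Complex.exp (Phi (mR x) (aR x) (DR x) (GR x) s)).im|
      ≤ ‖Complex.exp (Phi (mR x) (aR x) (DR x) (GR x) s)‖ / 50 := by
  have h1 := (crossP hx).mid hs h
  have h2 := kR_le hx
  have h3 := kR_ge hx
  have h4 := mR_pos hx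
  have h5 := mid_small hx (L := 4 * kR x) (by
    have : 0 < x ^ 28 := by have := x_pos hx; positivity
    linarith)
  refine (exp_im_le _).trans ?_
  have h6 : |(Phi (mR x) (aR x) (DR x) (GR x) s).im| ≤ 1 / 50 := h1.trans h5
  calc _ ≤ 1 / 50 * ‖Complex.exp (Phi (mR x) (aR x) (DR x) (GR x) s)‖ := by gcongr
    _ = _ := by ring

theorem fp1m {s : ℂ} (hs : |s.im| ≤ hR x) (h : |s.re - 1| ≤ x0R x) :
    ‖Complex.exp (Phi1 (mR x) s) - (‖Complex.exp (Phi1 (mR x) s)‖ : ℝ)‖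
      ≤ ‖Complex.exp (Phi1 (mR x) s)‖ / 50 := by
  have h1 := (cross1 hx).mid hs h
  have h4 := mR_pos hx
  have h5 := mid_small hx (L := 4 * mR x) (by
    have : 0 < x ^ 28 := by have := x_pos hx; positivity
    unfold mR
    linarith)
  refine (exp_sub_norm_le _).trans ?_
  have h6 : |(Phi1 (mR x) s).im| ≤ 1 / 50 := h1.trans h5
  calc _ ≤ 1 / 50 * ‖Complex.exp (Phi1 (mR x) s)‖ := by gcongr
    _ = _ := by ring

theorem fp1l {s : ℂ} (hs : |s.im| ≤ hR x) (h : s.re ≤ 1 - x0R x) :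
    ‖Complex.exp (Phi1 (mR x) s)‖ ≤ 1 / (100 * CR x) := by
  rw [Complex.norm_exp]
  have h0 := x_pos hx
  have h1 := (cross1 hx).left hs h
  have h3 := exp_x5 hx
  rw [← lam1 hx] at h1
  calc exp _ ≤ exp (-(x / 5)) := exp_le_exp.mpr h1
    _ = 1 / exp (x / 5) := by rw [exp_neg, one_div]
    _ ≤ 1 / (100 * CR x) := by
      apply one_div_le_one_div_of_le
      · unfold CR; positivity
      · refine le_trans ?_ h3
        unfold CR
        have c1 := pow_comp hx (b := 1) (by norm_num) (show 31 < 62 by norm_num)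
        have c2 : 1 ≤ x ^ 62 := one_le_pow₀ (x_one hx)
        linarith

theorem fp1r {s : ℂ} (hs : |s.im| ≤ hR x) (h : 1 + x0R x ≤ s.re) :
    10 ≤ ‖Complex.exp (Phi1 (mR x) s)‖ * vlR x := by
  rw [Complex.norm_exp]
  have h0 := x_pos hx
  have h1 := (cross1 hx).right hs h
  have h3 := exp_x5 hx
  rw [← lam1 hx] at h1
  have h4 : 1000 * x ^ 62 ≤ exp (Phi1 (mR x) s).re := h3.trans (exp_le_exp.mpr h1)
  unfold vlR
  calc (10 : ℝ) = 1000 * x ^ 62 * (1 / (100 * x ^ 62)) := by field_simp; norm_num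
    _ ≤ _ := by gcongr

omit hx in
theorem LL_re (s : ℂ) : (LL s).re = Real.log ‖1 + s ^ 2‖ := by
  unfold LL
  exact Complex.log_re _

theorem norm_low {s : ℂ} (hs : |s.im| ≤ hR x) : 99 / 100 + s.re ^ 2 ≤ ‖1 + s ^ 2‖ := by
  have h1 := norm_one_add_sq_ge s
  have h2 := hR_le hx
  have h3 : s.im ^ 2 ≤ 1 / 100 := by
    rw [← sq_abs]
    calc |s.im| ^ 2 ≤ (1 / 10) ^ 2 := by gcongr; linarith
      _ = 1 / 100 := by norm_num
  linarith

theorem log_low {s : ℂ} (hs : |s.im| ≤ hR x) : -(1 / 50) ≤ Real.log ‖1 + s ^ 2‖ := by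
  have h1 := norm_low hx hs
  have h2 : (99 / 100 : ℝ) ≤ ‖1 + s ^ 2‖ := by nlinarith [sq_nonneg s.re]
  have h3 := Real.one_sub_inv_le_log_of_pos (show (0 : ℝ) < 99 / 100 by norm_num)
  have h4 := Real.log_le_log (by norm_num) h2
  norm_num at h3
  linarith

theorem fp1g {s : ℂ} (hs : |s.im| ≤ hR x) : ‖Complex.exp (Phi1 (mR x) s)‖ ≤ exp (mR x * s.re) := by
  rw [Complex.norm_exp]
  apply exp_le_exp.mpr
  have h1 := log_low hx hs
  have h2 := mR_pos hx
  unfold Phi1
  simp only [Complex.sub_re, Complex.add_re, Complex.re_ofReal_mul, Complex.one_re, Complex.ofReal_re]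
  rw [LL_re]
  have h3 := Real.log_two_lt_d9
  have h4 : mR x * Real.log 2 ≤ mR x * (7 / 10) := by gcongr; linarith
  have h5 : mR x * (-(1 / 50)) ≤ mR x * Real.log ‖1 + s ^ 2‖ := by gcongr
  linarith

theorem fpf {s : ℂ} (hs : |s.im| ≤ hR x) (h : vR x + DR x - x0R x ≤ s.re) :
    exp (GR x + 2 * mR x) ≤ ‖Complex.exp (Phi (mR x) (aR x) (DR x) (GR x) s)‖ := by
  rw [Complex.norm_exp]
  apply exp_le_exp.mpr
  have H := crossP hx
  have hm := mR_pos hx
  have ha := aR_pos hx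
  have h1 := H.dev s hs
  have h2 : |(Phi (mR x) (aR x) (DR x) (GR x) s).re - (Phi (mR x) (aR x) (DR x) (GR x) (s.re : ℂ)).re|
      ≤ ‖Phi (mR x) (aR x) (DR x) (GR x) s - Phi (mR x) (aR x) (DR x) (GR x) (s.re : ℂ)‖ := by
    rw [← Complex.sub_re]
    exact Complex.abs_re_le_norm _
  have h3 := (abs_le.mp (h2.trans h1)).1
  have hΛ := H.hΛ
  have h4 : 4 * kR x * hR x ≤ mR x := by
    have a1 := hR_le hx
    have a2 := hR_pos hx
    have a3 : kR x ≤ 2 * mR x := by
      unfold kR mR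
      have := pow_comp hx (b := 1) (by norm_num) (show 25 < 28 by norm_num)
      have h28 : 0 < x ^ 28 := by have := x_pos hx; positivity
      linarith
    have a4 : 0 < kR x := by linarith [kR_ge hx]
    calc 4 * kR x * hR x ≤ 4 * (2 * mR x) * (1 / 1000) := by gcongr
      _ ≤ mR x := by linarith
  have h5 := H.mono (show vR x + DR x - 1 ≤ s.re by linarith [x0R_le' hx])
  simp only at h5
  -- value at `v + Δ - 1`
  have h6 : GR x + 3 * mR x ≤ (Phi (mR x) (aR x) (DR x) (GR x) ((vR x + DR x - 1 : ℝ) : ℂ)).re := by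
    rw [Phi_ofReal, Complex.ofReal_re]
    have hv := vR_big hx
    have hv0 : 0 < vR x := by linarith
    have hy1 := yR_ge hx
    have hy2 := yR_le hx
    have hsum := v_add_y (x := x)
    have e1 : vR x + DR x - 1 - DR x = vR x - 1 := by ring
    rw [e1]
    have l1 : Real.log (1 + (vR x + DR x - 1) ^ 2) ≤ Real.log 10 + Real.log (1 + vR x ^ 2) := by
      rw [← Real.log_mul (by norm_num) (by positivity)]
      apply Real.log_le_log (by positivity)
      have : vR x + DR x - 1 ≤ 3 * vR x := by linarith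
      have h0 : 0 ≤ vR x + DR x - 1 := by linarith
      have : (vR x + DR x - 1) ^ 2 ≤ (3 * vR x) ^ 2 := by gcongr
      nlinarith [sq_nonneg (vR x)]
    have l2 : 0 ≤ Real.log (1 + (vR x - 1) ^ 2) := Real.log_nonneg (by nlinarith [sq_nonneg (vR x - 1)])
    have l3 : Real.log (1 + yR x ^ 2) ≤ Real.log 3 := by
      apply Real.log_le_log (by positivity)
      nlinarith
    have l4 : 3 + Real.log 10 + 2 * Real.log 3 + Real.log 2 ≤ Real.log (1 + vR x ^ 2) + 1 := by
      have b1 : Real.log 10 + 2 * Real.log 3 = Real.log 90 := by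
        have : (90 : ℝ) = 10 * 3 ^ 2 := by norm_num
        rw [this, Real.log_mul (by norm_num) (by norm_num), Real.log_pow]
        push_cast
        ring
      have b2 := Real.log_two_lt_d9
      have b3 : Real.log 90 + 3 ≤ Real.log (1 + vR x ^ 2) := by
        have : (3 : ℝ) = Real.log (exp 3) := (Real.log_exp 3).symm
        rw [this, ← Real.log_mul (by norm_num) (exp_pos _).ne']
        apply Real.log_le_log (by positivity)
        have e3 : exp (3 : ℝ) ≤ 27 := by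
          have h := exp_one_lt_d9
          have : exp (3 : ℝ) = exp 1 * exp 1 * exp 1 := by rw [← exp_add, ← exp_add]; norm_num
          rw [this]
          have p := exp_pos (1 : ℝ)
          have q : exp 1 * exp 1 ≤ 9 := by nlinarith
          nlinarith
        nlinarith
      linarith
    have hG : GR x = mR x * (vR x - 1) + mR x * Real.log 2 - mR x * Real.log (1 + vR x ^ 2)
        + mR x * Real.log (1 + yR x ^ 2) - aR x * yR x := rfl
    have m1 : mR x * Real.log (1 + (vR x + DR x - 1) ^ 2) ≤ mR x * (Real.log 10 + Real.log (1 + vR x ^ 2)) := by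
      gcongr
    have m2 : 0 ≤ mR x * Real.log (1 + (vR x - 1) ^ 2) := by positivity
    have m3 : mR x * Real.log (1 + yR x ^ 2) ≤ mR x * Real.log 3 := by gcongr
    have m4 : mR x * (3 + Real.log 10 + 2 * Real.log 3 + Real.log 2) ≤ mR x * (Real.log (1 + vR x ^ 2) + 1) := by
      gcongr
    have m5 : 0 ≤ aR x * (vR x - 1 + 2 * yR x) := by
      have : 0 ≤ vR x - 1 + 2 * yR x := by linarith
      positivity
    have m6 : mR x * (vR x + DR x - 1 - 1) = 2 * (mR x * (vR x - 1)) + mR x * yR x := by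
      rw [← hsum]
      ring
    have m7 : mR x * 1 ≤ mR x * yR x := by gcongr
    rw [m6]
    nlinarith
  linarith

/-! ### The starting block -/

omit hx in
/-- exponent of the first main term -/
noncomputable def Phi0 (x : ℝ) (s : ℂ) : ℂ :=
  (x ^ 10 : ℝ) * (s + (x ^ 20 : ℝ)) + (mR x : ℝ) * (LL s - (Real.log (1 + (x ^ 20) ^ 2) : ℝ))

/-- exponent of the first exponential -/
noncomputable def Zet0 (x : ℝ) (s : ℂ) : ℂ :=
  (x ^ 10 : ℝ) * (s + (x ^ 20 : ℝ)) + (GR x - mR x * Real.log (1 + (x ^ 20) ^ 2) : ℝ)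

theorem log_s1 : Real.log (1 + (x ^ 20) ^ 2) ≤ 41 * x := by
  have h := log_pow_le hx 41
  refine le_trans (Real.log_le_log (by positivity) ?_) (h.trans (by norm_num))
  have c1 := pow_comp hx (b := 2) (by norm_num) (show 40 < 41 by norm_num)
  have c2 : 1 ≤ x ^ 40 := one_le_pow₀ (x_one hx)
  have e : (x ^ 20) ^ 2 = x ^ 40 := by ring
  rw [e]
  linarith

theorem m_log_s1 : mR x * Real.log (1 + (x ^ 20) ^ 2) ≤ 246 * x ^ 29 := by
  have h1 := log_s1 hx
  have h2 := mR_pos hx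
  calc mR x * Real.log (1 + (x ^ 20) ^ 2) ≤ mR x * (41 * x) := by gcongr
    _ = 246 * x ^ 29 := by unfold mR; ring

theorem m_log_s1_nonneg : 0 ≤ mR x * Real.log (1 + (x ^ 20) ^ 2) := by
  have h2 := mR_pos hx
  have : 0 ≤ Real.log (1 + (x ^ 20) ^ 2) := Real.log_nonneg (by have := sq_nonneg (x ^ 20); linarith)
  positivity

omit hx in
theorem Phi0_re (s : ℂ) : (Phi0 x s).re
    = x ^ 10 * (s.re + x ^ 20) + mR x * (Real.log ‖1 + s ^ 2‖ - Real.log (1 + (x ^ 20) ^ 2)) := by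
  unfold Phi0
  rw [Complex.add_re, Complex.re_ofReal_mul, Complex.re_ofReal_mul, Complex.add_re, Complex.sub_re,
    LL_re, Complex.ofReal_re, Complex.ofReal_re]

omit hx in
theorem Zet0_re (s : ℂ) : (Zet0 x s).re
    = x ^ 10 * (s.re + x ^ 20) + (GR x - mR x * Real.log (1 + (x ^ 20) ^ 2)) := by
  unfold Zet0
  rw [Complex.add_re, Complex.re_ofReal_mul, Complex.add_re, Complex.ofReal_re, Complex.ofReal_re]

omit hx in
theorem Zet0_im (s : ℂ) : (Zet0 x s).im = x ^ 10 * s.im := by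
  unfold Zet0
  rw [Complex.add_im, Complex.im_ofReal_mul, Complex.add_im, Complex.ofReal_im, Complex.ofReal_im]
  ring

theorem fz0m {s : ℂ} (hs : |s.im| ≤ hR x) :
    ‖Complex.exp (Zet0 x s) - (‖Complex.exp (Zet0 x s)‖ : ℝ)‖ ≤ ‖Complex.exp (Zet0 x s)‖ / 50 := by
  have h0 := x_pos hx
  refine (exp_sub_norm_le _).trans ?_
  have h1 : |(Zet0 x s).im| ≤ 1 / 50 := by
    rw [Zet0_im, abs_mul, abs_of_pos (by positivity)]
    calc x ^ 10 * |s.im| ≤ x ^ 10 * hR x := by gcongr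
      _ = 1 / x := by unfold hR; field_simp
      _ ≤ 1 / 50 := one_div_le_one_div_of_le (by norm_num) (x_ge hx 50 (by norm_num))
  calc _ ≤ 1 / 50 * ‖Complex.exp (Zet0 x s)‖ := by gcongr
    _ = _ := by ring

theorem fz0r {s : ℂ} (h : 0 ≤ s.re) : exp (GR x + 2 * mR x) ≤ ‖Complex.exp (Zet0 x s)‖ := by
  have h0 := x_pos hx
  rw [Complex.norm_exp]
  apply exp_le_exp.mpr
  rw [Zet0_re]
  have h1 := m_log_s1 hx
  have c1 := pow_comp hx (b := 500) (by norm_num) (show 29 < 30 by norm_num)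
  have c2 := pow_comp hx (b := 500) (by norm_num) (show 28 < 30 by norm_num)
  have h2 : 0 ≤ x ^ 10 * s.re := by positivity
  have h3 : x ^ 10 * (s.re + x ^ 20) = x ^ 10 * s.re + x ^ 30 := by ring
  have h4 : mR x = 6 * x ^ 28 := rfl
  have h5 : 0 < x ^ 30 := by positivity
  rw [h3]
  linarith

theorem fz0l {s : ℂ} (h : s.re ≤ -x ^ 23) : ‖Complex.exp (Zet0 x s)‖ ≤ 1 / (100 * CR x) := by
  have h0 := x_pos hx
  rw [Complex.norm_exp]
  have h1 := m_log_s1_nonneg hx
  have h2 := (GR_le hx).trans (mv_le hx)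
  have c1 := pow_comp hx (b := 100) (by norm_num) (show 31 < 33 by norm_num)
  have c2 := pow_comp hx (b := 100) (by norm_num) (show 30 < 33 by norm_num)
  have c3 := pow_comp hx (b := 100) (by norm_num) (show 1 < 33 by norm_num)
  have h3 : (Zet0 x s).re ≤ -(x / 5) := by
    rw [Zet0_re]
    have : x ^ 10 * (s.re + x ^ 20) ≤ x ^ 10 * (-x ^ 23 + x ^ 20) := by gcongr
    have e : x ^ 10 * (-x ^ 23 + x ^ 20) = -x ^ 33 + x ^ 30 := by ring
    simp only [pow_one] at c3
    have c4 : 0 < x ^ 33 := by positivity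
    linarith
  have h5 := exp_x5 hx
  calc exp _ ≤ exp (-(x / 5)) := exp_le_exp.mpr h3
    _ = 1 / exp (x / 5) := by rw [exp_neg, one_div]
    _ ≤ 1 / (100 * CR x) := by
      apply one_div_le_one_div_of_le
      · unfold CR; positivity
      · refine le_trans ?_ h5
        unfold CR
        have c1 := pow_comp hx (b := 1) (by norm_num) (show 31 < 62 by norm_num)
        have c2 : 1 ≤ x ^ 62 := one_le_pow₀ (x_one hx)
        linarith

theorem fp0r {s : ℂ} (hs : |s.im| ≤ hR x) (h : -(x ^ 20) / 2 ≤ s.re) :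
    1000 ≤ ‖Complex.exp (Phi0 x s)‖ := by
  have h0 := x_pos hx
  rw [Complex.norm_exp, Phi0_re]
  have h1 := m_log_s1 hx
  have h2 := log_low hx hs
  have hm := mR_pos hx
  have c1 := pow_comp hx (b := 5000) (by norm_num) (show 29 < 30 by norm_num)
  have c2 := pow_comp hx (b := 500) (by norm_num) (show 28 < 30 by norm_num)
  have c3 := pow_comp hx (b := 10000) (by norm_num) (show 0 < 30 by norm_num)
  have h3 : x ^ 10 * (-(x ^ 20) / 2 + x ^ 20) ≤ x ^ 10 * (s.re + x ^ 20) := by gcongr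
  have h4 : x ^ 10 * (-(x ^ 20) / 2 + x ^ 20) = x ^ 30 / 2 := by ring
  have h5 : mR x * (-(1 / 50)) ≤ mR x * Real.log ‖1 + s ^ 2‖ := by gcongr
  have h6 : mR x = 6 * x ^ 28 := rfl
  have h7 := add_one_le_exp (x ^ 10 * (s.re + x ^ 20) + mR x * (Real.log ‖1 + s ^ 2‖ - Real.log (1 + (x ^ 20) ^ 2)))
  refine le_trans ?_ h7
  rw [mul_sub]
  simp only [pow_zero] at c3
  have h8 : mR x * (-(1 / 50)) = -(6 * x ^ 28 / 50) := by rw [h6]; ring
  linarith

theorem fp0l {s : ℂ} (hs : |s.im| ≤ hR x) (h : s.re ≤ -2 * x ^ 20) :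
    ‖Complex.exp (Phi0 x s)‖ ≤ 1 / 100 := by
  have h0 := x_pos hx
  have hm := mR_pos hx
  rw [Complex.norm_exp, Phi0_re]
  set u : ℝ := -s.re with hu
  have hu2 : 2 * x ^ 20 ≤ u := by linarith
  have h20 : 1 ≤ x ^ 20 := one_le_pow₀ (x_one hx)
  have hu0 : 0 < u := by linarith
  have hnorm : ‖1 + s ^ 2‖ ≤ 2 * u ^ 2 := by
    have h1 : ‖1 + s ^ 2‖ ≤ 1 + ‖s‖ ^ 2 := by
      refine (norm_add_le _ _).trans ?_
      rw [norm_one, norm_pow]
    have h2 : ‖s‖ ^ 2 = s.re ^ 2 + s.im ^ 2 := by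
      rw [Complex.sq_norm, Complex.normSq_apply]
      ring
    have h3 : s.im ^ 2 ≤ 1 := by
      rw [← sq_abs]
      have := hR_le hx
      exact pow_le_one₀ (abs_nonneg _) (by linarith)
    have h4 : s.re ^ 2 = u ^ 2 := by rw [hu]; ring
    nlinarith
  have hnpos : 0 < ‖1 + s ^ 2‖ := by
    have := norm_low hx hs
    nlinarith [sq_nonneg s.re]
  have hlog : Real.log ‖1 + s ^ 2‖ - Real.log (1 + (x ^ 20) ^ 2) ≤ 3 * (u / x ^ 20) := by
    have a1 : Real.log ‖1 + s ^ 2‖ ≤ Real.log (2 * u ^ 2) := Real.log_le_log hnpos hnorm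
    have a2 : Real.log ((x ^ 20) ^ 2) ≤ Real.log (1 + (x ^ 20) ^ 2) := by
      apply Real.log_le_log (by positivity)
      linarith
    have a3 : Real.log (2 * u ^ 2) - Real.log ((x ^ 20) ^ 2) = Real.log 2 + 2 * Real.log (u / x ^ 20) := by
      rw [Real.log_mul (by norm_num) (by positivity), Real.log_pow, Real.log_pow,
        Real.log_div hu0.ne' (by positivity)]
      push_cast
      ring
    have a4 := Real.log_le_sub_one_of_pos (show 0 < u / x ^ 20 by positivity)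
    have a5 := Real.log_two_lt_d9
    have a6 : 2 ≤ u / x ^ 20 := by
      rw [le_div_iff₀ (by positivity)]
      exact hu2
    linarith
  have h1 : x ^ 10 * (s.re + x ^ 20) ≤ -(x ^ 10 * u / 2) := by
    have : s.re + x ^ 20 ≤ -(u / 2) := by linarith
    calc x ^ 10 * (s.re + x ^ 20) ≤ x ^ 10 * (-(u / 2)) := by gcongr
      _ = _ := by ring
  have h2 : mR x * (Real.log ‖1 + s ^ 2‖ - Real.log (1 + (x ^ 20) ^ 2)) ≤ 18 * x ^ 8 * u := by
    calc _ ≤ mR x * (3 * (u / x ^ 20)) := by gcongr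
      _ = _ := by
        unfold mR
        field_simp
        ring
  have c1 := pow_comp hx (b := 72) (by norm_num) (show 8 < 10 by norm_num)
  have h3 : 18 * x ^ 8 * u ≤ x ^ 10 * u / 4 := by
    have : (72 * x ^ 8) * u ≤ x ^ 10 * u := by gcongr
    linarith
  have c2 : x ^ 10 * (2 * x ^ 20) ≤ x ^ 10 * u := by gcongr
  have c3 := pow_comp hx (b := 10000) (by norm_num) (show 0 < 30 by norm_num)
  have c4 : x ^ 10 * (2 * x ^ 20) = 2 * x ^ 30 := by ring
  have h4 : x ^ 10 * (s.re + x ^ 20) + mR x * (Real.log ‖1 + s ^ 2‖ - Real.log (1 + (x ^ 20) ^ 2)) ≤ -100 := by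
    simp only [pow_zero] at c3
    linarith
  calc exp _ ≤ exp (-100) := exp_le_exp.mpr h4
    _ = 1 / exp 100 := by rw [exp_neg, one_div]
    _ ≤ 1 / 100 := by
      apply one_div_le_one_div_of_le (by norm_num)
      have := add_one_le_exp (100 : ℝ)
      linarith

theorem fp0m {s : ℂ} (hs : |s.im| ≤ hR x) (h : s.re ≤ -(x ^ 20) / 2) :
    |(Complex.exp (Phi0 x s)).im| ≤ ‖Complex.exp (Phi0 x s)‖ / 50 := by
  have h0 := x_pos hx
  have hm := mR_pos hx
  have h20 : 1000 ≤ x ^ 20 := by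
    have := pow_comp hx (b := 1000) (by norm_num) (show 0 < 20 by norm_num)
    simpa using this
  refine (exp_im_le _).trans ?_
  have h1 : |(Phi0 x s).im| ≤ 1 / 50 := by
    have hd : ∀ s' : ℂ, s'.re = s.re → |s'.im| ≤ hR x →
        HasDerivAt (Phi0 x) ((x ^ 10 : ℝ) + (mR x : ℝ) * (2 * s' / (1 + s' ^ 2))) s' := by
      intro s' _ hs'
      have a := LL_hasDerivAt (s := s') (by have := hR_le hx; linarith)
      have b : HasDerivAt (fun s : ℂ => ((x ^ 10 : ℝ) : ℂ) * (s + (x ^ 20 : ℝ))) ((x ^ 10 : ℝ) : ℂ) s' := by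
        have := ((hasDerivAt_id s').add_const ((x ^ 20 : ℝ) : ℂ)).const_mul ((x ^ 10 : ℝ) : ℂ)
        simpa using this
      have c := (a.sub_const ((Real.log (1 + (x ^ 20) ^ 2) : ℝ) : ℂ)).const_mul ((mR x : ℝ) : ℂ)
      exact b.fun_add c
    have hC : ∀ s' : ℂ, s'.re = s.re → |s'.im| ≤ hR x →
        ‖((x ^ 10 : ℝ) : ℂ) + (mR x : ℝ) * (2 * s' / (1 + s' ^ 2))‖ ≤ 2 * x ^ 10 := by
      intro s' hre hs'
      have hns : x ^ 20 / 2 ≤ ‖s'‖ := by
        have a1 := Complex.abs_re_le_norm s'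
        rw [hre] at a1
        have a2 := neg_le_abs s.re
        linarith
      have hden : ‖s'‖ ^ 2 / 2 ≤ ‖1 + s' ^ 2‖ := by
        have a1 := norm_sub_norm_le (s' ^ 2) (-1)
        rw [norm_neg, norm_one, norm_pow, sub_neg_eq_add, add_comm (s' ^ 2)] at a1
        have : 4 ≤ ‖s'‖ := by linarith
        nlinarith
      have hsp : 0 < ‖s'‖ := by linarith
      have hfrac : ‖2 * s' / (1 + s' ^ 2)‖ ≤ 8 / x ^ 20 := by
        rw [norm_div, norm_mul]
        have e2 : ‖(2 : ℂ)‖ = 2 := by simp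
        rw [e2]
        calc 2 * ‖s'‖ / ‖1 + s' ^ 2‖ ≤ 2 * ‖s'‖ / (‖s'‖ ^ 2 / 2) := by gcongr
          _ = 4 / ‖s'‖ := by field_simp; ring
          _ ≤ 4 / (x ^ 20 / 2) := by gcongr
          _ = 8 / x ^ 20 := by field_simp; ring
      calc ‖((x ^ 10 : ℝ) : ℂ) + (mR x : ℝ) * (2 * s' / (1 + s' ^ 2))‖
          ≤ ‖((x ^ 10 : ℝ) : ℂ)‖ + ‖((mR x : ℝ) : ℂ) * (2 * s' / (1 + s' ^ 2))‖ := norm_add_le _ _
        _ = x ^ 10 + mR x * ‖2 * s' / (1 + s' ^ 2)‖ := by
          rw [norm_mul, Complex.norm_real, Complex.norm_real, Real.norm_eq_abs, Real.norm_eq_abs,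
            abs_of_pos hm, abs_of_pos (by positivity)]
        _ ≤ x ^ 10 + mR x * (8 / x ^ 20) := by gcongr
        _ = x ^ 10 + 48 * x ^ 8 := by
          unfold mR
          field_simp
          ring
        _ ≤ 2 * x ^ 10 := by
          have := pow_comp hx (b := 48) (by norm_num) (show 8 < 10 by norm_num)
          linarith
    have hmv := vert_mvt (f := Phi0 x) (h := hR x) (a := s.re) (b := s.im) hs hd hC
    rw [Complex.re_add_im] at hmv
    have him : (Phi0 x (s.re : ℂ)).im = 0 := by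
      have : Phi0 x (s.re : ℂ) = ((x ^ 10 * (s.re + x ^ 20) + mR x * (Real.log (1 + s.re ^ 2)
          - Real.log (1 + (x ^ 20) ^ 2)) : ℝ) : ℂ) := by
        unfold Phi0
        rw [LL_ofReal]
        push_cast
        ring
      rw [this, Complex.ofReal_im]
    have h3 : |(Phi0 x s).im| ≤ ‖Phi0 x s - Phi0 x (s.re : ℂ)‖ := by
      have := Complex.abs_im_le_norm (Phi0 x s - Phi0 x (s.re : ℂ))
      rwa [Complex.sub_im, him, sub_zero] at this
    refine (h3.trans hmv).trans ?_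
    calc 2 * x ^ 10 * |s.im| ≤ 2 * x ^ 10 * hR x := by gcongr
      _ = 2 / x := by unfold hR; field_simp
      _ ≤ 1 / 50 := by
        rw [div_le_div_iff₀ h0 (by norm_num)]
        have := x_ge hx 100 (by norm_num)
        linarith
  calc _ ≤ 1 / 50 * ‖Complex.exp (Phi0 x s)‖ := by gcongr
    _ = _ := by ring

end

end Pool.Agent.Lib.MP_a05d5a_an
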