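import Mathlib
import Pool.Agent.Lib.MP_a05d5a_an.Block

namespace Pool.Agent.Lib.MP_a05d5a_an

open Finset Real

/-- signed coefficients -/
noncomputable def sb (n N : ℕ) (Q : Polynomial ℝ) (i : ℕ) : ℝ := (-1) ^ (n + i) * bb n N Q i

/-- signed terms -/
noncomputable def TT (n N : ℕ) (Q : Polynomial ℝ) (t : ℝ) (i : ℕ) : ℝ := sb n N Q i * exp (XR n N i * t)

/-- real partial sums with alternating sign removed -/
noncomputable def AA (n N : ℕ) (Q : Polynomial ℝ) (t : ℝ) (r : ℕ) : ℝ :=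
  (-1) ^ (n + r) * ∑ i ∈ range (r + 1), bb n N Q i * exp (XR n N i * t)

theorem neg_one_pow_mul_self (k : ℕ) : ((-1 : ℝ) ^ k) * (-1) ^ k = 1 := by
  rw [← mul_pow]
  simp

theorem AA_zero (n N : ℕ) (Q : Polynomial ℝ) (t : ℝ) : AA n N Q t 0 = TT n N Q t 0 := by
  simp [AA, TT, sb]
  ring

theorem AA_succ (n N : ℕ) (Q : Polynomial ℝ) (t : ℝ) (r : ℕ) :
    AA n N Q t (r + 1) = TT n N Q t (r + 1) - AA n N Q t r := by
  unfold AA TT sb
  rw [sum_range_succ _ (r + 1)]
  have : (-1 : ℝ) ^ (n + (r + 1)) = - (-1) ^ (n + r) := by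
    rw [← add_assoc, pow_succ]
    ring
  rw [this]
  ring

theorem SS_ofReal (n N : ℕ) (Q : Polynomial ℝ) (t : ℝ) (r : ℕ) :
    SS n N Q r (t : ℂ) = (((-1) ^ (n + r) * AA n N Q t r : ℝ) : ℂ) := by
  unfold SS AA
  rw [← mul_assoc, neg_one_pow_mul_self, one_mul]
  push_cast
  rfl

theorem abs_SS_ofReal (n N : ℕ) (Q : Polynomial ℝ) (t : ℝ) (r : ℕ) :
    ‖SS n N Q r (t : ℂ)‖ = |AA n N Q t r| := by
  rw [SS_ofReal, Complex.norm_real, Real.norm_eq_abs, abs_mul, abs_pow, abs_neg, abs_one, one_pow,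
    one_mul]

section
variable {n N : ℕ} {Q : Polynomial ℝ} {ρ W δ t₁ : ℝ} (H : BlockHyp n N Q ρ W δ t₁)
include H

theorem BlockHyp.sb_int {i : ℕ} (h0 : 0 < i) (hi : i < n) :
    1 - 1 / (100 * n ^ 2) ≤ sb n N Q i ∧ sb n N Q i ≤ 1 + 1 / (100 * n ^ 2) := by
  have h := H.b_bound hi.le
  rw [if_neg (by omega)] at h
  have := abs_le.mp h
  unfold sb
  constructor <;> linarith

theorem BlockHyp.sb_zero :
    1 / 2 - 1 / (100 * n ^ 2) ≤ sb n N Q 0 ∧ sb n N Q 0 ≤ 1 / 2 + 1 / (100 * n ^ 2) := by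
  have h := H.b_bound (Nat.zero_le n)
  rw [if_pos (by omega)] at h
  have := abs_le.mp h
  unfold sb
  constructor <;> linarith

theorem BlockHyp.eps_small : 1 / (100 * (n : ℝ) ^ 2) ≤ 1 / 1000000 := by
  have := H.hnr
  apply one_div_le_one_div_of_le (by norm_num)
  nlinarith

theorem BlockHyp.sb_pos {i : ℕ} (hi : i < n) : 49 / 100 ≤ sb n N Q i ∧ sb n N Q i ≤ 101 / 100 := by
  have he := H.eps_small
  rcases Nat.eq_zero_or_pos i with rfl | h0
  · have := H.sb_zero
    constructor <;> linarith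
  · have := H.sb_int h0 hi
    constructor <;> linarith

theorem BlockHyp.gap {i j : ℕ} (hij : i < j) (hj : j ≤ n) :
    (N : ℝ) / (2 * n ^ 2) ≤ XR n N j - XR n N i := by
  have h := Xn_gap (N := N) hj hij
  have hn := H.hnr
  have hN := H.hNr
  have h2 : 1 ≤ (N : ℝ) / (2 * n ^ 2) := by
    rw [one_le_div (by positivity)]
    have : (n : ℝ) ^ 2 ≤ n ^ 5 := pow_le_pow_right₀ (by linarith) (by norm_num)
    have : 0 < (n : ℝ) ^ 5 := by positivity
    linarith
  have h3 : (N : ℝ) / n ^ 2 = N / (2 * n ^ 2) + N / (2 * n ^ 2) := by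
    field_simp
    norm_num
  unfold XR
  linarith

omit H in
theorem XR_nonneg (n N i : ℕ) : 0 ≤ XR n N i := by unfold XR; positivity

omit H in
theorem XR_le (n N i : ℕ) : XR n N i ≤ N := by unfold XR; exact_mod_cast Xn_le_N n N i

/-- consecutive terms, general lower bound -/
theorem BlockHyp.TT_step {t : ℝ} (ht : 0 ≤ t) {i : ℕ} (h0 : 0 < i) (hi : i + 1 < n) :
    -(6 * (1 / (100 * (n : ℝ) ^ 2))) ≤ TT n N Q t (i + 1) - TT n N Q t i := by
  have he := H.eps_small
  have hn := H.hnr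
  have hN0 := H.N0
  set ε : ℝ := 1 / (100 * (n : ℝ) ^ 2) with hε
  have hε0 : 0 < ε := by positivity
  have h1 := H.sb_int h0 (by omega)
  have h2 := H.sb_int (i := i + 1) (by omega) hi
  have hg := H.gap (show i < i + 1 by omega) (show i + 1 ≤ n by omega)
  have hexp : TT n N Q t (i + 1) - TT n N Q t i
      = exp (XR n N i * t) * (sb n N Q (i + 1) * exp ((XR n N (i + 1) - XR n N i) * t) - sb n N Q i) := by
    unfold TT
    have : exp (XR n N (i + 1) * t) = exp (XR n N i * t) * exp ((XR n N (i + 1) - XR n N i) * t) := by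
      rw [← exp_add]
      congr 1
      ring
    rw [this]
    ring
  rw [hexp]
  have hgt : (N : ℝ) / (2 * n ^ 2) * t ≤ (XR n N (i + 1) - XR n N i) * t := by gcongr
  have h3 := add_one_le_exp ((XR n N (i + 1) - XR n N i) * t)
  rcases le_total (N * t) 1 with hc | hc
  · have h4 : exp (XR n N i * t) ≤ 3 := by
      have := exp_one_lt_d9
      calc exp (XR n N i * t) ≤ exp 1 := by
            apply exp_le_exp.mpr
            have := XR_le n N i
            calc XR n N i * t ≤ N * t := by gcongr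
              _ ≤ 1 := hc
        _ ≤ 3 := by linarith
    have h5 : 0 ≤ (N : ℝ) / (2 * n ^ 2) * t := by positivity
    have h6 : -(2 * ε) ≤ sb n N Q (i + 1) * exp ((XR n N (i + 1) - XR n N i) * t) - sb n N Q i := by
      have : sb n N Q (i + 1) * 1 ≤ sb n N Q (i + 1) * exp ((XR n N (i + 1) - XR n N i) * t) := by
        apply mul_le_mul_of_nonneg_left _ (by linarith [h2.1])
        linarith
      linarith [h2.1, h1.2]
    have h7 := exp_pos (XR n N i * t)
    nlinarith
  · have h5 : 50 * ε ≤ (XR n N (i + 1) - XR n N i) * t := by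
      refine le_trans ?_ hgt
      have : (N : ℝ) / (2 * n ^ 2) * t = (N * t) * (50 * ε) := by
        rw [hε]
        field_simp
        ring
      rw [this]
      nlinarith
    have h6 : 0 ≤ sb n N Q (i + 1) * exp ((XR n N (i + 1) - XR n N i) * t) - sb n N Q i := by
      have : (1 - ε) * (1 + 50 * ε) ≤ sb n N Q (i + 1) * exp ((XR n N (i + 1) - XR n N i) * t) := by
        apply mul_le_mul h2.1 (by linarith) (by linarith) (by linarith [h2.1])
      nlinarith [h1.2]
    have h7 := exp_pos (XR n N i * t)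
    nlinarith

theorem BlockHyp.TT_one {t : ℝ} (ht : 0 ≤ t) : 499 / 1000 ≤ TT n N Q t 1 - TT n N Q t 0 := by
  have he := H.eps_small
  have hn := H.hnr
  have hnn : 1 < n := by have := H.hn; omega
  have h1 := H.sb_int (i := 1) (by omega) hnn
  have h2 := H.sb_zero
  unfold TT
  have hX0 : XR n N 0 = 0 := H.nodes.zero
  rw [hX0, zero_mul, exp_zero, mul_one]
  have h3 : 1 ≤ exp (XR n N 1 * t) := one_le_exp (mul_nonneg (XR_nonneg n N 1) ht)
  nlinarith [h1.1]

theorem BlockHyp.TT_zero {t : ℝ} : 49 / 100 ≤ TT n N Q t 0 ∧ TT n N Q t 0 ≤ 51 / 100 := by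
  have he := H.eps_small
  have h2 := H.sb_zero
  unfold TT
  have hX0 : XR n N 0 = 0 := H.nodes.zero
  rw [hX0, zero_mul, exp_zero, mul_one]
  constructor <;> linarith

theorem BlockHyp.AA_bounds {t : ℝ} (ht : 0 ≤ t) : ∀ r, r + 1 < n →
    48 / 100 - (r : ℝ) * (6 * (1 / (100 * (n : ℝ) ^ 2))) ≤ AA n N Q t (r + 1) ∧
    AA n N Q t (r + 1) ≤ TT n N Q t (r + 1) - 48 / 100 + r * (6 * (1 / (100 * (n : ℝ) ^ 2))) := by
  intro r
  induction r with
  | zero =>
    intro _
    have h1 := H.TT_one ht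
    have h2 := H.TT_zero (t := t)
    rw [AA_succ, AA_zero]
    push_cast
    constructor <;> linarith
  | succ r ih =>
    intro hr
    have h1 := ih (by omega)
    have h2 := H.TT_step ht (i := r + 1) (by omega) hr
    rw [AA_succ n N Q t (r + 1)]
    push_cast
    constructor
    · linarith [h1.2]
    · have := H.eps_small
      have h3 : (0 : ℝ) ≤ 1 / (100 * (n : ℝ) ^ 2) := by positivity
      linarith [h1.1]

theorem BlockHyp.rn_small {r : ℕ} (hr : r ≤ n) : (r : ℝ) * (6 * (1 / (100 * (n : ℝ) ^ 2))) ≤ 1 / 100 := by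
  have hn := H.hnr
  have hr' : (r : ℝ) ≤ n := by exact_mod_cast hr
  calc (r : ℝ) * (6 * (1 / (100 * (n : ℝ) ^ 2))) ≤ (n : ℝ) * (6 * (1 / (100 * (n : ℝ) ^ 2))) := by gcongr
    _ = 6 / (100 * (n : ℝ)) := by field_simp
    _ ≤ 1 / 100 := by
      rw [div_le_div_iff₀ (by positivity) (by norm_num)]
      linarith

theorem BlockHyp.AA_lower {t : ℝ} (ht : 0 ≤ t) {r : ℕ} (hr : r < n) : 47 / 100 ≤ AA n N Q t r := by
  cases r with
  | zero =>
    rw [AA_zero]
    linarith [(H.TT_zero (t := t)).1]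
  | succ r =>
    have h := (H.AA_bounds ht r hr).1
    have hn := H.hnr
    have hr' : (r : ℝ) ≤ n := by exact_mod_cast (by omega : r ≤ n)
    have := H.rn_small (show r ≤ n by omega)
    linarith

theorem BlockHyp.AA_upper {t : ℝ} (ht : 0 ≤ t) {r : ℕ} (hr : r < n) : AA n N Q t r ≤ TT n N Q t r := by
  cases r with
  | zero => rw [AA_zero]
  | succ r =>
    have h := (H.AA_bounds ht r hr).2
    have hn := H.hnr
    have hr' : (r : ℝ) ≤ n := by exact_mod_cast (by omega : r ≤ n)
    have := H.rn_small (show r ≤ n by omega)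
    linarith

theorem BlockHyp.AA_zero_upper {r : ℕ} (hr : r < n) : AA n N Q 0 r ≤ 1 := by
  cases r with
  | zero =>
    rw [AA_zero]
    linarith [(H.TT_zero (t := 0)).2]
  | succ r =>
    have h := (H.AA_bounds le_rfl r hr).2
    have hn := H.hnr
    have hr' : (r : ℝ) ≤ n := by exact_mod_cast (by omega : r ≤ n)
    have := H.rn_small (show r ≤ n by omega)
    have h2 := H.sb_pos hr
    unfold TT at h
    rw [mul_zero, exp_zero, mul_one] at h
    linarith

/-- relative lower bound for `N t ≥ 1` -/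
theorem BlockHyp.AA_rel {t : ℝ} (ht : 0 ≤ t) (hNt : 1 ≤ N * t) {r : ℕ} (hr : r < n) :
    TT n N Q t r / (8 * n ^ 2) ≤ AA n N Q t r := by
  have he := H.eps_small
  have hn := H.hnr
  have hN0 := H.N0
  have hT : 0 < TT n N Q t r := by
    unfold TT
    have := (H.sb_pos hr).1
    have : 0 < sb n N Q r := by linarith
    positivity
  have h8 : 1 / (8 * (n : ℝ) ^ 2) ≤ 1 / 80000 := by
    apply one_div_le_one_div_of_le (by norm_num)
    nlinarith
  rcases r with _ | _ | r
  · rw [AA_zero]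
    apply div_le_self hT.le
    nlinarith
  · -- r = 1
    rw [AA_succ, AA_zero]
    have h1 := H.TT_one ht
    have h2 := H.TT_zero (t := t)
    have h3 : TT n N Q t (0 + 1) / (8 * n ^ 2) = TT n N Q t (0 + 1) * (1 / (8 * n ^ 2)) := by ring
    rw [h3]
    have h4 : TT n N Q t (0 + 1) * (1 / (8 * (n : ℝ) ^ 2)) ≤ TT n N Q t (0 + 1) * (1 / 80000) := by gcongr
    simp only [zero_add] at *
    nlinarith
  · rw [AA_succ]
    have hu := H.AA_upper ht (r := r + 1) (by omega)
    set ε : ℝ := 1 / (100 * (n : ℝ) ^ 2) with hε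
    have hε0 : 0 < ε := by positivity
    have h1 := H.sb_int (i := r + 1) (by omega) (by omega)
    have h2 := H.sb_int (i := r + 1 + 1) (by omega) hr
    have hg := H.gap (show r + 1 < r + 1 + 1 by omega) (show r + 1 + 1 ≤ n by omega)
    have hgt : (N : ℝ) / (2 * n ^ 2) * t ≤ (XR n N (r + 1 + 1) - XR n N (r + 1)) * t := by gcongr
    have h3 := add_one_le_exp ((XR n N (r + 1 + 1) - XR n N (r + 1)) * t)
    have h5 : 50 * ε ≤ (XR n N (r + 1 + 1) - XR n N (r + 1)) * t := by
      refine le_trans ?_ hgt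
      have : (N : ℝ) / (2 * n ^ 2) * t = (N * t) * (50 * ε) := by
        rw [hε]
        field_simp
        ring
      rw [this]
      nlinarith
    have hTT : TT n N Q t (r + 1 + 1) = sb n N Q (r + 1 + 1) *
        (exp (XR n N (r + 1) * t) * exp ((XR n N (r + 1 + 1) - XR n N (r + 1)) * t)) := by
      unfold TT
      rw [← exp_add]
      congr 2
      ring
    have hc : (1 + ε) ≤ (1 - 25 / 2 * ε) * (sb n N Q (r + 1 + 1) * exp ((XR n N (r + 1 + 1) - XR n N (r + 1)) * t)) := by
      have a1 : (1 - ε) * (1 + 50 * ε) ≤ sb n N Q (r + 1 + 1) * exp ((XR n N (r + 1 + 1) - XR n N (r + 1)) * t) := by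
        apply mul_le_mul h2.1 (by linarith) (by linarith) (by linarith [h2.1])
      have a2 : 0 ≤ 1 - 25 / 2 * ε := by linarith
      have a3 : 0 ≤ ε * (71 / 2 - 1325 / 2 * ε) := mul_nonneg hε0.le (by linarith)
      have a4 : 0 ≤ ε ^ 3 := by positivity
      calc (1 + ε) ≤ (1 - 25 / 2 * ε) * ((1 - ε) * (1 + 50 * ε)) := by nlinarith
        _ ≤ _ := by gcongr
    have hT1 : TT n N Q t (r + 1) ≤ (1 - 25 / 2 * ε) * TT n N Q t (r + 1 + 1) := by
      rw [hTT]
      have p := exp_pos (XR n N (r + 1) * t)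
      calc TT n N Q t (r + 1) = sb n N Q (r + 1) * exp (XR n N (r + 1) * t) := rfl
        _ ≤ (1 + ε) * exp (XR n N (r + 1) * t) := by gcongr; exact h1.2
        _ ≤ ((1 - 25 / 2 * ε) * (sb n N Q (r + 1 + 1) * exp ((XR n N (r + 1 + 1) - XR n N (r + 1)) * t))) * exp (XR n N (r + 1) * t) := by gcongr
        _ = _ := by ring
    have h9 : TT n N Q t (r + 1 + 1) / (8 * n ^ 2) = TT n N Q t (r + 1 + 1) * (25 / 2 * ε) := by
      rw [hε]
      field_simp
      norm_num
    rw [h9]
    nlinarith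

/-- the deviation of the partial sums off the real axis -/
theorem BlockHyp.SS_dev {t y : ℝ} (hy : |y| ≤ δ) {r : ℕ} (hr : r < n) {M : ℝ}
    (hM : ∀ i ≤ r, TT n N Q t i ≤ M) :
    ‖SS n N Q r (t + y * Complex.I) - SS n N Q r (t : ℂ)‖ ≤ (r + 1) * (M * (N * δ)) := by
  have hN0 := H.N0
  unfold SS
  rw [← sum_sub_distrib]
  refine (norm_sum_le _ _).trans ?_
  have : ∀ i ∈ range (r + 1), ‖(bb n N Q i : ℂ) * Complex.exp (XR n N i * (t + y * Complex.I))
      - (bb n N Q i : ℂ) * Complex.exp (XR n N i * t)‖ ≤ M * (N * δ) := by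
    intro i hi
    have hi' : i ≤ r := by have := mem_range.mp hi; omega
    have e1 : (bb n N Q i : ℂ) * Complex.exp (XR n N i * (t + y * Complex.I))
      - (bb n N Q i : ℂ) * Complex.exp (XR n N i * t)
      = ((bb n N Q i : ℝ) : ℂ) * ((exp (XR n N i * t) : ℝ) : ℂ) * (Complex.exp (Complex.I * ((XR n N i * y : ℝ) : ℂ)) - 1) := by
      have : Complex.exp (XR n N i * (t + y * Complex.I))
          = Complex.exp (XR n N i * t) * Complex.exp (Complex.I * ((XR n N i * y : ℝ) : ℂ)) := by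
        rw [← Complex.exp_add]
        congr 1
        push_cast
        ring
      rw [this]
      push_cast
      ring
    rw [e1, norm_mul, norm_mul, Complex.norm_real, Complex.norm_real, Real.norm_eq_abs,
      Real.norm_eq_abs, abs_of_pos (exp_pos _)]
    have h1 := Real.norm_exp_I_mul_ofReal_sub_one_le (x := XR n N i * y)
    rw [Real.norm_eq_abs] at h1
    have h2 : |bb n N Q i| * exp (XR n N i * t) = TT n N Q t i := by
      unfold TT
      have h3 := (H.sb_pos (show i < n by omega)).1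
      have h4 : |sb n N Q i| = |bb n N Q i| := by
        unfold sb
        rw [abs_mul, abs_pow, abs_neg, abs_one, one_pow, one_mul]
      rw [← h4, abs_of_pos (by linarith)]
    rw [h2]
    have h5 : |XR n N i * y| ≤ N * δ := by
      rw [abs_mul, abs_of_nonneg (XR_nonneg n N i)]
      exact mul_le_mul (XR_le n N i) hy (abs_nonneg _) hN0.le
    have h6 : 0 ≤ TT n N Q t i := by
      have h3 := (H.sb_pos (show i < n by omega)).1
      unfold TT
      have : 0 ≤ sb n N Q i := by linarith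
      positivity
    exact mul_le_mul (hM i hi') (h1.trans h5) (norm_nonneg _) (h6.trans (hM i hi'))
  refine (sum_le_card_nsmul _ _ _ this).trans ?_
  rw [card_range, nsmul_eq_mul]
  push_cast
  exact le_rfl

theorem BlockHyp.partial_right {t y : ℝ} (ht : 0 ≤ t) (hy : |y| ≤ δ) {r : ℕ} (hr : r < n) :
    1 / (100 * (n : ℝ) ^ 2) ≤ ‖SS n N Q r (t + y * Complex.I)‖ := by
  have he := H.eps_small
  have hn := H.hnr
  have hN0 := H.N0
  have hδ0 := H.hδ0
  have hδ1 := H.hδ1
  have hr' : (r : ℝ) + 1 ≤ n := by exact_mod_cast hr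
  have hn3 : N * δ ≤ 1 / (100 * n ^ 3) := by
    rw [le_div_iff₀ (by positivity)]
    linarith
  have htri : ‖SS n N Q r (t : ℂ)‖ ≤ ‖SS n N Q r (t + y * Complex.I)‖
      + ‖SS n N Q r (t + y * Complex.I) - SS n N Q r (t : ℂ)‖ := by
    have := norm_sub_norm_le (SS n N Q r (t : ℂ)) (SS n N Q r (t + y * Complex.I))
    rw [norm_sub_rev] at this
    linarith
  have hlow := H.AA_lower ht hr
  rw [abs_SS_ofReal, abs_of_pos (by linarith)] at htri
  rcases le_total (N * t) 1 with hc | hc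
  · have hM : ∀ i ≤ r, TT n N Q t i ≤ 4 := by
      intro i hi
      unfold TT
      have h1 := H.sb_pos (show i < n by omega)
      have h4 : exp (XR n N i * t) ≤ 3 := by
        have := exp_one_lt_d9
        calc exp (XR n N i * t) ≤ exp 1 := by
              apply exp_le_exp.mpr
              have := XR_le n N i
              calc XR n N i * t ≤ N * t := by gcongr
                _ ≤ 1 := hc
          _ ≤ 3 := by linarith
      have := exp_pos (XR n N i * t)
      nlinarith [h1.1, h1.2]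
    have hdev := H.SS_dev hy hr hM
    have : (r + 1 : ℝ) * (4 * (N * δ)) ≤ 1 / 100 := by
      calc (r + 1 : ℝ) * (4 * (N * δ)) ≤ n * (4 * (1 / (100 * n ^ 3))) := by gcongr
        _ = 4 / (100 * n ^ 2) := by field_simp
        _ ≤ 1 / 100 := by
          rw [div_le_div_iff₀ (by positivity) (by norm_num)]
          nlinarith
    linarith
  · have hrel := H.AA_rel ht hc hr
    have hM : ∀ i ≤ r, TT n N Q t i ≤ 3 * TT n N Q t r := by
      intro i hi
      unfold TT
      have h1 := H.sb_pos (show i < n by omega)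
      have h2 := H.sb_pos hr
      have h4 : exp (XR n N i * t) ≤ exp (XR n N r * t) := by
        apply exp_le_exp.mpr
        have := H.nodes.le hi hr.le
        gcongr
      have p1 := exp_pos (XR n N i * t)
      have p2 := exp_pos (XR n N r * t)
      calc sb n N Q i * exp (XR n N i * t) ≤ (101 / 100) * exp (XR n N r * t) := by
            apply mul_le_mul h1.2 h4 p1.le (by norm_num)
        _ ≤ 3 * (sb n N Q r * exp (XR n N r * t)) := by nlinarith [h2.1]
    have hdev := H.SS_dev hy hr hM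
    have hT : 49 / 100 ≤ TT n N Q t r := by
      unfold TT
      have h2 := H.sb_pos hr
      have : 1 ≤ exp (XR n N r * t) := one_le_exp (mul_nonneg (XR_nonneg n N r) ht)
      nlinarith [h2.1]
    set T := TT n N Q t r with hTdef
    have h9 : (r + 1 : ℝ) * (3 * T * (N * δ)) ≤ 3 / 100 * (T / n ^ 2) := by
      calc (r + 1 : ℝ) * (3 * T * (N * δ)) ≤ n * (3 * T * (1 / (100 * n ^ 3))) := by gcongr
        _ = 3 / 100 * (T / n ^ 2) := by field_simp
    have h10 : T / (8 * n ^ 2) = 1 / 8 * (T / n ^ 2) := by ring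
    rw [h10] at hrel
    have h11 : 1 / (100 * (n : ℝ) ^ 2) ≤ 1 / 20 * (T / n ^ 2) := by
      have : 1 / (100 * (n : ℝ) ^ 2) = 1 / 100 * (1 / n ^ 2) := by ring
      rw [this]
      have h12 : T / (n : ℝ) ^ 2 = T * (1 / n ^ 2) := by ring
      rw [h12]
      have : 0 < 1 / (n : ℝ) ^ 2 := by positivity
      nlinarith
    linarith

theorem BlockHyp.partial_window {r : ℕ} (hr : r < n) :
    ∃ σ : ℝ, 1 / 4 ≤ |σ| ∧ |σ| ≤ 1 ∧ ∀ w : ℂ, ‖w‖ ≤ 2 * W → ‖SS n N Q r w - σ‖ ≤ |σ| / 50 := by
  have he := H.eps_small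
  have hn := H.hnr
  have hN0 := H.N0
  refine ⟨(-1) ^ (n + r) * AA n N Q 0 r, ?_, ?_, ?_⟩
  · have h1 := H.AA_lower le_rfl hr
    rw [abs_mul, abs_pow, abs_neg, abs_one, one_pow, one_mul, abs_of_pos (by linarith)]
    linarith
  · have h1 := H.AA_lower le_rfl hr
    have h2 := H.AA_zero_upper hr
    rw [abs_mul, abs_pow, abs_neg, abs_one, one_pow, one_mul, abs_of_pos (by linarith)]
    exact h2
  · intro w hw
    have h1 := H.AA_lower le_rfl hr
    rw [abs_mul, abs_pow, abs_neg, abs_one, one_pow, one_mul, abs_of_pos (by linarith)]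
    rw [← SS_ofReal]
    have hx : N * ‖w‖ * n ≤ 1 / 10000 := by
      refine le_trans ?_ H.hW2
      gcongr
    have hx0 : 0 ≤ N * ‖w‖ := by positivity
    have hx1 : N * ‖w‖ ≤ 1 := by nlinarith
    unfold SS
    rw [← sum_sub_distrib]
    refine (norm_sum_le _ _).trans ?_
    have : ∀ i ∈ range (r + 1), ‖(bb n N Q i : ℂ) * Complex.exp (XR n N i * w)
        - (bb n N Q i : ℂ) * Complex.exp (XR n N i * (0 : ℝ))‖ ≤ 2 * (2 * (N * ‖w‖)) := by
      intro i hi
      have hi' : i ≤ n := by have := mem_range.mp hi; omega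
      rw [Complex.ofReal_zero, mul_zero, Complex.exp_zero, mul_one]
      have : (bb n N Q i : ℂ) * Complex.exp (XR n N i * w) - (bb n N Q i : ℂ)
        = (bb n N Q i : ℂ) * (Complex.exp (XR n N i * w) - 1) := by ring
      rw [this, norm_mul, Complex.norm_real, Real.norm_eq_abs]
      have h2 := H.b_le hi'
      have h3 : ‖(XR n N i : ℂ) * w‖ ≤ N * ‖w‖ := by
        rw [norm_mul, Complex.norm_real, Real.norm_eq_abs, abs_of_nonneg (XR_nonneg n N i)]
        have := XR_le n N i
        gcongr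
      have h4 := Complex.norm_exp_sub_one_le (x := (XR n N i : ℂ) * w) (h3.trans hx1)
      apply mul_le_mul h2 (h4.trans (by gcongr)) (norm_nonneg _) (by norm_num)
    refine (sum_le_card_nsmul _ _ _ this).trans ?_
    rw [card_range, nsmul_eq_mul]
    have hr' : (r : ℝ) + 1 ≤ n := by exact_mod_cast hr
    push_cast
    calc ((r : ℝ) + 1) * (2 * (2 * (N * ‖w‖))) ≤ n * (2 * (2 * (N * ‖w‖))) := by gcongr
      _ = 4 * (N * ‖w‖ * n) := by ring
      _ ≤ 4 * (1 / 10000) := by gcongr
      _ ≤ _ := by linarith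

end

end Pool.Agent.Lib.MP_a05d5a_an
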