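import Mathlib
import Pool.Agent.Lib.MP_a05d5a_an.Block

namespace Pool.Agent.Lib.MP_a05d5a_an

open Finset Real Polynomial

/-- polynomials with nonnegative coefficients -/
def NN (P : ℝ[X]) : Prop := ∀ l, 0 ≤ P.coeff l

theorem NN.mul {P Q : ℝ[X]} (hP : NN P) (hQ : NN Q) : NN (P * Q) := by
  intro l
  rw [coeff_mul]
  exact sum_nonneg (fun x _ => mul_nonneg (hP _) (hQ _))

theorem NN.one : NN (1 : ℝ[X]) := by
  intro l
  rw [coeff_one]
  split_ifs <;> norm_num

theorem NN.pow {P : ℝ[X]} (hP : NN P) (k : ℕ) : NN (P ^ k) := by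
  induction k with
  | zero => rw [pow_zero]; exact NN.one
  | succ k ih => rw [pow_succ]; exact ih.mul hP

theorem NN.add {P Q : ℝ[X]} (hP : NN P) (hQ : NN Q) : NN (P + Q) := by
  intro l
  rw [coeff_add]
  exact add_nonneg (hP l) (hQ l)

theorem NN.C {a : ℝ} (ha : 0 ≤ a) : NN (Polynomial.C a) := by
  intro l
  rw [coeff_C]
  split_ifs
  · exact ha
  · exact le_rfl

theorem NN.X_pow (k : ℕ) : NN (X ^ k : ℝ[X]) := by
  intro l
  rw [coeff_X_pow]
  split_ifs <;> norm_num

theorem NN.sum {ι : Type*} (s : Finset ι) {f : ι → ℝ[X]} (h : ∀ i ∈ s, NN (f i)) : NN (∑ i ∈ s, f i) := by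
  intro l
  rw [finsetSum_coeff]
  exact sum_nonneg (fun i hi => h i hi l)

/-- truncated exponential -/
noncomputable def eqp (q : ℕ) (c : ℝ) : ℝ[X] := ∑ l ∈ range (q + 1), C (c ^ l / l.factorial) * X ^ l

/-- the target polynomial -/
noncomputable def Qp (ρ β α : ℝ) (m t q : ℕ) : ℝ[X] :=
  C ρ * (1 + C (1 / β ^ 2) * X ^ 2) ^ m * (eqp q (α / (β * t))) ^ t

theorem Qp_NN {ρ β α : ℝ} {m t q : ℕ} (hρ : 0 ≤ ρ) (hβ : 0 < β) (hα : 0 ≤ α) : NN (Qp ρ β α m t q) := by
  unfold Qp eqp
  refine ((NN.C hρ).mul ((NN.one.add ((NN.C (by positivity)).mul (NN.X_pow 2))).pow m)).mul (NN.pow ?_ t)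
  apply NN.sum
  intro l _
  exact (NN.C (by positivity)).mul (NN.X_pow l)

theorem Qp_natDegree (ρ β α : ℝ) (m t q : ℕ) : (Qp ρ β α m t q).natDegree ≤ 2 * m + q * t := by
  unfold Qp
  refine natDegree_mul_le.trans ?_
  apply add_le_add
  · refine (natDegree_C_mul_le _ _).trans ?_
    refine (natDegree_pow_le).trans ?_
    rw [mul_comm 2 m]
    apply Nat.mul_le_mul_left
    refine (natDegree_add_le _ _).trans ?_
    apply max_le
    · simp
    · exact (natDegree_C_mul_le _ _).trans (by rw [natDegree_X_pow])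
  · refine (natDegree_pow_le).trans ?_
    rw [mul_comm q t]
    apply Nat.mul_le_mul_left
    unfold eqp
    apply natDegree_sum_le_of_forall_le
    intro l hl
    refine (natDegree_C_mul_le _ _).trans ?_
    rw [natDegree_X_pow]
    have := mem_range.mp hl
    omega

theorem Qp_coeff_zero (ρ β α : ℝ) (m t q : ℕ) : (Qp ρ β α m t q).coeff 0 = ρ := by
  rw [coeff_zero_eq_eval_zero]
  unfold Qp eqp
  simp [eval_finsetSum, sum_range_succ']

theorem Qp_eval (ρ β α : ℝ) (m t q : ℕ) (x : ℝ) : (Qp ρ β α m t q).eval x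
    = ρ * (1 + (x / β) ^ 2) ^ m * (∑ l ∈ range (q + 1), (α * (x / β) / t) ^ l / l.factorial) ^ t := by
  unfold Qp eqp
  simp only [eval_mul, eval_C, eval_pow, eval_add, eval_one, eval_X, eval_finsetSum]
  congr 1
  · congr 2
    rw [div_pow]
    ring
  · congr 1
    apply sum_congr rfl
    intro l _
    have : α * (x / β) / t = α / (β * t) * x := by
      rw [div_mul_eq_mul_div, mul_div_assoc', div_div]
    rw [this, mul_pow]
    ring

theorem Qp_aeval {ρ β α : ℝ} {m t q : ℕ} (hβ : β ≠ 0) (s : ℂ) :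
    aeval ((β : ℂ) * s) (Qp ρ β α m t q)
    = ρ * (1 + s ^ 2) ^ m * (∑ l ∈ range (q + 1), ((α : ℂ) * s / t) ^ l / l.factorial) ^ t := by
  have hβC : (β : ℂ) ≠ 0 := by exact_mod_cast hβ
  unfold Qp eqp
  simp only [map_mul, map_pow, map_add, map_one, aeval_X, aeval_C, map_sum, Complex.coe_algebraMap]
  congr 1
  · congr 2
    push_cast
    field_simp
  · congr 1
    apply sum_congr rfl
    intro l _
    have : (α : ℂ) * s / t = ((α / (β * t) : ℝ) : ℂ) * (β * s) := by
      push_cast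
      field_simp
    rw [this, mul_pow]
    push_cast
    ring

/-- the truncated exponential is close to the exponential -/
theorem eq_close {y : ℂ} {q t : ℕ} (hy1 : ‖y‖ ≤ 1) (hy : (t : ℝ) * (9 * ‖y‖ ^ (q + 1)) ≤ 1 / 1000) :
    ‖(∑ l ∈ range (q + 1), y ^ l / l.factorial) ^ t - Complex.exp (t * y)‖
      ≤ 1 / 500 * ‖Complex.exp (t * y)‖ := by
  set e : ℂ := ∑ l ∈ range (q + 1), y ^ l / l.factorial with he
  have h1 := exp_tail y (q + 1)
  rw [← he] at h1
  have hne : Complex.exp y ≠ 0 := Complex.exp_ne_zero y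
  let u : ℂ := (e - Complex.exp y) / Complex.exp y
  have hu : e = Complex.exp y * (1 + u) := by
    simp only [u]
    field_simp
    ring
  have hexpy : exp (-1) ≤ ‖Complex.exp y‖ := by
    rw [Complex.norm_exp]
    apply exp_le_exp.mpr
    have := abs_le.mp (Complex.abs_re_le_norm y)
    linarith [this.1]
  have he3 : exp 1 ≤ 3 := by
    have := exp_one_lt_d9
    linarith
  have hun : ‖u‖ ≤ 9 * ‖y‖ ^ (q + 1) := by
    simp only [u]
    rw [norm_div, norm_sub_rev, div_le_iff₀ (norm_pos_iff.mpr hne)]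
    have hf : (1 : ℝ) ≤ (q + 1).factorial := by
      exact_mod_cast Nat.one_le_iff_ne_zero.mpr (q + 1).factorial_ne_zero
    have h2 : exp ‖y‖ ≤ 3 := (exp_le_exp.mpr hy1).trans he3
    have h3 : 1 / 3 ≤ ‖Complex.exp y‖ := by
      refine le_trans ?_ hexpy
      rw [exp_neg, ← one_div]
      exact one_div_le_one_div_of_le (exp_pos _) he3
    calc ‖Complex.exp y - e‖ ≤ ‖y‖ ^ (q + 1) / (q + 1).factorial * exp ‖y‖ := h1
      _ ≤ ‖y‖ ^ (q + 1) * 3 := by
        apply mul_le_mul _ h2 (exp_pos _).le (by positivity)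
        exact div_le_self (by positivity) hf
      _ = 9 * ‖y‖ ^ (q + 1) * (1 / 3) := by ring
      _ ≤ _ := by gcongr
  have h4 := norm_one_add_pow_sub_one_le u t
  have h5 : exp (t * ‖u‖) - 1 ≤ 1 / 500 := by
    have h6 : (t : ℝ) * ‖u‖ ≤ 1 / 1000 := by
      refine le_trans ?_ hy
      gcongr
    have h7 : 0 ≤ (t : ℝ) * ‖u‖ := by positivity
    have h8 := Real.abs_exp_sub_one_le (x := (t : ℝ) * ‖u‖) (by rw [abs_of_nonneg h7]; linarith)
    rw [abs_of_nonneg h7] at h8
    have := (abs_le.mp h8).2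
    linarith
  rw [hu, mul_pow, ← Complex.exp_nat_mul]
  have : Complex.exp (t * y) * (1 + u) ^ t - Complex.exp (t * y) = Complex.exp (t * y) * ((1 + u) ^ t - 1) := by ring
  rw [this, norm_mul]
  calc ‖Complex.exp (t * y)‖ * ‖(1 + u) ^ t - 1‖ ≤ ‖Complex.exp (t * y)‖ * (1 / 500) := by
        gcongr
        linarith
    _ = _ := by ring

/-- upper bound of the truncated exponential -/
theorem eq_le (q : ℕ) {y : ℝ} (hy : 0 ≤ y) :
    ∑ l ∈ range (q + 1), y ^ l / l.factorial ≤ (1 + y) ^ q := by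
  rw [add_comm 1 y, add_pow]
  apply sum_le_sum
  intro l hl
  have hl' : l ≤ q := by have := mem_range.mp hl; omega
  rw [one_pow, mul_one]
  have hf : (1 : ℝ) ≤ l.factorial := by
    exact_mod_cast Nat.one_le_iff_ne_zero.mpr l.factorial_ne_zero
  have hc : (1 : ℝ) ≤ q.choose l := by
    exact_mod_cast Nat.one_le_iff_ne_zero.mpr (Nat.choose_pos hl').ne'
  calc y ^ l / l.factorial ≤ y ^ l := div_le_self (by positivity) hf
    _ ≤ y ^ l * q.choose l := le_mul_of_one_le_right (by positivity) hc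

theorem norm_add_pow_sub_le (a : ℝ) (ha : 0 ≤ a) (z : ℂ) (l : ℕ) :
    ‖((a : ℂ) + z) ^ l - (a : ℂ) ^ l‖ ≤ (a + ‖z‖) ^ l - a ^ l := by
  induction l with
  | zero => simp
  | succ l ih =>
    have e1 : ((a : ℂ) + z) ^ (l + 1) - (a : ℂ) ^ (l + 1)
        = (((a : ℂ) + z) ^ l - (a : ℂ) ^ l) * (a + z) + (a : ℂ) ^ l * z := by ring
    rw [e1]
    refine (norm_add_le _ _).trans ?_
    rw [norm_mul, norm_mul, norm_pow, Complex.norm_real, Real.norm_eq_abs, abs_of_nonneg ha]
    have h1 : ‖(a : ℂ) + z‖ ≤ a + ‖z‖ := by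
      refine (norm_add_le _ _).trans ?_
      rw [Complex.norm_real, Real.norm_eq_abs, abs_of_nonneg ha]
    have h2 : 0 ≤ (a + ‖z‖) ^ l - a ^ l := le_trans (norm_nonneg _) ih
    calc _ ≤ ((a + ‖z‖) ^ l - a ^ l) * (a + ‖z‖) + a ^ l * ‖z‖ := by gcongr
      _ = _ := by ring

/-- lower bound of the truncated exponential in the right half plane -/
theorem eq_lower (q : ℕ) {y : ℂ} (hy : 0 ≤ y.re) :
    2 - exp |y.im| ≤ ‖∑ l ∈ range (q + 1), y ^ l / l.factorial‖ := by
  set a := y.re with ha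
  set b := |y.im| with hb
  have hb0 : 0 ≤ b := abs_nonneg _
  let f : ℝ → ℝ := fun x => ∑ l ∈ range (q + 1), x ^ l / l.factorial
  have hf1 : 1 ≤ f a := by
    simp only [f]
    rw [sum_range_succ']
    simp only [pow_zero, Nat.factorial_zero, Nat.cast_one, div_one]
    have : 0 ≤ ∑ k ∈ range q, a ^ (k + 1) / ((k + 1).factorial : ℝ) := sum_nonneg (fun k _ => by positivity)
    linarith
  -- derivative of f
  have hd : ∀ x : ℝ, HasDerivAt f (∑ l ∈ range q, x ^ l / l.factorial) x := by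
    intro x
    have : ∀ l ∈ range (q + 1), HasDerivAt (fun r : ℝ => r ^ l / (l.factorial : ℝ))
        (l * x ^ (l - 1) / l.factorial) x := fun l _ => (hasDerivAt_pow l x).div_const _
    refine (HasDerivAt.fun_sum this).congr_deriv ?_
    rw [sum_range_succ']
    simp only [Nat.cast_zero, zero_mul, zero_div, add_zero]
    apply sum_congr rfl
    intro l _
    rw [Nat.factorial_succ]
    push_cast
    field_simp
  have hg : AntitoneOn (fun x => f (a + x) * exp (-x)) (Set.Ici 0) := by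
    have hd2 : ∀ x : ℝ, HasDerivAt (fun x => f (a + x) * exp (-x)) (-((a + x) ^ q / q.factorial) * exp (-x)) x := by
      intro x
      have a1 : HasDerivAt (fun x => f (a + x)) (∑ l ∈ range q, (a + x) ^ l / l.factorial) x := by
        have := (hd (a + x)).comp_const_add a x
        exact this
      have a2 : HasDerivAt (fun x : ℝ => exp (-x)) (-exp (-x)) x := by
        have := (hasDerivAt_neg x).exp
        simpa using this
      refine (a1.fun_mul a2).congr_deriv ?_
      simp only [f]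
      rw [sum_range_succ]
      ring
    apply antitoneOn_of_deriv_nonpos (convex_Ici 0)
    · exact fun t _ => (hd2 t).continuousAt.continuousWithinAt
    · exact fun t _ => (hd2 t).differentiableAt.differentiableWithinAt
    · intro t ht
      rw [(hd2 t).deriv]
      rw [interior_Ici] at ht
      have ht' : 0 ≤ t := le_of_lt (Set.mem_Ioi.mp ht)
      have : 0 ≤ (a + t) ^ q / q.factorial * exp (-t) := by positivity
      linarith
  have h2 : f (a + b) ≤ f a * exp b := by
    have := hg (Set.mem_Ici.mpr le_rfl) (Set.mem_Ici.mpr hb0) hb0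
    simp only [add_zero, neg_zero, exp_zero, mul_one] at this
    have h3 : exp (-b) * exp b = 1 := by rw [← exp_add]; simp
    calc f (a + b) = f (a + b) * exp (-b) * exp b := by rw [mul_assoc, h3, mul_one]
      _ ≤ f a * exp b := by gcongr
  have h4 : ‖∑ l ∈ range (q + 1), y ^ l / l.factorial - (f a : ℂ)‖ ≤ f (a + b) - f a := by
    simp only [f]
    push_cast
    rw [← sum_sub_distrib, ← sum_sub_distrib]
    refine (norm_sum_le _ _).trans ?_
    apply sum_le_sum
    intro l _
    rw [← sub_div, ← sub_div, norm_div, Complex.norm_natCast]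
    have h5 := norm_add_pow_sub_le a hy (y.im * Complex.I) l
    have h6 : (a : ℂ) + y.im * Complex.I = y := Complex.re_add_im y
    rw [h6, norm_mul, Complex.norm_I, mul_one, Complex.norm_real, Real.norm_eq_abs] at h5
    gcongr
  have h5 := norm_sub_norm_le (f a : ℂ) (∑ l ∈ range (q + 1), y ^ l / l.factorial)
  rw [norm_sub_rev, Complex.norm_real, Real.norm_eq_abs, abs_of_pos (by linarith)] at h5
  have h6 : 1 ≤ exp b := one_le_exp hb0
  rcases le_total (2 - exp b) 0 with hc | hc
  · exact hc.trans (norm_nonneg _)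
  · nlinarith

end Pool.Agent.Lib.MP_a05d5a_an
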