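import Mathlib
import Pool.Agent.Lib.MP_a05d5a_an.Facts
import Pool.Agent.Lib.MP_a05d5a_an.QPoly
import Pool.Agent.Lib.MP_a05d5a_an.Partial

namespace Pool.Agent.Lib.MP_a05d5a_an

open Real

noncomputable def betaR (x : ℝ) : ℝ := 1 / x ^ 250
noncomputable def WR (x : ℝ) : ℝ := 1 / x ^ 227
noncomputable def dR (x : ℝ) : ℝ := 1 / x ^ 261
noncomputable def t1R (x : ℝ) : ℝ := 1 / x ^ 228
noncomputable def rhoR (x : ℝ) : ℝ := exp (-GR x)

/-- the block polynomial -/
noncomputable def QK (K : ℕ) (α : ℝ) : Polynomial ℝ :=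
  Qp (rhoR K) (betaR K) α (6 * K ^ 28) (K ^ 29) 30

/-- exponent of the model function -/
noncomputable def Qex (x α : ℝ) (s : ℂ) : ℂ := -(GR x : ℂ) + mR x * LL s + α * s

section
variable {K : ℕ} (hx : (10 : ℝ) ^ 40 ≤ (K : ℝ))
include hx

theorem beta_pos : 0 < betaR K := by
  have := x_pos hx
  unfold betaR
  positivity

theorem K_pos : 0 < K := by
  have := x_pos hx
  exact_mod_cast this

theorem K_ge {b : ℕ} (hb : b ≤ 10 ^ 40) : b ≤ K := by
  have h : (b : ℝ) ≤ 10 ^ 40 := by exact_mod_cast hb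
  have := h.trans hx
  exact_mod_cast this

theorem G_ge31 : 35 * (K : ℝ) ^ 31 ≤ GR K := GR_ge hx

theorem G_le31 : GR K ≤ 36 * (K : ℝ) ^ 31 := (GR_le hx).trans (mv_le hx)

theorem blockHyp {α : ℝ} (hα0 : 0 ≤ α) (hα : α ≤ 2 * (K : ℝ) ^ 25) :
    BlockHyp (K ^ 31) (K ^ 160) (QK K α) (rhoR K) (WR K) (dR K) (t1R K) := by
  have h0 := x_pos hx
  have h1 := x_one hx
  have hK := K_pos hx
  have h100 : 100 ≤ K := K_ge hx (by norm_num)
  have h10000 : 10000 ≤ K := K_ge hx (by norm_num)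
  have hG := G_ge31 hx
  refine ⟨?_, ?_, ?_, ?_, ?_, exp_pos _, ?_, ?_, ?_, ?_, ?_, ?_, ?_, ?_, ?_⟩
  · calc 100 ≤ K := h100
      _ = K ^ 1 := (pow_one K).symm
      _ ≤ K ^ 31 := Nat.pow_le_pow_right hK (by norm_num)
  · calc 1000 * (K ^ 31) ^ 5 ≤ K * (K ^ 31) ^ 5 := by
          apply Nat.mul_le_mul_right
          omega
      _ = K ^ 156 := by ring
      _ ≤ K ^ 160 := Nat.pow_le_pow_right hK (by norm_num)
  · exact Qp_NN (exp_pos _).le (beta_pos hx) hα0
  · refine (Qp_natDegree _ _ _ _ _ _).trans ?_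
    calc 2 * (6 * K ^ 28) + 30 * K ^ 29 ≤ 12 * K ^ 29 + 30 * K ^ 29 := by
          have : K ^ 28 ≤ K ^ 29 := Nat.pow_le_pow_right hK (by norm_num)
          omega
      _ = 42 * K ^ 29 := by ring
      _ ≤ K * K ^ 29 := by
          apply Nat.mul_le_mul_right
          omega
      _ = K ^ 30 := by ring
      _ ≤ K ^ 31 := Nat.pow_le_pow_right hK (by norm_num)
  · exact Qp_coeff_zero _ _ _ _ _ _
  · unfold rhoR
    rw [exp_le_one_iff]
    have : 0 < (K : ℝ) ^ 31 := by positivity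
    linarith
  · -- the smallness of the correcting coefficients
    rw [QK, Qp_eval]
    push_cast
    have e1 : (K : ℝ) ^ 31 / (K : ℝ) ^ 160 / betaR K = (K : ℝ) ^ 121 := by
      unfold betaR
      field_simp
    rw [e1]
    have hKexp : (K : ℝ) ≤ exp K := by
      have := add_one_le_exp (K : ℝ)
      linarith
    have hpow : ∀ k : ℕ, (K : ℝ) ^ k ≤ exp (k * K) := by
      intro k
      rw [exp_nat_mul]
      gcongr
    have b1 : (1 + ((K : ℝ) ^ 121) ^ 2) ^ (6 * K ^ 28) ≤ exp (1458 * (K : ℝ) ^ 29) := by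
      have c1 : 1 + ((K : ℝ) ^ 121) ^ 2 ≤ exp (243 * K) := by
        have c2 := pow_comp hx (b := 2) (by norm_num) (show 242 < 243 by norm_num)
        have c3 : 1 ≤ (K : ℝ) ^ 242 := one_le_pow₀ h1
        have c4 := hpow 243
        push_cast at c4
        have c5 : ((K : ℝ) ^ 121) ^ 2 = (K : ℝ) ^ 242 := by ring
        linarith
      calc (1 + ((K : ℝ) ^ 121) ^ 2) ^ (6 * K ^ 28) ≤ (exp (243 * K)) ^ (6 * K ^ 28) := by gcongr
        _ = exp (1458 * (K : ℝ) ^ 29) := by
          rw [← exp_nat_mul]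
          congr 1
          push_cast
          ring
    have b2 : (∑ l ∈ Finset.range (30 + 1), (α * (K : ℝ) ^ 121 / (K : ℝ) ^ 29) ^ l / (l.factorial : ℝ)) ^ (K ^ 29)
        ≤ exp (3540 * (K : ℝ) ^ 30) := by
      have hy : 0 ≤ α * (K : ℝ) ^ 121 / (K : ℝ) ^ 29 := by positivity
      have c0 := eq_le 30 hy
      have c1 : 1 + α * (K : ℝ) ^ 121 / (K : ℝ) ^ 29 ≤ (K : ℝ) ^ 118 := by
        have d1 : α * (K : ℝ) ^ 121 / (K : ℝ) ^ 29 ≤ 2 * (K : ℝ) ^ 117 := by
          rw [div_le_iff₀ (by positivity)]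
          calc α * (K : ℝ) ^ 121 ≤ (2 * (K : ℝ) ^ 25) * (K : ℝ) ^ 121 := by gcongr
            _ = _ := by ring
        have d2 := pow_comp hx (b := 3) (by norm_num) (show 117 < 118 by norm_num)
        have d3 : 1 ≤ (K : ℝ) ^ 117 := one_le_pow₀ h1
        linarith
      have c2 : ∑ l ∈ Finset.range (30 + 1), (α * (K : ℝ) ^ 121 / (K : ℝ) ^ 29) ^ l / (l.factorial : ℝ)
          ≤ exp (3540 * K) := by
        refine c0.trans ?_
        calc (1 + α * (K : ℝ) ^ 121 / (K : ℝ) ^ 29) ^ 30 ≤ ((K : ℝ) ^ 118) ^ 30 := by gcongr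
          _ = (K : ℝ) ^ 3540 := by rw [← pow_mul]
          _ ≤ exp (3540 * K) := by
            have := hpow 3540
            push_cast at this
            exact this
      have c3 : 0 ≤ ∑ l ∈ Finset.range (30 + 1), (α * (K : ℝ) ^ 121 / (K : ℝ) ^ 29) ^ l / (l.factorial : ℝ) :=
        Finset.sum_nonneg (fun l _ => by positivity)
      calc _ ≤ (exp (3540 * K)) ^ (K ^ 29) := by gcongr
        _ = exp (3540 * (K : ℝ) ^ 30) := by
          rw [← exp_nat_mul]
          congr 1
          push_cast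
          ring
    have b3 : (8 : ℝ) ^ (K ^ 31) ≤ exp (3 * (K : ℝ) ^ 31) := by
      have : (8 : ℝ) ≤ exp 3 := by
        have h := exp_one_gt_d9
        have : exp (3 : ℝ) = exp 1 * exp 1 * exp 1 := by rw [← exp_add, ← exp_add]; norm_num
        rw [this]
        have p : (2.7 : ℝ) ≤ exp 1 := by linarith
        have q : (7 : ℝ) ≤ exp 1 * exp 1 := by nlinarith
        nlinarith
      calc (8 : ℝ) ^ (K ^ 31) ≤ (exp 3) ^ (K ^ 31) := by gcongr
        _ = exp (3 * (K : ℝ) ^ 31) := by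
          rw [← exp_nat_mul]
          congr 1
          push_cast
          ring
    have c3 : 0 ≤ (∑ l ∈ Finset.range (30 + 1), (α * (K : ℝ) ^ 121 / (K : ℝ) ^ 29) ^ l / (l.factorial : ℝ)) ^ (K ^ 29) :=
      pow_nonneg (Finset.sum_nonneg (fun l _ => by positivity)) _
    calc _ ≤ exp (3 * (K : ℝ) ^ 31) * (exp (-GR K) * exp (1458 * (K : ℝ) ^ 29) * exp (3540 * (K : ℝ) ^ 30)) := by
          unfold rhoR
          gcongr
      _ = exp (3 * (K : ℝ) ^ 31 + (-GR K + 1458 * (K : ℝ) ^ 29 + 3540 * (K : ℝ) ^ 30)) := by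
          rw [exp_add, exp_add, exp_add]
      _ ≤ exp (-30 * (K : ℝ) ^ 31) := by
          apply exp_le_exp.mpr
          have d1 := pow_comp hx (b := 1458) (by norm_num) (show 29 < 31 by norm_num)
          have d2 := pow_comp hx (b := 10000) (by norm_num) (show 30 < 31 by norm_num)
          have d3 := pow_comp hx (b := 14580) (by norm_num) (show 29 < 31 by norm_num)
          have d4 : 0 < (K : ℝ) ^ 31 := by positivity
          linarith
  · unfold WR; positivity
  · -- hW1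
    push_cast
    unfold WR
    have e : (K : ℝ) ^ 160 * (2 * (1 / (K : ℝ) ^ 227)) = 2 / (K : ℝ) ^ 67 := by field_simp
    rw [e, show (-60 : ℝ) = -(60 : ℝ) by norm_num, exp_neg, ← one_div, div_le_div_iff₀ (by positivity) (exp_pos _)]
    have e1 : exp (60 : ℝ) ≤ 3 ^ 60 := by
      have : exp (60 : ℝ) = (exp 1) ^ 60 := by
        rw [← exp_nat_mul]
        norm_num
      rw [this]
      have h := exp_one_lt_d9
      gcongr
      linarith
    have e2 := pow_comp hx (b := 2 * 3 ^ 60) (by norm_num) (show 0 < 67 by norm_num)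
    simp only [pow_zero, mul_one] at e2
    linarith
  · -- hW2
    push_cast
    unfold WR
    have e : (K : ℝ) ^ 160 * (2 * (1 / (K : ℝ) ^ 227)) * (K : ℝ) ^ 31 = 2 / (K : ℝ) ^ 36 := by field_simp
    rw [e, div_le_div_iff₀ (by positivity) (by norm_num)]
    have e2 := pow_comp hx (b := 20000) (by norm_num) (show 0 < 36 by norm_num)
    simp only [pow_zero, mul_one] at e2
    linarith
  · unfold dR; positivity
  · -- hδ1
    push_cast
    unfold dR
    have e : (K : ℝ) ^ 160 * (1 / (K : ℝ) ^ 261) * ((K : ℝ) ^ 31) ^ 3 = 1 / (K : ℝ) ^ 8 := by field_simp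
    rw [e]
    apply one_div_le_one_div_of_le (by norm_num)
    have e2 := pow_comp hx (b := 100) (by norm_num) (show 0 < 8 by norm_num)
    simpa using e2
  · unfold t1R; positivity
  · push_cast
    unfold dR t1R
    have e : (K : ℝ) ^ 31 * (1 / (K : ℝ) ^ 261) = 1 / (K : ℝ) ^ 230 := by field_simp
    rw [e, div_div, div_le_div_iff₀ (by positivity) (by positivity)]
    have e2 := pow_comp hx (b := 100) (by norm_num) (show 228 < 230 by norm_num)
    linarith

omit hx in
theorem Qex_re (α : ℝ) (s : ℂ) : (Qex K α s).re = -GR K + mR K * Real.log ‖1 + s ^ 2‖ + α * s.re := by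
  unfold Qex
  rw [Complex.add_re, Complex.add_re, Complex.re_ofReal_mul, Complex.re_ofReal_mul, LL_re,
    Complex.neg_re, Complex.ofReal_re]

theorem exp_Qex {α : ℝ} {s : ℂ} (hs : |s.im| ≤ hR K) : Complex.exp (Qex K α s)
    = (rhoR K : ℂ) * (1 + s ^ 2) ^ (6 * K ^ 28) * Complex.exp (α * s) := by
  have h1 : |s.im| < 1 := by have := hR_le hx; linarith
  unfold Qex rhoR mR
  rw [Complex.exp_add, Complex.exp_add]
  have e1 : Complex.exp (((6 * (K : ℝ) ^ 28 : ℝ) : ℂ) * LL s) = (1 + s ^ 2) ^ (6 * K ^ 28) := by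
    rw [← exp_LL h1, ← Complex.exp_nat_mul]
    congr 1
    push_cast
    ring
  rw [e1]
  push_cast
  rfl

/-- the block is close to the model function in the window -/
theorem block_window {α : ℝ} (hα0 : 0 ≤ α) (hα : α ≤ 2 * (K : ℝ) ^ 25) {s : ℂ} (hs : |s.im| ≤ hR K)
    (hs2 : ‖s‖ ≤ 2 * (K : ℝ) ^ 23) (hs3 : α * ‖s‖ ≤ 90 * (K : ℝ) ^ 28) :
    ‖SS (K ^ 31) (K ^ 160) (QK K α) (K ^ 31) (betaR K * s) - Complex.exp (Qex K α s)‖
      ≤ ‖Complex.exp (Qex K α s)‖ / 50 := by
  have h0 := x_pos hx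
  have hβ := beta_pos hx
  have H := blockHyp hx hα0 hα
  have hw : ‖(betaR K : ℂ) * s‖ ≤ 2 * WR K := by
    rw [norm_mul, Complex.norm_real, Real.norm_eq_abs, abs_of_pos hβ]
    calc betaR K * ‖s‖ ≤ betaR K * (2 * (K : ℝ) ^ 23) := by gcongr
      _ = 2 * WR K := by
        unfold betaR WR
        field_simp
  have h1 := H.near hw
  rw [QK, Qp_aeval hβ.ne'] at h1
  push_cast at h1
  set y : ℂ := (α : ℂ) * s / (K : ℂ) ^ 29 with hy
  have hyn : ‖y‖ ≤ 90 / K := by
    rw [hy, norm_div, norm_mul, norm_pow, Complex.norm_natCast, Complex.norm_real, Real.norm_eq_abs,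
      abs_of_nonneg hα0, div_le_div_iff₀ (by positivity) h0]
    calc α * ‖s‖ * K ≤ 90 * (K : ℝ) ^ 28 * K := by gcongr
      _ = _ := by ring
  have hy1 : ‖y‖ ≤ 1 := by
    refine hyn.trans ?_
    rw [div_le_one h0]
    exact x_ge hx 90 (by norm_num)
  have hyt : ((K ^ 29 : ℕ) : ℝ) * (9 * ‖y‖ ^ (30 + 1)) ≤ 1 / 1000 := by
    push_cast
    calc (K : ℝ) ^ 29 * (9 * ‖y‖ ^ (30 + 1)) ≤ (K : ℝ) ^ 29 * (9 * (90 / K) ^ (30 + 1)) := by gcongr
      _ = 9 * 90 ^ 31 / (K : ℝ) ^ 2 := by
        rw [div_pow]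
        field_simp
      _ ≤ 1 / 1000 := by
        rw [div_le_div_iff₀ (by positivity) (by norm_num)]
        calc (9 : ℝ) * 90 ^ 31 * 1000 ≤ (10 ^ 40) ^ 2 := by norm_num
          _ ≤ (K : ℝ) ^ 2 := by gcongr
          _ = 1 * (K : ℝ) ^ 2 := by ring
  have h2 := eq_close hy1 hyt
  have hty : ((K ^ 29 : ℕ) : ℂ) * y = α * s := by
    rw [hy]
    have : (K : ℂ) ≠ 0 := by
      have := K_pos hx
      exact_mod_cast this.ne'
    push_cast
    field_simp
  rw [hty] at h2
  set M : ℂ := (rhoR K : ℂ) * (1 + s ^ 2) ^ (6 * K ^ 28) with hM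
  set Eq : ℂ := (∑ l ∈ Finset.range (30 + 1), y ^ l / (l.factorial : ℂ)) ^ K ^ 29 with hEq
  have h3 : Complex.exp (Qex K α s) = M * Complex.exp (α * s) := exp_Qex hx hs
  have h4 : ‖M * Eq - Complex.exp (Qex K α s)‖ ≤ 1 / 500 * ‖Complex.exp (Qex K α s)‖ := by
    rw [h3, ← mul_sub, norm_mul M, norm_mul M]
    calc ‖M‖ * ‖Eq - Complex.exp (α * s)‖ ≤ ‖M‖ * (1 / 500 * ‖Complex.exp (α * s)‖) := by gcongr
      _ = _ := by ring
  have h5 : exp (-50 * (K : ℝ) ^ 31) ≤ 1 / 100 * ‖Complex.exp (Qex K α s)‖ := by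
    rw [Complex.norm_exp, Qex_re]
    have a1 := G_le31 hx
    have a2 := log_low hx hs
    have a3 := mR_pos hx
    have a4 : mR K * (-(1 / 50)) ≤ mR K * Real.log ‖1 + s ^ 2‖ := by gcongr
    have a5 : -(90 * (K : ℝ) ^ 28) ≤ α * s.re := by
      have b1 := neg_abs_le s.re
      have b2 := Complex.abs_re_le_norm s
      have : α * (-‖s‖) ≤ α * s.re := by
        apply mul_le_mul_of_nonneg_left _ hα0
        linarith
      linarith
    have a6 : mR K * (-(1 / 50)) = -(6 * (K : ℝ) ^ 28 / 50) := by unfold mR; ring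
    have c1 := pow_comp hx (b := 1000) (by norm_num) (show 28 < 31 by norm_num)
    have c2 := pow_comp hx (b := 1000) (by norm_num) (show 0 < 31 by norm_num)
    simp only [pow_zero, mul_one] at c2
    have hexp : exp (-50 * (K : ℝ) ^ 31) ≤ exp (-100) * exp (-GR K + mR K * Real.log ‖1 + s ^ 2‖ + α * s.re) := by
      rw [← exp_add]
      apply exp_le_exp.mpr
      linarith
    have e100 : exp (-100 : ℝ) ≤ 1 / 100 := by
      rw [exp_neg, ← one_div]
      apply one_div_le_one_div_of_le (by norm_num)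
      have := add_one_le_exp (100 : ℝ)
      linarith
    refine hexp.trans ?_
    gcongr
  have e : SS (K ^ 31) (K ^ 160) (QK K α) (K ^ 31) (betaR K * s) - Complex.exp (Qex K α s)
      = (SS (K ^ 31) (K ^ 160) (QK K α) (K ^ 31) (betaR K * s) - M * Eq) + (M * Eq - Complex.exp (Qex K α s)) := by
    ring
  rw [e]
  refine (norm_add_le _ _).trans ?_
  have h6 : ‖SS (K ^ 31) (K ^ 160) (QK K α) (K ^ 31) (betaR K * s) - M * Eq‖ ≤ exp (-50 * (K : ℝ) ^ 31) := h1
  have h7 : 0 ≤ ‖Complex.exp (Qex K α s)‖ := norm_nonneg _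
  linarith

/-- lower bound for the block to the right -/
theorem block_right {α : ℝ} (hα0 : 0 ≤ α) (hα : α ≤ 2 * (K : ℝ) ^ 25) {s : ℂ} (hs : |s.im| ≤ hR K)
    (hs2 : 0 ≤ s.re) :
    exp (-(GR K + mR K)) ≤ ‖SS (K ^ 31) (K ^ 160) (QK K α) (K ^ 31) (betaR K * s)‖ := by
  have h0 := x_pos hx
  have hβ := beta_pos hx
  have hm := mR_pos hx
  have H := blockHyp hx hα0 hα
  have hm1 : 100 ≤ mR K := by
    have := pow_comp hx (b := 100) (by norm_num) (show 0 < 28 by norm_num)
    simp only [pow_zero, mul_one] at this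
    have h28 : 0 < (K : ℝ) ^ 28 := by positivity
    unfold mR
    linarith
  rcases le_total s.re ((K : ℝ) ^ 22) with hc | hc
  · have hsn : ‖s‖ ≤ 2 * (K : ℝ) ^ 22 := by
      have a1 := Complex.norm_le_abs_re_add_abs_im s
      rw [abs_of_nonneg hs2] at a1
      have a2 := hR_le hx
      have a3 : 1 ≤ (K : ℝ) ^ 22 := one_le_pow₀ (x_one hx)
      linarith
    have hw : ‖(betaR K : ℂ) * s‖ ≤ 2 * WR K := by
      rw [norm_mul, Complex.norm_real, Real.norm_eq_abs, abs_of_pos hβ]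
      calc betaR K * ‖s‖ ≤ betaR K * (2 * (K : ℝ) ^ 22) := by gcongr
        _ ≤ betaR K * (2 * (K : ℝ) ^ 23) := by
          have := pow_comp hx (b := 1) (by norm_num) (show 22 < 23 by norm_num)
          apply mul_le_mul_of_nonneg_left _ hβ.le
          linarith
        _ = 2 * WR K := by
          unfold betaR WR
          field_simp
    have h1 := H.near hw
    rw [QK, Qp_aeval hβ.ne'] at h1
    push_cast at h1
    set y : ℂ := (α : ℂ) * s / (K : ℂ) ^ 29 with hy
    have hyr : y = ((α / (K : ℝ) ^ 29 : ℝ) : ℂ) * s := by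
      rw [hy]
      push_cast
      ring
    have hyre : 0 ≤ y.re := by
      rw [hyr, Complex.re_ofReal_mul]
      positivity
    have hyim : |y.im| ≤ 2 / (K : ℝ) ^ 15 := by
      rw [hyr, Complex.im_ofReal_mul, abs_mul, abs_of_nonneg (by positivity)]
      calc α / (K : ℝ) ^ 29 * |s.im| ≤ 2 * (K : ℝ) ^ 25 / (K : ℝ) ^ 29 * (1 / (K : ℝ) ^ 11) := by
            unfold hR at hs
            gcongr
        _ = _ := by field_simp
    have h2 := eq_lower 30 hyre
    set e0 : ℂ := ∑ l ∈ Finset.range (30 + 1), y ^ l / (l.factorial : ℂ) with he0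
    have hb0 : 0 ≤ |y.im| := abs_nonneg _
    have hb1 : |y.im| ≤ 1 / 4 := by
      refine hyim.trans ?_
      rw [div_le_div_iff₀ (by positivity) (by norm_num)]
      have := pow_comp hx (b := 8) (by norm_num) (show 0 < 15 by norm_num)
      simp only [pow_zero, mul_one] at this
      linarith
    have h3 : exp (-(4 * |y.im|)) ≤ ‖e0‖ := by
      refine le_trans ?_ h2
      set b := |y.im|
      have a1 := Real.abs_exp_sub_one_le (x := b) (by rw [abs_of_nonneg hb0]; linarith)
      rw [abs_of_nonneg hb0] at a1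
      have a2 := (abs_le.mp a1).2
      have a3 : exp (-(4 * b)) ≤ 1 - 2 * b := by
        have c1 : 1 + 4 * b ≤ exp (4 * b) := by
          have := add_one_le_exp (4 * b)
          linarith
        rw [exp_neg, ← one_div, div_le_iff₀ (exp_pos _)]
        have c2 : (1 - 2 * b) * (1 + 4 * b) ≤ (1 - 2 * b) * exp (4 * b) := by
          apply mul_le_mul_of_nonneg_left c1
          linarith
        nlinarith
      linarith
    have h4 : exp (-(mR K / 50)) ≤ ‖e0‖ ^ K ^ 29 := by
      calc exp (-(mR K / 50)) ≤ (exp (-(4 * |y.im|))) ^ (K ^ 29) := by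
            rw [← exp_nat_mul]
            apply exp_le_exp.mpr
            push_cast
            have : (K : ℝ) ^ 29 * |y.im| ≤ 2 * (K : ℝ) ^ 14 := by
              calc (K : ℝ) ^ 29 * |y.im| ≤ (K : ℝ) ^ 29 * (2 / (K : ℝ) ^ 15) := by gcongr
                _ = _ := by field_simp
            have c1 := pow_comp hx (b := 1000) (by norm_num) (show 14 < 28 by norm_num)
            have c2 : mR K / 50 = 6 * (K : ℝ) ^ 28 / 50 := rfl
            rw [c2]
            have : 0 < (K : ℝ) ^ 28 := by positivity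
            linarith
        _ ≤ ‖e0‖ ^ K ^ 29 := by gcongr
    have h5 : exp (-(mR K / 50)) ≤ ‖1 + s ^ 2‖ ^ (6 * K ^ 28) := by
      have a1 := log_low hx hs
      have a2 : 0 < ‖1 + s ^ 2‖ := by
        have := norm_low hx hs
        nlinarith [sq_nonneg s.re]
      have a3 : exp (-(1 / 50)) ≤ ‖1 + s ^ 2‖ := by
        rw [← Real.exp_log a2]
        exact exp_le_exp.mpr a1
      calc exp (-(mR K / 50)) = (exp (-(1 / 50))) ^ (6 * K ^ 28) := by
            rw [← exp_nat_mul]
            congr 1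
            unfold mR
            push_cast
            ring
        _ ≤ _ := by gcongr
    have h6 : exp (-(GR K + mR K / 25)) ≤ ‖(rhoR K : ℂ) * (1 + s ^ 2) ^ (6 * K ^ 28) * e0 ^ K ^ 29‖ := by
      rw [norm_mul, norm_mul, norm_pow, norm_pow, Complex.norm_real, Real.norm_eq_abs]
      have : |rhoR K| = exp (-GR K) := abs_of_pos (exp_pos _)
      rw [this]
      have e : exp (-(GR K + mR K / 25)) = exp (-GR K) * exp (-(mR K / 50)) * exp (-(mR K / 50)) := by
        rw [← exp_add, ← exp_add]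
        congr 1
        ring
      rw [e]
      gcongr
    have h7 : ‖SS (K ^ 31) (K ^ 160) (QK K α) (K ^ 31) (betaR K * s)
        - (rhoR K : ℂ) * (1 + s ^ 2) ^ (6 * K ^ 28) * e0 ^ K ^ 29‖ ≤ exp (-50 * (K : ℝ) ^ 31) := h1
    have h8 := norm_sub_norm_le ((rhoR K : ℂ) * (1 + s ^ 2) ^ (6 * K ^ 28) * e0 ^ K ^ 29)
      (SS (K ^ 31) (K ^ 160) (QK K α) (K ^ 31) (betaR K * s))
    rw [norm_sub_rev] at h8
    have h9 : exp (-50 * (K : ℝ) ^ 31) ≤ exp (-(GR K + mR K)) := by
      apply exp_le_exp.mpr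
      have a1 := G_le31 hx
      have c1 := pow_comp hx (b := 1000) (by norm_num) (show 28 < 31 by norm_num)
      have c2 : mR K = 6 * (K : ℝ) ^ 28 := rfl
      have : 0 < (K : ℝ) ^ 31 := by positivity
      linarith
    have h10 : 2 * exp (-(GR K + mR K)) ≤ exp (-(GR K + mR K / 25)) := by
      have : exp (-(GR K + mR K / 25)) = exp (-(GR K + mR K)) * exp (24 / 25 * mR K) := by
        rw [← exp_add]
        congr 1
        ring
      rw [this, mul_comm]
      have : 2 ≤ exp (24 / 25 * mR K) := by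
        have := add_one_le_exp (24 / 25 * mR K)
        linarith
      gcongr
    linarith
  · have h1 := H.right (t := betaR K * s.re) (y := betaR K * s.im) (by
      unfold t1R betaR
      calc 1 / (K : ℝ) ^ 228 = 1 / (K : ℝ) ^ 250 * (K : ℝ) ^ 22 := by field_simp
        _ ≤ _ := by gcongr) (by
      rw [abs_mul, abs_of_pos hβ]
      calc betaR K * |s.im| ≤ betaR K * hR K := by gcongr
        _ = dR K := by
          unfold betaR hR dR
          field_simp)
    have e : ((betaR K * s.re : ℝ) : ℂ) + ((betaR K * s.im : ℝ) : ℂ) * Complex.I = betaR K * s := by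
      have := Complex.re_add_im s
      conv_rhs => rw [← this]
      push_cast
      ring
    rw [e] at h1
    refine le_trans ?_ h1
    unfold rhoR
    have : exp (-(GR K + mR K)) = exp (-GR K) * exp (-mR K) := by
      rw [← exp_add]
      congr 1
      ring
    rw [this]
    have h2 : exp (-mR K) ≤ 1 / 2 := by
      rw [exp_neg, ← one_div]
      apply one_div_le_one_div_of_le (by norm_num)
      have := add_one_le_exp (mR K)
      linarith
    calc exp (-GR K) * exp (-mR K) ≤ exp (-GR K) * (1 / 2) := by gcongr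
      _ = _ := by ring

end

end Pool.Agent.Lib.MP_a05d5a_an
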