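import Mathlib
import Pool.Agent.Lib.MP_a05d5a_an.Inst
import Pool.Agent.Lib.MP_a05d5a_an.Dom

namespace Pool.Agent.Lib.MP_a05d5a_an

open Real

noncomputable def a0R (x : ℝ) : ℝ := Real.log (2 * x ^ 261)

noncomputable def ajR (x : ℝ) (j : ℕ) : ℝ := a0R x + j * (betaR x * DR x)

/-- exponent increments -/
def stp (K j : ℕ) : ℕ := if j = 0 then 6 * K ^ 278 else 6 * K ^ 278 + 2 * K ^ 275

/-- starting exponents of the blocks -/
def kk (K Kp : ℕ) : ℕ → ℕ
  | 0 => Kp + K ^ 260
  | j + 1 => kk K Kp j + stp K j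

noncomputable def alJ (K j : ℕ) : ℝ := if j = 0 then 0 else 2 * (K : ℝ) ^ 25

/-- constants of the blocks -/
noncomputable def Cc (K : ℕ) (A : ℂ) : ℕ → ℂ
  | 0 => Complex.I * A * Complex.exp (((K : ℝ) ^ 30 + GR K - mR K * Real.log (1 + ((K : ℝ) ^ 20) ^ 2)
      - (K : ℝ) ^ 260 * a0R K : ℝ) : ℂ)
  | j + 1 => Complex.I * Cc K A j *
      Complex.exp ((-GR K - mR K + mR K * Real.log 2 - (stp K j : ℝ) * ajR K j : ℝ) : ℂ)

noncomputable def sJ (K : ℕ) (w : ℂ) (j : ℕ) : ℂ := (w - ajR K j) / betaR K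

noncomputable def RJ (K Kp : ℕ) (A : ℂ) (w : ℂ) (j : ℕ) : ℂ := Cc K A j * Complex.exp ((kk K Kp j : ℂ) * w)

noncomputable def EJ (K Kp : ℕ) (A : ℂ) (w : ℂ) (j : ℕ) : ℂ :=
  RJ K Kp A w j * Complex.exp (Qex K (alJ K j) (sJ K w j))

noncomputable def SJ (K : ℕ) (r : ℕ) (w : ℂ) (j : ℕ) : ℂ :=
  SS (K ^ 31) (K ^ 160) (QK K (alJ K j)) r (w - ajR K j)

noncomputable def BJ (K Kp : ℕ) (A : ℂ) (w : ℂ) (j : ℕ) : ℂ := RJ K Kp A w j * SJ K (K ^ 31) w j

theorem alJ_nonneg (K j : ℕ) : 0 ≤ alJ K j := by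
  unfold alJ
  split_ifs
  · exact le_rfl
  · positivity

theorem alJ_le (K j : ℕ) : alJ K j ≤ 2 * (K : ℝ) ^ 25 := by
  unfold alJ
  split_ifs
  · positivity
  · exact le_rfl

section
variable {K : ℕ} (hx : (10 : ℝ) ^ 40 ≤ (K : ℝ))
include hx

theorem stp_eq (j : ℕ) : (stp K j : ℝ) * betaR K = mR K + alJ K j := by
  have h0 := x_pos hx
  unfold stp betaR mR alJ
  split_ifs
  · push_cast
    field_simp
    ring
  · push_cast
    field_simp

theorem betaC_ne : (betaR K : ℂ) ≠ 0 := by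
  have := beta_pos hx
  exact_mod_cast this.ne'

theorem beta_mul_sJ (w : ℂ) (j : ℕ) : (betaR K : ℂ) * sJ K w j = w - ajR K j := by
  unfold sJ
  have := betaC_ne hx
  field_simp

theorem sJ_succ (w : ℂ) (j : ℕ) : sJ K w (j + 1) = sJ K w j - DR K := by
  unfold sJ ajR
  have := betaC_ne hx
  push_cast
  field_simp
  ring

theorem sJ_re (w : ℂ) (j : ℕ) : (sJ K w j).re = (sJ K w 0).re - j * DR K := by
  induction j with
  | zero => simp
  | succ j ih =>
    rw [sJ_succ hx, Complex.sub_re, ih, Complex.ofReal_re]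
    push_cast
    ring

theorem sJ_im (w : ℂ) (j : ℕ) : (sJ K w j).im = w.im / betaR K := by
  have h := beta_pos hx
  have h1 : betaR K * (sJ K w j).im = w.im := by
    have := congr_arg Complex.im (beta_mul_sJ hx w j)
    rw [Complex.im_ofReal_mul, Complex.sub_im, Complex.ofReal_im, sub_zero] at this
    exact this
  rw [← h1]
  field_simp

theorem sJ_im_le {w : ℂ} (hw : |w.im| ≤ dR K) (j : ℕ) : |(sJ K w j).im| ≤ hR K := by
  have h := beta_pos hx
  have h0 := x_pos hx
  rw [sJ_im hx, abs_div, abs_of_pos h, div_le_iff₀ h]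
  refine hw.trans (le_of_eq ?_)
  unfold dR hR betaR
  field_simp

theorem R0_eq (Kp : ℕ) (A w : ℂ) :
    RJ K Kp A w 0 = Complex.I * (A * Complex.exp (Kp * w)) * Complex.exp (Zet0 K (sJ K w 0)) := by
  have h0 := x_pos hx
  have hKC : (K : ℂ) ≠ 0 := by exact_mod_cast (K_pos hx).ne'
  have h1 : Complex.exp (Zet0 K (sJ K w 0)) = Complex.exp (((K : ℝ) ^ 30 + GR K
      - mR K * Real.log (1 + ((K : ℝ) ^ 20) ^ 2) - (K : ℝ) ^ 260 * a0R K : ℝ) : ℂ)
      * Complex.exp ((K : ℂ) ^ 260 * w) := by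
    rw [← Complex.exp_add]
    congr 1
    unfold Zet0 sJ ajR betaR
    push_cast
    field_simp
    ring
  unfold RJ Cc kk
  rw [h1]
  have h2 : Complex.exp (((Kp + K ^ 260 : ℕ) : ℂ) * w) = Complex.exp (Kp * w) * Complex.exp ((K : ℂ) ^ 260 * w) := by
    rw [← Complex.exp_add]
    congr 1
    push_cast
    ring
  rw [h2]
  ring

theorem Rs_eq (Kp : ℕ) (A w : ℂ) (j : ℕ) :
    RJ K Kp A w (j + 1) = Complex.I * EJ K Kp A w j * Complex.exp (Phi1 (mR K) (sJ K w j)) := by
  have h0 := x_pos hx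
  have h1 : Complex.exp (Qex K (alJ K j) (sJ K w j)) * Complex.exp (Phi1 (mR K) (sJ K w j))
      = Complex.exp ((-GR K - mR K + mR K * Real.log 2 - (stp K j : ℝ) * ajR K j : ℝ) : ℂ)
        * Complex.exp ((stp K j : ℂ) * w) := by
    rw [← Complex.exp_add, ← Complex.exp_add]
    congr 1
    have h2 := stp_eq hx j
    have h3 : ((stp K j : ℂ)) * betaR K = mR K + alJ K j := by
      have : (((stp K j : ℝ) * betaR K : ℝ) : ℂ) = ((mR K + alJ K j : ℝ) : ℂ) := by rw [h2]
      push_cast at this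
      exact this
    have h4 := beta_mul_sJ hx w j
    have h5 : ((mR K : ℂ) + alJ K j) * sJ K w j = (stp K j : ℂ) * (w - ajR K j) := by
      rw [← h3, ← h4]
      ring
    unfold Qex Phi1
    push_cast
    linear_combination h5
  have h6 : RJ K Kp A w (j + 1) = Complex.I * RJ K Kp A w j *
      (Complex.exp ((-GR K - mR K + mR K * Real.log 2 - (stp K j : ℝ) * ajR K j : ℝ) : ℂ)
        * Complex.exp ((stp K j : ℂ) * w)) := by
    unfold RJ
    rw [Cc, kk]
    have : Complex.exp (((kk K Kp j + stp K j : ℕ) : ℂ) * w)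
        = Complex.exp ((kk K Kp j : ℂ) * w) * Complex.exp ((stp K j : ℂ) * w) := by
      rw [← Complex.exp_add]
      congr 1
      push_cast
      ring
    rw [this]
    ring
  rw [h6, ← h1]
  unfold EJ
  ring

theorem E0_eq (Kp : ℕ) (A w : ℂ) :
    EJ K Kp A w 0 = Complex.I * (A * Complex.exp (Kp * w)) * Complex.exp (Phi0 K (sJ K w 0)) := by
  have h1 : Complex.exp (Phi0 K (sJ K w 0)) = Complex.exp (Zet0 K (sJ K w 0))
      * Complex.exp (Qex K (alJ K 0) (sJ K w 0)) := by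
    rw [← Complex.exp_add]
    congr 1
    unfold Phi0 Zet0 Qex alJ
    simp
    ring
  unfold EJ
  rw [R0_eq hx, h1]
  ring

theorem Es_eq (Kp : ℕ) (A w : ℂ) (j : ℕ) :
    EJ K Kp A w (j + 1) = Complex.I * EJ K Kp A w j
      * Complex.exp (Phi (mR K) (aR K) (DR K) (GR K) (sJ K w j)) := by
  have h1 : Complex.exp (Phi (mR K) (aR K) (DR K) (GR K) (sJ K w j))
      = Complex.exp (Phi1 (mR K) (sJ K w j)) * Complex.exp (Qex K (alJ K (j + 1)) (sJ K w (j + 1))) := by
    rw [← Complex.exp_add]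
    congr 1
    rw [sJ_succ hx]
    unfold Phi Phi1 Qex alJ aR
    rw [if_neg (by omega)]
    ring
  have h2 : EJ K Kp A w (j + 1) = RJ K Kp A w (j + 1) * Complex.exp (Qex K (alJ K (j + 1)) (sJ K w (j + 1))) := rfl
  rw [h2, Rs_eq hx, h1]
  ring

theorem DR_le : DR K ≤ 6 * (K : ℝ) ^ 3 + 1 := by
  have h3 := inv_cR hx
  unfold DR cR at *
  linarith

theorem DR_ge : 6 * (K : ℝ) ^ 3 ≤ DR K := by
  have h3 := inv_cR hx
  unfold DR cR at *
  linarith

/-- the pointwise hypotheses hold -/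
theorem ptHyp {Kp : ℕ} {A F w : ℂ} (hA : A ≠ 0) (hw : |w.im| ≤ dR K)
    (hF : ‖F - A * Complex.exp (Kp * w)‖ ≤ ‖A * Complex.exp (Kp * w)‖ / 100) :
    PtHyp (A * Complex.exp (Kp * w)) F (Complex.exp (Zet0 K (sJ K w 0))) (Complex.exp (Phi0 K (sJ K w 0)))
      (EJ K Kp A w) (RJ K Kp A w) (BJ K Kp A w)
      (fun j => Complex.exp (Phi (mR K) (aR K) (DR K) (GR K) (sJ K w j)))
      (fun j => Complex.exp (Phi1 (mR K) (sJ K w j)))
      (fun j => (sJ K w j).re) (mR K) (GR K) (vR K) (yR K) (DR K) (x0R K) (1 / (K : ℝ) ^ 90) (CR K)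
      ((K : ℝ) ^ 23) ((K : ℝ) ^ 20) (vlR K) := by
  have h0 := x_pos hx
  have h1 := x_one hx
  have hm := mR_pos hx
  have him := sJ_im_le hx hw
  have hβ := beta_pos hx
  have hD1 := DR_le hx
  have hD2 := DR_ge hx
  have hv1 := vR_le hx
  have hv2 := vR_ge hx
  have hG1 := G_ge31 hx
  have hG2 := G_le31 hx
  have hCR : CR K = 2 * (((K ^ 31 : ℕ) : ℝ) + 1) := by unfold CR; push_cast; ring
  have hbs : ∀ j, w - ajR K j = betaR K * sJ K w j := fun j => (beta_mul_sJ hx w j).symm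
  have hnorm_s : ∀ j, ‖sJ K w j‖ ≤ |(sJ K w j).re| + 1 := by
    intro j
    have a1 := Complex.norm_le_abs_re_add_abs_im (sJ K w j)
    have a2 := him j
    have a3 := hR_le hx
    linarith
  have hre : ∀ j, (w - ajR K j).re = betaR K * (sJ K w j).re := by
    intro j
    rw [hbs j, Complex.re_ofReal_mul]
  have hC0 : 0 < CR K := by unfold CR; positivity
  have e28 : mR K = 6 * (K : ℝ) ^ 28 := rfl
  refine
    { A0ne := mul_ne_zero hA (Complex.exp_ne_zero _)
      hF := hF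
      xs := fun j => sJ_re hx w j
      e0 := E0_eq hx Kp A w
      e1 := fun j => Es_eq hx Kp A w j
      r0 := R0_eq hx Kp A w
      r1 := fun j => Rs_eq hx Kp A w j
      P0ne := Complex.exp_ne_zero _
      Pne := fun j => Complex.exp_ne_zero _
      P1ne := fun j => Complex.exp_ne_zero _
      Z0ne := Complex.exp_ne_zero _
      pl := fun j h => fpl hx (him j) h
      pr := fun j h => fpr hx (him j) h
      pm := fun j h => fpm hx (him j) h
      pf := fun j h => fpf hx (him j) h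
      p1l := fun j h => fp1l hx (him j) h
      p1r := fun j h => fp1r hx (him j) h
      p1m := fun j h => fp1m hx (him j) h
      p1g := fun j => fp1g hx (him j)
      p0r := fun h => fp0r hx (him 0) h
      p0m := fun h => fp0m hx (him 0) h
      p0l := fun h => fp0l hx (him 0) h
      z0l := fun h => fz0l hx h
      z0r := fun h => fz0r hx h
      z0m := fz0m hx (him 0)
      b1 := ?_
      b10 := ?_
      b2 := ?_
      b3 := ?_
      b4 := ?_
      qs := ?_
      rr := ?_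
      hvy := v_add_y
      hy1 := yR_ge hx
      hy2 := yR_le hx
      hv := ?_
      hx0 := x0R_pos hx
      hx1 := ?_
      hC := ?_
      hm := ?_
      hG := ?_
      hCm := ?_
      hν0 := ?_
      hν1 := ?_
      hν2 := ?_
      hGm := ?_
      hs1 := ?_
      hSW := ?_
      hvl0 := ?_
      hvl1 := ?_
      hfar := ?_
      hzv := ?_ }
  · -- b1
    intro j hj1 hj2
    have habs : |(sJ K w j).re| ≤ 7 * DR K := by
      rw [abs_le]
      exact ⟨by linarith, hj2⟩
    have hn : ‖sJ K w j‖ ≤ 43 * (K : ℝ) ^ 3 := by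
      have := hnorm_s j
      have c1 := pow_comp hx (b := 100) (by norm_num) (show 0 < 3 by norm_num)
      simp only [pow_zero, mul_one] at c1
      linarith
    have c2 := pow_comp hx (b := 43) (by norm_num) (show 3 < 23 by norm_num)
    have c3 : 0 < (K : ℝ) ^ 23 := by positivity
    have h2 := block_window hx (alJ_nonneg K j) (alJ_le K j) (him j) (by linarith)
      (by
        calc alJ K j * ‖sJ K w j‖ ≤ (2 * (K : ℝ) ^ 25) * (43 * (K : ℝ) ^ 3) := by
              have := alJ_le K j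
              gcongr
          _ = 86 * (K : ℝ) ^ 28 := by ring
          _ ≤ 90 * (K : ℝ) ^ 28 := by
            have : 0 < (K : ℝ) ^ 28 := by positivity
            linarith)
    have e : BJ K Kp A w j - EJ K Kp A w j = RJ K Kp A w j *
        (SS (K ^ 31) (K ^ 160) (QK K (alJ K j)) (K ^ 31) (betaR K * sJ K w j)
          - Complex.exp (Qex K (alJ K j) (sJ K w j))) := by
      unfold BJ EJ SJ
      rw [hbs j]
      ring
    rw [e, norm_mul]
    have e2 : ‖EJ K Kp A w j‖ = ‖RJ K Kp A w j‖ * ‖Complex.exp (Qex K (alJ K j) (sJ K w j))‖ := by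
      unfold EJ
      rw [norm_mul]
    rw [e2]
    calc _ ≤ ‖RJ K Kp A w j‖ * (‖Complex.exp (Qex K (alJ K j) (sJ K w j))‖ / 50) := by gcongr
      _ = _ := by ring
  · -- b10
    intro hj1 hj2
    have c2 := pow_comp hx (b := 50) (by norm_num) (show 3 < 23 by norm_num)
    have c3 : 1 ≤ (K : ℝ) ^ 3 := one_le_pow₀ h1
    have habs : |(sJ K w 0).re| ≤ (K : ℝ) ^ 23 := by
      rw [abs_le]
      exact ⟨by linarith, by linarith⟩
    have c4 : 1 ≤ (K : ℝ) ^ 23 := one_le_pow₀ h1
    have hn : ‖sJ K w 0‖ ≤ 2 * (K : ℝ) ^ 23 := by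
      have := hnorm_s 0
      linarith
    have hal : alJ K 0 = 0 := by simp [alJ]
    have h2 := block_window hx (alJ_nonneg K 0) (alJ_le K 0) (him 0) hn
      (by rw [hal]; simp)
    have e : BJ K Kp A w 0 - EJ K Kp A w 0 = RJ K Kp A w 0 *
        (SS (K ^ 31) (K ^ 160) (QK K (alJ K 0)) (K ^ 31) (betaR K * sJ K w 0)
          - Complex.exp (Qex K (alJ K 0) (sJ K w 0))) := by
      unfold BJ EJ SJ
      rw [hbs 0]
      ring
    rw [e, norm_mul]
    have e2 : ‖EJ K Kp A w 0‖ = ‖RJ K Kp A w 0‖ * ‖Complex.exp (Qex K (alJ K 0) (sJ K w 0))‖ := by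
      unfold EJ
      rw [norm_mul]
    rw [e2]
    calc _ ≤ ‖RJ K Kp A w 0‖ * (‖Complex.exp (Qex K (alJ K 0) (sJ K w 0))‖ / 50) := by gcongr
      _ = _ := by ring
  · -- b2
    intro j hj
    have H := blockHyp hx (alJ_nonneg K j) (alJ_le K j)
    have h2 := H.S_le_left (r := K ^ 31) le_rfl (w := w - ajR K j) (by
      rw [hre]
      exact mul_nonpos_of_nonneg_of_nonpos hβ.le hj)
    unfold BJ SJ
    rw [norm_mul, hCR, mul_comm]
    gcongr
  · -- b3
    intro j hj
    have H := blockHyp hx (alJ_nonneg K j) (alJ_le K j)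
    have h2 := H.S_le_right (r := K ^ 31) le_rfl (w := w - ajR K j) (by
      rw [hre]
      exact mul_nonneg hβ.le hj)
    unfold BJ SJ
    rw [norm_mul, hCR]
    have e : (((K ^ 160 : ℕ) : ℝ)) * (w - ajR K j).re = 1 / (K : ℝ) ^ 90 * (sJ K w j).re := by
      rw [hre]
      unfold betaR
      push_cast
      field_simp
    rw [e] at h2
    calc _ ≤ ‖RJ K Kp A w j‖ * (2 * (((K ^ 31 : ℕ) : ℝ) + 1) * exp (1 / (K : ℝ) ^ 90 * (sJ K w j).re)) := by gcongr
      _ = _ := by ring
  · -- b4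
    intro j hj
    have h2 := block_right hx (alJ_nonneg K j) (alJ_le K j) (him j) hj
    unfold BJ SJ
    rw [norm_mul, hbs j]
    gcongr
  · -- qs
    intro j hj
    have e2 : ‖EJ K Kp A w j‖ = ‖RJ K Kp A w j‖ * ‖Complex.exp (Qex K (alJ K j) (sJ K w j))‖ := by
      unfold EJ
      rw [norm_mul]
    rw [e2, mul_assoc]
    apply le_mul_of_one_le_right (norm_nonneg _)
    rw [Complex.norm_exp, Qex_re, ← exp_add]
    apply one_le_exp
    have a2 := log_low hx (him j)
    have a4 : mR K * (-(1 / 50)) ≤ mR K * Real.log ‖1 + (sJ K w j) ^ 2‖ := by gcongr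
    have a5 : 0 ≤ alJ K j * (sJ K w j).re := mul_nonneg (alJ_nonneg K j) hj
    linarith
  · -- rr
    intro j hj
    have e2 : ‖RJ K Kp A w (j + 1)‖ = ‖RJ K Kp A w j‖ * ‖Complex.exp (Qex K (alJ K j) (sJ K w j))‖
        * ‖Complex.exp (Phi1 (mR K) (sJ K w j))‖ := by
      rw [Rs_eq hx, norm_mul, norm_mul, Complex.norm_I, one_mul]
      unfold EJ
      rw [norm_mul]
    rw [e2, mul_assoc, mul_assoc]
    apply le_mul_of_one_le_right (norm_nonneg _)
    rw [Complex.norm_exp, Complex.norm_exp, Qex_re, ← exp_add, ← exp_add]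
    apply one_le_exp
    have a5 : 0 ≤ alJ K j * (sJ K w j).re := mul_nonneg (alJ_nonneg K j) hj
    have a6 : (Phi1 (mR K) (sJ K w j)).re = mR K * ((sJ K w j).re - 1) + mR K * Real.log 2
        - mR K * Real.log ‖1 + (sJ K w j) ^ 2‖ := by
      unfold Phi1
      simp only [Complex.sub_re, Complex.add_re, Complex.re_ofReal_mul, Complex.one_re, Complex.ofReal_re]
      rw [LL_re]
    have a7 : 0 ≤ mR K * Real.log 2 := by
      have : 0 ≤ Real.log 2 := Real.log_nonneg (by norm_num)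
      positivity
    rw [a6]
    linarith
  · linarith [vR_big hx]
  · linarith [x0R_le' hx]
  · unfold CR
    have : 0 < (K : ℝ) ^ 31 := by positivity
    linarith
  · rw [e28]
    have := one_le_pow₀ (n := 28) h1
    linarith
  · have : 0 < (K : ℝ) ^ 31 := by positivity
    linarith
  · -- hCm
    rw [exp_neg, ← div_eq_mul_inv, div_le_iff₀ (exp_pos _)]
    have a1 := exp_x5 hx
    have a2 : exp ((K : ℝ) / 5) ≤ exp (mR K / 2) := by
      apply exp_le_exp.mpr
      rw [e28]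
      have c1 := pow_comp hx (b := 1) (by norm_num) (show 1 < 28 by norm_num)
      simp only [pow_one] at c1
      linarith
    have c1 := pow_comp hx (b := 1) (by norm_num) (show 31 < 62 by norm_num)
    have c2 : 1 ≤ (K : ℝ) ^ 62 := one_le_pow₀ h1
    have c3 := pow_comp hx (b := 1000) (by norm_num) (show 61 < 62 by norm_num)
    have c4 := pow_comp hx (b := 4) (by norm_num) (show 31 < 61 by norm_num)
    have c5 : 1 ≤ (K : ℝ) ^ 61 := one_le_pow₀ h1
    have c6 := pow_comp hx (b := 4) (by norm_num) (show 0 < 61 by norm_num)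
    simp only [pow_zero, mul_one] at c6
    unfold CR
    linarith
  · positivity
  · -- hν1
    rw [e28, one_div_mul_eq_div, div_le_iff₀ (by positivity)]
    have c1 := pow_comp hx (b := 100) (by norm_num) (show 3 < 28 by norm_num)
    have c2 : 1 ≤ (K : ℝ) ^ 90 := one_le_pow₀ h1
    have c3 : 1 ≤ (K : ℝ) ^ 3 := one_le_pow₀ h1
    have c4 : 0 < (K : ℝ) ^ 28 := by positivity
    have c5 : (K : ℝ) ^ 28 * 1 ≤ (K : ℝ) ^ 28 * (K : ℝ) ^ 90 := by gcongr
    linarith
  · -- hν2
    rw [e28]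
    have c2 : 1 ≤ (K : ℝ) ^ 90 := one_le_pow₀ h1
    have c3 : 1 ≤ (K : ℝ) ^ 28 := one_le_pow₀ h1
    have : 1 / (K : ℝ) ^ 90 ≤ 1 := by
      rw [div_le_one (by positivity)]
      exact c2
    linarith
  · -- hGm
    have a1 := GR_le hx
    have a2 := vR_big hx
    have a3 : mR K * 10 ≤ mR K * vR K := by
      gcongr
      linarith
    linarith
  · -- hs1
    have c1 := pow_comp hx (b := 12) (by norm_num) (show 3 < 20 by norm_num)
    linarith
  · -- hSW
    have c1 := pow_comp hx (b := 2) (by norm_num) (show 20 < 23 by norm_num)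
    linarith
  · unfold vlR
    positivity
  · unfold vlR
    apply one_div_le_one_div_of_le (by norm_num)
    have c2 : 1 ≤ (K : ℝ) ^ 62 := one_le_pow₀ h1
    linarith
  · -- hfar
    rw [exp_neg, ← div_eq_mul_inv, div_le_iff₀ (exp_pos _)]
    unfold vlR CR
    rw [div_mul_eq_mul_div, one_mul, le_div_iff₀ (by positivity)]
    have a1 := exp_x5 hx
    have a2 : exp ((K : ℝ) / 5) * exp ((K : ℝ) / 5) ≤ exp (mR K * vR K / 5) := by
      rw [← exp_add]
      apply exp_le_exp.mpr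
      rw [e28]
      have c1 := pow_comp hx (b := 10) (by norm_num) (show 1 < 28 by norm_num)
      simp only [pow_one] at c1
      have c2 := vR_big hx
      have c3 : 6 * (K : ℝ) ^ 28 * 1 ≤ 6 * (K : ℝ) ^ 28 * vR K := by
        gcongr
        linarith
      linarith
    have c1 := pow_comp hx (b := 1) (by norm_num) (show 31 < 62 by norm_num)
    have c2 : 1 ≤ (K : ℝ) ^ 62 := one_le_pow₀ h1
    have a3 : (1000 * (K : ℝ) ^ 62) * (1000 * (K : ℝ) ^ 62) ≤ exp ((K : ℝ) / 5) * exp ((K : ℝ) / 5) := by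
      gcongr
    calc 6 * (2 * ((K : ℝ) ^ 31 + 1)) * (100 * (K : ℝ) ^ 62) ≤ 6 * (2 * ((K : ℝ) ^ 62 + (K : ℝ) ^ 62)) * (100 * (K : ℝ) ^ 62) := by
          gcongr
          linarith
      _ ≤ (1000 * (K : ℝ) ^ 62) * (1000 * (K : ℝ) ^ 62) := by nlinarith
      _ ≤ _ := a3.trans a2
  · -- hzv
    have a1 := exp_x5 hx
    have a2 : exp ((K : ℝ) / 5) ≤ exp (GR K + 2 * mR K) := by
      apply exp_le_exp.mpr
      have c1 := pow_comp hx (b := 1) (by norm_num) (show 1 < 28 by norm_num)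
      simp only [pow_one] at c1
      have : 0 < (K : ℝ) ^ 31 := by positivity
      rw [e28]
      linarith
    unfold vlR
    calc (10 : ℝ) = 1000 * (K : ℝ) ^ 62 * (1 / (100 * (K : ℝ) ^ 62)) := by field_simp; norm_num
      _ ≤ _ := by
        gcongr
        exact a1.trans a2

/-- full sums do not vanish -/
theorem region2_full {Kp : ℕ} {A F w : ℂ} (hA : A ≠ 0) (hw : |w.im| ≤ dR K)
    (hF : ‖F - A * Complex.exp (Kp * w)‖ ≤ ‖A * Complex.exp (Kp * w)‖ / 100) (M : ℕ) :
    F + ∑ l ∈ Finset.range (M + 1), BJ K Kp A w l ≠ 0 :=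
  (ptHyp hx hA hw hF).full_ne M

/-- partial sums do not vanish -/
theorem region2_part {Kp : ℕ} {A F w : ℂ} (hA : A ≠ 0) (hw : |w.im| ≤ dR K)
    (hF : ‖F - A * Complex.exp (Kp * w)‖ ≤ ‖A * Complex.exp (Kp * w)‖ / 100) (j : ℕ) {r : ℕ}
    (hr : r < K ^ 31) :
    F + ∑ l ∈ Finset.range j, BJ K Kp A w l + RJ K Kp A w j * SJ K r w j ≠ 0 := by
  have h0 := x_pos hx
  have hβ := beta_pos hx
  have him := sJ_im_le hx hw
  have H := blockHyp hx (alJ_nonneg K j) (alJ_le K j)
  have hbs : w - ajR K j = betaR K * sJ K w j := (beta_mul_sJ hx w j).symm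
  have hre : (w - ajR K j).re = betaR K * (sJ K w j).re := by
    rw [hbs, Complex.re_ofReal_mul]
  have hCR : CR K = 2 * (((K ^ 31 : ℕ) : ℝ) + 1) := by unfold CR; push_cast; ring
  obtain ⟨σ, hσ1, hσ2, hσ3⟩ := H.partial_window hr
  refine (ptHyp hx hA hw hF).part_ne j (σ := σ) hσ1 ?_ ?_ ?_
  · intro hj
    rw [hCR]
    exact H.S_le_left hr.le (by
      rw [hre]
      exact mul_nonpos_of_nonneg_of_nonpos hβ.le hj)
  · intro hj
    apply hσ3
    rw [hbs, norm_mul, Complex.norm_real, Real.norm_eq_abs, abs_of_pos hβ]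
    have a1 := Complex.norm_le_abs_re_add_abs_im (sJ K w j)
    have a2 := him j
    have a3 := hR_le hx
    have a4 : 1 ≤ (K : ℝ) ^ 23 := one_le_pow₀ (x_one hx)
    calc betaR K * ‖sJ K w j‖ ≤ betaR K * (2 * (K : ℝ) ^ 23) := by
          apply mul_le_mul_of_nonneg_left _ hβ.le
          linarith
      _ = 2 * WR K := by
        unfold betaR WR
        field_simp
  · intro hj
    have h1 := H.partial_right (t := (w - ajR K j).re) (y := (w - ajR K j).im) (by
      rw [hre]
      exact mul_nonneg hβ.le hj) (by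
      rw [Complex.sub_im, Complex.ofReal_im, sub_zero]
      exact hw) hr
    rw [Complex.re_add_im] at h1
    refine le_trans (le_of_eq ?_) h1
    unfold vlR
    push_cast
    ring

end

end Pool.Agent.Lib.MP_a05d5a_an
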