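import Mathlib
import Pool.Agent.Lib.MP_a05d5a_an.Point
import Pool.Agent.Lib.MP_a05d5a_an.Good

namespace Pool.Agent.Lib.MP_a05d5a_an

open Real Finset

/-- modulus of the leading monomial of block `j` -/
noncomputable def Rn (K Kp : ℕ) (A : ℂ) (j : ℕ) (r : ℝ) : ℝ := ‖Cc K A j‖ * r ^ kk K Kp j

/-- coefficient of the `i`-th monomial of block `j` -/
noncomputable def cf (K : ℕ) (A : ℂ) (j i : ℕ) : ℂ :=
  Cc K A j * ((bb (K ^ 31) (K ^ 160) (QK K (alJ K j)) i * exp (-(XR (K ^ 31) (K ^ 160) i * ajR K j)) : ℝ) : ℂ)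

/-- exponent of the `i`-th monomial of block `j` -/
noncomputable def ex (K Kp j i : ℕ) : ℕ := kk K Kp j + Xn (K ^ 31) (K ^ 160) i

/-- absolute coefficient sum of block `j` -/
noncomputable def bs (K Kp : ℕ) (A : ℂ) (j : ℕ) (r : ℝ) : ℝ :=
  ∑ i ∈ range (K ^ 31 + 1), ‖cf K A j i‖ * r ^ ex K Kp j i

theorem Rn_nonneg (K Kp : ℕ) (A : ℂ) (j : ℕ) {r : ℝ} (hr : 0 ≤ r) : 0 ≤ Rn K Kp A j r := by
  unfold Rn
  positivity

section
variable {K : ℕ} (hx : (10 : ℝ) ^ 40 ≤ (K : ℝ))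
include hx

theorem a0R_pos : 0 < a0R K := by
  unfold a0R
  apply Real.log_pos
  have := one_le_pow₀ (n := 261) (x_one hx)
  linarith

theorem exp_a0 : exp (a0R K) = 2 * (K : ℝ) ^ 261 := by
  have h0 := x_pos hx
  unfold a0R
  rw [Real.exp_log (by positivity)]

theorem DR_pos : 0 < DR K := by
  have h := DR_ge hx
  have h0 := x_pos hx
  have : 0 < (K : ℝ) ^ 3 := by positivity
  linarith

theorem ajR_ge (j : ℕ) : a0R K ≤ ajR K j := by
  have h1 := beta_pos hx
  have h2 := DR_pos hx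
  unfold ajR
  have : 0 ≤ (j : ℝ) * (betaR K * DR K) := by positivity
  linarith

omit hx in
theorem Rn_zero (Kp : ℕ) (A : ℂ) (r : ℝ) : Rn K Kp A 0 r
    = ‖A‖ * r ^ Kp * (exp ((K : ℝ) ^ 30 + GR K - mR K * Real.log (1 + ((K : ℝ) ^ 20) ^ 2))
      * (exp (-a0R K) * r) ^ K ^ 260) := by
  unfold Rn Cc kk
  rw [norm_mul, norm_mul, Complex.norm_I, one_mul, Complex.norm_exp_ofReal, mul_pow, ← exp_nat_mul]
  have : exp ((K : ℝ) ^ 30 + GR K - mR K * Real.log (1 + ((K : ℝ) ^ 20) ^ 2) - (K : ℝ) ^ 260 * a0R K)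
      = exp ((K : ℝ) ^ 30 + GR K - mR K * Real.log (1 + ((K : ℝ) ^ 20) ^ 2))
        * exp (((K ^ 260 : ℕ) : ℝ) * -a0R K) := by
    rw [← exp_add]
    congr 1
    push_cast
    ring
  rw [this, pow_add]
  ring

omit hx in
theorem Rn_succ (Kp : ℕ) (A : ℂ) (j : ℕ) (r : ℝ) : Rn K Kp A (j + 1) r
    = Rn K Kp A j r * (exp (-GR K - mR K + mR K * Real.log 2) * (exp (-ajR K j) * r) ^ stp K j) := by
  unfold Rn
  rw [Cc, kk, norm_mul, norm_mul, Complex.norm_I, one_mul, Complex.norm_exp_ofReal, mul_pow, ← exp_nat_mul]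
  have : exp (-GR K - mR K + mR K * Real.log 2 - (stp K j : ℝ) * ajR K j)
      = exp (-GR K - mR K + mR K * Real.log 2) * exp ((stp K j : ℝ) * -ajR K j) := by
    rw [← exp_add]
    congr 1
    ring
  rw [this, pow_add]
  ring

theorem exp_neg_GR : exp (-GR K - mR K + mR K * Real.log 2) ≤ 1 / 2 := by
  have h1 := G_ge31 hx
  have h2 := mR_pos hx
  have h3 := Real.log_two_lt_d9
  have h4 : mR K * Real.log 2 ≤ mR K * 1 := by gcongr; linarith
  have h5 : 1 ≤ (K : ℝ) ^ 31 := one_le_pow₀ (x_one hx)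
  calc exp _ ≤ exp (-1) := exp_le_exp.mpr (by linarith)
    _ = 1 / exp 1 := by rw [exp_neg, one_div]
    _ ≤ 1 / 2 := by
      apply one_div_le_one_div_of_le (by norm_num)
      have := add_one_le_exp (1 : ℝ)
      linarith

theorem bs_le (Kp : ℕ) (A : ℂ) (j : ℕ) {r : ℝ} (hr : 0 ≤ r) {ω : ℝ} (hω : 1 ≤ ω)
    (hω2 : exp (-ajR K j) * r ≤ ω) : bs K Kp A j r ≤ CR K * Rn K Kp A j r * ω ^ K ^ 160 := by
  have H := blockHyp hx (alJ_nonneg K j) (alJ_le K j)
  have hCR : CR K = 2 * (((K ^ 31 : ℕ) : ℝ) + 1) := by unfold CR; push_cast; ring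
  have hR := Rn_nonneg K Kp A j hr
  unfold bs
  have : ∀ i ∈ range (K ^ 31 + 1), ‖cf K A j i‖ * r ^ ex K Kp j i ≤ 2 * (Rn K Kp A j r * ω ^ K ^ 160) := by
    intro i hi
    have hi' : i ≤ K ^ 31 := by have := mem_range.mp hi; omega
    have hb := H.b_le hi'
    unfold cf ex Rn
    rw [norm_mul, Complex.norm_real, Real.norm_eq_abs, abs_mul, abs_of_pos (exp_pos _), pow_add]
    have e : exp (-(XR (K ^ 31) (K ^ 160) i * ajR K j)) * r ^ Xn (K ^ 31) (K ^ 160) i
        = (exp (-ajR K j) * r) ^ Xn (K ^ 31) (K ^ 160) i := by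
      rw [mul_pow, ← exp_nat_mul]
      congr 2
      unfold XR
      ring
    have h1 : (exp (-ajR K j) * r) ^ Xn (K ^ 31) (K ^ 160) i ≤ ω ^ K ^ 160 := by
      calc _ ≤ ω ^ Xn (K ^ 31) (K ^ 160) i := by
            apply pow_le_pow_left₀ _ hω2
            have := exp_pos (-ajR K j)
            positivity
        _ ≤ ω ^ K ^ 160 := pow_le_pow_right₀ hω (Xn_le_N _ _ _)
    calc ‖Cc K A j‖ * (|bb (K ^ 31) (K ^ 160) (QK K (alJ K j)) i| * exp (-(XR (K ^ 31) (K ^ 160) i * ajR K j)))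
          * (r ^ kk K Kp j * r ^ Xn (K ^ 31) (K ^ 160) i)
        = |bb (K ^ 31) (K ^ 160) (QK K (alJ K j)) i| * ((‖Cc K A j‖ * r ^ kk K Kp j) *
          (exp (-(XR (K ^ 31) (K ^ 160) i * ajR K j)) * r ^ Xn (K ^ 31) (K ^ 160) i)) := by ring
      _ = |bb (K ^ 31) (K ^ 160) (QK K (alJ K j)) i| * ((‖Cc K A j‖ * r ^ kk K Kp j) *
          (exp (-ajR K j) * r) ^ Xn (K ^ 31) (K ^ 160) i) := by rw [e]
      _ ≤ 2 * ((‖Cc K A j‖ * r ^ kk K Kp j) * ω ^ K ^ 160) := by
          have : 0 ≤ (exp (-ajR K j) * r) ^ Xn (K ^ 31) (K ^ 160) i := by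
            have := exp_pos (-ajR K j)
            positivity
          gcongr
  refine (sum_le_card_nsmul _ _ _ this).trans ?_
  rw [card_range, nsmul_eq_mul, hCR]
  push_cast
  apply le_of_eq
  ring

/-- Region I estimate -/
theorem Rn_zero_small (Kp : ℕ) (A : ℂ) {r : ℝ} (hr : 0 ≤ r) (hr2 : r ≤ 9 / 5 * (K : ℝ) ^ 261) :
    Rn K Kp A 0 r ≤ ‖A‖ * (2 * (K : ℝ) ^ 261) ^ Kp * exp (-(K : ℝ) ^ 260 / 20) := by
  have h0 := x_pos hx
  rw [Rn_zero]
  have h1 : exp (-a0R K) * r ≤ exp (-(1 / 10)) := by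
    have e1 : exp (-a0R K) * r = r / (2 * (K : ℝ) ^ 261) := by
      rw [exp_neg, exp_a0 hx]
      ring
    rw [e1, div_le_iff₀ (by positivity)]
    have e2 : (9 : ℝ) / 10 ≤ exp (-(1 / 10)) := by
      have := add_one_le_exp (-(1 / 10 : ℝ))
      linarith
    have : 0 < (K : ℝ) ^ 261 := by positivity
    nlinarith
  have h2 : (exp (-a0R K) * r) ^ K ^ 260 ≤ exp (-(K : ℝ) ^ 260 / 10) := by
    calc _ ≤ (exp (-(1 / 10))) ^ K ^ 260 := by
          apply pow_le_pow_left₀ _ h1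
          have := exp_pos (-a0R K)
          positivity
      _ = _ := by
        rw [← exp_nat_mul]
        congr 1
        push_cast
        ring
  have h3 : exp ((K : ℝ) ^ 30 + GR K - mR K * Real.log (1 + ((K : ℝ) ^ 20) ^ 2)) ≤ exp ((K : ℝ) ^ 260 / 20) := by
    apply exp_le_exp.mpr
    have a1 := G_le31 hx
    have a2 := m_log_s1_nonneg hx
    have c1 := pow_comp hx (b := 1000) (by norm_num) (show 30 < 260 by norm_num)
    have c2 := pow_comp hx (b := 10000) (by norm_num) (show 31 < 260 by norm_num)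
    have c3 : 0 < (K : ℝ) ^ 260 := by positivity
    linarith
  have h4 : r ≤ 2 * (K : ℝ) ^ 261 := by
    have : 0 < (K : ℝ) ^ 261 := by positivity
    linarith
  have h5 : 0 ≤ (exp (-a0R K) * r) ^ K ^ 260 := by
    have := exp_pos (-a0R K)
    positivity
  calc _ ≤ ‖A‖ * (2 * (K : ℝ) ^ 261) ^ Kp * (exp ((K : ℝ) ^ 260 / 20) * exp (-(K : ℝ) ^ 260 / 10)) := by
        gcongr
    _ = _ := by
      rw [← exp_add]
      congr 2
      ring

theorem Rn_decay (Kp : ℕ) (A : ℂ) {r : ℝ} (hr : 0 ≤ r) (hr2 : r ≤ 9 / 5 * (K : ℝ) ^ 261) (j : ℕ) :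
    Rn K Kp A j r ≤ Rn K Kp A 0 r * (1 / 2) ^ j ∧ exp (-ajR K j) * r ≤ 1 := by
  have h0 := x_pos hx
  have ha : ∀ j, exp (-ajR K j) * r ≤ 1 := by
    intro j
    have h1 : exp (-ajR K j) ≤ exp (-a0R K) := exp_le_exp.mpr (by linarith [ajR_ge hx j])
    have e1 : exp (-a0R K) = 1 / (2 * (K : ℝ) ^ 261) := by
      rw [exp_neg, exp_a0 hx, one_div]
    calc exp (-ajR K j) * r ≤ exp (-a0R K) * (9 / 5 * (K : ℝ) ^ 261) := by gcongr
      _ = 9 / 10 := by
        rw [e1]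
        field_simp
        norm_num
      _ ≤ 1 := by norm_num
  refine ⟨?_, ha j⟩
  induction j with
  | zero => simp
  | succ j ih =>
    rw [Rn_succ]
    have h1 := exp_neg_GR hx
    have h2 : (exp (-ajR K j) * r) ^ stp K j ≤ 1 := pow_le_one₀ (by positivity) (ha j)
    have h3 : 0 ≤ (exp (-ajR K j) * r) ^ stp K j := by positivity
    have h4 := Rn_nonneg K Kp A j hr
    calc Rn K Kp A j r * (exp (-GR K - mR K + mR K * Real.log 2) * (exp (-ajR K j) * r) ^ stp K j)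
        ≤ Rn K Kp A j r * (1 / 2 * 1) := by gcongr
      _ ≤ (Rn K Kp A 0 r * (1 / 2) ^ j) * (1 / 2) := by
        rw [mul_one]
        gcongr
      _ = _ := by rw [pow_succ]; ring

/-- Region I bound of all absolute block sums -/
theorem bs_small (Kp : ℕ) (A : ℂ) {r : ℝ} (hr : 0 ≤ r) (hr2 : r ≤ 9 / 5 * (K : ℝ) ^ 261) (J : ℕ) :
    ∑ j ∈ range J, bs K Kp A j r
      ≤ 2 * CR K * (‖A‖ * (2 * (K : ℝ) ^ 261) ^ Kp * exp (-(K : ℝ) ^ 260 / 20)) := by
  have h0 := x_pos hx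
  have hC : 0 < CR K := by unfold CR; positivity
  have h1 : ∀ j ∈ range J, bs K Kp A j r ≤ CR K * Rn K Kp A 0 r * (1 / 2) ^ j := by
    intro j _
    obtain ⟨a1, a2⟩ := Rn_decay hx Kp A hr hr2 j
    have := bs_le hx Kp A j hr le_rfl a2
    rw [one_pow, mul_one] at this
    calc bs K Kp A j r ≤ CR K * Rn K Kp A j r := this
      _ ≤ CR K * (Rn K Kp A 0 r * (1 / 2) ^ j) := by gcongr
      _ = _ := by ring
  have h2 : ∑ j ∈ range J, ((1 : ℝ) / 2) ^ j ≤ 2 := by
    have h := sum_geometric_two_le J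
    simpa using h
  have h3 := Rn_zero_small hx Kp A hr hr2
  have h4 := Rn_nonneg K Kp A 0 hr
  calc ∑ j ∈ range J, bs K Kp A j r ≤ ∑ j ∈ range J, CR K * Rn K Kp A 0 r * (1 / 2) ^ j := sum_le_sum h1
    _ = CR K * Rn K Kp A 0 r * ∑ j ∈ range J, ((1 : ℝ) / 2) ^ j := by rw [mul_sum]
    _ ≤ CR K * Rn K Kp A 0 r * 2 := by gcongr
    _ = 2 * CR K * Rn K Kp A 0 r := by ring
    _ ≤ _ := by gcongr

omit hx in
theorem hKexp : (K : ℝ) ≤ exp K := by
  have := add_one_le_exp (K : ℝ)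
  linarith

theorem CR_le : CR K ≤ exp (K : ℝ) := by
  have h := exp_x5 hx
  have h0 := x_pos hx
  have h2 : exp ((K : ℝ) / 5) ≤ exp K := exp_le_exp.mpr (by linarith)
  have c1 := pow_comp hx (b := 1) (by norm_num) (show 31 < 62 by norm_num)
  have c2 : 1 ≤ (K : ℝ) ^ 62 := one_le_pow₀ (x_one hx)
  unfold CR
  linarith

/-- numerical form of the Region I bound -/
theorem small_num {Kp : ℕ} {A : ℂ} (hKp : Kp ≤ K) (hA : ‖A‖ ≤ K) :
    2 * CR K * (‖A‖ * (2 * (K : ℝ) ^ 261) ^ Kp * exp (-(K : ℝ) ^ 260 / 20)) ≤ 1 / (2 * K) := by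
  have h0 := x_pos hx
  have h1 := x_one hx
  have hK := hKexp (K := K)
  have hC := CR_le hx
  have e1 : (2 * (K : ℝ) ^ 261) ^ Kp ≤ exp (262 * (K : ℝ) ^ 2) := by
    have a1 : 2 * (K : ℝ) ^ 261 ≤ exp (262 * K) := by
      have c1 := pow_comp hx (b := 2) (by norm_num) (show 261 < 262 by norm_num)
      calc 2 * (K : ℝ) ^ 261 ≤ (K : ℝ) ^ 262 := c1
        _ ≤ (exp K) ^ 262 := by gcongr
        _ = exp (262 * K) := by rw [← exp_nat_mul]; norm_num
    have a2 : 1 ≤ 2 * (K : ℝ) ^ 261 := by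
      have := one_le_pow₀ (n := 261) h1
      linarith
    calc (2 * (K : ℝ) ^ 261) ^ Kp ≤ (2 * (K : ℝ) ^ 261) ^ K := pow_le_pow_right₀ a2 hKp
      _ ≤ (exp (262 * K)) ^ K := by gcongr
      _ = exp (262 * (K : ℝ) ^ 2) := by
        rw [← exp_nat_mul]
        congr 1
        ring
  have e2 : (2 : ℝ) ≤ exp K := by
    have := x_ge hx 2 (by norm_num)
    linarith
  have hC0 : 0 < CR K := by unfold CR; positivity
  calc 2 * CR K * (‖A‖ * (2 * (K : ℝ) ^ 261) ^ Kp * exp (-(K : ℝ) ^ 260 / 20))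
      ≤ exp K * exp K * (exp K * exp (262 * (K : ℝ) ^ 2) * exp (-(K : ℝ) ^ 260 / 20)) := by
        gcongr
        exact hA.trans hK
    _ = exp (3 * K + 262 * (K : ℝ) ^ 2 - (K : ℝ) ^ 260 / 20) := by
        rw [← exp_add, ← exp_add, ← exp_add, ← exp_add]
        congr 1
        ring
    _ ≤ exp (-(2 * K)) := by
        apply exp_le_exp.mpr
        have c1 := pow_comp hx (b := 1000) (by norm_num) (show 1 < 260 by norm_num)
        have c2 := pow_comp hx (b := 100000) (by norm_num) (show 2 < 260 by norm_num)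
        simp only [pow_one] at c1
        linarith
    _ = 1 / (exp K * exp K) := by
        rw [exp_neg, ← one_div, ← exp_add]
        congr 2
        ring
    _ ≤ 1 / (2 * K) := by
        apply one_div_le_one_div_of_le (by positivity)
        gcongr

/-- growth of the leading monomials -/
theorem Rn_upper {Kp : ℕ} {A : ℂ} {r : ℝ} (hr : 1 ≤ r) (j : ℕ) :
    Rn K Kp A j r ≤ ‖A‖ * exp ((K : ℝ) ^ 32) * r ^ kk K Kp j := by
  have h0 := x_pos hx
  have hr0 : 0 ≤ r := by linarith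
  have hea : ∀ j, exp (-ajR K j) * r ≤ r := by
    intro j
    apply mul_le_of_le_one_left hr0
    rw [exp_le_one_iff]
    linarith [ajR_ge hx j, a0R_pos hx]
  induction j with
  | zero =>
    rw [Rn_zero]
    have h1 : (exp (-a0R K) * r) ^ K ^ 260 ≤ r ^ K ^ 260 := by
      apply pow_le_pow_left₀ (by positivity)
      apply mul_le_of_le_one_left hr0
      rw [exp_le_one_iff]
      linarith [a0R_pos hx]
    have h2 : exp ((K : ℝ) ^ 30 + GR K - mR K * Real.log (1 + ((K : ℝ) ^ 20) ^ 2)) ≤ exp ((K : ℝ) ^ 32) := by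
      apply exp_le_exp.mpr
      have a1 := G_le31 hx
      have a2 := m_log_s1_nonneg hx
      have c1 := pow_comp hx (b := 2) (by norm_num) (show 30 < 32 by norm_num)
      have c2 := pow_comp hx (b := 100) (by norm_num) (show 31 < 32 by norm_num)
      have : 0 < (K : ℝ) ^ 32 := by positivity
      linarith
    have e : kk K Kp 0 = Kp + K ^ 260 := rfl
    rw [e, pow_add]
    calc _ ≤ ‖A‖ * r ^ Kp * (exp ((K : ℝ) ^ 32) * r ^ K ^ 260) := by gcongr
      _ = _ := by ring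
  | succ j ih =>
    rw [Rn_succ]
    have h1 : exp (-GR K - mR K + mR K * Real.log 2) ≤ 1 := (exp_neg_GR hx).trans (by norm_num)
    have h2 : (exp (-ajR K j) * r) ^ stp K j ≤ r ^ stp K j := by
      apply pow_le_pow_left₀ (by positivity) (hea j)
    have e : kk K Kp (j + 1) = kk K Kp j + stp K j := rfl
    have h3 : 0 ≤ (exp (-ajR K j) * r) ^ stp K j := by positivity
    rw [e, pow_add]
    calc _ ≤ (‖A‖ * exp ((K : ℝ) ^ 32) * r ^ kk K Kp j) * (1 * r ^ stp K j) := by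
          gcongr
      _ = _ := by ring

theorem kk_le (Kp : ℕ) (j : ℕ) : kk K Kp j ≤ Kp + K ^ 260 + j * (8 * K ^ 278) := by
  have hK := K_pos hx
  induction j with
  | zero => simp [kk]
  | succ j ih =>
    have e : kk K Kp (j + 1) = kk K Kp j + stp K j := rfl
    have h1 : stp K j ≤ 8 * K ^ 278 := by
      unfold stp
      split_ifs
      · omega
      · have : K ^ 275 ≤ K ^ 278 := Nat.pow_le_pow_right hK (by norm_num)
        omega
    rw [e]
    calc kk K Kp j + stp K j ≤ Kp + K ^ 260 + j * (8 * K ^ 278) + 8 * K ^ 278 := by omega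
      _ = _ := by ring

/-- order upper bound for the added part -/
theorem bs_large {Kp : ℕ} {A : ℂ} (hKp : Kp ≤ K) (hA : ‖A‖ ≤ K) {r : ℝ}
    (hr : (K : ℝ) ^ 261 ≤ r) {J : ℕ} (hJ : J ≤ K ^ 246 + 1) :
    ∑ j ∈ range J, bs K Kp A j r ≤ 1 / K * exp (r ^ 4) := by
  have h0 := x_pos hx
  have h1 := x_one hx
  have hK := K_pos hx
  have hKe := hKexp (K := K)
  have hC := CR_le hx
  have hC0 : 0 < CR K := by unfold CR; positivity
  have hr1 : 1 ≤ r := le_trans (one_le_pow₀ h1) hr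
  have hr0 : 0 ≤ r := by linarith
  have hkk : ∀ j ∈ range J, kk K Kp j + K ^ 160 ≤ 12 * K ^ 524 := by
    intro j hj
    have hj' := mem_range.mp hj
    have a1 := kk_le hx Kp j
    have a2 : j * (8 * K ^ 278) ≤ K ^ 246 * (8 * K ^ 278) := Nat.mul_le_mul_right _ (by omega)
    have a3 : K ^ 246 * (8 * K ^ 278) = 8 * K ^ 524 := by ring
    have a4 : K ^ 260 ≤ K ^ 524 := Nat.pow_le_pow_right hK (by norm_num)
    have a5 : K ^ 160 ≤ K ^ 524 := Nat.pow_le_pow_right hK (by norm_num)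
    have a6 : K ≤ K ^ 524 := by
      calc K = K ^ 1 := (pow_one K).symm
        _ ≤ K ^ 524 := Nat.pow_le_pow_right hK (by norm_num)
    omega
  have hb : ∀ j ∈ range J, bs K Kp A j r ≤ exp K * (exp K * exp ((K : ℝ) ^ 32) * exp (r * (12 * (K : ℝ) ^ 524))) := by
    intro j hj
    have a1 : exp (-ajR K j) * r ≤ r := by
      apply mul_le_of_le_one_left hr0
      rw [exp_le_one_iff]
      linarith [ajR_ge hx j, a0R_pos hx]
    have a2 := bs_le hx Kp A j hr0 hr1 a1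
    have a3 := Rn_upper hx (Kp := Kp) (A := A) hr1 j
    have a4 : r ^ kk K Kp j * r ^ K ^ 160 ≤ exp (r * (12 * (K : ℝ) ^ 524)) := by
      rw [← pow_add]
      calc r ^ (kk K Kp j + K ^ 160) ≤ r ^ (12 * K ^ 524) := pow_le_pow_right₀ hr1 (hkk j hj)
        _ ≤ (exp r) ^ (12 * K ^ 524) := by
          gcongr
          have := add_one_le_exp r
          linarith
        _ = exp (r * (12 * (K : ℝ) ^ 524)) := by
          rw [← exp_nat_mul]
          congr 1
          push_cast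
          ring
    calc bs K Kp A j r ≤ CR K * Rn K Kp A j r * r ^ K ^ 160 := a2
      _ ≤ CR K * (‖A‖ * exp ((K : ℝ) ^ 32) * r ^ kk K Kp j) * r ^ K ^ 160 := by gcongr
      _ = CR K * (‖A‖ * exp ((K : ℝ) ^ 32) * (r ^ kk K Kp j * r ^ K ^ 160)) := by ring
      _ ≤ _ := by
        gcongr
        exact hA.trans hKe
  have hJ' : (J : ℝ) ≤ exp (300 * K) := by
    have a1 : (J : ℝ) ≤ (K : ℝ) ^ 246 + 1 := by exact_mod_cast hJ
    have c1 := pow_comp hx (b := 2) (by norm_num) (show 246 < 300 by norm_num)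
    have c2 : 1 ≤ (K : ℝ) ^ 246 := one_le_pow₀ h1
    calc (J : ℝ) ≤ (K : ℝ) ^ 300 := by linarith
      _ ≤ (exp K) ^ 300 := by gcongr
      _ = exp (300 * K) := by rw [← exp_nat_mul]; norm_num
  have hfin : 303 * (K : ℝ) + (K : ℝ) ^ 32 + r * (12 * (K : ℝ) ^ 524) ≤ r ^ 4 := by
    have a1 : (K : ℝ) ^ 783 ≤ r ^ 3 := by
      calc (K : ℝ) ^ 783 = ((K : ℝ) ^ 261) ^ 3 := by rw [← pow_mul]
        _ ≤ r ^ 3 := by gcongr
    have c1 := pow_comp hx (b := 100) (by norm_num) (show 524 < 783 by norm_num)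
    have c2 := pow_comp hx (b := 1000) (by norm_num) (show 1 < 783 by norm_num)
    have c3 := pow_comp hx (b := 100) (by norm_num) (show 32 < 783 by norm_num)
    simp only [pow_one] at c2
    have a2 : r * (K : ℝ) ^ 783 ≤ r * r ^ 3 := by gcongr
    have a3 : r * r ^ 3 = r ^ 4 := by ring
    have a4 : 1 * (K : ℝ) ^ 783 ≤ r * (K : ℝ) ^ 783 := by gcongr
    have a5 : r * (100 * (K : ℝ) ^ 524) ≤ r * (K : ℝ) ^ 783 := by gcongr
    linarith
  calc ∑ j ∈ range J, bs K Kp A j r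
      ≤ ∑ j ∈ range J, exp K * (exp K * exp ((K : ℝ) ^ 32) * exp (r * (12 * (K : ℝ) ^ 524))) := sum_le_sum hb
    _ = J * (exp K * (exp K * exp ((K : ℝ) ^ 32) * exp (r * (12 * (K : ℝ) ^ 524)))) := by
        rw [sum_const, card_range, nsmul_eq_mul]
    _ ≤ exp (300 * K) * (exp K * (exp K * exp ((K : ℝ) ^ 32) * exp (r * (12 * (K : ℝ) ^ 524)))) := by gcongr
    _ = exp (-(K : ℝ)) * exp (303 * (K : ℝ) + (K : ℝ) ^ 32 + r * (12 * (K : ℝ) ^ 524)) := by
        rw [← exp_add, ← exp_add, ← exp_add, ← exp_add, ← exp_add]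
        congr 1
        ring
    _ ≤ 1 / K * exp (r ^ 4) := by
        gcongr
        rw [exp_neg, ← one_div]
        apply one_div_le_one_div_of_le h0 hKe

/-- lower bound at the end of the burst -/
theorem Rn_lower {Kp : ℕ} {A : ℂ} {J : ℕ} (hJ : J ≤ K ^ 246) :
    ‖A‖ * exp (2 * (K : ℝ) ^ 278 * J) ≤ Rn K Kp A J (exp (a0R K + 1)) := by
  have h0 := x_pos hx
  have h1 := x_one hx
  induction J with
  | zero =>
    rw [Rn_zero]
    have a1 : 1 ≤ exp (a0R K + 1) ^ Kp := one_le_pow₀ (one_le_exp (by linarith [a0R_pos hx]))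
    have a2 : exp (-a0R K) * exp (a0R K + 1) = exp 1 := by
      rw [← exp_add]
      congr 1
      ring
    have a3 : 1 ≤ exp ((K : ℝ) ^ 30 + GR K - mR K * Real.log (1 + ((K : ℝ) ^ 20) ^ 2)) := by
      apply one_le_exp
      have b1 := m_log_s1 hx
      have b2 := G_ge31 hx
      have c1 := pow_comp hx (b := 246) (by norm_num) (show 29 < 30 by norm_num)
      have : 0 < (K : ℝ) ^ 31 := by positivity
      linarith
    have a4 : 1 ≤ (exp 1) ^ K ^ 260 := one_le_pow₀ (one_le_exp (by norm_num))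
    rw [a2]
    simp only [Nat.cast_zero, mul_zero, exp_zero, mul_one]
    have a5 : (1 : ℝ) ≤ exp (a0R K + 1) ^ Kp * (exp ((K : ℝ) ^ 30 + GR K - mR K * Real.log (1 + ((K : ℝ) ^ 20) ^ 2))
      * (exp 1) ^ K ^ 260) :=
      one_le_mul_of_one_le_of_one_le a1 (one_le_mul_of_one_le_of_one_le a3 a4)
    calc ‖A‖ = ‖A‖ * 1 := (mul_one _).symm
      _ ≤ ‖A‖ * (exp (a0R K + 1) ^ Kp * (exp ((K : ℝ) ^ 30 + GR K - mR K * Real.log (1 + ((K : ℝ) ^ 20) ^ 2))
      * (exp 1) ^ K ^ 260)) := by gcongr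
      _ = _ := by ring
  | succ J ih =>
    have ih' := ih (by omega)
    rw [Rn_succ]
    have hβ := beta_pos hx
    have hJr : (J : ℝ) ≤ (K : ℝ) ^ 246 := by
      have : J ≤ K ^ 246 := by omega
      exact_mod_cast this
    have a1 : (J : ℝ) * (betaR K * DR K) ≤ 1 / 2 := by
      have hD := DR_le hx
      have hD0 := DR_pos hx
      have c0 : 1 ≤ (K : ℝ) ^ 3 := one_le_pow₀ h1
      calc (J : ℝ) * (betaR K * DR K) ≤ (K : ℝ) ^ 246 * (betaR K * (7 * (K : ℝ) ^ 3)) := by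
            gcongr
            linarith
        _ = 7 / K := by
          unfold betaR
          field_simp
        _ ≤ 1 / 2 := by
          rw [div_le_div_iff₀ h0 (by norm_num)]
          have := x_ge hx 14 (by norm_num)
          linarith
    have a2 : exp (-ajR K J) * exp (a0R K + 1) = exp (1 - J * (betaR K * DR K)) := by
      rw [← exp_add]
      congr 1
      unfold ajR
      ring
    have a3 : exp (2 * (K : ℝ) ^ 278) ≤ exp (-GR K - mR K + mR K * Real.log 2) * (exp (-ajR K J) * exp (a0R K + 1)) ^ stp K J := by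
      rw [a2, ← exp_nat_mul, ← exp_add]
      apply exp_le_exp.mpr
      have b1 := G_le31 hx
      have b2 := mR_pos hx
      have b3 : 0 ≤ Real.log 2 := Real.log_nonneg (by norm_num)
      have b4 : 0 ≤ mR K * Real.log 2 := by positivity
      have b5 : 6 * (K : ℝ) ^ 278 ≤ (stp K J : ℝ) := by
        unfold stp
        split_ifs
        · push_cast
          exact le_rfl
        · push_cast
          have : 0 < (K : ℝ) ^ 275 := by positivity
          linarith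
      have b6 : 6 * (K : ℝ) ^ 278 * (1 / 2) ≤ (stp K J : ℝ) * (1 - J * (betaR K * DR K)) := by
        apply mul_le_mul b5 (by linarith) (by norm_num)
        have : 0 < (K : ℝ) ^ 278 := by positivity
        linarith
      have c1 := pow_comp hx (b := 100) (by norm_num) (show 31 < 278 by norm_num)
      have c2 := pow_comp hx (b := 100) (by norm_num) (show 28 < 278 by norm_num)
      have c3 : mR K = 6 * (K : ℝ) ^ 28 := rfl
      have c4 : 0 < (K : ℝ) ^ 278 := by positivity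
      linarith
    have a4 : exp (2 * (K : ℝ) ^ 278 * ((J + 1 : ℕ) : ℝ)) = exp (2 * (K : ℝ) ^ 278 * J) * exp (2 * (K : ℝ) ^ 278) := by
      rw [← exp_add]
      congr 1
      push_cast
      ring
    rw [a4]
    have a5 := Rn_nonneg K Kp A J (exp_pos (a0R K + 1)).le
    calc ‖A‖ * (exp (2 * (K : ℝ) ^ 278 * J) * exp (2 * (K : ℝ) ^ 278))
        = (‖A‖ * exp (2 * (K : ℝ) ^ 278 * J)) * exp (2 * (K : ℝ) ^ 278) := by ring
      _ ≤ _ := by gcongr

end

end Pool.Agent.Lib.MP_a05d5a_an
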