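import Mathlib
import Pool.Agent.Lib.MP_a05d5a_an.Growth

namespace Pool.Agent.Lib.MP_a05d5a_an

open Real Finset Polynomial

/-- monomials of the blocks -/
noncomputable def tm (K Kp : ℕ) (A : ℂ) (j i : ℕ) : ℂ[X] := monomial (ex K Kp j i) (cf K A j i)

/-- sum of the first `j` blocks added to `F` -/
noncomputable def TTp (K Kp : ℕ) (A : ℂ) (F : ℂ[X]) (j : ℕ) : ℂ[X] :=
  F + ∑ l ∈ range j, ∑ i ∈ range (K ^ 31 + 1), tm K Kp A l i

/-- partial sums -/
noncomputable def PPp (K Kp : ℕ) (A : ℂ) (F : ℂ[X]) (j r : ℕ) : ℂ[X] :=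
  TTp K Kp A F j + ∑ i ∈ range (r + 1), tm K Kp A j i

theorem TTp_succ (K Kp : ℕ) (A : ℂ) (F : ℂ[X]) (j : ℕ) :
    TTp K Kp A F (j + 1) = PPp K Kp A F j (K ^ 31) := by
  unfold PPp TTp
  rw [sum_range_succ, add_assoc]

theorem PPp_zero (K Kp : ℕ) (A : ℂ) (F : ℂ[X]) (j : ℕ) :
    PPp K Kp A F j 0 = TTp K Kp A F j + tm K Kp A j 0 := by
  unfold PPp
  simp

theorem PPp_succ (K Kp : ℕ) (A : ℂ) (F : ℂ[X]) (j r : ℕ) :
    PPp K Kp A F j (r + 1) = PPp K Kp A F j r + tm K Kp A j (r + 1) := by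
  unfold PPp
  rw [sum_range_succ _ (r + 1), add_assoc]

theorem tm_eval (K Kp : ℕ) (A w : ℂ) (j i : ℕ) : (tm K Kp A j i).eval (Complex.exp w)
    = RJ K Kp A w j * ((bb (K ^ 31) (K ^ 160) (QK K (alJ K j)) i : ℂ)
      * Complex.exp (XR (K ^ 31) (K ^ 160) i * (w - ajR K j))) := by
  unfold tm ex cf RJ
  rw [eval_monomial, pow_add, ← Complex.exp_nat_mul, ← Complex.exp_nat_mul]
  have : Complex.exp (XR (K ^ 31) (K ^ 160) i * (w - ajR K j))
      = Complex.exp ((Xn (K ^ 31) (K ^ 160) i : ℂ) * w) * Complex.exp ((-(XR (K ^ 31) (K ^ 160) i * ajR K j) : ℝ) : ℂ) := by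
    rw [← Complex.exp_add]
    congr 1
    unfold XR
    push_cast
    ring
  rw [this]
  push_cast
  ring

theorem tm_sum_eval (K Kp : ℕ) (A w : ℂ) (j r : ℕ) :
    (∑ i ∈ range (r + 1), tm K Kp A j i).eval (Complex.exp w) = RJ K Kp A w j * SJ K r w j := by
  rw [eval_finsetSum]
  simp_rw [tm_eval]
  rw [← mul_sum]
  rfl

theorem TTp_eval (K Kp : ℕ) (A w : ℂ) (F : ℂ[X]) (j : ℕ) :
    (TTp K Kp A F j).eval (Complex.exp w) = F.eval (Complex.exp w) + ∑ l ∈ range j, BJ K Kp A w l := by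
  unfold TTp
  rw [eval_add, eval_finsetSum]
  congr 1
  apply sum_congr rfl
  intro l _
  rw [tm_sum_eval]
  rfl

theorem PPp_eval (K Kp : ℕ) (A w : ℂ) (F : ℂ[X]) (j r : ℕ) :
    (PPp K Kp A F j r).eval (Complex.exp w)
      = F.eval (Complex.exp w) + ∑ l ∈ range j, BJ K Kp A w l + RJ K Kp A w j * SJ K r w j := by
  unfold PPp
  rw [eval_add, TTp_eval, tm_sum_eval]

theorem tm_AB (K Kp : ℕ) (A : ℂ) (j i : ℕ) {r : ℝ} (hr : 0 ≤ r) :
    AB (tm K Kp A j i) r (‖cf K A j i‖ * r ^ ex K Kp j i) := AB.monomial hr _ _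

theorem blocks_AB (K Kp : ℕ) (A : ℂ) (J : ℕ) {r : ℝ} (hr : 0 ≤ r) :
    AB (∑ l ∈ range J, ∑ i ∈ range (K ^ 31 + 1), tm K Kp A l i) r (∑ l ∈ range J, bs K Kp A l r) :=
  AB.sum hr (fun l _ => AB.sum hr (fun i _ => tm_AB K Kp A l i hr))

theorem part_AB (K Kp : ℕ) (A : ℂ) (j : ℕ) {r : ℝ} (hr : 0 ≤ r) {q : ℕ} (hq : q ≤ K ^ 31) :
    AB (∑ l ∈ range j, ∑ i ∈ range (K ^ 31 + 1), tm K Kp A l i + ∑ i ∈ range (q + 1), tm K Kp A j i) r
      (∑ l ∈ range (j + 1), bs K Kp A l r) := by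
  rw [sum_range_succ (fun l => bs K Kp A l r)]
  refine (blocks_AB K Kp A j hr).add hr ?_
  refine (AB.sum hr (fun i _ => tm_AB K Kp A j i hr)).mono ?_
  unfold bs
  apply sum_le_sum_of_subset_of_nonneg
  · intro i hi
    have := mem_range.mp hi
    exact mem_range.mpr (by omega)
  · intro i _ _
    positivity

/-- argument bound on the half strip -/
theorem arg_bound {z : ℂ} (hz : z ∈ Strip) {X : ℝ} (hX : 0 < X) (h : 9 / 5 * X ≤ ‖z‖) :
    |(Complex.log z).im| ≤ 1 / X := by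
  obtain ⟨h1, h2⟩ := hz
  rw [Complex.log_im]
  have hz0 : 0 < ‖z‖ := lt_of_lt_of_le (by positivity) h
  have hlt : |Complex.arg z| < π / 2 := Complex.abs_arg_lt_pi_div_two_iff.mpr (Or.inl (by linarith))
  have h3 := Real.mul_abs_le_abs_sin hlt.le
  rw [Complex.sin_arg, abs_div, abs_of_pos hz0] at h3
  have h4 : |z.im| / ‖z‖ ≤ 1 / (9 / 5 * X) := by
    apply div_le_div₀ (by norm_num) h2 (by positivity) h
  have hπ := Real.pi_lt_d2
  have hπ0 := Real.pi_pos
  have h5 : 2 / π * |Complex.arg z| ≤ 1 / (9 / 5 * X) := h3.trans h4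
  have h6 : |Complex.arg z| ≤ π / 2 * (1 / (9 / 5 * X)) := by
    calc |Complex.arg z| = π / 2 * (2 / π * |Complex.arg z|) := by field_simp
      _ ≤ _ := by gcongr
  refine h6.trans ?_
  have e : π / 2 * (1 / (9 / 5 * X)) = (π * (5 / 18)) * (1 / X) := by
    field_simp
    norm_num
  rw [e]
  apply mul_le_of_le_one_left (by positivity)
  nlinarith

section
variable {K : ℕ} (hx : (10 : ℝ) ^ 40 ≤ (K : ℝ))
include hx

theorem Xn_lt {i j : ℕ} (hij : i < j) (hj : j ≤ K ^ 31) :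
    Xn (K ^ 31) (K ^ 160) i < Xn (K ^ 31) (K ^ 160) j := by
  have H := blockHyp hx (alJ_nonneg K 0) (alJ_le K 0)
  have := H.nodes.lt i j hij hj
  unfold XR at this
  exact_mod_cast this

theorem stp_gt (j : ℕ) : K ^ 160 < stp K j := by
  have hK := K_pos hx
  have h1 : K ^ 160 ≤ K ^ 278 := Nat.pow_le_pow_right hK (by norm_num)
  have h2 : 0 < K ^ 278 := by positivity
  unfold stp
  split_ifs <;> omega

theorem kk_mono (Kp : ℕ) : Monotone (kk K Kp) :=
  monotone_nat_of_le_succ (fun j => by simp only [kk]; omega)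

theorem ex_lt (Kp j i : ℕ) : ex K Kp j i < kk K Kp (j + 1) := by
  have h1 := stp_gt hx j
  have h2 := Xn_le_N (K ^ 31) (K ^ 160) i
  simp only [kk, ex]
  omega

theorem degs (Kp : ℕ) (A : ℂ) {F : ℂ[X]} (hF : F.natDegree = Kp) (j : ℕ) :
    (TTp K Kp A F j).natDegree < kk K Kp j := by
  have hK := K_pos hx
  induction j with
  | zero =>
    have : 0 < K ^ 260 := by positivity
    simp [TTp, kk, hF]
    omega
  | succ j ih =>
    have h1 : (TTp K Kp A F (j + 1)) = TTp K Kp A F j + ∑ i ∈ range (K ^ 31 + 1), tm K Kp A j i := by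
      unfold TTp
      rw [sum_range_succ, add_assoc]
    rw [h1]
    refine lt_of_le_of_lt (natDegree_add_le _ _) (max_lt ?_ ?_)
    · exact ih.trans_le (kk_mono hx Kp (by omega))
    · have h2 : (∑ i ∈ range (K ^ 31 + 1), tm K Kp A j i).natDegree ≤ kk K Kp (j + 1) - 1 := by
        apply natDegree_sum_le_of_forall_le
        intro i _
        refine (natDegree_monomial_le _).trans ?_
        have := ex_lt hx Kp j i
        omega
      have h3 := ex_lt hx Kp j 0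
      omega

theorem degs' (Kp : ℕ) (A : ℂ) {F : ℂ[X]} (hF : F.natDegree = Kp) (j r : ℕ) (hr : r ≤ K ^ 31) :
    (PPp K Kp A F j r).natDegree ≤ ex K Kp j r := by
  have h0 := degs hx Kp A hF j
  induction r with
  | zero =>
    rw [PPp_zero]
    apply natDegree_add_monomial_le
    unfold ex
    omega
  | succ r ih =>
    rw [PPp_succ]
    apply natDegree_add_monomial_le
    refine (ih (by omega)).trans ?_
    have := Xn_lt hx (show r < r + 1 by omega) hr
    unfold ex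
    omega

/-- nonvanishing of all stages on the strip -/
theorem stage_ne {Kp : ℕ} {A : ℂ} {F : ℂ[X]} (hA : F.leadingCoeff = A) (hKp : F.natDegree = Kp)
    (hF0 : F ≠ 0) (hKpK : Kp ≤ K) (hAK : ‖A‖ ≤ K) {ρ c : ℝ} (hρK : ρ ≤ K)
    (hρ : ∀ z : ℂ, ρ ≤ ‖z‖ →
      ‖F.eval z - F.leadingCoeff * z ^ F.natDegree‖ ≤ ‖F.leadingCoeff * z ^ F.natDegree‖ / 100)
    (hc : ∀ z ∈ Strip, c ≤ ‖F.eval z‖) (hcK : 1 / (2 * K) < c)
    (j r : ℕ) (hr : r ≤ K ^ 31) {z : ℂ} (hz : z ∈ Strip) : (PPp K Kp A F j r).eval z ≠ 0 := by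
  have h0 := x_pos hx
  have hA0 : A ≠ 0 := by rw [← hA]; exact leadingCoeff_ne_zero.mpr hF0
  have hz0 : z ≠ 0 := by
    intro h
    rw [h] at hz
    have := hz.1
    simp at this
    linarith
  rcases le_total (9 / 5 * (K : ℝ) ^ 261) ‖z‖ with hcz | hcz
  · have him := arg_bound hz (X := (K : ℝ) ^ 261) (by positivity) hcz
    set w := Complex.log z with hw
    have hexp : Complex.exp w = z := Complex.exp_log hz0
    have hzρ : ρ ≤ ‖z‖ := by
      have c1 := pow_comp hx (b := 1) (by norm_num) (show 1 < 261 by norm_num)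
      simp only [pow_one] at c1
      linarith
    have hFc : ‖F.eval z - A * Complex.exp (Kp * w)‖ ≤ ‖A * Complex.exp (Kp * w)‖ / 100 := by
      have h1 := hρ z hzρ
      rw [hA, hKp] at h1
      have h2 : Complex.exp (Kp * w) = z ^ Kp := by rw [Complex.exp_nat_mul, hexp]
      rw [h2]
      exact h1
    have hwd : |w.im| ≤ dR K := him
    rw [← hexp, PPp_eval]
    rw [hexp]
    rcases Nat.lt_or_ge r (K ^ 31) with h | h
    · exact region2_part hx hA0 hwd hFc j h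
    · have hre : r = K ^ 31 := le_antisymm hr h
      have h1 := region2_full hx hA0 hwd hFc j
      rw [sum_range_succ, ← add_assoc] at h1
      rw [hre]
      exact h1
  · have h1 : (PPp K Kp A F j r) = F + (∑ l ∈ range j, ∑ i ∈ range (K ^ 31 + 1), tm K Kp A l i
        + ∑ i ∈ range (r + 1), tm K Kp A j i) := by
      unfold PPp TTp
      rw [add_assoc]
    have h2 := (part_AB K Kp A j (norm_nonneg z) hr).eval
    have h3 := bs_small hx Kp A (norm_nonneg z) hcz (j + 1)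
    have h4 := small_num hx hKpK hAK
    have h5 := hc z hz
    rw [h1, eval_add]
    intro h6
    have h7 : F.eval z = -(∑ l ∈ range j, ∑ i ∈ range (K ^ 31 + 1), tm K Kp A l i
        + ∑ i ∈ range (r + 1), tm K Kp A j i).eval z := by linear_combination h6
    rw [h7, norm_neg] at h5
    linarith

/-- all stages are good -/
theorem stage_good {Kp : ℕ} {A : ℂ} {F : ℂ[X]} (hA : F.leadingCoeff = A) (hKp : F.natDegree = Kp)
    (hF : Good F) (hF0 : F ≠ 0) (hKpK : Kp ≤ K) (hAK : ‖A‖ ≤ K) {ρ c : ℝ} (hρK : ρ ≤ K)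
    (hρ : ∀ z : ℂ, ρ ≤ ‖z‖ →
      ‖F.eval z - F.leadingCoeff * z ^ F.natDegree‖ ≤ ‖F.leadingCoeff * z ^ F.natDegree‖ / 100)
    (hc : ∀ z ∈ Strip, c ≤ ‖F.eval z‖) (hcK : 1 / (2 * K) < c) (j : ℕ) : Good (TTp K Kp A F j) := by
  induction j with
  | zero =>
    have : TTp K Kp A F 0 = F := by simp [TTp]
    rw [this]
    exact hF
  | succ j ih =>
    have hd := degs hx Kp A hKp j
    have key : ∀ r, r ≤ K ^ 31 → Good (PPp K Kp A F j r) := by
      intro r
      induction r with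
      | zero =>
        intro hr
        have hne := fun z (hz : z ∈ Strip) => stage_ne hx hA hKp hF0 hKpK hAK hρK hρ hc hcK j 0 hr hz
        rw [PPp_zero] at hne ⊢
        apply ih.add _ hne
        unfold ex
        omega
      | succ r ihr =>
        intro hr
        have hne := fun z (hz : z ∈ Strip) => stage_ne hx hA hKp hF0 hKpK hAK hρK hρ hc hcK j (r + 1) hr hz
        rw [PPp_succ] at hne ⊢
        apply (ihr (by omega)).add _ hne
        refine lt_of_le_of_lt (degs' hx Kp A hKp j r (by omega)) ?_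
        have := Xn_lt hx (show r < r + 1 by omega) hr
        unfold ex
        omega
    rw [TTp_succ]
    exact key _ le_rfl

theorem coeff_low (Kp : ℕ) (A : ℂ) (F : ℂ[X]) (J : ℕ) {i : ℕ} (hi : i ≤ Kp) :
    (TTp K Kp A F J).coeff i = F.coeff i := by
  have hK := K_pos hx
  unfold TTp
  rw [coeff_add, finsetSum_coeff]
  have : ∑ l ∈ range J, (∑ i ∈ range (K ^ 31 + 1), tm K Kp A l i).coeff i = 0 := by
    apply sum_eq_zero
    intro l _
    rw [finsetSum_coeff]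
    apply sum_eq_zero
    intro q _
    unfold tm
    rw [coeff_monomial, if_neg]
    have h1 : kk K Kp 0 ≤ kk K Kp l := kk_mono hx Kp (Nat.zero_le l)
    have h2 : 0 < K ^ 260 := by positivity
    have h3 : kk K Kp 0 = Kp + K ^ 260 := rfl
    unfold ex
    omega
  rw [this, add_zero]

theorem coeff_top {Kp : ℕ} (A : ℂ) {F : ℂ[X]} (hF : F.natDegree = Kp) (J : ℕ) :
    (TTp K Kp A F (J + 1)).coeff (kk K Kp J) = cf K A J 0 := by
  have hK := K_pos hx
  unfold TTp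
  rw [coeff_add, finsetSum_coeff]
  have h1 : F.coeff (kk K Kp J) = 0 := by
    apply coeff_eq_zero_of_natDegree_lt
    have h1 : kk K Kp 0 ≤ kk K Kp J := kk_mono hx Kp (Nat.zero_le J)
    have h2 : 0 < K ^ 260 := by positivity
    have h3 : kk K Kp 0 = Kp + K ^ 260 := rfl
    omega
  rw [h1, zero_add, sum_eq_single J, finsetSum_coeff, sum_eq_single 0]
  · unfold tm ex
    rw [coeff_monomial, if_pos]
    rw [Xn_zero]
    rfl
  · intro i hi hi0
    have := mem_range.mp hi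
    have h2 := Xn_lt hx (show 0 < i by omega) (show i ≤ K ^ 31 by omega)
    unfold tm ex
    rw [coeff_monomial, if_neg]
    omega
  · intro h
    exact absurd (mem_range.mpr (by omega)) h
  · intro l hl hlJ
    have := mem_range.mp hl
    rw [finsetSum_coeff]
    apply sum_eq_zero
    intro i _
    unfold tm
    rw [coeff_monomial, if_neg]
    have h2 := ex_lt hx Kp l i
    have h3 : kk K Kp (l + 1) ≤ kk K Kp J := kk_mono hx Kp (by omega)
    omega
  · intro h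
    exact absurd (mem_range.mpr (by omega)) h

theorem cf_zero_norm (A : ℂ) (J : ℕ) : 49 / 100 * ‖Cc K A J‖ ≤ ‖cf K A J 0‖ := by
  have H := blockHyp hx (alJ_nonneg K J) (alJ_le K J)
  have hn0 : 0 < K ^ 31 := by have := K_pos hx; positivity
  have hb := (H.sb_pos hn0).1
  unfold sb at hb
  have hb2 : 49 / 100 ≤ |bb (K ^ 31) (K ^ 160) (QK K (alJ K J)) 0| := by
    refine hb.trans ((le_abs_self _).trans ?_)
    rw [abs_mul, abs_pow, abs_neg, abs_one, one_pow, one_mul]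
  unfold cf
  have h0 : XR (K ^ 31) (K ^ 160) 0 = 0 := H.nodes.zero
  rw [h0, zero_mul, neg_zero, exp_zero, mul_one, norm_mul, Complex.norm_real, Real.norm_eq_abs, mul_comm]
  gcongr

theorem burst_low {Kp : ℕ} {A : ℂ} (hA : 1 ≤ K * ‖A‖) :
    exp ((exp (a0R K + 1)) ^ (2 + 1 / 500 : ℝ))
      ≤ ‖cf K A (K ^ 246) 0‖ * exp (a0R K + 1) ^ kk K Kp (K ^ 246) := by
  have h0 := x_pos hx
  have h1 := x_one hx
  set r := exp (a0R K + 1) with hr
  have hr0 : 0 < r := exp_pos _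
  have hr6 : r ≤ 6 * (K : ℝ) ^ 261 := by
    rw [hr, exp_add, exp_a0 hx]
    have := exp_one_lt_d9
    have h3 : exp 1 ≤ 3 := by linarith
    calc 2 * (K : ℝ) ^ 261 * exp 1 ≤ 2 * (K : ℝ) ^ 261 * 3 := by gcongr
      _ = _ := by ring
  have hr262 : r ≤ (K : ℝ) ^ 262 := by
    have c1 := pow_comp hx (b := 6) (by norm_num) (show 261 < 262 by norm_num)
    linarith
  have hpow : r ^ (2 + 1 / 500 : ℝ) ≤ (K : ℝ) ^ 524 := by
    rw [Real.rpow_add hr0, Real.rpow_two]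
    have e1 : r ^ 2 ≤ 36 * (K : ℝ) ^ 522 := by
      calc r ^ 2 ≤ (6 * (K : ℝ) ^ 261) ^ 2 := by gcongr
        _ = 36 * (K : ℝ) ^ 522 := by ring
    have e2 : r ^ (1 / 500 : ℝ) ≤ K := by
      calc r ^ (1 / 500 : ℝ) ≤ ((K : ℝ) ^ 262) ^ (1 / 500 : ℝ) := by gcongr
        _ = (K : ℝ) ^ ((262 : ℕ) * (1 / 500 : ℝ)) := by
          rw [Real.rpow_mul h0.le, Real.rpow_natCast]
        _ ≤ (K : ℝ) ^ (1 : ℝ) := by
          apply Real.rpow_le_rpow_of_exponent_le h1
          norm_num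
        _ = K := Real.rpow_one _
    have c1 := pow_comp hx (b := 36) (by norm_num) (show 523 < 524 by norm_num)
    calc r ^ 2 * r ^ (1 / 500 : ℝ) ≤ 36 * (K : ℝ) ^ 522 * K := by gcongr
      _ = 36 * (K : ℝ) ^ 523 := by ring
      _ ≤ _ := c1
  have hR := Rn_lower hx (Kp := Kp) (A := A) (J := K ^ 246) le_rfl
  have e3 : 2 * (K : ℝ) ^ 278 * ((K ^ 246 : ℕ) : ℝ) = 2 * (K : ℝ) ^ 524 := by
    push_cast
    ring
  rw [e3, ← hr] at hR
  have hcf := cf_zero_norm hx A (K ^ 246)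
  have h4 : 49 / 100 * Rn K Kp A (K ^ 246) r ≤ ‖cf K A (K ^ 246) 0‖ * r ^ kk K Kp (K ^ 246) := by
    unfold Rn
    calc 49 / 100 * (‖Cc K A (K ^ 246)‖ * r ^ kk K Kp (K ^ 246))
        = (49 / 100 * ‖Cc K A (K ^ 246)‖) * r ^ kk K Kp (K ^ 246) := by ring
      _ ≤ _ := by gcongr
  refine le_trans ?_ h4
  have h5 : exp (2 * (K : ℝ) ^ 524) = exp ((K : ℝ) ^ 524) * exp ((K : ℝ) ^ 524) := by
    rw [← exp_add]
    congr 1
    ring
  have h6 : 4 * (K : ℝ) ≤ exp ((K : ℝ) ^ 524) := by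
    have a1 := add_one_le_exp ((K : ℝ) ^ 524)
    have c1 := pow_comp hx (b := 4) (by norm_num) (show 1 < 524 by norm_num)
    simp only [pow_one] at c1
    linarith
  have hAn : 0 ≤ ‖A‖ := norm_nonneg A
  calc exp (r ^ (2 + 1 / 500 : ℝ)) ≤ exp ((K : ℝ) ^ 524) := exp_le_exp.mpr hpow
    _ ≤ 49 / 100 * (‖A‖ * exp (2 * (K : ℝ) ^ 524)) := by
      rw [h5]
      have p := exp_pos ((K : ℝ) ^ 524)
      have a1 : 4 * (K : ℝ) * ‖A‖ ≤ exp ((K : ℝ) ^ 524) * ‖A‖ := by gcongr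
      have a2 : 1 ≤ 49 / 100 * (‖A‖ * exp ((K : ℝ) ^ 524)) := by linarith
      calc exp ((K : ℝ) ^ 524) ≤ (49 / 100 * (‖A‖ * exp ((K : ℝ) ^ 524))) * exp ((K : ℝ) ^ 524) :=
            le_mul_of_one_le_left p.le a2
        _ = _ := by ring
    _ ≤ _ := by gcongr

end

theorem Good.ne_zero {F : ℂ[X]} (hF : Good F) : F ≠ 0 := by
  intro h
  have h1 := hF 0 1 (by simp [Strip])
  rw [h] at h1
  simp [psec] at h1

theorem Good.eval_ne {F : ℂ[X]} (hF : Good F) {z : ℂ} (hz : z ∈ Strip) : F.eval z ≠ 0 := by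
  have := hF F.natDegree z hz
  rwa [psec_of_le le_rfl] at this

/-- The extension lemma. -/
theorem extend (F : ℂ[X]) (hF : Good F) {ε : ℝ} (hε : 0 < ε) (T : ℝ) :
    ∃ F' : ℂ[X], Good F' ∧ F.natDegree < F'.natDegree ∧ (∀ i ≤ F.natDegree, F'.coeff i = F.coeff i) ∧
      (∀ r : ℝ, 0 ≤ r → AB (F' - F) r (ε * exp (r ^ 4))) ∧
      ∃ k ≤ F'.natDegree, ∃ r : ℝ, T ≤ r ∧ 1 ≤ r ∧ exp (r ^ (2 + 1 / 500 : ℝ)) ≤ ‖F'.coeff k‖ * r ^ k := by
  have hF0 := hF.ne_zero
  set A := F.leadingCoeff with hAdef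
  set Kp := F.natDegree with hKpdef
  have hA : 0 < ‖A‖ := norm_pos_iff.mpr (leadingCoeff_ne_zero.mpr hF0)
  obtain ⟨ρ, hρ1, hρ⟩ := lead_close F hF0
  obtain ⟨c, hc0, hc⟩ := lower_bound F hF0 (fun z hz => hF.eval_ne hz)
  obtain ⟨K, hK⟩ := exists_nat_ge (max ((10 : ℝ) ^ 40) (max (Kp : ℝ) (max ‖A‖ (max (1 / ‖A‖) (max (1 / c)
    (max (1 / ε) (max ρ T)))))))
  simp only [max_le_iff] at hK
  obtain ⟨hx, hKp, hAK, hAK2, hcK, hεK, hρK, hTK⟩ := hK
  have h0 := x_pos hx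
  have h1 := x_one hx
  have hKpK : Kp ≤ K := by exact_mod_cast hKp
  have hcK' : 1 / (2 * K) < c := by
    have : 1 ≤ K * c := by
      rw [div_le_iff₀ hc0] at hcK
      exact hcK
    rw [div_lt_iff₀ (by positivity)]
    linarith
  have hεK' : 1 / K ≤ ε := by
    rw [div_le_iff₀ hε] at hεK
    rw [div_le_iff₀ h0]
    linarith
  have hA1 : 1 ≤ K * ‖A‖ := by
    rw [div_le_iff₀ hA] at hAK2
    exact hAK2
  have hgood := stage_good hx rfl rfl hF hF0 hKpK hAK hρK hρ hc hcK' (K ^ 246 + 1)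
  have hcoeff := coeff_top hx A (F := F) rfl (K ^ 246)
  rw [← hKpdef] at hcoeff
  have hburst := burst_low hx (Kp := Kp) (A := A) hA1
  have hcfne : (TTp K Kp A F (K ^ 246 + 1)).coeff (kk K Kp (K ^ 246)) ≠ 0 := by
    rw [hcoeff]
    intro h
    rw [h, norm_zero, zero_mul] at hburst
    have := exp_pos ((exp (a0R K + 1)) ^ (2 + 1 / 500 : ℝ))
    linarith
  have hdeg : kk K Kp (K ^ 246) ≤ (TTp K Kp A F (K ^ 246 + 1)).natDegree := le_natDegree_of_ne_zero hcfne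
  refine ⟨TTp K Kp A F (K ^ 246 + 1), hgood, ?_, fun i hi => coeff_low hx Kp A F _ hi, ?_,
    kk K Kp (K ^ 246), hdeg, exp (a0R K + 1), ?_, ?_, ?_⟩
  · have h1 : kk K Kp 0 ≤ kk K Kp (K ^ 246) := kk_mono hx Kp (Nat.zero_le _)
    have h2 : 0 < K ^ 260 := by
      have := K_pos hx
      positivity
    have h3 : kk K Kp 0 = Kp + K ^ 260 := rfl
    omega
  · intro r hr
    have e : TTp K Kp A F (K ^ 246 + 1) - F = ∑ l ∈ range (K ^ 246 + 1), ∑ i ∈ range (K ^ 31 + 1), tm K Kp A l i := by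
      unfold TTp
      ring
    rw [e]
    refine (blocks_AB K Kp A _ hr).mono ?_
    rcases le_total r (9 / 5 * (K : ℝ) ^ 261) with h | h
    · have a1 := bs_small hx Kp A hr h (K ^ 246 + 1)
      have a2 := small_num hx hKpK hAK
      have a3 : 1 / (2 * (K : ℝ)) ≤ 1 / K := by
        apply one_div_le_one_div_of_le h0
        linarith
      have a4 : 1 ≤ exp (r ^ 4) := one_le_exp (by positivity)
      calc _ ≤ ε * 1 := by linarith
        _ ≤ ε * exp (r ^ 4) := by gcongr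
    · have a1 := bs_large hx (r := r) (A := A) hKpK hAK (by
        have : 0 < (K : ℝ) ^ 261 := by positivity
        linarith) (J := K ^ 246 + 1) le_rfl
      refine a1.trans ?_
      gcongr
  · rw [exp_add, exp_a0 hx]
    have c1 := pow_comp hx (b := 1) (by norm_num) (show 1 < 261 by norm_num)
    simp only [pow_one] at c1
    have := add_one_le_exp (1 : ℝ)
    have p : 0 < (K : ℝ) ^ 261 := by positivity
    nlinarith
  · exact one_le_exp (by linarith [a0R_pos hx])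
  · rw [hcoeff]
    exact hburst

end Pool.Agent.Lib.MP_a05d5a_an
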