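import Mathlib
import Pool.Agent.Lib.MP_a05d5a_an.Extend

namespace Pool.Agent.Lib.MP_a05d5a_an

open Real Finset Polynomial Filter Topology

theorem good_one : Good (1 : ℂ[X]) := by
  intro k z _
  have : psec (1 : ℂ[X]) k z = 1 := by
    rw [psec_of_le (by simp)]
    simp
  rw [this]
  exact one_ne_zero

/-- one step of the construction -/
noncomputable def nxt (s : ℕ) (F : {F : ℂ[X] // Good F}) : {F : ℂ[X] // Good F} :=
  ⟨(extend F.1 F.2 (ε := (1 / 2) ^ (s + 1)) (by positivity) (s : ℝ)).choose,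
    (extend F.1 F.2 (ε := (1 / 2) ^ (s + 1)) (by positivity) (s : ℝ)).choose_spec.1⟩

/-- the sequence of polynomials -/
noncomputable def Fs : ℕ → {F : ℂ[X] // Good F}
  | 0 => ⟨1, good_one⟩
  | s + 1 => nxt s (Fs s)

theorem Fs_spec (s : ℕ) : (Fs s).1.natDegree < (Fs (s + 1)).1.natDegree ∧
    (∀ i ≤ (Fs s).1.natDegree, (Fs (s + 1)).1.coeff i = (Fs s).1.coeff i) ∧
    (∀ r : ℝ, 0 ≤ r → AB ((Fs (s + 1)).1 - (Fs s).1) r ((1 / 2) ^ (s + 1) * Real.exp (r ^ 4))) ∧
    ∃ k ≤ (Fs (s + 1)).1.natDegree, ∃ r : ℝ, (s : ℝ) ≤ r ∧ 1 ≤ r ∧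
      Real.exp (r ^ (2 + 1 / 500 : ℝ)) ≤ ‖(Fs (s + 1)).1.coeff k‖ * r ^ k :=
  (extend (Fs s).1 (Fs s).2 (ε := (1 / 2) ^ (s + 1)) (by positivity) (s : ℝ)).choose_spec.2

theorem le_deg (s : ℕ) : s ≤ (Fs s).1.natDegree := by
  induction s with
  | zero => exact Nat.zero_le _
  | succ n ih => exact Nat.succ_le_of_lt (lt_of_le_of_lt ih (Fs_spec n).1)

theorem deg_mono {s t : ℕ} (h : s ≤ t) : (Fs s).1.natDegree ≤ (Fs t).1.natDegree := by
  induction t, h using Nat.le_induction with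
  | base => exact le_rfl
  | succ n _ ih => exact ih.trans (Fs_spec n).1.le

theorem coeff_stable {s t : ℕ} (h : s ≤ t) {i : ℕ} (hi : i ≤ (Fs s).1.natDegree) :
    (Fs t).1.coeff i = (Fs s).1.coeff i := by
  induction t, h using Nat.le_induction with
  | base => rfl
  | succ n hn ih => rw [(Fs_spec n).2.1 i (hi.trans (deg_mono hn)), ih]

/-- the limit coefficients -/
noncomputable def aa (k : ℕ) : ℂ := (Fs k).1.coeff k

theorem aa_eq {s i : ℕ} (hi : i ≤ (Fs s).1.natDegree) : aa i = (Fs s).1.coeff i := by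
  unfold aa
  rcases le_total i s with h | h
  · exact (coeff_stable h (le_deg i)).symm
  · exact coeff_stable h hi

theorem aa_zero : aa 0 = 1 := by
  have : (Fs 0).1 = 1 := rfl
  rw [aa, this]
  simp

theorem AB_Fs (s : ℕ) {r : ℝ} (hr : 0 ≤ r) :
    AB (Fs s).1 r (1 + (1 - (1 / 2) ^ s) * Real.exp (r ^ 4)) := by
  induction s with
  | zero =>
    have h0 : (Fs 0).1 = monomial 0 (1 : ℂ) := by
      have : (Fs 0).1 = 1 := rfl
      rw [this]
      simp
    rw [h0]
    refine (AB.monomial hr 0 1).mono ?_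
    simp
  | succ n ih =>
    have h1 := (Fs_spec n).2.2.1 r hr
    have h2 := ih.add hr h1
    rw [add_sub_cancel] at h2
    refine h2.mono (le_of_eq ?_)
    rw [pow_succ]
    ring

theorem aa_sum_le (N : ℕ) {r : ℝ} (hr : 0 ≤ r) :
    ∑ k ∈ range N, ‖aa k‖ * r ^ k ≤ 1 + Real.exp (r ^ 4) := by
  have h1 : ∑ k ∈ range N, ‖aa k‖ * r ^ k = ∑ k ∈ range N, ‖(Fs N).1.coeff k‖ * r ^ k := by
    apply sum_congr rfl
    intro k hk
    rw [aa_eq ((mem_range.mp hk).le.trans (le_deg N))]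
  rw [h1]
  refine (AB_Fs N hr N).trans ?_
  have h2 : (0 : ℝ) ≤ (1 / 2) ^ N := by positivity
  have h3 : (1 - (1 / 2 : ℝ) ^ N) * Real.exp (r ^ 4) ≤ 1 * Real.exp (r ^ 4) := by
    gcongr
    linarith
  linarith

theorem aa_summable {r : ℝ} (hr : 0 ≤ r) : Summable (fun k => ‖aa k‖ * r ^ k) :=
  summable_of_sum_range_le (fun k => by positivity) (fun N => aa_sum_le N hr)

/-- the entire function -/
noncomputable def ff (z : ℂ) : ℂ := ∑' k, aa k * z ^ k

theorem ff_summable (z : ℂ) : Summable (fun k => aa k * z ^ k) := by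
  apply Summable.of_norm
  simpa [norm_mul, norm_pow] using aa_summable (norm_nonneg z)

theorem ff_hasSum (z : ℂ) : HasSum (fun k => aa k * z ^ k) (ff z) := (ff_summable z).hasSum

theorem ff_norm_le (z : ℂ) : ‖ff z‖ ≤ 1 + Real.exp (‖z‖ ^ 4) := by
  have h1 : Summable (fun k => ‖aa k * z ^ k‖) := by
    simpa [norm_mul, norm_pow] using aa_summable (norm_nonneg z)
  refine (norm_tsum_le_tsum_norm h1).trans ?_
  have h2 : ∀ k, ‖aa k * z ^ k‖ = ‖aa k‖ * ‖z‖ ^ k := fun k => by rw [norm_mul, norm_pow]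
  simp_rw [h2]
  exact (aa_summable (norm_nonneg z)).tsum_le_of_sum_range_le (fun N => aa_sum_le N (norm_nonneg z))

theorem ff_differentiable : Differentiable ℂ ff := by
  intro z
  have h1 : DifferentiableOn ℂ ff (Metric.ball 0 (‖z‖ + 1)) := by
    apply Complex.differentiableOn_tsum_of_summable_norm (u := fun k => ‖aa k‖ * (‖z‖ + 1) ^ k)
    · exact aa_summable (by positivity)
    · intro i
      fun_prop
    · exact Metric.isOpen_ball
    · intro i w hw
      rw [norm_mul, norm_pow]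
      have : ‖w‖ < ‖z‖ + 1 := by simpa using hw
      gcongr
  apply h1.differentiableAt
  apply Metric.isOpen_ball.mem_nhds
  simp

theorem ff_powerSeries : HasFPowerSeriesAt ff (FormalMultilinearSeries.ofScalars ℂ aa) 0 := by
  rw [hasFPowerSeriesAt_iff]
  refine Eventually.of_forall (fun z => ?_)
  have := ff_hasSum z
  simpa [FormalMultilinearSeries.coeff_ofScalars, mul_comm] using this

theorem ff_taylor (k : ℕ) : iteratedDeriv k ff 0 / (k.factorial : ℂ) = aa k := by
  have h1 : AnalyticAt ℂ ff 0 := ff_powerSeries.analyticAt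
  have h2 := h1.hasFPowerSeriesAt
  have h3 := h2.eq_formalMultilinearSeries ff_powerSeries
  have h4 := congrArg (fun p => p.coeff k) h3
  simpa [FormalMultilinearSeries.coeff_ofScalars] using h4

theorem ff_section_ne (n : ℕ) {z : ℂ} (hz : z ∈ Strip) : ∑ k ∈ range (n + 1), aa k * z ^ k ≠ 0 := by
  have h1 : ∑ k ∈ range (n + 1), aa k * z ^ k = psec (Fs n).1 n z := by
    unfold psec
    apply sum_congr rfl
    intro k hk
    rw [aa_eq ((Nat.lt_succ_iff.mp (mem_range.mp hk)).trans (le_deg n))]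
  rw [h1]
  exact (Fs n).2 n z hz

theorem aa_big (T : ℝ) : ∃ k, 0 < k ∧ ∃ r : ℝ, T ≤ r ∧ 1 ≤ r ∧
    Real.exp (r ^ (2 + 1 / 500 : ℝ)) ≤ ‖aa k‖ * r ^ k := by
  obtain ⟨s, hs⟩ := exists_nat_ge T
  obtain ⟨k, hk, r, h1, h2, h3⟩ := (Fs_spec s).2.2.2
  rw [← aa_eq hk] at h3
  refine ⟨k, ?_, r, hs.trans h1, h2, h3⟩
  rcases Nat.eq_zero_or_pos k with h | h
  · exfalso
    rw [h, aa_zero] at h3
    simp only [norm_one, pow_zero, mul_one] at h3
    have h4 : (0 : ℝ) < r ^ (2 + 1 / 500 : ℝ) := by positivity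
    have h5 := Real.one_lt_exp_iff.mpr h4
    linarith
  · exact h

/-- maximum modulus -/
noncomputable def maxMod (f : ℂ → ℂ) (r : ℝ) : ℝ := sSup ((fun z => ‖f z‖) '' Metric.sphere (0 : ℂ) r)

theorem ff_le_maxMod {z : ℂ} {r : ℝ} (hz : ‖z‖ = r) : ‖ff z‖ ≤ maxMod ff r := by
  apply le_csSup
  · have : IsCompact ((fun z => ‖ff z‖) '' Metric.sphere (0 : ℂ) r) :=
      (isCompact_sphere 0 r).image (ff_differentiable.continuous.norm)
    exact this.bddAbove
  · exact ⟨z, by simpa using hz, rfl⟩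

theorem maxMod_le {r : ℝ} (hr : 0 ≤ r) : maxMod ff r ≤ 1 + Real.exp (r ^ 4) := by
  apply csSup_le
  · refine ⟨‖ff (r : ℂ)‖, (r : ℂ), ?_, rfl⟩
    simp [abs_of_nonneg hr]
  · rintro x ⟨z, hz, rfl⟩
    have : ‖z‖ = r := by simpa using hz
    rw [← this]
    exact ff_norm_le z

theorem le_maxMod (k : ℕ) {r : ℝ} (hr : 0 < r) : ‖aa k‖ * r ^ k ≤ maxMod ff r := by
  have h1 := Complex.norm_iteratedDeriv_le_of_forall_mem_sphere_norm_le (c := 0) (R := r) (C := maxMod ff r)
    k hr (ff_differentiable.diffContOnCl) (fun z hz => ff_le_maxMod (by simpa using hz))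
  rw [← ff_taylor k, norm_div, Complex.norm_natCast]
  have h2 : (0 : ℝ) < (k.factorial : ℝ) := by positivity
  have h3 : (0 : ℝ) < r ^ k := by positivity
  rw [le_div_iff₀ h3] at h1
  rw [div_mul_eq_mul_div, div_le_iff₀ h2]
  linarith

/-- order of growth -/
noncomputable def ord (f : ℂ → ℂ) : EReal :=
  limsup (fun r : ℝ => ((Real.log (Real.log (maxMod f r)) / Real.log r : ℝ) : EReal)) atTop

theorem ord_le : ord ff ≤ ((4 : ℝ) : EReal) := by
  have h4 : Tendsto (fun r : ℝ => (((4 + Real.log 2 / Real.log r) : ℝ) : EReal)) atTop (𝓝 ((4 : ℝ) : EReal)) := by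
    apply (continuous_coe_real_ereal.tendsto _).comp
    have : Tendsto (fun r : ℝ => 4 + Real.log 2 / Real.log r) atTop (𝓝 (4 + 0)) := by
      apply Tendsto.add tendsto_const_nhds
      exact Tendsto.div_atTop tendsto_const_nhds Real.tendsto_log_atTop
    simpa using this
  rw [← h4.limsup_eq]
  unfold ord
  apply limsup_le_limsup
  · obtain ⟨k, hk, r0, _, hr1, hr2⟩ := aa_big 1
    have hak : 0 < ‖aa k‖ := by
      by_contra hc
      have : ‖aa k‖ = 0 := le_antisymm (not_lt.mp hc) (norm_nonneg _)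
      rw [this, zero_mul] at hr2
      exact absurd hr2 (not_le.mpr (Real.exp_pos _))
    have htend : Tendsto (fun r : ℝ => ‖aa k‖ * r ^ k) atTop atTop :=
      (tendsto_pow_atTop hk.ne').const_mul_atTop hak
    filter_upwards [htend.eventually_ge_atTop (Real.exp 1), eventually_ge_atTop (2 : ℝ)] with r h1 h2
    have h3 := h1.trans (le_maxMod k (by linarith : 0 < r))
    have h5 : 1 ≤ Real.log (maxMod ff r) := by
      rw [Real.le_log_iff_exp_le (lt_of_lt_of_le (Real.exp_pos 1) h3)]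
      exact h3
    have hM := maxMod_le (by linarith : 0 ≤ r)
    have hr4 : 1 ≤ r ^ 4 := one_le_pow₀ (by linarith)
    have h6 : maxMod ff r ≤ Real.exp (2 * r ^ 4) := by
      refine hM.trans ?_
      have h7 : 2 * r ^ 4 = r ^ 4 + r ^ 4 := by ring
      rw [h7, Real.exp_add]
      have h8 : 2 ≤ Real.exp (r ^ 4) := by
        have := Real.add_one_le_exp (r ^ 4)
        linarith
      nlinarith
    have h7 : Real.log (maxMod ff r) ≤ 2 * r ^ 4 := by
      rw [Real.log_le_iff_le_exp (lt_of_lt_of_le (Real.exp_pos 1) h3)]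
      exact h6
    have h8 : Real.log (Real.log (maxMod ff r)) ≤ Real.log (2 * r ^ 4) :=
      Real.log_le_log (by linarith) h7
    have h9 : Real.log (2 * r ^ 4) = Real.log 2 + 4 * Real.log r := by
      rw [Real.log_mul (by norm_num) (by positivity), Real.log_pow]
      norm_num
    have hlr : 0 < Real.log r := Real.log_pos (by linarith)
    rw [EReal.coe_le_coe_iff, div_le_iff₀ hlr, add_mul, div_mul_cancel₀ _ hlr.ne']
    linarith
  · isBoundedDefault
  · isBoundedDefault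

theorem le_ord : ((2 + 1 / 500 : ℝ) : EReal) ≤ ord ff := by
  unfold ord
  apply le_limsup_of_frequently_le
  · rw [frequently_atTop]
    intro T
    obtain ⟨k, hk, r, h1, h2, h3⟩ := aa_big (max T 2)
    have hr2 : 2 ≤ r := (le_max_right _ _).trans h1
    refine ⟨r, (le_max_left _ _).trans h1, ?_⟩
    have h4 := h3.trans (le_maxMod k (by linarith : 0 < r))
    have hlr : 0 < Real.log r := Real.log_pos (by linarith)
    have hpos : (0 : ℝ) < r ^ (2 + 1 / 500 : ℝ) := by positivity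
    have h5 : r ^ (2 + 1 / 500 : ℝ) ≤ Real.log (maxMod ff r) := by
      rw [Real.le_log_iff_exp_le (lt_of_lt_of_le (Real.exp_pos _) h4)]
      exact h4
    have h6 : Real.log (r ^ (2 + 1 / 500 : ℝ)) ≤ Real.log (Real.log (maxMod ff r)) :=
      Real.log_le_log hpos h5
    rw [Real.log_rpow (by linarith)] at h6
    rw [EReal.coe_le_coe_iff, le_div_iff₀ hlr]
    exact h6
  · isBoundedDefault

end Pool.Agent.Lib.MP_a05d5a_an
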